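import Pool.Agent.VG3.Fbh

/-!
Project VG3, module FbR: the forms `b_m` over the local ring `R`.

`A0 → R` is the localization at `irr`.  `G ∉ irr` is a common denominator of the entries of `n`, `p`.
-/

open Matrix

namespace VG

universe u v

/-- `Om0` of a composition -/
theorem om0_comp {A0 R K V : Type u} [CommRing A0] [CommRing R] [Algebra A0 R] [Field K]
    [AddCommGroup V] [Module K V] (φ : R →+* K) (D : R →+ V) :
    Om0 (φ.comp (algebraMap A0 R)) (D.comp (algebraMap A0 R).toAddMonoidHom) ≤ Om0 φ D := by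
  unfold Om0 OmT
  apply Subring.closure_mono
  rintro x ((⟨q, hx⟩ | ⟨t, ht, hx⟩) | ⟨q, hx⟩)
  · exact Or.inl (Or.inl ⟨algebraMap A0 R q, hx⟩)
  · exact absurd ht (Set.notMem_empty t)
  · exact Or.inr ⟨algebraMap A0 R q, hx⟩

theorem exists_bR {k A0 R K V : Type u} [Field k] [CharZero k] [CommRing A0] [Algebra k A0]
    (𝒜 : ℤ → Submodule k A0) [GradedAlgebra 𝒜] (hC : Conn 𝒜) [CommRing R] [Algebra A0 R]
    [Field K] [CharZero K] [AddCommGroup V] [Module K V] (φ : R →+* K) (D : R →+ V)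
    (ε : V →ₗ[K] K) (leib : ∀ x z, D (x * z) = φ x • D z + φ z • D x)
    (heul : ∀ e x, x ∈ 𝒜 e → ε (D (algebraMap A0 R x)) = ((e : ℤ) : K) * φ (algebraMap A0 R x))
    {A X : Type v} [Fintype A] [Fintype X] [DecidableEq A] [DecidableEq X]
    (gA : A → ℤ) (gX : X → ℤ) (n : Matrix A A R) (p : Matrix X X R)
    (G : A0) (hG : IsUnit (algebraMap A0 R G)) (n' : Matrix A A A0) (p' : Matrix X X A0)
    (hnG : ∀ a b, algebraMap A0 R G * n a b = algebraMap A0 R (n' a b))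
    (hpG : ∀ x y, algebraMap A0 R G * p x y = algebraMap A0 R (p' x y))
    (hn : n' * n' = 0) (hp : p' * p' = 0) (hnd : ∀ a b, n' a b ≠ 0 → gA b = gA a + 1)
    (hpd : ∀ x y, p' x y ≠ 0 → gX y = gX x + 1) (hni : ∀ a b, n' a b ∈ irr 𝒜)
    (hpi : ∀ x y, p' x y ∈ irr 𝒜) (a0 : A) (x0 : X) (h0 : gX x0 = gA a0 + 1) (d : ℕ) :
    ∃ b : ℕ → Matrix A X (ExteriorAlgebra K V), b 0 = Matrix.single a0 x0 1 ∧
      (∀ m, bd φ n p (m + 1) (b m) = (-1 : ℤ) ^ (d + m + 1) • iM ε (b (m + 1))) ∧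
      (∀ m a x, b m a x ∈ Om0 φ D) ∧ (∀ m a x, b m a x ∈ Dgf K V m) ∧
      ∀ m, SP gA gX (m + 1) (b m) := by
  obtain ⟨g, hg⟩ : ∃ g : K, g = φ (algebraMap A0 R G) := ⟨_, rfl⟩
  have hgu : IsUnit g := by
    rw [hg]
    exact hG.map φ
  have hg0 : g ≠ 0 := hgu.ne_zero
  obtain ⟨b', h1, h2, h3, h4, h5⟩ := exists_bhat 𝒜 hC (φ.comp (algebraMap A0 R))
    (D.comp (algebraMap A0 R).toAddMonoidHom) ε
    (fun x z => by
      show D (algebraMap A0 R (x * z)) = φ (algebraMap A0 R x) • D (algebraMap A0 R z) +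
        φ (algebraMap A0 R z) • D (algebraMap A0 R x)
      rw [map_mul, leib])
    (fun e x hx => heul e x hx) gA gX n' p' hn hp hnd hpd hni hpi a0 x0 h0
  have hφn : ∀ a b, φ (n a b) = g⁻¹ * φ (algebraMap A0 R (n' a b)) := by
    intro a b
    rw [← hnG, map_mul, ← hg, inv_mul_cancel_left₀ hg0]
  have hφp : ∀ x y, φ (p x y) = g⁻¹ * φ (algebraMap A0 R (p' x y)) := by
    intro x y
    rw [← hpG, map_mul, ← hg, inv_mul_cancel_left₀ hg0]
  have hbd : ∀ (m : ℕ) (z : Matrix A X (ExteriorAlgebra K V)),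
      bd φ n p m z = g⁻¹ • bd (φ.comp (algebraMap A0 R)) n' p' m z := by
    intro m z
    ext a x
    show bd φ n p m z a x = g⁻¹ • bd (φ.comp (algebraMap A0 R)) n' p' m z a x
    have e1 : ∑ b, φ (n a b) • z b x = g⁻¹ • ∑ b, (φ.comp (algebraMap A0 R)) (n' a b) • z b x := by
      rw [Finset.smul_sum]
      exact Finset.sum_congr rfl fun b _ => by
        rw [hφn, smul_smul]
        rfl
    have e2 : ∑ y, φ (p y x) • z a y = g⁻¹ • ∑ y, (φ.comp (algebraMap A0 R)) (p' y x) • z a y := by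
      rw [Finset.smul_sum]
      exact Finset.sum_congr rfl fun y _ => by
        rw [hφp, smul_smul]
        rfl
    rw [bd_apply, bd_apply, e1, e2, smul_sub, smul_comm ((-1 : ℤ) ^ m) g⁻¹]
  obtain ⟨s, hs0, hs⟩ : ∃ s : ℕ → ℤ, s 0 = 1 ∧ ∀ m, s (m + 1) = (-1) ^ (d + m + 1) * s m :=
    ⟨fun m => Nat.rec 1 (fun m c => (-1) ^ (d + m + 1) * c) m, rfl, fun _ => rfl⟩
  have hr : ∀ m, ∃ r : R, φ r = ((s m : ℤ) : K) * g⁻¹ ^ m := by
    intro m
    obtain ⟨u, hu⟩ := hG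
    refine ⟨((s m : ℤ) : R) * (((u⁻¹ : Rˣ) : R)) ^ m, ?_⟩
    rw [map_mul, map_intCast, map_pow]
    congr 2
    rw [hg, ← hu]
    exact eq_inv_of_mul_eq_one_left (by rw [← map_mul, Units.inv_mul, map_one])
  refine ⟨fun m => (((s m : ℤ) : K) * g⁻¹ ^ m) • b' m, ?_, ?_, ?_, ?_, ?_⟩
  · show (((s 0 : ℤ) : K) * g⁻¹ ^ 0) • b' 0 = _
    rw [hs0, pow_zero, Int.cast_one, mul_one, one_smul, h1]
  · intro m
    show bd φ n p (m + 1) ((((s m : ℤ) : K) * g⁻¹ ^ m) • b' m) =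
      (-1 : ℤ) ^ (d + m + 1) • iM ε ((((s (m + 1) : ℤ) : K) * g⁻¹ ^ (m + 1)) • b' (m + 1))
    rw [hbd, bd_smul, h2, iM_smul, smul_smul, ← Int.cast_smul_eq_zsmul K, smul_smul, hs]
    congr 1
    push_cast
    have h6 : ((-1 : K) ^ (d + m + 1)) * (-1) ^ (d + m + 1) = 1 := by
      rw [← mul_pow]
      norm_num
    calc g⁻¹ * (((s m : ℤ) : K) * g⁻¹ ^ m) = 1 * ((s m : ℤ) : K) * g⁻¹ ^ (m + 1) := by ring
      _ = ((-1 : K) ^ (d + m + 1) * (-1) ^ (d + m + 1)) * ((s m : ℤ) : K) * g⁻¹ ^ (m + 1) := by rw [h6]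
      _ = _ := by ring
  · intro m a x
    obtain ⟨r, hr'⟩ := hr m
    show (((s m : ℤ) : K) * g⁻¹ ^ m) • b' m a x ∈ Om0 φ D
    rw [← hr']
    exact om_phi_smul φ D _ _ r (om0_comp φ D (h3 m a x))
  · intro m a x
    exact Submodule.smul_mem _ _ (h4 m a x)
  · intro m
    exact SP_smul (h5 m) _

end VG
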