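import Pool.Agent.VG3.Fbas
import Pool.Agent.VG.GBas

/-!
Project VG3, module Kmis: small lemmas for the assembly.
-/

open Matrix

namespace VG

universe u v

theorem exists_den {A0 R : Type u} [CommRing A0] [CommRing R] [Algebra A0 R] (M : Submonoid A0)
    [IsLocalization M R] (hinj : Function.Injective (algebraMap A0 R)) {A X : Type v}
    [Fintype A] [Fintype X] (n : Matrix A A R) (p : Matrix X X R) (hn : n * n = 0)
    (hp : p * p = 0) :
    ∃ (G : A0) (n' : Matrix A A A0) (p' : Matrix X X A0), G ∈ M ∧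
      (∀ a b, algebraMap A0 R G * n a b = algebraMap A0 R (n' a b)) ∧
      (∀ x y, algebraMap A0 R G * p x y = algebraMap A0 R (p' x y)) ∧
      n' * n' = 0 ∧ p' * p' = 0 := by
  obtain ⟨b, hb⟩ := IsLocalization.exist_integer_multiples_of_finite M
    (fun i : (A × A) ⊕ (X × X) => Sum.elim (fun q : A × A => n q.1 q.2)
      (fun q : X × X => p q.1 q.2) i)
  have h1 : ∀ a c, ∃ y : A0, algebraMap A0 R y = algebraMap A0 R (b : A0) * n a c := by
    intro a c
    obtain ⟨y, hy⟩ := hb (Sum.inl (a, c))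
    refine ⟨y, hy.trans ?_⟩
    exact Algebra.smul_def _ _
  have h2 : ∀ a c, ∃ y : A0, algebraMap A0 R y = algebraMap A0 R (b : A0) * p a c := by
    intro a c
    obtain ⟨y, hy⟩ := hb (Sum.inr (a, c))
    refine ⟨y, hy.trans ?_⟩
    exact Algebra.smul_def _ _
  choose n' hn' using h1
  choose p' hp' using h2
  refine ⟨b, n', p', b.2, fun a c => (hn' a c).symm, fun a c => (hp' a c).symm, ?_, ?_⟩
  · ext a c
    apply hinj
    rw [Matrix.mul_apply, map_sum, Matrix.zero_apply, map_zero]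
    have h3 : (n * n) a c = 0 := by rw [hn, Matrix.zero_apply]
    rw [Matrix.mul_apply] at h3
    calc ∑ i, algebraMap A0 R (n' a i * n' i c)
        = algebraMap A0 R (b : A0) * algebraMap A0 R (b : A0) * ∑ i, n a i * n i c := by
          rw [Finset.mul_sum]
          refine Finset.sum_congr rfl fun i _ => ?_
          rw [map_mul, hn', hn']
          ring
      _ = 0 := by rw [h3, mul_zero]
  · ext a c
    apply hinj
    rw [Matrix.mul_apply, map_sum, Matrix.zero_apply, map_zero]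
    have h3 : (p * p) a c = 0 := by rw [hp, Matrix.zero_apply]
    rw [Matrix.mul_apply] at h3
    calc ∑ i, algebraMap A0 R (p' a i * p' i c)
        = algebraMap A0 R (b : A0) * algebraMap A0 R (b : A0) * ∑ i, p a i * p i c := by
          rw [Finset.mul_sum]
          refine Finset.sum_congr rfl fun i _ => ?_
          rw [map_mul, hp', hp']
          ring
      _ = 0 := by rw [h3, mul_zero]

theorem exists_U {k A0 K V : Type u} [Field k] [CharZero k] [CommRing A0] [Algebra k A0]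
    (𝒜 : ℤ → Submodule k A0) [GradedAlgebra 𝒜] (hC : Conn 𝒜) [Field K]
    [AddCommGroup V] [Module K V] (φ : A0 →+* K) (D : A0 →+ V) (ε : V →ₗ[K] K)
    (heul : ∀ e x, x ∈ 𝒜 e → ε (D x) = ((e : ℤ) : K) * φ x) (x : A0) (hx : x ∈ irr 𝒜) :
    ∃ U : A0, ε (D U) = φ x := by
  obtain ⟨s, hs, -⟩ := gc_sum 𝒜 x
  refine ⟨∑ e ∈ s, algebraMap k A0 ((e : k)⁻¹) * gc 𝒜 e x, ?_⟩
  conv_rhs => rw [hs]
  rw [map_sum, map_sum, map_sum]
  refine Finset.sum_congr rfl fun e _ => ?_
  have hm : algebraMap k A0 ((e : k)⁻¹) * gc 𝒜 e x ∈ 𝒜 e := by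
    rw [← Algebra.smul_def]
    exact Submodule.smul_mem _ _ (gc_mem 𝒜 e x)
  rw [heul e _ hm]
  by_cases he : e = 0
  · subst he
    rw [(irr_iff 𝒜 hC x).1 hx, mul_zero, map_zero, mul_zero]
  · have hek : (e : k) ≠ 0 := Int.cast_ne_zero.2 he
    have h4 : ((e : ℤ) : K) = φ (algebraMap k A0 (e : k)) := by
      rw [map_intCast, map_intCast]
    rw [h4, ← map_mul, ← mul_assoc, ← map_mul, mul_inv_cancel₀ hek, map_one, one_mul]

theorem pow_span {R : Type u} [CommRing R] {d : ℕ} (u T : Fin d → R) (L : ℕ)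
    (hT : ∀ a, T a ^ L ∈ Ideal.span (Set.range u)) (B : ℕ) :
    ∃ M : ℕ, ∀ a, T a ^ M ∈ Ideal.span (Set.range fun b => u b ^ B) := by
  have h1 : Ideal.span (Set.range u) ≤ (Ideal.span (Set.range fun b => u b ^ B)).radical := by
    rw [Ideal.span_le]
    rintro y ⟨b, rfl⟩
    exact ⟨B, Ideal.subset_span ⟨b, rfl⟩⟩
  have h2 : ∀ a, ∃ m : ℕ, T a ^ m ∈ Ideal.span (Set.range fun b => u b ^ B) := by
    intro a
    obtain ⟨m, hm⟩ := h1 (hT a)
    exact ⟨L * m, by rw [pow_mul]; exact hm⟩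
  choose m hm using h2
  refine ⟨∑ a, m a, fun a => ?_⟩
  have h3 : m a ≤ ∑ a, m a := Finset.single_le_sum (fun _ _ => Nat.zero_le _) (Finset.mem_univ a)
  exact Ideal.pow_mem_of_pow_mem _ (hm a) h3

theorem cbp_mul {R : Type u} [CommRing R] {X : Type v} [Fintype X] [DecidableEq X] (gX : X → ℤ)
    (p : Matrix X X R) {m : ℕ} {y : R} (r : R) (h : CBp gX p m y) : CBp gX p m (r * y) := by
  obtain ⟨s, hs, h1⟩ := h
  refine ⟨r • s, fun x x' hx => hs x x' fun h0 => hx ?_, fun x x' hx => ?_⟩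
  · rw [Matrix.smul_apply, h0, smul_zero]
  · rw [Matrix.mul_smul, Matrix.smul_mul, ← smul_add, Matrix.smul_apply, h1 x x' hx]
    split_ifs
    · rfl
    · exact smul_zero _

theorem cbp_mono {R : Type u} [CommRing R] {X : Type v} [Fintype X] [DecidableEq X] (gX : X → ℤ)
    (p : Matrix X X R) {m m' : ℕ} (hm : m ≤ m') {y : R} (h : CBp gX p m y) : CBp gX p m' y := by
  obtain ⟨s, hs, h1⟩ := h
  exact ⟨s, hs, fun x x' hx => h1 x x' (le_trans (Int.ofNat_le.2 hm) hx)⟩

end VG
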