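import Pool.Agent.VG3.Tsop
import Pool.Agent.VG.Contra

/-!
Project VG3, module Tfin: the standard form is not in `Bsub` (from `final_contra`).

PLAN.  `bsub_sum`: `mu lam (finRange (h+1)) = ∑ a, ω a`, `ω a ∈ OmT φ D Y {b | b ≠ a}`.  Put
`g L := if L.length = h ∧ L.Nodup then (for the unique a ∉ L) c a • ω a else 0`, precisely
`g L = ∑ a, if (a ∉ L ∧ L.Nodup ∧ L.length = h) then s a • ω a else 0` with `s a = - (-1)^(h+1) * (-1)^a`
(if `L` is nodup of length `h` in `Fin (h+1)` exactly one `a` is missing), `g L = 0` otherwise; so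
`g L ∈ OmT φ D Y T` if all `t ∈ L` are in `T` (`{b | b ≠ a} ⊆ T` as `L` contains all `b ≠ a`).
`iE ε (g (finRange (h+1))) = 0` (length `h + 1`).
`cob g L = ∑ i : Fin L.length, (-1)^i * g (L.eraseIdx i)` (induction on `L`), and
`(finRange (h+1)).eraseIdx i` misses exactly `i`.  So `- cob g (finRange (h+1)) = (-1)^(h+1) * ∑ a, ω a`.
`final_contra` with `hd = le_refl (h+1)` (compare the end of `Pool.Agent.VG2.AsmG`).
-/

open MvPolynomial

namespace VG

universe u

private theorem cob_eq_sum {ι W : Type*} [AddCommGroup W] (u : List ι → W) (L : List ι) :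
    cob u L = ∑ i ∈ Finset.range L.length, (-1 : ℤ) ^ i • u (L.eraseIdx i) := by
  induction L generalizing u with
  | nil => simp
  | cons a L ih =>
    rw [cob_cons, ih (fun L' => u (a :: L')), List.length_cons, Finset.sum_range_succ', pow_zero,
      one_smul, List.eraseIdx_cons_zero, add_comm, sub_eq_add_neg, ← Finset.sum_neg_distrib]
    congr 1
    refine Finset.sum_congr rfl fun i _ => ?_
    rw [List.eraseIdx_cons_succ, pow_succ, mul_neg_one, neg_smul]

private theorem mem_erase {n : ℕ} (i : ℕ) (a : Fin n) :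
    a ∈ (List.finRange n).eraseIdx i ↔ a.val ≠ i := by
  rw [List.mem_eraseIdx_iff_getElem]
  constructor
  · rintro ⟨j, hj, hij, hjj⟩
    have h5 := congrArg Fin.val hjj
    have h6 : j = a.val := by simpa using h5
    omega
  · intro h
    exact ⟨a.val, by simp, h, by simp⟩

theorem bsub_contra {k : Type u} [Field k] [CharZero k] {h : ℕ} {F K : Type u}
    [Field F] [Algebra (MvPolynomial (Fin (h + 1)) k) F]
    [IsFractionRing (MvPolynomial (Fin (h + 1)) k) F]
    [Field K] [Algebra F K] [Algebra (MvPolynomial (Fin (h + 1)) k) K]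
    [IsScalarTower (MvPolynomial (Fin (h + 1)) k) F K] [FiniteDimensional F K]
    (dF : Fin (h + 1) → Derivation ℤ F F) (dK : Fin (h + 1) → Derivation ℤ K K)
    (hc : ∀ a x, dK a (algebraMap F K x) = algebraMap F K (dF a x))
    (hY : ∀ a (q : MvPolynomial (Fin (h + 1)) k),
      dF a (algebraMap _ F q) = algebraMap _ F (pderiv a q))
    {R : Type u} [CommRing R] (φ : R →+* K)
    (hφ : ∀ x, IsIntegral (MvPolynomial (Fin (h + 1)) k) (φ x))
    (D : R →+ (Fin (h + 1) → K)) (hD : ∀ x a, D x a = dK a (φ x))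
    (Y : Fin (h + 1) → R)
    (hYY : ∀ t, φ (Y t) = algebraMap (MvPolynomial (Fin (h + 1)) k) K (X t))
    (ε : (Fin (h + 1) → K) →ₗ[K] K) (β : Fin (h + 1) → k)
    (hε : ∀ t, ε (Pi.single t 1) =
      algebraMap (MvPolynomial (Fin (h + 1)) k) K (C (β t) * X t))
    (lam : Fin (h + 1) → (Fin (h + 1) → K)) (β' : Fin (h + 1) → k) (hβ' : ∀ t, β' t ≠ 0)
    (hlam : ∀ t, lam t = (algebraMap (MvPolynomial (Fin (h + 1)) k) K (C (β' t)) *
      (φ (Y t))⁻¹) • Pi.single t 1)
    (hB : mu lam (List.finRange (h + 1)) ∈ Bsub φ D Y) : False := by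
  classical
  obtain ⟨ω, hω, hsum⟩ := bsub_sum φ D Y hB
  obtain ⟨s, hs⟩ : ∃ s : Fin (h + 1) → ℤ, s = fun a => - ((-1) ^ (h + 1) * (-1) ^ a.val) :=
    ⟨_, rfl⟩
  obtain ⟨g, hg⟩ : ∃ g : List (Fin (h + 1)) → ExteriorAlgebra K (Fin (h + 1) → K),
      g = fun L => if L.length = h ∧ L.Nodup then ∑ a, (if a ∈ L then 0 else s a • ω a) else 0 :=
    ⟨_, rfl⟩
  have hY1 : (fun t => Y (Fin.castLE (le_refl (h + 1)) t)) = Y := by
    funext t
    simp
  refine final_contra (le_refl (h + 1)) dF dK hc hY φ hφ D hD Y hYY ε β hε lam β' hβ' hlam g ?_ ?_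
  · intro T L hL
    rw [hY1, hg]
    show (if L.length = h ∧ L.Nodup then ∑ a, (if a ∈ L then 0 else s a • ω a) else 0) ∈ _
    by_cases h1 : L.length = h ∧ L.Nodup
    · rw [if_pos h1]
      refine Subring.sum_mem _ fun a _ => ?_
      by_cases h2 : a ∈ L
      · rw [if_pos h2]
        exact Subring.zero_mem _
      · rw [if_neg h2]
        refine Subring.zsmul_mem _ (omT_mono φ D Y ?_ (hω a)) _
        intro b hb
        have hb' : b ≠ a := hb
        have h3 : b ∈ L := by
          by_contra hbL
          have h4 : (insert a (insert b L.toFinset)).card ≤ (Finset.univ : Finset (Fin (h + 1))).card :=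
            Finset.card_le_card (Finset.subset_univ _)
          rw [Finset.card_insert_of_notMem, Finset.card_insert_of_notMem,
            List.toFinset_card_of_nodup h1.2, h1.1, Finset.card_univ, Fintype.card_fin] at h4
          · omega
          · rw [List.mem_toFinset]
            exact hbL
          · rw [Finset.mem_insert, List.mem_toFinset]
            rintro (h5 | h5)
            · exact hb' h5.symm
            · exact h2 h5
        exact hL b h3
    · rw [if_neg h1]
      exact Subring.zero_mem _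
  · have h1 : g (List.finRange (h + 1)) = 0 := by
      rw [hg]
      show (if _ then _ else _) = _
      rw [if_neg]
      rintro ⟨h2, -⟩
      rw [List.length_finRange] at h2
      omega
    rw [h1, map_zero, zero_sub, cob_eq_sum, List.length_finRange, Finset.sum_range, hsum,
      Finset.mul_sum, ← Finset.sum_neg_distrib]
    refine Finset.sum_congr rfl fun i _ => ?_
    have h2 : g ((List.finRange (h + 1)).eraseIdx i.val) = s i • ω i := by
      rw [hg]
      show (if _ then _ else _) = _
      rw [if_pos, Finset.sum_eq_single i]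
      · rw [if_neg]
        rw [mem_erase]
        simp
      · intro b _ hb
        rw [if_pos]
        rw [mem_erase]
        exact fun h3 => hb (Fin.ext h3)
      · intro hi
        exact absurd (Finset.mem_univ i) hi
      · refine ⟨?_, (List.nodup_finRange _).eraseIdx _⟩
        have hi := i.isLt
        rw [List.length_eraseIdx_of_lt (by rw [List.length_finRange]; exact hi),
          List.length_finRange]
        rfl
    rw [h2, smul_smul, hs]
    show _ = -(((-1 : ℤ) ^ i.val * - ((-1) ^ (h + 1) * (-1) ^ i.val)) • ω i)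
    have h3 : ((-1 : ℤ) ^ i.val * - ((-1) ^ (h + 1) * (-1) ^ i.val)) = - (-1) ^ (h + 1) := by
      have h4 : ((-1 : ℤ) ^ i.val * (-1) ^ i.val) = 1 := by
        rw [← mul_pow]
        simp
      calc ((-1 : ℤ) ^ i.val * - ((-1) ^ (h + 1) * (-1) ^ i.val))
          = - ((-1) ^ (h + 1) * ((-1 : ℤ) ^ i.val * (-1) ^ i.val)) := by ring
        _ = _ := by rw [h4, mul_one]
    rw [h3, neg_smul, neg_neg, zsmul_eq_mul]
    push_cast
    rfl

end VG
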