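import Pool.Agent.VG3.Tsop
import Pool.Agent.VG.GBas

/-!
Project VG3, module Tloc: from the local ring `R` to the graded ring `A0`.
-/

open Matrix

namespace VG

universe u

private theorem mu_num {R K V : Type u} [CommRing R] [Field K] [AddCommGroup V] [Module K V]
    {d : ℕ} (φ : R →+* K) (D : R →+ V) (T : Fin d → R) (lam : Fin d → V)
    (hreg : ∀ t, (io (lam t) : ExteriorAlgebra K V) ∈ OmT φ D T {t})
    (hnum : ∀ t, φ (T t) • (io (lam t) : ExteriorAlgebra K V) ∈ Om0 φ D) (a : Fin d) :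
    ∀ L : List (Fin d), L.Nodup → (a ∉ L → mu lam L ∈ OmT φ D T {b | b ≠ a}) ∧
      (a ∈ L → φ (T a) • mu lam L ∈ OmT φ D T {b | b ≠ a}) := by
  intro L
  induction L with
  | nil =>
    intro _
    exact ⟨fun _ => (OmT φ D T {b | b ≠ a}).one_mem, fun h => absurd h List.not_mem_nil⟩
  | cons c L ih =>
    intro hnd
    obtain ⟨hc, hL⟩ := List.nodup_cons.1 hnd
    obtain ⟨ih1, ih2⟩ := ih hL
    have hmem : c ≠ a → (io (lam c) : ExteriorAlgebra K V) ∈ OmT φ D T {b | b ≠ a} := by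
      intro hca
      refine omT_mono φ D T ?_ (hreg c)
      intro b hb
      rw [Set.mem_singleton_iff] at hb
      rw [hb]
      exact hca
    constructor
    · intro ha
      rw [List.mem_cons, not_or] at ha
      exact (OmT φ D T {b | b ≠ a}).mul_mem (hmem (Ne.symm ha.1)) (ih1 ha.2)
    · intro ha
      have hmu : (mu lam (c :: L) : ExteriorAlgebra K V) = io (lam c) * mu lam L := rfl
      rw [hmu]
      by_cases hca : c = a
      · have haL : a ∉ L := by
          rw [← hca]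
          exact hc
        rw [hca, ← smul_mul_assoc]
        exact (OmT φ D T {b | b ≠ a}).mul_mem (om0_le φ D T _ (hnum a)) (ih1 haL)
      · have haL : a ∈ L := by
          rcases List.mem_cons.1 ha with h | h
          · exact absurd h.symm hca
          · exact h
        rw [← mul_smul_comm]
        exact (OmT φ D T {b | b ≠ a}).mul_mem (hmem hca) (ih2 haL)

private theorem loc_gen {k A0 R K : Type u} [Field k] [CommRing A0] [Nontrivial A0] [Algebra k A0]
    (𝒜 : ℤ → Submodule k A0) [GradedAlgebra 𝒜] (hC : Conn 𝒜) [CommRing R] [Algebra A0 R]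
    (hloc : ∀ r : R, ∃ s : A0, s ∉ irr 𝒜 ∧ ∃ a : A0, algebraMap A0 R s * r = algebraMap A0 R a)
    [Field K] {d : ℕ} (φ : R →+* K) (D : R →+ (Fin d → K))
    (leib : ∀ x z, D (x * z) = φ x • D z + φ z • D x) (T : Fin d → A0) (S : Set (Fin d))
    {z : ExteriorAlgebra K (Fin d → K)}
    (hz : z ∈ OmT φ D (fun t => algebraMap A0 R (T t)) S) :
    ∃ G : A0, G ∉ irr 𝒜 ∧ (φ.comp (algebraMap A0 R)) G • z ∈
      OmT (φ.comp (algebraMap A0 R)) (D.comp (algebraMap A0 R).toAddMonoidHom) T S := by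
  have hP : (irr 𝒜).IsPrime := (irr_isMaximal 𝒜 hC).isPrime
  have h1 : (1 : A0) ∉ irr 𝒜 := fun h => hP.ne_top ((Ideal.eq_top_iff_one _).2 h)
  have hmul : ∀ G G' : A0, G ∉ irr 𝒜 → G' ∉ irr 𝒜 → G * G' ∉ irr 𝒜 := fun G G' hG hG' h =>
    (hP.mem_or_mem h).elim hG hG'
  set ψ : A0 →+* K := φ.comp (algebraMap A0 R) with hψ
  set E : A0 →+ (Fin d → K) := D.comp (algebraMap A0 R).toAddMonoidHom with hE
  unfold OmT at hz
  induction hz using Subring.closure_induction with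
  | mem x hx =>
    rcases hx with (⟨q, rfl⟩ | ⟨t, ht, rfl⟩) | ⟨q, rfl⟩
    · obtain ⟨s, hs, a, ha⟩ := hloc q
      refine ⟨s, hs, ?_⟩
      have h2 : ψ s • algebraMap K (ExteriorAlgebra K (Fin d → K)) (φ q) =
          algebraMap K (ExteriorAlgebra K (Fin d → K)) (ψ a) := by
        rw [Algebra.smul_def, ← map_mul]
        congr 1
        have h3 : ψ s * φ q = φ (algebraMap A0 R s * q) := by
          rw [map_mul]
          rfl
        rw [h3, ha]
        rfl
      rw [h2]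
      exact om_phi ψ E T S a
    · refine ⟨1, h1, ?_⟩
      rw [map_one, one_smul]
      exact om_inv ψ E T ht
    · obtain ⟨s, hs, a, ha⟩ := hloc q
      refine ⟨s * s, hmul s s hs hs, ?_⟩
      have h2 : ψ s * φ q = ψ a := by
        have h3 : ψ s * φ q = φ (algebraMap A0 R s * q) := by
          rw [map_mul]
          rfl
        rw [h3, ha]
        rfl
      have h4 : ψ s • D q + φ q • E s = E a := by
        have h5 := leib (algebraMap A0 R s) q
        rw [ha] at h5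
        exact h5.symm
      have h6 : ψ (s * s) • D q = ψ s • E a - ψ a • E s := by
        rw [← h4, ← h2, map_mul, smul_add, smul_smul, smul_smul, add_sub_cancel_right]
      rw [← map_smul, h6, map_sub, map_smul, map_smul]
      exact (OmT ψ E T S).sub_mem (om_phi_smul ψ E T S s (om_D ψ E T S a))
        (om_phi_smul ψ E T S a (om_D ψ E T S s))
  | zero =>
    refine ⟨1, h1, ?_⟩
    rw [smul_zero]
    exact (OmT ψ E T S).zero_mem
  | one =>
    refine ⟨1, h1, ?_⟩
    rw [map_one, one_smul]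
    exact (OmT ψ E T S).one_mem
  | add x y _ _ hx hy =>
    obtain ⟨G, hG, hx⟩ := hx
    obtain ⟨G', hG', hy⟩ := hy
    refine ⟨G * G', hmul G G' hG hG', ?_⟩
    have h2 : ψ (G * G') • (x + y) = ψ G' • (ψ G • x) + ψ G • (ψ G' • y) := by
      rw [smul_smul, smul_smul, smul_add, map_mul, mul_comm (ψ G') (ψ G)]
    rw [h2]
    exact (OmT ψ E T S).add_mem (om_phi_smul ψ E T S G' hx) (om_phi_smul ψ E T S G hy)
  | neg x _ hx =>
    obtain ⟨G, hG, hx⟩ := hx
    refine ⟨G, hG, ?_⟩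
    rw [smul_neg]
    exact (OmT ψ E T S).neg_mem hx
  | mul x y _ _ hx hy =>
    obtain ⟨G, hG, hx⟩ := hx
    obtain ⟨G', hG', hy⟩ := hy
    refine ⟨G * G', hmul G G' hG hG', ?_⟩
    have h2 : ψ (G * G') • (x * y) = (ψ G • x) * (ψ G' • y) := by
      rw [smul_mul_smul_comm, map_mul]
    rw [h2]
    exact (OmT ψ E T S).mul_mem hx hy

private theorem inv_mod {k A0 : Type u} [Field k] [CommRing A0] [Nontrivial A0] [Algebra k A0]
    (𝒜 : ℤ → Submodule k A0) [GradedAlgebra 𝒜] (hC : Conn 𝒜) (J : Ideal A0) (M : ℕ)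
    (hT : irr 𝒜 ^ M ≤ J) (G : A0) (hG : G ∉ irr 𝒜) : ∃ G2 : A0, G * G2 - 1 ∈ J := by
  obtain ⟨y, i, hi, hyi⟩ := (irr_isMaximal 𝒜 hC).exists_inv hG
  have h1 : i ^ M ∈ J := hT (Ideal.pow_mem_pow hi M)
  obtain ⟨q, hq⟩ := sub_dvd_pow_sub_pow (1 : A0) i M
  refine ⟨y * q, ?_⟩
  have h2 : G * (y * q) - 1 = -(i ^ M) := by
    have h3 : (1 : A0) - i = y * G := by
      rw [← hyi, add_sub_cancel_right]
    rw [h3, one_pow] at hq
    have h4 : G * (y * q) = y * G * q := by ring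
    rw [h4, ← hq]
    ring
  rw [h2]
  exact J.neg_mem h1

theorem loc_bsub {k A0 R K : Type u} [Field k] [CommRing A0] [Nontrivial A0] [Algebra k A0]
    (𝒜 : ℤ → Submodule k A0) [GradedAlgebra 𝒜] (hC : Conn 𝒜) [CommRing R] [Algebra A0 R]
    (hloc : ∀ r : R, ∃ s : A0, s ∉ irr 𝒜 ∧ ∃ a : A0, algebraMap A0 R s * r = algebraMap A0 R a)
    [Field K] {d : ℕ} (φ : R →+* K) (D : R →+ (Fin d → K))
    (leib : ∀ x z, D (x * z) = φ x • D z + φ z • D x) (T : Fin d → A0) (M : ℕ)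
    (hT : irr 𝒜 ^ M ≤ Ideal.span (Set.range T)) (lamT : Fin d → (Fin d → K))
    (hreg : ∀ t, (io (lamT t) : ExteriorAlgebra K (Fin d → K)) ∈
      OmT (φ.comp (algebraMap A0 R)) (D.comp (algebraMap A0 R).toAddMonoidHom) T {t})
    (hnum : ∀ t, φ (algebraMap A0 R (T t)) • (io (lamT t) : ExteriorAlgebra K (Fin d → K)) ∈
      Om0 (φ.comp (algebraMap A0 R)) (D.comp (algebraMap A0 R).toAddMonoidHom))
    (h : mu lamT (List.finRange d) ∈ Bsub φ D fun t => algebraMap A0 R (T t)) :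
    mu lamT (List.finRange d) ∈
      Bsub (φ.comp (algebraMap A0 R)) (D.comp (algebraMap A0 R).toAddMonoidHom) T := by
  have hP : (irr 𝒜).IsPrime := (irr_isMaximal 𝒜 hC).isPrime
  have h1 : (1 : A0) ∉ irr 𝒜 := fun h' => hP.ne_top ((Ideal.eq_top_iff_one _).2 h')
  have hmul : ∀ G G' : A0, G ∉ irr 𝒜 → G' ∉ irr 𝒜 → G * G' ∉ irr 𝒜 := fun G G' hG hG' h' =>
    (hP.mem_or_mem h').elim hG hG'
  obtain ⟨ω, hω, hsum⟩ := bsub_sum φ D (fun t => algebraMap A0 R (T t)) h
  have hgen : ∀ a, ∃ G : A0, G ∉ irr 𝒜 ∧ (φ.comp (algebraMap A0 R)) G • ω a ∈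
      OmT (φ.comp (algebraMap A0 R)) (D.comp (algebraMap A0 R).toAddMonoidHom) T {t | t ≠ a} :=
    fun a => loc_gen 𝒜 hC hloc φ D leib T _ (hω a)
  have hnum' : ∀ a, (φ.comp (algebraMap A0 R)) (T a) • mu lamT (List.finRange d) ∈
      OmT (φ.comp (algebraMap A0 R)) (D.comp (algebraMap A0 R).toAddMonoidHom) T {b | b ≠ a} :=
    fun a => (mu_num (φ.comp (algebraMap A0 R)) (D.comp (algebraMap A0 R).toAddMonoidHom) T lamT
      hreg hnum a (List.finRange d) (List.nodup_finRange d)).2 (List.mem_finRange a)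
  set ψ : A0 →+* K := φ.comp (algebraMap A0 R) with hψ
  set E : A0 →+ (Fin d → K) := D.comp (algebraMap A0 R).toAddMonoidHom with hE
  choose G hG hGω using hgen
  have hGp : (∏ a, G a) ∉ irr 𝒜 :=
    Finset.prod_induction G (fun x => x ∉ irr 𝒜) hmul h1 fun a _ => hG a
  have hall : ∀ a, ψ (∏ a, G a) • ω a ∈ OmT ψ E T {t | t ≠ a} := by
    intro a
    rw [← Finset.mul_prod_erase Finset.univ G (Finset.mem_univ a), map_mul, mul_comm, mul_smul]
    exact om_phi_smul ψ E T _ _ (hGω a)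
  have hmu1 : ψ (∏ a, G a) • mu lamT (List.finRange d) ∈ Bsub ψ E T := by
    rw [hsum, Finset.smul_sum]
    exact AddSubgroup.sum_mem _ fun a _ => le_bsub ψ E T a (hall a)
  obtain ⟨G2, hG2⟩ := inv_mod 𝒜 hC _ M hT _ hGp
  obtain ⟨r, hr⟩ := Ideal.mem_span_range_iff_exists_fun.1 hG2
  have hdec : (mu lamT (List.finRange d) : ExteriorAlgebra K (Fin d → K)) = ψ G2 • (ψ (∏ a, G a) • mu lamT (List.finRange d)) -
      ∑ a, ψ (r a) • (ψ (T a) • mu lamT (List.finRange d)) := by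
    have h2 : ∑ a, ψ (r a) • (ψ (T a) • (mu lamT (List.finRange d) :
        ExteriorAlgebra K (Fin d → K))) =
        ψ ((∏ a, G a) * G2 - 1) • mu lamT (List.finRange d) := by
      rw [← hr, map_sum, Finset.sum_smul]
      refine Finset.sum_congr rfl fun a _ => ?_
      rw [map_mul, mul_smul]
    rw [h2, map_sub, map_one, sub_smul, one_smul, map_mul, mul_comm (ψ (∏ a, G a)) (ψ G2),
      mul_smul, sub_sub_cancel]
  rw [hdec]
  refine AddSubgroup.sub_mem _ (bsub_smul ψ E T G2 hmu1) (AddSubgroup.sum_mem _ fun a _ => ?_)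
  exact le_bsub ψ E T a (om_phi_smul ψ E T _ (r a) (hnum' a))

end VG
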