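import Pool.Agent.VG3.Fend
import Pool.Agent.VG3.FbR
import Pool.Agent.VG3.Tloc
import Pool.Agent.VG3.Tfin
import Pool.Agent.VG3.Kpar
import Pool.Agent.VG3.Kmis
import Pool.Agent.VG.Fld
import Pool.Agent.VG.Der
import Pool.Agent.VG.Eul

/-!
Project VG3, abstract form of Claim T: no entry of `τ` is a unit.  `R` is the localization of the
graded ring `A0` at the irrelevant ideal.
-/

open MvPolynomial Matrix

namespace VG

universe u v

private theorem bt_phi' {R K : Type u} [CommRing R] [Field K] {ι : Type v} (φ : R →+* K)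
    (y : ι → R) (T : Set ι) (q : R) : φ q ∈ BT φ y T :=
  Subring.subset_closure (Or.inl ⟨q, rfl⟩)

private theorem bt_inv' {R K : Type u} [CommRing R] [Field K] {ι : Type v} (φ : R →+* K)
    (y : ι → R) {T : Set ι} {t : ι} (ht : t ∈ T) : (φ (y t))⁻¹ ∈ BT φ y T :=
  Subring.subset_closure (Or.inr ⟨t, ht, rfl⟩)

theorem claimA {k : Type u} [Field k] [CharZero k] {A0 : Type u} [CommRing A0] [Nontrivial A0]
    [IsNoetherianRing A0] [Algebra k A0] (𝒜 : ℤ → Submodule k A0) [GradedAlgebra 𝒜]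
    (hC : Conn 𝒜) {R : Type u} [CommRing R] [IsLocalRing R] [Algebra A0 R] (Mc : Submonoid A0)
    [IsLocalization Mc R] (hψinj : Function.Injective (algebraMap A0 R))
    (hmax : ∀ z, algebraMap A0 R z ∈ IsLocalRing.maximalIdeal R ↔ z ∈ irr 𝒜)
    {ιN ιP : Type v} [Fintype ιN] [Fintype ιP] [DecidableEq ιN] [DecidableEq ιP]
    (gA : ιN → ℤ) (gX : ιP → ℤ) (hgA : ∀ a, 0 ≤ gA a) (σ : ιN → ℤ)
    (hσ1 : ∀ a, σ a = 1 ∨ σ a = -1) (nn : Matrix ιN ιN R) (pp : Matrix ιP ιP R)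
    (hn : nn * nn = 0) (hp : pp * pp = 0) (hnd : ∀ a b, nn a b ≠ 0 → gA b = gA a + 1)
    (hpd : ∀ x y, pp x y ≠ 0 → gX y = gX x + 1) (hσ : ∀ a b, nn a b ≠ 0 → σ b = -σ a)
    (hnm : ∀ a b, nn a b ∈ IsLocalRing.maximalIdeal R)
    (hpm : ∀ x y, pp x y ∈ IsLocalRing.maximalIdeal R) {d' : ℕ}
    (hd : (irr 𝒜).height = ((d' + 1 : ℕ) : ℕ∞)) (u : Fin (d' + 1) → R)
    (hum : ∀ t, u t ∈ IsLocalRing.maximalIdeal R) (B : ℕ)
    (hsop : IsLocalRing.maximalIdeal R ^ B ≤ Ideal.span (Set.range u))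
    (hmin : ∀ t, ∀ q ∈ minimalPrimes R, u t ∉ q)
    (hcb : ∀ t, t ≠ 0 → CBp gX pp t.val (u t)) (hcb1 : CBp gX pp (d' + 1) 1)
    {n : ℕ} (w : Fin n → ℤ) (xs : Fin n → A0) (hX : ∀ i, xs i ∈ 𝒜 (w i))
    (J κ : Fin n → Matrix ιP ιN R) (τ ρ : Matrix ιP ιN R) {L : ℕ} (e : Fin n → Fin L → R)
    (he : ∀ (K V : Type u) [Field K] [AddCommGroup V] [Module K V] (φ : R →+* K) (DD : R →+ V),
      (∀ x z, DD (x * z) = φ x • DD z + φ z • DD x) →
      (∀ c : k, DD (algebraMap A0 R (algebraMap k A0 c)) = 0) →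
      ∀ l, ∑ i, φ (e i l) • DD (algebraMap A0 R (xs i)) = 0)
    (Bl : Fin L → Matrix ιP ιN R)
    (hR2 : ∀ i, u 0 • J i = pp * κ i + κ i * nn + ∑ l, e i l • Bl l)
    (hR3 : u 0 • τ = ∑ i, (((w i : ℤ) : R) * algebraMap A0 R (xs i)) • κ i + (pp * ρ - ρ * nn))
    (x0 : ιP) (a0 : ιN) (h0 : gX x0 = gA a0 + 1) : ¬ IsUnit (τ x0 a0) := by
  classical
  intro hτ
  set ψ : A0 →+* R := algebraMap A0 R with hψ
  have hMirr : ∀ y ∈ Mc, y ∉ irr 𝒜 := by
    intro y hy hy'
    have h1 := (hmax y).mpr hy'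
    have h2 : IsUnit (ψ y) := IsLocalization.map_units R (⟨y, hy⟩ : Mc)
    exact (IsLocalRing.mem_maximalIdeal _).mp h1 h2
  obtain ⟨q, T, b, M, hq, hqh, hT, hTs, hinj, hfin⟩ :=
    exists_par3 𝒜 hC (d' + 1) hd (Nat.succ_pos _)
  haveI hqp : q.IsPrime := hq.1.1
  obtain ⟨F, K, iF, iK, i1, i2, i3, i4, i5, i6, φ', hφ'inj, hφ'g, hφ'int⟩ := exists_field
    (aeval (fun a => Ideal.Quotient.mk q (T a)) :
        MvPolynomial (Fin (d' + 1)) k →ₐ[k] A0 ⧸ q).toRingHom hinj hfin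
  have hYK : Function.Injective (algebraMap (MvPolynomial (Fin (d' + 1)) k) K) := by
    intro p p' hpp
    rw [← hφ'g, ← hφ'g] at hpp
    exact hinj (hφ'inj hpp)
  haveI : CharZero K := charZero_of_injective_ringHom hYK
  obtain ⟨dF, dK, hcd, hYd⟩ := exists_der (k := k) (d := d' + 1) F K
  set φ1 : A0 →+* K := φ'.comp (Ideal.Quotient.mk q) with hφ1
  have hφ1q : ∀ x, φ1 x = 0 ↔ x ∈ q := by
    intro x
    rw [← Ideal.Quotient.eq_zero_iff_mem, hφ1, RingHom.comp_apply]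
    constructor
    · intro h
      apply hφ'inj
      rw [h, map_zero]
    · intro h
      rw [h, map_zero]
  have hqirr : q ≤ irr 𝒜 := hom_le_irr 𝒜 hC q hqh hqp.ne_top
  -- extension to the local ring
  have hunit : ∀ y : Mc, IsUnit (φ1 y) := by
    intro y
    rw [isUnit_iff_ne_zero]
    intro h
    exact hMirr y y.2 (hqirr ((hφ1q _).mp h))
  set φ : R →+* K := IsLocalization.lift hunit with hφ
  have hφψ : ∀ x, φ (ψ x) = φ1 x := fun x => IsLocalization.lift_eq hunit x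
  have hcomp : φ.comp ψ = φ1 := RingHom.ext hφψ
  have hφY : ∀ a, φ (ψ (T a)) = algebraMap (MvPolynomial (Fin (d' + 1)) k) K (X a) := by
    intro a
    rw [hφψ, ← hφ'g]
    simp [hφ1]
  have hφk : ∀ c : k, φ (ψ (algebraMap k _ c)) =
      algebraMap (MvPolynomial (Fin (d' + 1)) k) K (C c) := by
    intro c
    rw [hφψ, ← hφ'g]
    simp only [hφ1, RingHom.comp_apply, AlgHom.toRingHom_eq_coe, RingHom.coe_coe]
    congr 1
    rw [← MvPolynomial.algebraMap_eq, AlgHom.commutes]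
    rfl
  have hφint : ∀ x, IsIntegral (MvPolynomial (Fin (d' + 1)) k) (φ.comp ψ x) := by
    intro x
    rw [hcomp]
    exact hφ'int _
  have hdK : ∀ a (p : MvPolynomial (Fin (d' + 1)) k),
      dK a (algebraMap _ K p) = algebraMap _ K (pderiv a p) := by
    intro a p
    rw [IsScalarTower.algebraMap_apply (MvPolynomial (Fin (d' + 1)) k) F K, hcd, hYd,
      ← IsScalarTower.algebraMap_apply]
  have hker : ∀ x, φ.comp ψ x = 0 → ∀ e, φ.comp ψ (gc 𝒜 e x) = 0 := by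
    intro x hx e
    rw [hcomp] at hx ⊢
    rw [hφ1q] at hx ⊢
    exact (hom_iff 𝒜 q).mp hqh x hx e
  have heul := euler_K 𝒜 T b (fun a => (hT a).2) hYK (φ.comp ψ) hφk hφY hφint hker dK hdK
  -- the derivation and the contraction
  let DD : R →+ (Fin (d' + 1) → K) :=
    { toFun := fun x a => dK a (φ x)
      map_zero' := by funext a; simp
      map_add' := by intro x z; funext a; simp }
  let ε : (Fin (d' + 1) → K) →ₗ[K] K :=
    ∑ a, (((b a : ℤ) : K) * φ (ψ (T a))) • LinearMap.proj a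
  have hε : ∀ v : Fin (d' + 1) → K, ε v = ∑ a, ((b a : ℤ) : K) * φ (ψ (T a)) * v a := by
    intro v
    simp [ε, LinearMap.sum_apply]
  have hDapp : ∀ x a, DD x a = dK a (φ x) := fun x a => rfl
  have heulD : ∀ e x, x ∈ 𝒜 e → ε (DD (ψ x)) = ((e : ℤ) : K) * φ (ψ x) := by
    intro e x hx
    rw [hε]
    exact heul e x hx
  have hleib : ∀ x z, DD (x * z) = φ x • DD z + φ z • DD x := by
    intro x z
    funext a
    simp only [hDapp, map_mul, Derivation.leibniz, Pi.add_apply, Pi.smul_apply]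
  have hDc : ∀ c : k, DD (ψ (algebraMap k _ c)) = 0 := by
    intro c
    funext a
    rw [hDapp, hφk, hdK]
    simp
  -- the kernel of `φ` is a minimal prime
  have hφS : ∀ y ∈ Mc, φ (ψ y) ≠ 0 := by
    intro y hy
    rw [hφψ]
    exact (hunit ⟨y, hy⟩).ne_zero
  have hkmin : RingHom.ker φ ∈ minimalPrimes R := by
    refine ⟨⟨RingHom.ker_isPrime φ, bot_le⟩, ?_⟩
    rintro Q ⟨hQ, -⟩ hQle x hx
    obtain ⟨⟨a, s⟩, has⟩ := IsLocalization.surj Mc x
    have has' : x * ψ s = ψ a := has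
    have h1 : φ1 a = 0 := by
      rw [← hφψ, ← has', map_mul, (RingHom.mem_ker).mp hx, zero_mul]
    have h2 : q ≤ Q.comap ψ := by
      have h3 : Q.comap ψ ≤ q := by
        intro z hz
        rw [← hφ1q, ← hφψ]
        exact hQle hz
      exact hq.2 ⟨Ideal.IsPrime.comap ψ, bot_le⟩ h3
    have h3 : x * ψ s ∈ Q := by
      rw [has']
      exact h2 ((hφ1q a).mp h1)
    rcases hQ.mem_or_mem h3 with h4 | h4
    · exact h4
    · exact absurd (hQle h4) (hφS s s.2)
  -- the parameters, moved to `A0`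
  have hch : ∀ t, ∃ (s : Mc) (a : A0), u t * ψ s = ψ a := fun t => by
    obtain ⟨⟨a, s⟩, has⟩ := IsLocalization.surj Mc (u t)
    exact ⟨s, a, has⟩
  choose s a hsa using hch
  have hairr : ∀ t, a t ∈ irr 𝒜 := fun t => by
    rw [← hmax, ← hsa]
    exact Ideal.mul_mem_right _ _ (hum t)
  have hus : ∀ t, IsUnit (ψ (s t)) := fun t => IsLocalization.map_units R (s t)
  have hφu : ∀ t, φ (ψ (a t)) ≠ 0 := by
    intro t
    rw [← hsa, map_mul]
    refine mul_ne_zero ?_ (hφS _ (s t).2)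
    intro h
    exact hmin t _ hkmin (RingHom.mem_ker.mpr h)
  set u' : Fin (d' + 1) → R := fun t => ψ (a t) with hu'
  have hspan : Ideal.span (Set.range u) ≤ Ideal.span (Set.range u') := by
    rw [Ideal.span_le]
    rintro _ ⟨t, rfl⟩
    obtain ⟨r, hr⟩ := (hus t).exists_right_inv
    have h1 : u t = r * u' t := by
      show u t = r * ψ (a t)
      rw [← hsa, mul_comm (u t), ← mul_assoc, mul_comm r, hr, one_mul]
    show u t ∈ Ideal.span (Set.range u')
    rw [h1]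
    exact Ideal.mul_mem_left _ _ (Ideal.subset_span ⟨t, rfl⟩)
  have hcb' : ∀ t, t ≠ 0 → CBp gX pp t.val (u' t) := fun t ht => by
    show CBp gX pp t.val (ψ (a t))
    rw [← hsa, mul_comm]
    exact cbp_mul gX pp _ (hcb t ht)
  -- the logarithmic forms
  set φ0 : (A0) →+* K := φ.comp ψ with hφ0
  set D0 : (A0) →+ (Fin (d' + 1) → K) := DD.comp ψ.toAddMonoidHom with hD0
  have heul0 : ∀ e x, x ∈ 𝒜 e → ε (D0 x) = ((e : ℤ) : K) * φ0 x := heulD
  have hU' : ∀ t, ∃ U : A0, ε (D0 U) = φ0 (a t) := fun t =>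
    exists_U 𝒜 hC φ0 D0 ε heul0 (a t) (hairr t)
  choose U hU using hU'
  set lam : Fin (d' + 1) → (Fin (d' + 1) → K) := fun t => (φ (u' t))⁻¹ • DD (ψ (U t)) with hlamdef
  have hUψ : ∀ t, ε (DD (ψ (U t))) = φ (u' t) := hU
  have hlam : ∀ t, ε (lam t) = 1 := by
    intro t
    show ε ((φ (u' t))⁻¹ • DD (ψ (U t))) = 1
    rw [map_smul, hUψ, smul_eq_mul, inv_mul_cancel₀ (hφu t)]
  have hreg : ∀ t, (io (lam t) : ExteriorAlgebra K (Fin (d' + 1) → K)) ∈ OmT φ DD u' {t} := by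
    intro t
    have h1 : (io (lam t) : ExteriorAlgebra K (Fin (d' + 1) → K)) =
        (φ (u' t))⁻¹ • io (DD (ψ (U t))) := map_smul _ _ _
    rw [h1]
    exact om_smul φ DD u' {t} (bt_inv' φ u' (Set.mem_singleton t)) (om_D φ DD u' {t} (ψ (U t)))
  -- the forms `b`
  obtain ⟨G, n', p', hG, hnG, hpG, hn', hp'⟩ := exists_den Mc hψinj nn pp hn hp
  have hGu : IsUnit (ψ G) := IsLocalization.map_units R (⟨G, hG⟩ : Mc)
  have hnd' : ∀ a b, n' a b ≠ 0 → gA b = gA a + 1 := by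
    intro a b h
    apply hnd
    intro h1
    apply h
    apply hψinj
    have h2 := hnG a b
    rw [h1, mul_zero] at h2
    rw [map_zero]
    exact h2.symm
  have hpd' : ∀ x y, p' x y ≠ 0 → gX y = gX x + 1 := by
    intro x y h
    apply hpd
    intro h1
    apply h
    apply hψinj
    have h2 := hpG x y
    rw [h1, mul_zero] at h2
    rw [map_zero]
    exact h2.symm
  have hni : ∀ a b, n' a b ∈ irr 𝒜 := by
    intro a b
    rw [← hmax]
    have h2 : ψ G * nn a b = ψ (n' a b) := hnG a b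
    rw [← h2]
    exact Ideal.mul_mem_left _ _ (hnm a b)
  have hpi : ∀ x y, p' x y ∈ irr 𝒜 := by
    intro x y
    rw [← hmax]
    have h2 : ψ G * pp x y = ψ (p' x y) := hpG x y
    rw [← h2]
    exact Ideal.mul_mem_left _ _ (hpm x y)
  obtain ⟨bb, hb00, hbb, hbom, hbdg, hbsp⟩ := exists_bR 𝒜 hC φ DD ε hleib heulD gA gX nn pp
    G hGu n' p' hnG hpG hn' hp' hnd' hpd' hni hpi a0 x0 h0 (d' + 1)
  have hdeg : ∀ z ∈ Dgf K (Fin (d' + 1) → K) (d' + 1 + 1), z = 0 := fun z hz =>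
    dgf_top (Nat.lt_succ_self _) hz
  -- contraction homotopies with denominators in `L`
  have hcc : ∀ (m : ℕ) (L : List (Fin (d' + 1))), L.Nodup → (∀ t ∈ L, t ≠ 0) →
      L.length + m + 1 = d' + 1 →
      ∃ y : R, φ y ≠ 0 ∧ (φ y)⁻¹ ∈ BT φ u' {t | t ∈ L} ∧ CBp gX pp (m + 1) y := by
    intro m L hL hL0 hLm
    by_cases hex : ∃ t ∈ L, t.val ≤ m + 1
    · obtain ⟨t, ht, htm⟩ := hex
      exact ⟨u' t, hφu t, bt_inv' φ u' (show t ∈ {t | t ∈ L} from ht),
        cbp_mono gX pp htm (hcb' t (hL0 t ht))⟩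
    · push Not at hex
      have hm : d' + 1 ≤ m + 1 := by
        have h3 : L.toFinset ⊆ Finset.univ.filter (fun a : Fin (d' + 1) => m + 1 < a.val) := by
          intro a ha
          rw [Finset.mem_filter]
          exact ⟨Finset.mem_univ a, hex a (by simpa using ha)⟩
        have h4 := Finset.card_le_card h3
        rw [List.toFinset_card_of_nodup hL] at h4
        have h5 : (Finset.univ.filter (fun a : Fin (d' + 1) => m + 1 < a.val)).card ≤
            (d' + 1) - (m + 2) := by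
          have h6 : ((Finset.univ.filter (fun a : Fin (d' + 1) => m + 1 < a.val)).image
              (fun a : Fin (d' + 1) => a.val)) ⊆ Finset.Ico (m + 2) (d' + 1) := by
            intro x hx
            rw [Finset.mem_image] at hx
            obtain ⟨a, ha, rfl⟩ := hx
            rw [Finset.mem_filter] at ha
            rw [Finset.mem_Ico]
            exact ⟨ha.2, a.2⟩
          have h7 := Finset.card_le_card h6
          rw [Finset.card_image_of_injective _ Fin.val_injective, Nat.card_Ico] at h7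
          exact h7
        omega
      refine ⟨1, ?_, ?_, cbp_mono gX pp hm hcb1⟩
      · rw [map_one]
        exact one_ne_zero
      · rw [map_one, inv_one]
        exact Subring.one_mem _
  have hB1 : mu lam (List.finRange (d' + 1)) ∈ Bsub φ DD u' := by
    refine mu_mem_bsub φ DD ε nn pp hn hp gA gX hgA σ hσ u' hφu lam hlam hreg hdeg bb a0 x0 hb00
      (hσ1 a0) hbb hbom hbdg hbsp hcc (fun i => ψ (xs i)) w
      (fun i => heulD _ _ (hX i)) J (fun i => ψ (s 0) • κ i) τ (ψ (s 0) • ρ)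
      e (fun l => ψ (s 0) • Bl l) (he K (Fin (d' + 1) → K) φ DD hleib hDc) ?_ ?_ hτ
    · intro i
      show ψ (a 0) • J i = _
      rw [← hsa, mul_comm, mul_smul, hR2, smul_add, smul_add, Matrix.mul_smul, Matrix.smul_mul,
        Finset.smul_sum]
      congr 1
      refine Finset.sum_congr rfl fun l _ => ?_
      rw [smul_comm]
    · show ψ (a 0) • τ = _
      rw [← hsa, mul_comm, mul_smul, hR3, smul_add, smul_sub, Matrix.mul_smul, Matrix.smul_mul,
        Finset.smul_sum]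
      congr 1
      refine Finset.sum_congr rfl fun i _ => ?_
      rw [smul_comm]
  -- change of the parameters
  have hyK0 : ∀ a, φ (ψ (T a)) ≠ 0 := by
    intro a h0
    rw [hφY, ← map_zero (algebraMap (MvPolynomial (Fin (d' + 1)) k) K)] at h0
    exact X_ne_zero a (hYK h0)
  have hinvK : ∀ z : k, φ (ψ (algebraMap k _ z⁻¹)) = (φ (ψ (algebraMap k _ z)))⁻¹ := fun z =>
    map_inv₀ ((φ.comp ψ).comp (algebraMap k (A0))) z
  have hintK : ∀ m : ℤ, φ (ψ (algebraMap k _ ((m : ℤ) : k))) = ((m : ℤ) : K) := fun m =>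
    map_intCast ((φ.comp ψ).comp (algebraMap k (A0))) m
  have hbne : ∀ a, ((b a : ℤ) : k) ≠ 0 := fun a => by
    have := (hT a).1
    exact_mod_cast this.ne'
  set lamT : Fin (d' + 1) → (Fin (d' + 1) → K) := fun t =>
    (φ (ψ (algebraMap k _ ((b t : ℤ) : k)⁻¹)) * (φ (ψ (T t)))⁻¹) • DD (ψ (T t)) with hlamTdef
  have hlamT : ∀ t, ε (lamT t) = 1 := by
    intro t
    simp only [lamT, map_smul, smul_eq_mul]
    rw [heulD _ _ (hT t).2, hinvK, hintK]
    have h1 : ((b t : ℤ) : K) ≠ 0 := by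
      have := (hT t).1
      exact_mod_cast this.ne'
    have h2 := hyK0 t
    field_simp
  have hioT : ∀ t, (io (lamT t) : ExteriorAlgebra K (Fin (d' + 1) → K)) =
      (φ (ψ (algebraMap k _ ((b t : ℤ) : k)⁻¹)) * (φ (ψ (T t)))⁻¹) • io (DD (ψ (T t))) :=
    fun t => map_smul _ _ _
  have hregT : ∀ t, (io (lamT t) : ExteriorAlgebra K (Fin (d' + 1) → K)) ∈
      OmT φ DD (fun t => ψ (T t)) {t} := by
    intro t
    rw [hioT]
    exact om_smul φ DD (fun t => ψ (T t)) {t} (Subring.mul_mem _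
      (bt_phi' φ (fun t => ψ (T t)) {t} (ψ (algebraMap k _ ((b t : ℤ) : k)⁻¹)))
      (bt_inv' φ (fun t => ψ (T t)) (Set.mem_singleton t)))
      (om_D φ DD (fun t => ψ (T t)) {t} (ψ (T t)))
  have hregT0 : ∀ t, (io (lamT t) : ExteriorAlgebra K (Fin (d' + 1) → K)) ∈ OmT φ0 D0 T {t} := by
    intro t
    rw [hioT]
    exact om_smul φ0 D0 T {t} (Subring.mul_mem _
      (bt_phi' φ0 T {t} (algebraMap k _ ((b t : ℤ) : k)⁻¹))
      (bt_inv' φ0 T (Set.mem_singleton t))) (om_D φ0 D0 T {t} (T t))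
  have hnum : ∀ t, φ (ψ (T t)) • (io (lamT t) : ExteriorAlgebra K (Fin (d' + 1) → K)) ∈
      Om0 φ0 D0 := by
    intro t
    rw [hioT, smul_smul]
    have h1 : φ (ψ (T t)) * (φ (ψ (algebraMap k _ ((b t : ℤ) : k)⁻¹)) * (φ (ψ (T t)))⁻¹) =
        φ0 (algebraMap k _ ((b t : ℤ) : k)⁻¹) := by
      have h2 := hyK0 t
      show _ = φ (ψ _)
      field_simp
    rw [h1]
    exact om_phi_smul φ0 D0 Fin.elim0 ∅ _ (om_D φ0 D0 Fin.elim0 ∅ (T t))
  have hTpow : ∀ t, ψ (T t) ^ B ∈ Ideal.span (Set.range u') := by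
    intro t
    apply hspan
    apply hsop
    apply Ideal.pow_mem_pow
    rw [hmax]
    exact Ideal.subset_span ⟨b t, (hT t).1, (hT t).2⟩
  have hB2 : mu lamT (List.finRange (d' + 1)) ∈ Bsub φ DD (fun t => ψ (T t)) :=
    sop_change φ DD ε u' (fun t => ψ (U t)) hUψ hφu (fun t => ψ (T t)) hyK0
      (fun B' => pow_span u' (fun t => ψ (T t)) B hTpow B') hB1 lamT hlamT hregT
  have hlocR : ∀ r : R, ∃ s : A0, s ∉ irr 𝒜 ∧
      ∃ a : A0, ψ s * r = ψ a := by
    intro r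
    obtain ⟨⟨a, s⟩, has⟩ := IsLocalization.surj Mc r
    exact ⟨s, hMirr s s.2, a, by rw [mul_comm]; exact has⟩
  have hB3 : mu lamT (List.finRange (d' + 1)) ∈ Bsub φ0 D0 T :=
    loc_bsub 𝒜 hC hlocR φ DD hleib T M hTs lamT hregT0 hnum hB2
  have hDY : ∀ j, DD (ψ (T j)) = Pi.single j 1 := by
    intro j
    funext i
    rw [hDapp, hφY, hdK, pderiv_X]
    rcases eq_or_ne i j with rfl | hij
    · simp
    · simp [hij, Pi.single_apply, hij.symm]
  refine bsub_contra dF dK hcd hYd φ0 hφint D0 (fun x a => rfl) T hφY ε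
    (fun a => ((b a : ℤ) : k)) ?_ lamT (fun t => ((b t : ℤ) : k)⁻¹)
    (fun t => inv_ne_zero (hbne _)) ?_ hB3
  · intro t
    rw [hε, Finset.sum_eq_single t]
    · simp only [Pi.single_eq_same, mul_one, map_mul, hφY, ← hφk, hintK]
    · intro j _ hj
      simp [hj]
    · simp
  · intro t
    show (φ (ψ (algebraMap k _ ((b t : ℤ) : k)⁻¹)) * (φ (ψ (T t)))⁻¹) • DD (ψ (T t)) = _
    rw [hDY, hφk]
    rfl

end VG
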