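import Pool.Agent.VG3.Fbas

/-!
Project VG3, module Kder: the chain rule for `D` on the local ring.

`S` is a localization of `A` at `M`, `dd i` extend the derivations `d0 i` of `A`, `mk : S → R` a ring
homomorphism, `φ : R → K`, `D : R → V` a derivation over `φ`.
-/

namespace VG

universe u

theorem chain_rule {A S R K V : Type u} [CommRing A] [CommRing S] [Algebra A S] (M : Submonoid A)
    [IsLocalization M S] [CommRing R] (mk : S →+* R) [Field K] [AddCommGroup V] [Module K V]
    (φ : R →+* K) (D : R →+ V) (leib : ∀ x z, D (x * z) = φ x • D z + φ z • D x) {n : ℕ}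
    (x : Fin n → R) (d0 : Fin n → A → A) (dd : Fin n → S → S)
    (hdd : ∀ i a, dd i (algebraMap A S a) = algebraMap A S (d0 i a))
    (hmul : ∀ i a b, dd i (a * b) = a * dd i b + b * dd i a)
    (hA : ∀ a, D (mk (algebraMap A S a)) =
      ∑ i, φ (mk (algebraMap A S (d0 i a))) • D (x i)) (g : S) :
    D (mk g) = ∑ i, φ (mk (dd i g)) • D (x i) := by
  obtain ⟨⟨a, s⟩, h⟩ := IsLocalization.surj M g
  have h' : g * algebraMap A S (s : A) = algebraMap A S a := h
  have hE : ∀ y z : S, ∑ i, φ (mk (dd i (y * z))) • D (x i) =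
      φ (mk y) • ∑ i, φ (mk (dd i z)) • D (x i) + φ (mk z) • ∑ i, φ (mk (dd i y)) • D (x i) := by
    intro y z
    rw [Finset.smul_sum, Finset.smul_sum, ← Finset.sum_add_distrib]
    refine Finset.sum_congr rfl fun i _ => ?_
    rw [hmul, map_add, map_add, map_mul, map_mul, map_mul, map_mul, add_smul, mul_smul, mul_smul]
  have hE0 : ∀ c : A, ∑ i, φ (mk (dd i (algebraMap A S c))) • D (x i) =
      D (mk (algebraMap A S c)) := by
    intro c
    rw [hA]
    refine Finset.sum_congr rfl fun i _ => ?_
    rw [hdd]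
  have h1 : D (mk (algebraMap A S a)) = φ (mk g) • D (mk (algebraMap A S (s : A))) +
      φ (mk (algebraMap A S (s : A))) • D (mk g) := by
    rw [← h', map_mul, leib]
  have h2 : D (mk (algebraMap A S a)) = φ (mk g) • D (mk (algebraMap A S (s : A))) +
      φ (mk (algebraMap A S (s : A))) • ∑ i, φ (mk (dd i g)) • D (x i) := by
    rw [← hE0 a, ← h', hE, hE0]
  have hu : IsUnit (φ (mk (algebraMap A S (s : A)))) :=
    ((IsLocalization.map_units S s).map mk).map φ
  rw [h1] at h2
  exact (smul_right_injective V hu.ne_zero) (add_left_cancel h2)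

end VG
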