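import Pool.Agent.VG3.AsmA
import Pool.Agent.VG3.Kder
import Pool.Agent.VG.LocS

/-!
Project VG3, Claim T for the local ring of a quasi-homogeneous ideal: no entry of `τ` is a unit.
-/

open MvPolynomial Matrix

namespace VG

universe u v

variable {k : Type u} [Field k] [CharZero k] {n : ℕ}

/-- the chain rule on polynomials -/
private theorem ct_poly {R K V : Type u} [CommRing R] [Field K] [AddCommGroup V] [Module K V]
    (g : MvPolynomial (Fin n) k →+* R) (φ : R →+* K) (DD : R →+ V)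
    (hleib : ∀ x z, DD (x * z) = φ x • DD z + φ z • DD x) (hDc : ∀ c : k, DD (g (C c)) = 0)
    (p : MvPolynomial (Fin n) k) :
    DD (g p) = ∑ i, φ (g (pderiv i p)) • DD (g (X i)) := by
  classical
  induction p using MvPolynomial.induction_on with
  | C c =>
    rw [hDc]
    symm
    refine Finset.sum_eq_zero fun i _ => ?_
    rw [pderiv_C, map_zero, map_zero, zero_smul]
  | add p p' hp hp' =>
    rw [map_add, map_add, hp, hp', ← Finset.sum_add_distrib]
    refine Finset.sum_congr rfl fun i _ => ?_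
    rw [map_add, map_add, map_add, add_smul]
  | mul_X p j hp =>
    rw [map_mul, hleib, hp]
    have h1 : ∀ i, φ (g (pderiv i (p * X j))) • DD (g (X i)) =
        (if i = j then φ (g p) • DD (g (X i)) else 0) +
        φ (g (X j)) • (φ (g (pderiv i p)) • DD (g (X i))) := by
      intro i
      rw [Derivation.leibniz, pderiv_X]
      rcases eq_or_ne i j with rfl | hij
      · simp [add_smul, mul_smul]
      · simp [hij, mul_smul, hij.symm]
    rw [Finset.sum_congr rfl fun i _ => h1 i, Finset.sum_add_distrib, Finset.sum_ite_eq',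
      if_pos (Finset.mem_univ j), ← Finset.smul_sum]

theorem claimT (w : Fin n → ℤ) (hw : ∀ i, 0 < w i) (I m : Ideal (MvPolynomial (Fin n) k))
    [m.IsPrime] (hm : m = Ideal.span (Set.range X)) (hIm : I ≤ m) (hI : HomI w I) (S : Type u)
    [CommRing S] [IsLocalRing S] [Algebra (MvPolynomial (Fin n) k) S]
    [IsLocalization.AtPrime S m]
    [IsLocalRing (S ⧸ I.map (algebraMap (MvPolynomial (Fin n) k) S))]
    {ιN ιP : Type v} [Fintype ιN] [Fintype ιP] [DecidableEq ιN] [DecidableEq ιP]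
    (gA : ιN → ℤ) (gX : ιP → ℤ) (hgA : ∀ a, 0 ≤ gA a) (σ : ιN → ℤ)
    (hσ1 : ∀ a, σ a = 1 ∨ σ a = -1)
    (nn : Matrix ιN ιN (S ⧸ I.map (algebraMap (MvPolynomial (Fin n) k) S)))
    (pp : Matrix ιP ιP (S ⧸ I.map (algebraMap (MvPolynomial (Fin n) k) S)))
    (hn : nn * nn = 0) (hp : pp * pp = 0) (hnd : ∀ a b, nn a b ≠ 0 → gA b = gA a + 1)
    (hpd : ∀ x y, pp x y ≠ 0 → gX y = gX x + 1) (hσ : ∀ a b, nn a b ≠ 0 → σ b = -σ a)
    (hnm : ∀ a b, nn a b ∈ IsLocalRing.maximalIdeal _)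
    (hpm : ∀ x y, pp x y ∈ IsLocalRing.maximalIdeal _) {d' : ℕ}
    (hd : (irr (qgr w I)).height = ((d' + 1 : ℕ) : ℕ∞))
    (u : Fin (d' + 1) → S ⧸ I.map (algebraMap (MvPolynomial (Fin n) k) S))
    (hum : ∀ t, u t ∈ IsLocalRing.maximalIdeal _) (B : ℕ)
    (hsop : IsLocalRing.maximalIdeal _ ^ B ≤ Ideal.span (Set.range u))
    (hmin : ∀ t, ∀ q ∈ minimalPrimes (S ⧸ I.map (algebraMap (MvPolynomial (Fin n) k) S)), u t ∉ q)
    (hcb : ∀ t, t ≠ 0 → CBp gX pp t.val (u t)) (hcb1 : CBp gX pp (d' + 1) 1)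
    (D : Fin n → Derivation ℤ S S)
    (hD : ∀ i (f : MvPolynomial (Fin n) k), D i (algebraMap _ S f) = algebraMap _ S (pderiv i f))
    (J κ : Fin n → Matrix ιP ιN (S ⧸ I.map (algebraMap (MvPolynomial (Fin n) k) S)))
    (τ ρ : Matrix ιP ιN (S ⧸ I.map (algebraMap (MvPolynomial (Fin n) k) S))) {L : ℕ}
    (f : Fin L → S) (hf : ∀ l, f l ∈ I.map (algebraMap (MvPolynomial (Fin n) k) S))
    (Bl : Fin L → Matrix ιP ιN (S ⧸ I.map (algebraMap (MvPolynomial (Fin n) k) S)))
    (hR2 : ∀ i, u 0 • J i = pp * κ i + κ i * nn +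
      ∑ l, Ideal.Quotient.mk (I.map (algebraMap (MvPolynomial (Fin n) k) S)) (D i (f l)) • Bl l)
    (hR3 : u 0 • τ = ∑ i, Ideal.Quotient.mk (I.map (algebraMap (MvPolynomial (Fin n) k) S))
      (((w i : ℤ) : S) * algebraMap (MvPolynomial (Fin n) k) S (X i)) • κ i +
        (pp * ρ - ρ * nn))
    (x0 : ιP) (a0 : ιN) (h0 : gX x0 = gA a0 + 1) : ¬ IsUnit (τ x0 a0) := by
  letI iG : GradedAlgebra (qgr w I) := qGraded w I hI
  have hne : I ≠ ⊤ := fun htop => Ideal.IsPrime.ne_top ‹m.IsPrime› (top_le_iff.mp (htop ▸ hIm))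
  haveI : Nontrivial (MvPolynomial (Fin n) k ⧸ I) := Ideal.Quotient.nontrivial_iff.mpr hne
  have hX : ∀ i, Ideal.Quotient.mk I (X i) ∈ qgr w I (w i) := by
    intro i
    refine ⟨X i, ?_, rfl⟩
    exact (mem_weightedHomogeneousSubmodule k w (w i) (X i)).mpr (isWeightedHomogeneous_X k w i)
  refine claimA (qgr w I) (qgr_conn w I hw)
    (Algebra.algebraMapSubmonoid (MvPolynomial (Fin n) k ⧸ I) m.primeCompl)
    (loc_injS w I S hw hI m hm) (fun z => mem_maxS w I S hw m hm hIm z) gA gX hgA σ hσ1 nn pp hn hp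
    hnd hpd hσ hnm hpm hd u hum B hsop hmin hcb hcb1 w (fun i => Ideal.Quotient.mk I (X i)) hX
    J κ τ ρ (fun i l => Ideal.Quotient.mk _ (D i (f l))) ?_ Bl hR2 ?_ x0 a0 h0
  · intro K V _ _ _ φ DD hleib hDc l
    have h1 := chain_rule (A := MvPolynomial (Fin n) k) m.primeCompl
      (Ideal.Quotient.mk (I.map (algebraMap (MvPolynomial (Fin n) k) S))) φ DD hleib
      (fun i => Ideal.Quotient.mk _ (algebraMap (MvPolynomial (Fin n) k) S (X i)))
      (fun i p => pderiv i p) (fun i p => D i p) hD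
      (fun i a b => by rw [Derivation.leibniz, smul_eq_mul, smul_eq_mul])
      (fun a => ct_poly ((Ideal.Quotient.mk (I.map (algebraMap (MvPolynomial (Fin n) k) S))).comp
        (algebraMap (MvPolynomial (Fin n) k) S)) φ DD hleib hDc a) (f l)
    rw [Ideal.Quotient.eq_zero_iff_mem.mpr (hf l), map_zero] at h1
    exact h1.symm
  · rw [hR3]
    congr 1

end VG
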