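import Mathlib

/-!
Project VG3, module KdL: the partial derivatives extend to a localization.
-/

open MvPolynomial

namespace VG

universe u

private theorem der_loc {Y F : Type u} [CommRing Y] [CommRing F] [Algebra Y F]
    (M : Submonoid Y) [IsLocalization M F] (D : Derivation ℤ Y Y) :
    ∃ D' : Derivation ℤ F F, ∀ q, D' (algebraMap Y F q) = algebraMap Y F (D q) := by
  have : Algebra.FormallyEtale Y F := Algebra.FormallyEtale.of_isLocalization M
  let l : KaehlerDifferential ℤ Y →ₗ[Y] F :=
    (Algebra.linearMap Y F).comp D.liftKaehlerDifferential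
  let m : TensorProduct Y F (KaehlerDifferential ℤ Y) →ₗ[F] F := l.liftBaseChange F
  let e := KaehlerDifferential.tensorKaehlerEquivOfFormallyEtale ℤ Y F
  refine ⟨(m.comp e.symm.toLinearMap).compDer (KaehlerDifferential.D ℤ F), fun q => ?_⟩
  have h1 : e.symm (KaehlerDifferential.D ℤ F (algebraMap Y F q)) =
      TensorProduct.tmul Y 1 (KaehlerDifferential.D ℤ Y q) :=
    KaehlerDifferential.tensorKaehlerEquivOfFormallyEtale_symm_D_algebraMap _ _ _ q
  have h2 : m (TensorProduct.tmul Y 1 (KaehlerDifferential.D ℤ Y q)) = algebraMap Y F (D q) := by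
    rw [LinearMap.liftBaseChange_tmul, one_smul]
    change algebraMap Y F (D.liftKaehlerDifferential (KaehlerDifferential.D ℤ Y q)) = _
    rw [Derivation.liftKaehlerDifferential_comp_D]
  rw [← h2, ← h1]
  rfl

theorem exists_ders {k : Type u} [Field k] {n : ℕ} (M : Submonoid (MvPolynomial (Fin n) k))
    (S : Type u) [CommRing S] [Algebra (MvPolynomial (Fin n) k) S] [IsLocalization M S] :
    ∃ D : Fin n → Derivation ℤ S S, ∀ i (f : MvPolynomial (Fin n) k),
      D i (algebraMap _ S f) = algebraMap _ S (pderiv i f) := by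
  choose D hD using fun i : Fin n =>
    der_loc (F := S) M ((pderiv (R := k) i).restrictScalars ℤ)
  exact ⟨D, fun i f => hD i f⟩

end VG
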