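import Pool.Agent.VG.LocS

/-!
Project VG3, module Kinj: the Euler derivation is injective on `IS / m IS`.
-/

open MvPolynomial

namespace VG

universe u

section

variable {k : Type u} [Field k] {n : ℕ} (w : Fin n → ℤ)

section
attribute [local instance] MvPolynomial.weightedGradedAlgebra

private theorem gc_eq (d : ℤ) (f : MvPolynomial (Fin n) k) :
    gc (weightedHomogeneousSubmodule k w) d f = weightedHomogeneousComponent w d f :=
  weightedDecomposition.decompose'_apply k w f d

private theorem whc_sum (f : MvPolynomial (Fin n) k) : ∃ s : Finset ℤ,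
    f = ∑ d ∈ s, weightedHomogeneousComponent w d f := by
  obtain ⟨s, h1, -⟩ := gc_sum (weightedHomogeneousSubmodule k w) f
  refine ⟨s, ?_⟩
  simp only [gc_eq] at h1
  exact h1

private theorem whc_mul {m : ℤ} {a : MvPolynomial (Fin n) k}
    (ha : a ∈ weightedHomogeneousSubmodule k w m) (d : ℤ) (x : MvPolynomial (Fin n) k) :
    weightedHomogeneousComponent w d (a * x) = a * weightedHomogeneousComponent w (d - m) x := by
  have h := gc_mul (weightedHomogeneousSubmodule k w) ha d x
  rw [gc_eq, gc_eq] at h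
  exact h

end

private theorem whc_conv (p q : MvPolynomial (Fin n) k) {s : Finset ℤ}
    (hs : q = ∑ b ∈ s, weightedHomogeneousComponent w b q) (d : ℤ) :
    weightedHomogeneousComponent w d (p * q) =
      ∑ b ∈ s, weightedHomogeneousComponent w (d - b) p * weightedHomogeneousComponent w b q := by
  conv_lhs => rw [hs, Finset.mul_sum, map_sum]
  refine Finset.sum_congr rfl fun b _ => ?_
  rw [mul_comm, whc_mul w (weightedHomogeneousComponent_mem w q b), mul_comm]

private theorem mul_hom {J I : Ideal (MvPolynomial (Fin n) k)} (hJ : HomI w J) (hI : HomI w I) :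
    HomI w (J * I) := by
  intro f hf d
  refine Submodule.mul_induction_on hf (fun p hp q hq => ?_) (fun x y hx hy => ?_)
  · obtain ⟨s, hs⟩ := whc_sum w q
    rw [whc_conv w p q hs]
    exact Ideal.sum_mem _ fun b _ => Ideal.mul_mem_mul (hJ p hp _) (hI q hq _)
  · rw [map_add]
    exact Ideal.add_mem _ hx hy

private theorem mem_m_iff {m : Ideal (MvPolynomial (Fin n) k)} (hm : m = Ideal.span (Set.range X))
    {f : MvPolynomial (Fin n) k} : f ∈ m ↔ constantCoeff f = 0 := by
  constructor
  · intro hf
    have h1 : m ≤ RingHom.ker (constantCoeff : MvPolynomial (Fin n) k →+* k) := by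
      rw [hm, Ideal.span_le]
      rintro _ ⟨i, rfl⟩
      exact constantCoeff_X _ i
    exact h1 hf
  · intro hf
    rw [hm, ← Set.image_univ, mem_ideal_span_X_image]
    intro d hd
    by_contra hcon
    push Not at hcon
    have h1 : d = 0 := Finsupp.ext fun i => hcon i (Set.mem_univ i)
    rw [mem_support_iff, h1] at hd
    exact hd hf

private theorem m_hom {m : Ideal (MvPolynomial (Fin n) k)} (hm : m = Ideal.span (Set.range X)) :
    HomI w m := by
  classical
  intro f hf d
  rw [mem_m_iff hm] at hf ⊢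
  rw [constantCoeff_eq, coeff_weightedHomogeneousComponent]
  rw [constantCoeff_eq] at hf
  rw [hf, ite_self]

/-- the Euler derivation of the polynomial ring -/
private noncomputable def E0 (f : MvPolynomial (Fin n) k) : MvPolynomial (Fin n) k :=
  ∑ i, (((w i : ℤ) : MvPolynomial (Fin n) k) * X i) * pderiv i f

private theorem E0_coeff (f : MvPolynomial (Fin n) k) (d : Fin n →₀ ℕ) :
    coeff d (E0 w f) = ((Finsupp.weight w d : ℤ) : k) * coeff d f := by
  classical
  induction f using MvPolynomial.induction_on' with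
  | monomial a r =>
    have h1 : E0 w (monomial a r) = ((Finsupp.weight w a : ℤ) : k) • monomial a r := by
      unfold E0
      have h2 : ∀ i, (((w i : ℤ) : MvPolynomial (Fin n) k) * X i) * pderiv i (monomial a r) =
          ((((a i : ℤ) * w i : ℤ) : k)) • monomial a r := by
        intro i
        rw [mul_assoc, X_mul_pderiv_monomial, ← Nat.cast_smul_eq_nsmul k, smul_eq_C_mul,
          smul_eq_C_mul, ← mul_assoc]
        congr 1
        rw [← map_intCast (C : k →+* MvPolynomial (Fin n) k) (w i), ← map_mul]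
        congr 1
        push_cast
        ring
      rw [Finset.sum_congr rfl fun i _ => h2 i, ← Finset.sum_smul]
      congr 1
      have h3 : Finsupp.weight w a = ∑ i, (a i : ℤ) * w i := by
        rw [Finsupp.weight_apply, Finsupp.sum_fintype]
        · exact Finset.sum_congr rfl fun i _ => nsmul_eq_mul _ _
        · intro i
          exact zero_smul _ _
      rw [h3, Int.cast_sum]
    rw [h1, coeff_smul, smul_eq_mul, coeff_monomial]
    by_cases h : a = d
    · rw [if_pos h, h]
    · rw [if_neg h, mul_zero, mul_zero]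
  | add p q hp hq =>
    have h1 : E0 w (p + q) = E0 w p + E0 w q := by
      unfold E0
      rw [← Finset.sum_add_distrib]
      exact Finset.sum_congr rfl fun i _ => by rw [map_add, mul_add]
    rw [h1, coeff_add, hp, hq, coeff_add, mul_add]

private theorem E0_comp (f : MvPolynomial (Fin n) k) (e : ℤ) :
    weightedHomogeneousComponent w e (E0 w f) =
      C ((e : ℤ) : k) * weightedHomogeneousComponent w e f := by
  classical
  ext d
  rw [coeff_C_mul, coeff_weightedHomogeneousComponent, coeff_weightedHomogeneousComponent,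
    E0_coeff]
  by_cases h : Finsupp.weight w d = e
  · rw [if_pos h, if_pos h, h]
  · rw [if_neg h, if_neg h, mul_zero]

private theorem weight_pos {w : Fin n → ℤ} (hw : ∀ i, 0 < w i) {d : Fin n →₀ ℕ} (hd : d ≠ 0) :
    0 < Finsupp.weight w d := by
  rw [Finsupp.weight_apply, Finsupp.sum]
  refine Finset.sum_pos (fun i hi => ?_) ?_
  · exact nsmul_pos (hw i) (Finsupp.mem_support_iff.1 hi)
  · rw [Finset.nonempty_iff_ne_empty, Ne, Finsupp.support_eq_empty]
    exact hd

private theorem whc_zero {w : Fin n → ℤ} (hw : ∀ i, 0 < w i) (f : MvPolynomial (Fin n) k) :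
    weightedHomogeneousComponent w 0 f = C (constantCoeff f) := by
  classical
  ext d
  rw [coeff_weightedHomogeneousComponent, coeff_C]
  by_cases hd : d = 0
  · rw [hd, map_zero, if_pos rfl, if_pos rfl]
    rfl
  · rw [if_neg (weight_pos hw hd).ne', if_neg (fun h => hd h.symm)]

private theorem E0_mem (I : Ideal (MvPolynomial (Fin n) k)) (hI : HomI w I)
    {f : MvPolynomial (Fin n) k} (hf : f ∈ I) : E0 w f ∈ I := by
  obtain ⟨s, hs⟩ := whc_sum w (E0 w f)
  rw [hs]
  refine Ideal.sum_mem _ fun e _ => ?_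
  rw [E0_comp]
  exact Ideal.mul_mem_left _ _ (hI f hf e)

private theorem E0_inj [CharZero k] {w : Fin n → ℤ} (hw : ∀ i, 0 < w i)
    (J m : Ideal (MvPolynomial (Fin n) k))
    (hm : m = Ideal.span (Set.range X)) (hJ : HomI w J) {f : MvPolynomial (Fin n) k}
    (hfm : f ∈ m) (hf : E0 w f ∈ J) : f ∈ J := by
  obtain ⟨s, hs⟩ := whc_sum w f
  rw [hs]
  refine Ideal.sum_mem _ fun e _ => ?_
  by_cases he : e = 0
  · rw [he, whc_zero hw, (mem_m_iff hm).1 hfm, map_zero]
    exact zero_mem _
  · have h1 := hJ _ hf e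
    rw [E0_comp] at h1
    have h2 := Ideal.mul_mem_left J (C (((e : ℤ) : k)⁻¹)) h1
    have h3 : ((e : ℤ) : k) ≠ 0 := Int.cast_ne_zero.2 he
    rw [← mul_assoc, ← map_mul, inv_mul_cancel₀ h3, map_one, one_mul] at h2
    exact h2

end

theorem euler_inj {k : Type u} [Field k] [CharZero k] {n : ℕ} (w : Fin n → ℤ) (hw : ∀ i, 0 < w i)
    (I m : Ideal (MvPolynomial (Fin n) k)) [m.IsPrime] (hm : m = Ideal.span (Set.range X))
    (hIm : I ≤ m) (hI : HomI w I) (S : Type u) [CommRing S] [IsLocalRing S]
    [Algebra (MvPolynomial (Fin n) k) S] [IsLocalization.AtPrime S m]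
    (D : Fin n → Derivation ℤ S S)
    (hD : ∀ i (f : MvPolynomial (Fin n) k), D i (algebraMap _ S f) = algebraMap _ S (pderiv i f)) :
    (∀ f ∈ I.map (algebraMap (MvPolynomial (Fin n) k) S),
      ∑ i, (((w i : ℤ) : S) * algebraMap (MvPolynomial (Fin n) k) S (X i)) * D i f ∈
        I.map (algebraMap (MvPolynomial (Fin n) k) S)) ∧
    ∀ f ∈ I.map (algebraMap (MvPolynomial (Fin n) k) S),
      ∑ i, (((w i : ℤ) : S) * algebraMap (MvPolynomial (Fin n) k) S (X i)) * D i f ∈
        IsLocalRing.maximalIdeal S * I.map (algebraMap (MvPolynomial (Fin n) k) S) →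
      f ∈ IsLocalRing.maximalIdeal S * I.map (algebraMap (MvPolynomial (Fin n) k) S) := by
  obtain ⟨ES, hES⟩ : ∃ ES : S → S, ∀ x, ES x =
      ∑ i, (((w i : ℤ) : S) * algebraMap (MvPolynomial (Fin n) k) S (X i)) * D i x :=
    ⟨_, fun _ => rfl⟩
  have hE0 : ∀ f, ES (algebraMap (MvPolynomial (Fin n) k) S f) =
      algebraMap (MvPolynomial (Fin n) k) S (E0 w f) := by
    intro f
    rw [hES]
    unfold E0
    rw [map_sum]
    refine Finset.sum_congr rfl fun i _ => ?_
    rw [hD, map_mul, map_mul, map_intCast]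
  have hEadd : ∀ x y, ES (x + y) = ES x + ES y := by
    intro x y
    rw [hES, hES, hES, ← Finset.sum_add_distrib]
    exact Finset.sum_congr rfl fun i _ => by rw [map_add, mul_add]
  have hEmul : ∀ x y, ES (x * y) = x * ES y + y * ES x := by
    intro x y
    rw [hES, hES, hES, Finset.mul_sum, Finset.mul_sum, ← Finset.sum_add_distrib]
    refine Finset.sum_congr rfl fun i _ => ?_
    rw [Derivation.leibniz, smul_eq_mul, smul_eq_mul]
    ring
  have hmS : m.map (algebraMap (MvPolynomial (Fin n) k) S) = IsLocalRing.maximalIdeal S :=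
    IsLocalization.AtPrime.map_eq_maximalIdeal m S
  have hEm : ∀ x, ES x ∈ IsLocalRing.maximalIdeal S := by
    intro x
    rw [hES]
    refine Ideal.sum_mem _ fun i _ => Ideal.mul_mem_right _ _ (Ideal.mul_mem_left _ _ ?_)
    rw [← hmS]
    refine Ideal.mem_map_of_mem _ ?_
    rw [hm]
    exact Ideal.subset_span ⟨i, rfl⟩
  have hEI : ∀ f ∈ I.map (algebraMap (MvPolynomial (Fin n) k) S), ES f ∈
      I.map (algebraMap (MvPolynomial (Fin n) k) S) := by
    intro f hf
    refine Submodule.span_induction (p := fun x _ => ES x ∈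
      I.map (algebraMap (MvPolynomial (Fin n) k) S)) ?_ ?_ ?_ ?_ hf
    · rintro _ ⟨x, hx, rfl⟩
      rw [hE0]
      exact Ideal.mem_map_of_mem _ (E0_mem w I hI hx)
    · have h1 := hEmul 0 0
      rw [zero_mul, zero_mul, add_zero] at h1
      rw [h1]
      exact zero_mem _
    · intro x y _ _ hx hy
      rw [hEadd]
      exact Ideal.add_mem _ hx hy
    · intro a x hx hx'
      rw [smul_eq_mul, hEmul]
      exact Ideal.add_mem _ (Ideal.mul_mem_left _ _ hx') (Ideal.mul_mem_right _ _ hx)
  refine ⟨fun f hf => ?_, fun f hf hEf => ?_⟩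
  · rw [← hES]
    exact hEI f hf
  · rw [← hES] at hEf
    obtain ⟨⟨⟨f0, hf0⟩, s⟩, hfs⟩ := (IsLocalization.mem_map_algebraMap_iff m.primeCompl S).1 hf
    have hfs' : f * algebraMap (MvPolynomial (Fin n) k) S s =
        algebraMap (MvPolynomial (Fin n) k) S f0 := hfs
    have h1 : algebraMap (MvPolynomial (Fin n) k) S (E0 w f0) ∈
        (m * I).map (algebraMap (MvPolynomial (Fin n) k) S) := by
      rw [← hE0, ← hfs', hEmul, Ideal.map_mul, hmS]
      refine Ideal.add_mem _ ?_ (Ideal.mul_mem_left _ _ hEf)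
      rw [mul_comm f]
      exact Ideal.mul_mem_mul (hEm _) hf
    have hmI : HomI w (m * I) := mul_hom w (m_hom w hm) hI
    have h2 : E0 w f0 ∈ m * I := by
      have h3 := loc_injS w (m * I) S hw hmI m hm
      rw [injective_iff_map_eq_zero] at h3
      have h4 := h3 (Ideal.Quotient.mk (m * I) (E0 w f0)) (Ideal.Quotient.eq_zero_iff_mem.2 h1)
      exact Ideal.Quotient.eq_zero_iff_mem.1 h4
    have h5 : f0 ∈ m * I := E0_inj hw (m * I) m hm hmI (hIm hf0) h2
    have h6 : f * algebraMap (MvPolynomial (Fin n) k) S s ∈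
        IsLocalRing.maximalIdeal S * I.map (algebraMap (MvPolynomial (Fin n) k) S) := by
      rw [hfs', ← hmS, ← Ideal.map_mul]
      exact Ideal.mem_map_of_mem _ h5
    obtain ⟨u, hu⟩ := IsLocalization.map_units S s
    rw [← hu] at h6
    have h7 := Ideal.mul_mem_right (↑u⁻¹ : S) _ h6
    rwa [mul_assoc, Units.mul_inv, mul_one] at h7

end VG
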