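import Pool.Agent.VG3.ParU
import Pool.Agent.VG3.Kinj
import Pool.Agent.VG3.KdL
import Pool.Agent.VG.ClsT

/-!
# Project VG3: from the minimality of `τ` to the theorem
-/

universe u

namespace VG

open MvPolynomial IsLocalRing Pool.Agent.CN Pool.Agent.Helper19 CategoryTheory RingTheory.Sequence

theorem fin_of_claimT {k : Type u} [Field k] [CharZero k] {n : ℕ} (w : Fin n → ℤ)
    (hw : ∀ i, 0 < w i) (I m : Ideal (MvPolynomial (Fin n) k)) [m.IsPrime]
    (hm : m = Ideal.span (Set.range X)) (hIm : I ≤ m) (hI : HomI w I) (S : Type u) [CommRing S]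
    [IsLocalRing S] [IsNoetherianRing S] [IsRegularLocalRing S]
    [Algebra (MvPolynomial (Fin n) k) S] [IsLocalization.AtPrime S m]
    (IS : Ideal S) (hIS : IS = I.map (algebraMap (MvPolynomial (Fin n) k) S))
    (N : Type u) [AddCommGroup N] [Module (S ⧸ IS) N] [Module.Finite (S ⧸ IS) N] [Nontrivial N]
    (hN : projectiveDimension (ModuleCat.of (S ⧸ IS) N) < ⊤)
    (hP : projectiveDimension (ModuleCat.of (S ⧸ IS) (IS.Cotangent →ₗ[S ⧸ IS] N)) < ⊤)
    (hT : ∀ [IsLocalRing (S ⧸ IS)] [Module S N] [IsScalarTower S (S ⧸ IS) N] (t : ℕ)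
      (_ : PD (S ⧸ IS) N (t + 1)) (_ : PD (S ⧸ IS) (IS →ₗ[S] N) (t + 1))
      (_ : ¬ ∃ v : N, v ≠ 0 ∧ ∀ a ∈ maximalIdeal (S ⧸ IS), a • v = 0)
      (FN : FRes (S ⧸ IS) N t) (FP : FRes (S ⧸ IS) (IS →ₗ[S] N) t)
      (_ : ∀ a b, FN.ν.m a b ∈ maximalIdeal (S ⧸ IS))
      (_ : ∀ a b, FP.ν.m a b ∈ maximalIdeal (S ⧸ IS))
      (D : Fin n → Derivation ℤ S S)
      (_ : ∀ i (f : MvPolynomial (Fin n) k), D i (algebraMap _ S f) = algebraMap _ S (pderiv i f))
      (J : Fin n → Matrix FP.ν.ι FN.ν.ι (S ⧸ IS)) (_ : ∀ i, CMap FP FN (dmap IS N (D i)) (J i))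
      (τ : Matrix FP.ν.ι FN.ν.ι (S ⧸ IS)) (_ : ∀ x a, τ x a ≠ 0 → FP.ν.g x = FN.ν.g a + 1)
      (_ : ∑ i, Ideal.Quotient.mk IS (((w i : ℤ) : S) * algebraMap (MvPolynomial (Fin n) k) S (X i)) • J i =
        Matrix.of FP.ν.m * τ + τ * Matrix.of FN.ν.m), ∀ x a, τ x a ∈ maximalIdeal (S ⧸ IS)) :
    ∃ rs : List S, IsRegular S rs ∧ Ideal.ofList rs = IS := by
  have hISne : IS ≠ ⊤ := by
    rw [hIS]
    exact map_ne_topS I S m hIm
  have hnt : Nontrivial (S ⧸ IS) := Ideal.Quotient.nontrivial_iff.mpr hISne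
  have hlr : IsLocalRing (S ⧸ IS) :=
    IsLocalRing.of_surjective' (Ideal.Quotient.mk IS) Ideal.Quotient.mk_surjective
  have hpdS := projectiveDimension_lt_top_of_regular S (S ⧸ IS)
  by_cases hsoc : ∃ v : N, v ≠ 0 ∧ ∀ a ∈ maximalIdeal (S ⧸ IS), a • v = 0
  · obtain ⟨v, hv, hmv⟩ := hsoc
    refine main_theorem S IS hISne hpdS N hN hP (Or.inl ⟨v, hv, fun r hr => hmv _ ?_⟩)
    have hl : IsLocalHom (Ideal.Quotient.mk IS) :=
      IsLocalHom.of_surjective _ Ideal.Quotient.mk_surjective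
    rw [mem_maximalIdeal, mem_nonunits_iff] at hr ⊢
    exact fun h => hr (isUnit_of_map_unit _ _ h)
  · let _ : Module S N := Module.compHom N (algebraMap S (S ⧸ IS))
    have hst : IsScalarTower S (S ⧸ IS) N := IsScalarTower.of_algebraMap_smul fun r x => rfl
    obtain ⟨a, ha⟩ := (projectiveDimension_ne_top_iff _).mp hN.ne
    obtain ⟨b, hb⟩ := (projectiveDimension_ne_top_iff _).mp hP.ne
    have ha1 : PD (S ⧸ IS) N (a + 1) := ha
    have hb1 : PD (S ⧸ IS) (IS →ₗ[S] N) (b + 1) := PD.congr (cotHomEquiv IS N) hb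
    have ha' : PD (S ⧸ IS) N (max a b + 1) := PD.mono ha1 (by omega)
    have hb' : PD (S ⧸ IS) (IS →ₗ[S] N) (max a b + 1) := PD.mono hb1 (by omega)
    have hfinP : Module.Finite (S ⧸ IS) (IS →ₗ[S] N) := finite_hom
    obtain ⟨FN, hFN⟩ := exists_minRes (max a b) N ha'
    obtain ⟨FP, hFP⟩ := exists_minRes (max a b) (IS →ₗ[S] N) hb'
    obtain ⟨D, hD⟩ := exists_ders m.primeCompl S (k := k) (n := n)
    obtain ⟨hE, hinj⟩ := euler_inj w hw I m hm hIm hI S D hD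
    rw [← hIS] at hE hinj
    obtain ⟨J, τ, hJ, hτd, hτ⟩ := exists_maps FN FP D
      (fun i => ((w i : ℤ) : S) * algebraMap (MvPolynomial (Fin n) k) S (X i)) hE
    have hτm := hT (max a b) ha' hb' hsoc FN FP hFN hFP D hD J hJ τ hτd hτ
    obtain ⟨M, hM⟩ := finPD_of_isRegularLocalRing S
    refine end_thmM hISne (fpd_bot (n := M) (PD.mono (hM (S ⧸ IS)) (Nat.le_succ M))) FN FP hFN hFP
      (fun c hc => ?_) D (fun i => ((w i : ℤ) : S) * algebraMap (MvPolynomial (Fin n) k) S (X i)) (fun i => ?_) hE hinj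
      J hJ τ hτd hτ hτm
    · have h1 : IsUnit (((c : ℕ) : k)) := (Nat.cast_ne_zero.2 hc).isUnit
      have h2 := (h1.map (C : k →+* MvPolynomial (Fin n) k)).map
        (algebraMap (MvPolynomial (Fin n) k) S)
      rw [map_natCast, map_natCast] at h2
      exact h2
    · refine Ideal.mul_mem_left _ _ ?_
      rw [← IsLocalization.AtPrime.map_eq_maximalIdeal m S]
      refine Ideal.mem_map_of_mem _ ?_
      rw [hm]
      exact Ideal.subset_span ⟨i, rfl⟩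

end VG
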