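import Pool.Agent.VG3.End

/-!
# Project VG3, the maps `J i`, `τ`, `κ i`, `ρ`

All matrices are over `R = S ⧸ I`; `n`, `p` are the differentials of the resolutions `FN` of `N`
and `FP` of `P = Hom(I, N)`.  `exists_cmap`, `htpy_zero`, `htpy_one`: comparison maps and
homotopies.  `exists_maps`: the chain maps `J i` over `dmap I N (D i)` and the homotopy `τ` of
`∑ c i • J i`.  `nnI`: the good scalars; `exists_maps2`: the homotopies `κ i`, `ρ`.
-/

universe u

namespace VG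

open Finset IsLocalRing Pool.Agent.CN Matrix

section Gen

variable {R : Type u} [CommRing R] {N P : Type u} [AddCommGroup N] [Module R N]
  [AddCommGroup P] [Module R P] {s : ℕ}

theorem exists_cmap (FN : FRes R N s) (FP : FRes R P s) (φ : P →ₗ[R] N) :
    ∃ w : Matrix FN.ν.ι FP.ν.ι R, CMap FN FP φ w := by
  obtain ⟨u, h1, h2, h3⟩ := exists_lift FN FP.ν (fun x => φ (FP.ε x)) (fun x hx => by
    by_contra h0
    exact hx (by rw [FP.ε0 x h0, map_zero])) (fun x => by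
    have h1 := FP.qi.Em x 1
    simp only [LinearMap.toSpanSingleton_apply, one_smul] at h1
    have h2 := congrArg φ h1
    rw [map_sum, map_zero] at h2
    rw [← h2]
    exact sum_congr rfl fun y _ => (map_smul _ _ _).symm)
  exact ⟨u, h1, h2, h3⟩

theorem CMap.mul_eq {FN : FRes R N s} {FP : FRes R P s} {φ : P →ₗ[R] N}
    {w : Matrix FN.ν.ι FP.ν.ι R} (h : CMap FN FP φ w) :
    Matrix.of FN.ν.m * w = w * Matrix.of FP.ν.m := by
  ext a x
  exact h.comm a x

theorem htpy_zero (F : FRes R N s) (π : BC R) (hπ : ∀ x, 0 ≤ π.g x) (u : Matrix F.ν.ι π.ι R)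
    (hdeg : ∀ a x, u a x ≠ 0 → F.ν.g a = π.g x)
    (hcyc : Matrix.of F.ν.m * u = u * Matrix.of π.m)
    (h0 : ∀ x, ∑ a, u a x • F.ε a = 0) :
    ∃ v : Matrix F.ν.ι π.ι R, (∀ a x, v a x ≠ 0 → F.ν.g a = π.g x + 1) ∧
      u = Matrix.of F.ν.m * v + v * Matrix.of π.m := by
  obtain ⟨v, h1, h2⟩ := exists_htpy F π hπ 0 u (fun a x h => by
      rw [Nat.cast_zero, add_zero]
      exact hdeg a x h) (fun a x => by
      rw [pow_zero, one_mul]
      exact congrFun (congrFun hcyc a) x) (fun _ => h0)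
  refine ⟨v, fun a x h => ?_, ?_⟩
  · have h3 := h1 a x h
    rw [Nat.cast_zero, add_zero] at h3
    exact h3
  · ext a x
    have h3 := h2 a x
    rw [pow_zero, one_mul] at h3
    exact h3

theorem htpy_one (F : FRes R N s) (π : BC R) (hπ : ∀ x, 0 ≤ π.g x) (u : Matrix F.ν.ι π.ι R)
    (hdeg : ∀ a x, u a x ≠ 0 → F.ν.g a = π.g x + 1)
    (hcyc : Matrix.of F.ν.m * u + u * Matrix.of π.m = 0) :
    ∃ v : Matrix F.ν.ι π.ι R, (∀ a x, v a x ≠ 0 → F.ν.g a = π.g x + 2) ∧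
      u = Matrix.of F.ν.m * v - v * Matrix.of π.m := by
  obtain ⟨v, h1, h2⟩ := exists_htpy F π hπ 1 u (fun a x h => by
      rw [Nat.cast_one]
      exact hdeg a x h) (fun a x => by
      rw [pow_one, neg_one_mul]
      exact eq_neg_of_add_eq_zero_left (congrFun (congrFun hcyc a) x)) (fun h => absurd h one_ne_zero)
  refine ⟨v, fun a x h => ?_, ?_⟩
  · have h3 := h1 a x h
    rw [Nat.cast_one] at h3
    rw [h3]
    ring
  · ext a x
    have h3 := h2 a x
    rw [pow_one, neg_one_mul, ← sub_eq_add_neg] at h3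
    exact h3

/-- composition of chain maps: degree -/
private theorem deg_mul {α β γ : Type} [Fintype β] {A : Matrix α β R} {B : Matrix β γ R}
    {ga : α → ℤ} {gb : β → ℤ} {gc : γ → ℤ} {i j : ℤ} (hA : ∀ a b, A a b ≠ 0 → ga a = gb b + i)
    (hB : ∀ b c, B b c ≠ 0 → gb b = gc c + j) (a : α) (c : γ) (h : (A * B) a c ≠ 0) :
    ga a = gc c + (i + j) := by
  rw [Matrix.mul_apply] at h
  obtain ⟨b, _, hb⟩ := exists_ne_zero_of_sum_ne_zero h
  have h1 := hA a b (left_ne_zero_of_mul hb)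
  have h2 := hB b c (right_ne_zero_of_mul hb)
  omega

private theorem deg_add {α γ : Type} {A B : Matrix α γ R} {ga : α → ℤ} {gc : γ → ℤ} {i : ℤ}
    (hA : ∀ a b, A a b ≠ 0 → ga a = gc b + i) (hB : ∀ a b, B a b ≠ 0 → ga a = gc b + i)
    (a : α) (c : γ) (h : (A + B) a c ≠ 0) : ga a = gc c + i := by
  by_contra hne
  apply h
  rw [Matrix.add_apply]
  by_cases h1 : A a c = 0
  · by_cases h2 : B a c = 0
    · rw [h1, h2, add_zero]
    · exact absurd (hB a c h2) hne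
  · exact absurd (hA a c h1) hne

private theorem deg_smul {α γ : Type} {A : Matrix α γ R} {ga : α → ℤ} {gc : γ → ℤ} {i : ℤ}
    (r : R) (hA : ∀ a b, A a b ≠ 0 → ga a = gc b + i) (a : α) (c : γ) (h : (r • A) a c ≠ 0) :
    ga a = gc c + i := by
  rw [Matrix.smul_apply, smul_eq_mul] at h
  exact hA a c (right_ne_zero_of_mul h)

private theorem deg_neg {α γ : Type} {A : Matrix α γ R} {ga : α → ℤ} {gc : γ → ℤ} {i : ℤ}
    (hA : ∀ a b, A a b ≠ 0 → ga a = gc b + i) (a : α) (c : γ) (h : (-A) a c ≠ 0) :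
    ga a = gc c + i := by
  rw [Matrix.neg_apply, neg_ne_zero] at h
  exact hA a c h

private theorem deg_sum {ι : Type} {α γ : Type} {A : ι → Matrix α γ R} {ga : α → ℤ} {gc : γ → ℤ}
    {i : ℤ} (t : Finset ι) (hA : ∀ l a b, A l a b ≠ 0 → ga a = gc b + i) (a : α) (c : γ)
    (h : (∑ l ∈ t, A l) a c ≠ 0) : ga a = gc c + i := by
  rw [Matrix.sum_apply] at h
  obtain ⟨l, _, hl⟩ := exists_ne_zero_of_sum_ne_zero h
  exact hA l a c hl

private theorem lift_mul {Q : Type u} [AddCommGroup Q] [Module R Q] {FN : FRes R N s}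
    {FP : FRes R P s} {FQ : FRes R Q s} {φ : P →ₗ[R] N} {ψ : Q →ₗ[R] P}
    {w : Matrix FN.ν.ι FP.ν.ι R} {v : Matrix FP.ν.ι FQ.ν.ι R} (h : CMap FN FP φ w)
    (h' : CMap FP FQ ψ v) (x : FQ.ν.ι) :
    ∑ a, (w * v) a x • FN.ε a = φ (ψ (FQ.ε x)) := by
  rw [← h'.lift x, map_sum]
  simp only [Matrix.mul_apply, sum_smul]
  rw [sum_comm]
  refine sum_congr rfl fun y _ => ?_
  rw [map_smul, ← h.lift y, smul_sum]
  refine sum_congr rfl fun a _ => ?_
  rw [smul_smul, mul_comm]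

end Gen

variable {S : Type u} [CommRing S] {I : Ideal S}
  {N : Type u} [AddCommGroup N] [Module S N] [Module (S ⧸ I) N] [IsScalarTower S (S ⧸ I) N]
  {s : ℕ}

variable (I N) in
/-- the ideal of all `v` such that `v` times the identity of `Hom(I, N)` factors through
evaluations at elements of `I` -/
def nnI : Ideal (S ⧸ I) where
  carrier := {v | ∃ (L : ℕ) (f : Fin L → I) (β : Fin L → (N →ₗ[S ⧸ I] (I →ₗ[S] N))),
    ∀ φ : I →ₗ[S] N, v • φ = ∑ l, β l (φ (f l))}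
  add_mem' := by
    rintro a b ⟨L, f, β, h⟩ ⟨L', f', β', h'⟩
    refine ⟨L + L', Fin.append f f', Fin.append β β', fun φ => ?_⟩
    rw [add_smul, h, h', Fin.sum_univ_add]
    simp only [Fin.append_left, Fin.append_right]
  zero_mem' := ⟨0, Fin.elim0, Fin.elim0, fun φ => by rw [zero_smul]; rfl⟩
  smul_mem' := by
    rintro c a ⟨L, f, β, h⟩
    refine ⟨L, f, fun l => c • β l, fun φ => ?_⟩
    rw [smul_eq_mul, mul_smul, h, smul_sum]
    rfl

theorem mem_nnI {v : S ⧸ I} : v ∈ nnI I N ↔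
    ∃ (L : ℕ) (f : Fin L → I) (β : Fin L → (N →ₗ[S ⧸ I] (I →ₗ[S] N))),
      ∀ φ : I →ₗ[S] N, v • φ = ∑ l, β l (φ (f l)) := Iff.rfl

/-- the homotopy between `w * J` and multiplication by `D f` -/
theorem exists_h (FN : FRes (S ⧸ I) N s) (FP : FRes (S ⧸ I) (I →ₗ[S] N) s)
    (D : Derivation ℤ S S) (f : I) (w : Matrix FN.ν.ι FP.ν.ι (S ⧸ I))
    (hw : CMap FN FP (evP I N f) w) (J : Matrix FP.ν.ι FN.ν.ι (S ⧸ I))
    (hJ : CMap FP FN (dmap I N D) J) :
    ∃ h : Matrix FN.ν.ι FN.ν.ι (S ⧸ I), (∀ a b, h a b ≠ 0 → FN.ν.g a = FN.ν.g b + 1) ∧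
      w * J - Ideal.Quotient.mk I (D f.1) • (1 : Matrix FN.ν.ι FN.ν.ι (S ⧸ I)) =
        Matrix.of FN.ν.m * h + h * Matrix.of FN.ν.m := by
  refine htpy_zero FN FN.ν FN.g0 _ (fun a b hab => ?_) ?_ (fun x => ?_)
  · by_contra hne
    apply hab
    have h1 : (w * J) a b = 0 := by
      by_contra h1
      have := deg_mul (i := 0) (j := 0) (ga := FN.ν.g) (gb := FP.ν.g) (gc := FN.ν.g)
        (fun a x h => by rw [hw.deg a x h, add_zero])
        (fun x b h => by rw [hJ.deg x b h, add_zero]) a b h1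
      rw [add_zero, add_zero] at this
      exact hne this
    rw [Matrix.sub_apply, h1, Matrix.smul_apply, Matrix.one_apply_ne (fun h => hne (by rw [h])),
      smul_zero, sub_zero]
  · rw [Matrix.mul_sub, Matrix.sub_mul, ← Matrix.mul_assoc, CMap.mul_eq hw, Matrix.mul_assoc,
      CMap.mul_eq hJ, Matrix.mul_assoc, Matrix.mul_smul, Matrix.smul_mul, Matrix.mul_one,
      Matrix.one_mul]
  · simp only [Matrix.sub_apply, sub_smul, sum_sub_distrib]
    rw [lift_mul hw hJ x]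
    have h1 : ∑ a, (Ideal.Quotient.mk I (D f.1) • (1 : Matrix FN.ν.ι FN.ν.ι (S ⧸ I))) a x • FN.ε a =
        Ideal.Quotient.mk I (D f.1) • FN.ε x := by
      rw [sum_eq_single x (fun b _ hb => by
          rw [Matrix.smul_apply, Matrix.one_apply_ne hb, smul_zero, zero_smul])
        (fun h => absurd (mem_univ _) h), Matrix.smul_apply, Matrix.one_apply_eq, smul_eq_mul,
        mul_one]
    rw [h1]
    have h2 : evP I N f ((dmap I N D) (FN.ε x)) = D f.1 • FN.ε x := rfl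
    rw [h2, ← algebraMap_smul (S ⧸ I) (D f.1)]
    exact sub_self _

theorem exists_maps (FN : FRes (S ⧸ I) N s) (FP : FRes (S ⧸ I) (I →ₗ[S] N) s)
    {n : ℕ} (D : Fin n → Derivation ℤ S S) (c : Fin n → S)
    (hE : ∀ f ∈ I, ∑ i, c i * D i f ∈ I) :
    ∃ (J : Fin n → Matrix FP.ν.ι FN.ν.ι (S ⧸ I)) (τ : Matrix FP.ν.ι FN.ν.ι (S ⧸ I)),
      (∀ i, CMap FP FN (dmap I N (D i)) (J i)) ∧
      (∀ x a, τ x a ≠ 0 → FP.ν.g x = FN.ν.g a + 1) ∧
      ∑ i, Ideal.Quotient.mk I (c i) • J i =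
        Matrix.of FP.ν.m * τ + τ * Matrix.of FN.ν.m := by
  choose J hJ using fun i => exists_cmap FP FN (dmap I N (D i))
  refine ⟨J, ?_⟩
  obtain ⟨τ, h1, h2⟩ := htpy_zero FP FN.ν FN.g0 (∑ i, Ideal.Quotient.mk I (c i) • J i)
    (fun x a h => by
      have := deg_sum (i := 0) (ga := FP.ν.g) (gc := FN.ν.g) univ
        (fun i => deg_smul (Ideal.Quotient.mk I (c i))
          (fun x a h => by rw [(hJ i).deg x a h, add_zero])) x a h
      rwa [add_zero] at this) (by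
      rw [Matrix.mul_sum, Matrix.sum_mul]
      exact sum_congr rfl fun i _ => by rw [Matrix.mul_smul, Matrix.smul_mul, CMap.mul_eq (hJ i)])
    (fun a => by
      have h1 : ∀ x, (∑ i, Ideal.Quotient.mk I (c i) • J i) x a • FP.ε x =
          ∑ i, Ideal.Quotient.mk I (c i) • (J i x a • FP.ε x) := by
        intro x
        rw [Matrix.sum_apply, sum_smul]
        exact sum_congr rfl fun i _ => by rw [Matrix.smul_apply, smul_eq_mul, mul_smul]
      rw [sum_congr rfl fun x _ => h1 x, sum_comm]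
      have h2 : ∀ i, ∑ x, Ideal.Quotient.mk I (c i) • (J i x a • FP.ε x) =
          Ideal.Quotient.mk I (c i) • dmap I N (D i) (FN.ε a) := by
        intro i
        rw [← smul_sum, (hJ i).lift a]
      rw [sum_congr rfl fun i _ => h2 i]
      ext f
      rw [LinearMap.sum_apply, LinearMap.zero_apply]
      have h3 : ∀ i, (Ideal.Quotient.mk I (c i) • dmap I N (D i) (FN.ε a)) f =
          (c i * D i f.1) • FN.ε a := by
        intro i
        have h4 : (Ideal.Quotient.mk I (c i) • dmap I N (D i) (FN.ε a)) f =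
          Ideal.Quotient.mk I (c i) • (D i f.1 • FN.ε a) := rfl
        rw [h4, mul_smul, ← algebraMap_smul (S ⧸ I) (c i)]
        rfl
      rw [sum_congr rfl fun i _ => h3 i, ← sum_smul]
      exact smul_zero_of_mem I N (hE f.1 f.2) _)
  exact ⟨τ, hJ, h1, h2⟩

theorem exists_maps2 (FN : FRes (S ⧸ I) N s) (FP : FRes (S ⧸ I) (I →ₗ[S] N) s)
    {n : ℕ} (D : Fin n → Derivation ℤ S S) (c : Fin n → S)
    (hE : ∀ f ∈ I, ∑ i, c i * D i f ∈ I) (J : Fin n → Matrix FP.ν.ι FN.ν.ι (S ⧸ I))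
    (hJ : ∀ i, CMap FP FN (dmap I N (D i)) (J i)) (τ : Matrix FP.ν.ι FN.ν.ι (S ⧸ I))
    (hτd : ∀ x a, τ x a ≠ 0 → FP.ν.g x = FN.ν.g a + 1)
    (hτ : ∑ i, Ideal.Quotient.mk I (c i) • J i =
      Matrix.of FP.ν.m * τ + τ * Matrix.of FN.ν.m) (v : S ⧸ I) (hv : v ∈ nnI I N) :
    ∃ (κ : Fin n → Matrix FP.ν.ι FN.ν.ι (S ⧸ I)) (ρ : Matrix FP.ν.ι FN.ν.ι (S ⧸ I)) (L : ℕ)
      (f : Fin L → I) (B : Fin L → Matrix FP.ν.ι FN.ν.ι (S ⧸ I)),
      (∀ i x a, κ i x a ≠ 0 → FP.ν.g x = FN.ν.g a + 1) ∧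
      (∀ x a, ρ x a ≠ 0 → FP.ν.g x = FN.ν.g a + 2) ∧
      (∀ i, v • J i = Matrix.of FP.ν.m * κ i + κ i * Matrix.of FN.ν.m +
        ∑ l, Ideal.Quotient.mk I (D i (f l).1) • B l) ∧
      v • τ = ∑ i, Ideal.Quotient.mk I (c i) • κ i +
        (Matrix.of FP.ν.m * ρ - ρ * Matrix.of FN.ν.m) := by
  obtain ⟨L, f, β, hβ⟩ := hv
  choose w hw using fun l => exists_cmap FN FP (evP I N (f l))
  choose B hB using fun l => exists_cmap FP FN (β l)
  choose h hhd hh using fun i l => exists_h FN FP (D i) (f l) (w l) (hw l) (J i) (hJ i)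
  -- the homotopy `t` of `∑ B l * w l - v`
  obtain ⟨t, htd, ht⟩ := htpy_zero FP FP.ν FP.g0
    (∑ l, B l * w l - v • (1 : Matrix FP.ν.ι FP.ν.ι (S ⧸ I))) (fun x y hxy => by
      by_contra hne
      apply hxy
      rw [Matrix.sub_apply, Matrix.smul_apply, Matrix.one_apply_ne (fun h => hne (by rw [h])),
        smul_zero, sub_zero]
      by_contra h1
      have := deg_sum (i := 0 + 0) (ga := FP.ν.g) (gc := FP.ν.g) univ
        (fun l => deg_mul (fun x a h => by rw [(hB l).deg x a h, add_zero])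
          (fun a y h => by rw [(hw l).deg a y h, add_zero])) x y h1
      rw [add_zero, add_zero] at this
      exact hne this) (by
      rw [Matrix.mul_sub, Matrix.sub_mul, Matrix.mul_sum, Matrix.sum_mul, Matrix.mul_smul,
        Matrix.smul_mul, Matrix.mul_one, Matrix.one_mul]
      congr 1
      refine sum_congr rfl fun l _ => ?_
      rw [← Matrix.mul_assoc, CMap.mul_eq (hB l), Matrix.mul_assoc, CMap.mul_eq (hw l),
        Matrix.mul_assoc]) (fun y => by
      simp only [Matrix.sub_apply, sub_smul, sum_sub_distrib]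
      have h1 : ∑ x, (v • (1 : Matrix FP.ν.ι FP.ν.ι (S ⧸ I))) x y • FP.ε x = v • FP.ε y := by
        rw [sum_eq_single y (fun b _ hb => by
            rw [Matrix.smul_apply, Matrix.one_apply_ne hb, smul_zero, zero_smul])
          (fun h => absurd (mem_univ _) h), Matrix.smul_apply, Matrix.one_apply_eq, smul_eq_mul,
          mul_one]
      have h2 : ∑ x, (∑ l, B l * w l) x y • FP.ε x = ∑ l, β l (evP I N (f l) (FP.ε y)) := by
        simp only [Matrix.sum_apply, sum_smul]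
        rw [sum_comm]
        exact sum_congr rfl fun l _ => lift_mul (hB l) (hw l) y
      rw [h1, h2, hβ]
      exact sub_self _)
  obtain ⟨κ, hκ⟩ : ∃ κ : Fin n → Matrix FP.ν.ι FN.ν.ι (S ⧸ I),
      κ = fun i => ∑ l, B l * h i l + -(t * J i) := ⟨_, rfl⟩
  have hκd : ∀ i x a, κ i x a ≠ 0 → FP.ν.g x = FN.ν.g a + 1 := by
    intro i x a hxa
    rw [hκ] at hxa
    have := deg_add (i := 0 + 1) (ga := FP.ν.g) (gc := FN.ν.g)
      (deg_sum univ (fun l => deg_mul (fun x a h => by rw [(hB l).deg x a h, add_zero])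
        (hhd i l)))
      (deg_neg (by
        intro x a h1
        have := deg_mul (i := 1) (j := 0) htd (fun x b h => by rw [(hJ i).deg x b h, add_zero]) x a h1
        rw [this]
        ring)) x a hxa
    rw [this]
    ring
  have hκe : ∀ i, v • J i = Matrix.of FP.ν.m * κ i + κ i * Matrix.of FN.ν.m +
        ∑ l, Ideal.Quotient.mk I (D i (f l).1) • B l := by
    intro i
    have e1 : v • J i = (∑ l, B l * w l - (Matrix.of FP.ν.m * t + t * Matrix.of FP.ν.m)) * J i := by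
      rw [← ht, sub_sub_cancel, Matrix.smul_mul, Matrix.one_mul]
    have e2 : ∀ l, w l * J i = Ideal.Quotient.mk I (D i (f l).1) •
        (1 : Matrix FN.ν.ι FN.ν.ι (S ⧸ I)) +
        (Matrix.of FN.ν.m * h i l + h i l * Matrix.of FN.ν.m) := by
      intro l
      rw [← hh i l, add_sub_cancel]
    have e3 : (∑ l, B l * w l) * J i = ∑ l, Ideal.Quotient.mk I (D i (f l).1) • B l +
        (Matrix.of FP.ν.m * (∑ l, B l * h i l) + (∑ l, B l * h i l) * Matrix.of FN.ν.m) := by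
      rw [Matrix.sum_mul, Matrix.mul_sum, Matrix.sum_mul, ← sum_add_distrib, ← sum_add_distrib]
      refine sum_congr rfl fun l _ => ?_
      rw [Matrix.mul_assoc, e2, Matrix.mul_add, Matrix.mul_add, Matrix.mul_smul, Matrix.mul_one,
        ← Matrix.mul_assoc, ← Matrix.mul_assoc, ← Matrix.mul_assoc, CMap.mul_eq (hB l)]
    rw [e1, Matrix.sub_mul, e3, hκ]
    simp only [Matrix.mul_add, Matrix.add_mul, Matrix.mul_neg, Matrix.neg_mul]
    have e4 : t * Matrix.of FP.ν.m * J i = t * J i * Matrix.of FN.ν.m := by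
      rw [Matrix.mul_assoc, CMap.mul_eq (hJ i), Matrix.mul_assoc]
    rw [e4, Matrix.mul_assoc (Matrix.of FP.ν.m) t (J i)]
    abel
  -- the homotopy `ρ`
  obtain ⟨χ, hχ⟩ : ∃ χ, χ = v • τ + -∑ i, Ideal.Quotient.mk I (c i) • κ i := ⟨_, rfl⟩
  have hχd : ∀ x a, χ x a ≠ 0 → FP.ν.g x = FN.ν.g a + 1 := by
    rw [hχ]
    exact deg_add (deg_smul v hτd) (deg_neg (deg_sum univ fun i => deg_smul _ (hκd i)))
  have hχc : Matrix.of FP.ν.m * χ + χ * Matrix.of FN.ν.m = 0 := by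
    have e1 : Matrix.of FP.ν.m * χ + χ * Matrix.of FN.ν.m =
        v • (Matrix.of FP.ν.m * τ + τ * Matrix.of FN.ν.m) -
          ∑ i, Ideal.Quotient.mk I (c i) • (Matrix.of FP.ν.m * κ i + κ i * Matrix.of FN.ν.m) := by
      rw [hχ]
      simp only [Matrix.mul_add, Matrix.add_mul, Matrix.mul_neg, Matrix.neg_mul, Matrix.mul_smul,
        Matrix.smul_mul, Matrix.mul_sum, Matrix.sum_mul, smul_add, sum_add_distrib]
      abel
    have e2 : ∀ i, Matrix.of FP.ν.m * κ i + κ i * Matrix.of FN.ν.m =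
        v • J i - ∑ l, Ideal.Quotient.mk I (D i (f l).1) • B l := by
      intro i
      rw [hκe i, add_sub_cancel_right]
    have e3 : ∑ i, Ideal.Quotient.mk I (c i) • ∑ l, Ideal.Quotient.mk I (D i (f l).1) • B l = 0 := by
      simp only [smul_sum, smul_smul]
      rw [sum_comm]
      refine sum_eq_zero fun l _ => ?_
      rw [← sum_smul]
      have h1 := Ideal.Quotient.eq_zero_iff_mem.2 (hE (f l).1 (f l).2)
      rw [map_sum] at h1
      rw [sum_congr rfl fun i _ => (map_mul (Ideal.Quotient.mk I) (c i) (D i (f l).1)).symm, h1,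
        zero_smul]
    have e5 : ∑ i, Ideal.Quotient.mk I (c i) •
        (Matrix.of FP.ν.m * κ i + κ i * Matrix.of FN.ν.m) = ∑ i, Ideal.Quotient.mk I (c i) •
        (v • J i - ∑ l, Ideal.Quotient.mk I (D i (f l).1) • B l) :=
      sum_congr rfl fun i _ => by rw [e2 i]
    rw [e1, ← hτ, e5]
    simp only [smul_sub, sum_sub_distrib]
    rw [e3, sub_zero, smul_sum, sub_eq_zero]
    exact sum_congr rfl fun i _ => smul_comm _ _ _
  obtain ⟨ρ, hρd, hρ⟩ := htpy_one FP FN.ν FN.g0 χ hχd hχc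
  refine ⟨κ, ρ, L, f, B, hκd, hρd, hκe, ?_⟩
  rw [← hρ, hχ]
  abel

/-- `end_thm` in matrix form -/
theorem end_thmM [IsLocalRing S] [IsLocalRing (S ⧸ I)] [IsNoetherianRing S] (hI : I ≠ ⊤)
    (h0 : FPD ⊥ I) (FN : FRes (S ⧸ I) N s)
    (FP : FRes (S ⧸ I) (I →ₗ[S] N) s) [Nontrivial N]
    (hminN : ∀ a b, FN.ν.m a b ∈ maximalIdeal (S ⧸ I))
    (hminP : ∀ a b, FP.ν.m a b ∈ maximalIdeal (S ⧸ I))
    (hchar : ∀ k : ℕ, k ≠ 0 → IsUnit (k : S))
    {n : ℕ} (D : Fin n → Derivation ℤ S S) (c : Fin n → S) (hc : ∀ i, c i ∈ maximalIdeal S)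
    (hE : ∀ f ∈ I, ∑ i, c i * D i f ∈ I)
    (hinj : ∀ f ∈ I, ∑ i, c i * D i f ∈ maximalIdeal S * I → f ∈ maximalIdeal S * I)
    (J : Fin n → Matrix FP.ν.ι FN.ν.ι (S ⧸ I)) (hJ : ∀ i, CMap FP FN (dmap I N (D i)) (J i))
    (τ : Matrix FP.ν.ι FN.ν.ι (S ⧸ I)) (hτd : ∀ x a, τ x a ≠ 0 → FP.ν.g x = FN.ν.g a + 1)
    (hτ : ∑ i, Ideal.Quotient.mk I (c i) • J i =
      Matrix.of FP.ν.m * τ + τ * Matrix.of FN.ν.m)
    (hτm : ∀ x a, τ x a ∈ maximalIdeal (S ⧸ I)) :
    ∃ rs : List S, RingTheory.Sequence.IsRegular S rs ∧ Ideal.ofList rs = I := by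
  refine end_thm hI h0 FN FP hminN hminP hchar D c hc hE hinj J hJ τ hτd (fun x a => ?_) hτm
  have h1 := congrFun (congrFun hτ x) a
  rw [Matrix.sum_apply] at h1
  exact h1

end VG
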