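import Pool.Agent.VG3.AsmT
import Pool.Agent.VG3.FinN
import Pool.Agent.VG3.Maps
import Pool.Agent.VG.DimB

/-!
Project VG3: the main theorem.
-/

open MvPolynomial Matrix CategoryTheory RingTheory.Sequence IsLocalRing

namespace VG

universe u

open Pool.Agent.Helper19 Pool.Agent.CN

private theorem weight_cast3 {n : ℕ} (w : Fin n → ℕ) (d : Fin n →₀ ℕ) :
    Finsupp.weight (fun i => (w i : ℤ)) d = ((Finsupp.weight w d : ℕ) : ℤ) := by
  simp [Finsupp.weight_apply, Finsupp.sum]

private theorem homI_cast3 {k : Type u} [Field k] {n : ℕ} (w : Fin n → ℕ)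
    (I : Ideal (MvPolynomial (Fin n) k))
    (hI : ∀ f ∈ I, ∀ d, weightedHomogeneousComponent w d f ∈ I) :
    HomI (fun i => (w i : ℤ)) I := by
  classical
  intro f hf d
  rcases lt_or_ge d 0 with hd | hd
  · have h1 : weightedHomogeneousComponent (fun i => (w i : ℤ)) d f = 0 := by
      ext m
      rw [coeff_weightedHomogeneousComponent, coeff_zero, if_neg]
      rw [weight_cast3]
      omega
    rw [h1]
    exact I.zero_mem
  · have h1 : weightedHomogeneousComponent (fun i => (w i : ℤ)) d f =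
        weightedHomogeneousComponent w d.toNat f := by
      ext m
      rw [coeff_weightedHomogeneousComponent, coeff_weightedHomogeneousComponent, weight_cast3]
      congr 1
      apply propext
      constructor
      · intro h; omega
      · intro h; omega
    rw [h1]
    exact hI f hf _

theorem vg3_main {k : Type u} [Field k] [CharZero k] {n : ℕ} (w : Fin n → ℕ) (hw : ∀ i, 0 < w i)
    (I m : Ideal (MvPolynomial (Fin n) k)) [m.IsPrime] (hm : m = Ideal.span (Set.range X))
    (hIm : I ≤ m) (hI : ∀ f ∈ I, ∀ d, weightedHomogeneousComponent w d f ∈ I)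
    (S : Type u) [CommRing S] [Algebra (MvPolynomial (Fin n) k) S] [IsLocalization.AtPrime S m]
    (N : Type u) [AddCommGroup N] [Module (S ⧸ I.map (algebraMap (MvPolynomial (Fin n) k) S)) N]
    [Module.Finite (S ⧸ I.map (algebraMap (MvPolynomial (Fin n) k) S)) N] [Nontrivial N]
    (hN : projectiveDimension
      (ModuleCat.of (S ⧸ I.map (algebraMap (MvPolynomial (Fin n) k) S)) N) < ⊤)
    (hP : projectiveDimension (ModuleCat.of (S ⧸ I.map (algebraMap (MvPolynomial (Fin n) k) S))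
      ((I.map (algebraMap (MvPolynomial (Fin n) k) S)).Cotangent
        →ₗ[S ⧸ I.map (algebraMap (MvPolynomial (Fin n) k) S)] N)) < ⊤) :
    ∃ rs : List S, IsRegular S rs ∧
      Ideal.ofList rs = I.map (algebraMap (MvPolynomial (Fin n) k) S) := by
  have hwz : ∀ i, 0 < (fun i => (w i : ℤ)) i := fun i => by
    show (0 : ℤ) < (w i : ℤ)
    exact_mod_cast hw i
  have hIz : HomI (fun i => (w i : ℤ)) I := homI_cast3 w I hI
  haveI : IsLocalRing S := IsLocalization.AtPrime.isLocalRing S m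
  haveI : IsNoetherianRing S := IsLocalization.isNoetherianRing m.primeCompl S inferInstance
  haveI : IsRegularLocalRing S := regT m
  have hISne := map_ne_topS I S m hIm
  refine fin_of_claimT (fun i => (w i : ℤ)) hwz I m hm hIm hIz S _ rfl N hN hP ?_
  intro _ _ _ t ha hb hsoc FN FP hFN hFP D hD J hJ τ hτd hτ x a
  letI iG : GradedAlgebra (qgr (fun i => (w i : ℤ)) I) := qGraded (fun i => (w i : ℤ)) I hIz
  have hC : Conn (qgr (fun i => (w i : ℤ)) I) := qgr_conn (fun i => (w i : ℤ)) I hwz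
  have hne : I ≠ ⊤ := fun htop => Ideal.IsPrime.ne_top ‹m.IsPrime› (top_le_iff.mp (htop ▸ hIm))
  haveI : Nontrivial (MvPolynomial (Fin n) k ⧸ I) := Ideal.Quotient.nontrivial_iff.mpr hne
  have hpdS := projectiveDimension_lt_top_of_regular S
    (S ⧸ I.map (algebraMap (MvPolynomial (Fin n) k) S))
  have hdim := height_irrS I S (w := fun i => (w i : ℤ)) hwz m hm hIm
  obtain ⟨d, hd⟩ : ∃ d : ℕ, (irr (qgr (fun i => (w i : ℤ)) I)).height = (d : ℕ∞) := by
    have hprime : (irr (qgr (fun i => (w i : ℤ)) I)).IsPrime := (irr_isMaximal _ hC).isPrime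
    obtain ⟨l, hlast, hlen⟩ :=
      Ideal.exists_ltSeries_length_eq_height (irr (qgr (fun i => (w i : ℤ)) I))
    exact ⟨l.length, hlen.symm⟩
  obtain ⟨d', u, B, hd', hu0, hcb, hcb1, hum, hsop, hmin⟩ := exists_params_u hISne hpdS t t ha hb
    hsoc FP d (by rw [hdim, hd]; rfl)
  obtain ⟨hE, -⟩ := euler_inj (fun i => (w i : ℤ)) hwz I m hm hIm hIz S D hD
  obtain ⟨κ, ρ, L, f, Bl, hκ, hρ, hR2, hR3⟩ := exists_maps2 FN FP D
    (fun i => (((w i : ℤ) : ℤ) : S) * algebraMap (MvPolynomial (Fin n) k) S (X i)) hE J hJ τ hτd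
    hτ (u 0) hu0
  by_contra hcon
  have hunit : IsUnit (τ x a) := by
    by_contra h1
    exact hcon ((mem_maximalIdeal _).mpr h1)
  have hne0 : τ x a ≠ 0 := fun h1 => hcon (by rw [h1]; exact Ideal.zero_mem _)
  have hsqN : Matrix.of FN.ν.m * Matrix.of FN.ν.m = 0 := by
    ext i j
    rw [Matrix.mul_apply]
    exact FN.ν.sq i j
  have hsqP : Matrix.of FP.ν.m * Matrix.of FP.ν.m = 0 := by
    ext i j
    rw [Matrix.mul_apply]
    exact FP.ν.sq i j
  exact claimT (fun i => (w i : ℤ)) hwz I m hm hIm hIz S FN.ν.g FP.ν.g FN.g0 FN.ν.σ FN.ν.pm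
    (Matrix.of FN.ν.m) (Matrix.of FP.ν.m) hsqN hsqP FN.ν.deg FP.ν.deg FN.ν.sgn hFN hFP
    (by rw [hd, hd']) u hum B hsop hmin hcb hcb1 D hD J κ τ ρ (fun l => (f l).1)
    (fun l => (f l).2) Bl hR2 hR3 x a (hτd x a hne0) hunit

end VG
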