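import Pool.Agent.CN.Lift

/-!
# Project VG3, the end of the argument

`end_main`: if the homotopy `τ` of `∑ c i • J i` has all entries in the maximal ideal, then
`E f = ∑ c i * ∂ i f` lies in `𝔪 I` for every `f ∈ I` which is undetected by `Hom(I, N) → N` in
all degrees.
-/

universe u

namespace VG

open Finset IsLocalRing Pool.Agent.CN Matrix

section Mat

variable {S : Type u} [CommRing S] {α β γ : Type} [Fintype β]

private def MI (K : Ideal S) (A : Matrix α γ S) : Prop := ∀ a c, A a c ∈ K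

private theorem MI.mul_left {K : Ideal S} (A : Matrix α β S) {B : Matrix β γ S} (hB : MI K B) :
    MI K (A * B) := fun a c => by
  rw [Matrix.mul_apply]
  exact Ideal.sum_mem _ fun b _ => Ideal.mul_mem_left _ _ (hB b c)

private theorem MI.mul {K L : Ideal S} {A : Matrix α β S} {B : Matrix β γ S} (hA : MI K A)
    (hB : MI L B) : MI (K * L) (A * B) := fun a c => by
  rw [Matrix.mul_apply]
  exact Ideal.sum_mem _ fun b _ => Ideal.mul_mem_mul (hA a b) (hB b c)

private theorem MI.add {K : Ideal S} {A B : Matrix α γ S} (hA : MI K A) (hB : MI K B) :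
    MI K (A + B) := fun a c => Ideal.add_mem _ (hA a c) (hB a c)

private theorem MI.sub {K : Ideal S} {A B : Matrix α γ S} (hA : MI K A) (hB : MI K B) :
    MI K (A - B) := fun a c => Ideal.sub_mem _ (hA a c) (hB a c)

end Mat

section Lf

variable {S : Type u} [CommRing S] (I : Ideal S)

open Classical in
/-- a lift of the elements of `S ⧸ I` with `lf 0 = 0` -/
private noncomputable def lf (x : S ⧸ I) : S :=
  if x = 0 then 0 else (Ideal.Quotient.mk_surjective x).choose

private theorem mk_lf (x : S ⧸ I) : Ideal.Quotient.mk I (lf I x) = x := by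
  unfold lf
  by_cases h : x = 0
  · rw [if_pos h, map_zero, h]
  · rw [if_neg h]
    exact (Ideal.Quotient.mk_surjective x).choose_spec

private theorem lf_ne {x : S ⧸ I} (h : lf I x ≠ 0) : x ≠ 0 := by
  intro hx
  apply h
  unfold lf
  rw [if_pos hx]

private noncomputable def LM {α β : Type} (f : α → β → S ⧸ I) : Matrix α β S :=
  fun a b => lf I (f a b)

private theorem LM_apply {α β : Type} (f : α → β → S ⧸ I) (a : α) (b : β) :
    Ideal.Quotient.mk I (LM I f a b) = f a b := mk_lf I _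

end Lf

section Core

variable {S : Type u} [CommRing S] (I m : Ideal S) {α β : Type} [Fintype α] [Fintype β]
  [DecidableEq α] [DecidableEq β]

private theorem MI_of_map {α β : Type} {A : Matrix α β S}
    (h : A.map (Ideal.Quotient.mk I) = 0) : MI I A := fun a c =>
  Ideal.Quotient.eq_zero_iff_mem.1 (congrFun (congrFun h a) c)

private theorem LM_map {α β : Type} (f : Matrix α β (S ⧸ I)) :
    (LM I f).map (Ideal.Quotient.mk I) = f := by
  ext a b
  exact LM_apply I f a b

private theorem map_smul_sum {k : ℕ} {α β : Type} (c : Fin k → S) (J : Fin k → Matrix α β (S ⧸ I)) :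
    (∑ i, c i • LM I (J i)).map (Ideal.Quotient.mk I) =
      ∑ i, Ideal.Quotient.mk I (c i) • J i := by
  ext a b
  rw [Matrix.map_apply, Matrix.sum_apply, Matrix.sum_apply, map_sum]
  refine sum_congr rfl fun i _ => ?_
  rw [Matrix.smul_apply, Matrix.smul_apply, smul_eq_mul, smul_eq_mul, map_mul, LM_apply]

private theorem core {k : ℕ} (c d : Fin k → S) (n : Matrix α α (S ⧸ I)) (p : Matrix β β (S ⧸ I))
    (w : Matrix α β (S ⧸ I)) (τ : Matrix β α (S ⧸ I)) (J : Fin k → Matrix β α (S ⧸ I))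
    (h : Fin k → Matrix α α (S ⧸ I)) (ρ : Matrix α α (S ⧸ I)) (h1 : n * w = w * p)
    (h2 : ∑ i, Ideal.Quotient.mk I (c i) • J i = p * τ + τ * n)
    (h3 : ∀ i, w * J i - Ideal.Quotient.mk I (d i) • (1 : Matrix α α (S ⧸ I)) = n * h i + h i * n)
    (h4 : w * τ - ∑ i, Ideal.Quotient.mk I (c i) • h i = n * ρ - ρ * n)
    (hc : ∀ i, c i ∈ m) (hn : MI m (LM I n)) (hw : MI m (LM I w)) (hτ : MI m (LM I τ)) :
    MI (m * I) ((∑ i, c i * d i) • (1 : Matrix α α S) -
      (LM I n * LM I n * LM I ρ - LM I ρ * (LM I n * LM I n))) := by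
  obtain ⟨nS, hnS⟩ : ∃ A, A = LM I n := ⟨_, rfl⟩
  obtain ⟨pS, hpS⟩ : ∃ A, A = LM I p := ⟨_, rfl⟩
  obtain ⟨wS, hwS⟩ : ∃ A, A = LM I w := ⟨_, rfl⟩
  obtain ⟨tS, htS⟩ : ∃ A, A = LM I τ := ⟨_, rfl⟩
  obtain ⟨rS, hrS⟩ : ∃ A, A = LM I ρ := ⟨_, rfl⟩
  obtain ⟨H, hH⟩ : ∃ A, A = ∑ i, c i • LM I (h i) := ⟨_, rfl⟩
  -- the defects
  have d1 : MI I (nS * wS - wS * pS) := by
    refine MI_of_map I ?_
    rw [Matrix.map_sub _ (map_sub _), Matrix.map_mul, Matrix.map_mul, hnS, hwS, hpS, LM_map,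
      LM_map, LM_map, h1, sub_self]
  have d2 : MI I (∑ i, c i • LM I (J i) - (pS * tS + tS * nS)) := by
    refine MI_of_map I ?_
    rw [Matrix.map_sub _ (map_sub _), Matrix.map_add _ (map_add _), Matrix.map_mul,
      Matrix.map_mul, map_smul_sum, hnS, htS, hpS, LM_map, LM_map, LM_map, h2, sub_self]
  have d3 : ∀ i, MI I (wS * LM I (J i) - d i • (1 : Matrix α α S) -
      (nS * LM I (h i) + LM I (h i) * nS)) := by
    intro i
    refine MI_of_map I ?_
    have e1 : (d i • (1 : Matrix α α S)).map (Ideal.Quotient.mk I) =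
        Ideal.Quotient.mk I (d i) • (1 : Matrix α α (S ⧸ I)) := by
      ext a b
      rw [Matrix.map_apply, Matrix.smul_apply, Matrix.smul_apply, smul_eq_mul, smul_eq_mul,
        map_mul, Matrix.one_apply, Matrix.one_apply]
      congr 1
      split_ifs
      · exact map_one _
      · exact map_zero _
    rw [Matrix.map_sub _ (map_sub _), Matrix.map_sub _ (map_sub _), Matrix.map_add _ (map_add _),
      Matrix.map_mul, Matrix.map_mul, Matrix.map_mul, hnS, hwS, LM_map, LM_map, LM_map, LM_map,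
      e1, h3, sub_self]
  have d4 : MI I (wS * tS - H - (nS * rS - rS * nS)) := by
    refine MI_of_map I ?_
    rw [Matrix.map_sub _ (map_sub _), Matrix.map_sub _ (map_sub _), Matrix.map_sub _ (map_sub _),
      Matrix.map_mul, Matrix.map_mul, Matrix.map_mul, hH, map_smul_sum, hnS, hwS, htS, hrS,
      LM_map, LM_map, LM_map, LM_map, h4, sub_self]
  have d5 : MI (m * I) (∑ i, c i • (wS * LM I (J i) - d i • (1 : Matrix α α S) -
      (nS * LM I (h i) + LM I (h i) * nS))) := by
    intro a b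
    rw [Matrix.sum_apply]
    refine Ideal.sum_mem _ fun i _ => ?_
    rw [Matrix.smul_apply, smul_eq_mul]
    exact Ideal.mul_mem_mul (hc i) (d3 i a b)
  -- the identity
  have key : (∑ i, c i * d i) • (1 : Matrix α α S) -
      (nS * nS * rS - rS * (nS * nS)) =
      nS * (wS * tS - H - (nS * rS - rS * nS)) + (wS * tS - H - (nS * rS - rS * nS)) * nS -
        (nS * wS - wS * pS) * tS + wS * (∑ i, c i • LM I (J i) - (pS * tS + tS * nS)) -
        ∑ i, c i • (wS * LM I (J i) - d i • (1 : Matrix α α S) -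
          (nS * LM I (h i) + LM I (h i) * nS)) := by
    have e1 : ∑ i, c i • (wS * LM I (J i) - d i • (1 : Matrix α α S) -
          (nS * LM I (h i) + LM I (h i) * nS)) =
        wS * (∑ i, c i • LM I (J i)) - (∑ i, c i * d i) • (1 : Matrix α α S) -
          (nS * H + H * nS) := by
      rw [hH, Matrix.mul_sum, Matrix.mul_sum, Matrix.sum_mul, sum_smul, ← sum_add_distrib,
        ← sum_sub_distrib, ← sum_sub_distrib]
      refine sum_congr rfl fun i _ => ?_
      rw [smul_sub, smul_sub, smul_add, Matrix.mul_smul, Matrix.mul_smul, Matrix.smul_mul,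
        smul_smul]
    rw [e1]
    simp only [Matrix.mul_sub, Matrix.sub_mul, Matrix.mul_add, Matrix.add_mul, Matrix.mul_assoc]
    abel
  rw [← hnS, ← hrS, key]
  refine MI.sub (MI.add (MI.sub (MI.add ?_ ?_) ?_) ?_) d5
  · exact MI.mul (by rw [hnS]; exact hn) d4
  · have := MI.mul d4 (show MI m nS by rw [hnS]; exact hn)
    rw [mul_comm] at this
    exact this
  · have := MI.mul d1 (show MI m tS by rw [htS]; exact hτ)
    rw [mul_comm] at this
    exact this
  · exact MI.mul (by rw [hwS]; exact hw) d2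

end Core

section Dmap

variable {S : Type u} [CommRing S] (I : Ideal S) (N : Type u) [AddCommGroup N] [Module S N]
  [Module (S ⧸ I) N] [IsScalarTower S (S ⧸ I) N]

theorem smul_zero_of_mem {f : S} (hf : f ∈ I) (ν : N) : f • ν = 0 := by
  rw [← algebraMap_smul (S ⧸ I) f ν]
  have h1 : algebraMap S (S ⧸ I) f = 0 := Ideal.Quotient.eq_zero_iff_mem.2 hf
  rw [h1, zero_smul]

/-- the map `N → Hom(I, N)`, `ν ↦ (f ↦ ∂f • ν)` -/
def dmap (D : Derivation ℤ S S) : N →ₗ[S ⧸ I] (I →ₗ[S] N) where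
  toFun ν :=
    { toFun := fun f => D f.1 • ν
      map_add' := fun f g => by
        rw [Submodule.coe_add, map_add, add_smul]
      map_smul' := fun c f => by
        rw [Submodule.coe_smul, smul_eq_mul, Derivation.leibniz, add_smul, smul_eq_mul, smul_eq_mul,
          mul_smul, mul_smul, smul_zero_of_mem I N f.2, add_zero, RingHom.id_apply] }
  map_add' ν μ := by
    ext f
    exact smul_add _ _ _
  map_smul' c ν := by
    ext f
    show D f.1 • c • ν = c • D f.1 • ν
    exact smul_comm _ _ _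

end Dmap

variable {S : Type u} [CommRing S] [IsLocalRing S] {I : Ideal S} [IsLocalRing (S ⧸ I)]
  {N : Type u} [AddCommGroup N] [Module S N] [Module (S ⧸ I) N] [IsScalarTower S (S ⧸ I) N]
  {s : ℕ}

theorem end_main (FN : FRes (S ⧸ I) N s) (FP : FRes (S ⧸ I) (I →ₗ[S] N) s)
    [Nontrivial N] (hminN : ∀ a b, FN.ν.m a b ∈ maximalIdeal (S ⧸ I))
    (hchar : ∀ k : ℕ, k ≠ 0 → IsUnit (k : S))
    {n : ℕ} (D : Fin n → Derivation ℤ S S) (c : Fin n → S) (hc : ∀ i, c i ∈ maximalIdeal S)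
    (hE : ∀ f ∈ I, ∑ i, c i * D i f ∈ I)
    (J : Fin n → FP.ν.ι → FN.ν.ι → S ⧸ I) (hJ : ∀ i, CMap FP FN (dmap I N (D i)) (J i))
    (τ : FP.ν.ι → FN.ν.ι → S ⧸ I) (hτd : ∀ x a, τ x a ≠ 0 → FP.ν.g x = FN.ν.g a + 1)
    (hτ : ∀ x a, ∑ i, Ideal.Quotient.mk I (c i) * J i x a =
      ∑ y, FP.ν.m x y * τ y a + ∑ b, τ x b * FN.ν.m b a)
    (hτm : ∀ x a, τ x a ∈ maximalIdeal (S ⧸ I))
    (f : I) (w : FN.ν.ι → FP.ν.ι → S ⧸ I) (hw : CMap FN FP (evP I N f) w)
    (hwm : ∀ a x, w a x ∈ maximalIdeal (S ⧸ I)) :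
    ∑ i, c i * D i f.1 ∈ maximalIdeal S * I := by
  classical
  have hmk : ∀ x : S, Ideal.Quotient.mk I x ∈ maximalIdeal (S ⧸ I) → x ∈ maximalIdeal S := by
    intro x hx
    by_contra h
    rw [mem_maximalIdeal, mem_nonunits_iff, not_not] at h
    exact ((mem_maximalIdeal _).1 hx) (h.map _)
  -- the homotopies `h i`
  have hh : ∀ i, ∃ h : FN.ν.ι → FN.ν.ι → S ⧸ I, (∀ a b, h a b ≠ 0 → FN.ν.g a = FN.ν.g b + 1) ∧
      ∀ a b, ∑ x, w a x * J i x b - (if a = b then Ideal.Quotient.mk I (D i f.1) else 0) =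
        ∑ e, FN.ν.m a e * h e b + ∑ e, h a e * FN.ν.m e b := by
    intro i
    obtain ⟨v, h1, h2⟩ := exists_htpy FN FN.ν FN.g0 0
      (fun a b => ∑ x, w a x * J i x b - (if a = b then Ideal.Quotient.mk I (D i f.1) else 0)) (by
        intro a b hab
        rw [Nat.cast_zero, add_zero]
        by_contra hne
        apply hab
        rw [if_neg (fun h => hne (by rw [h])), sub_zero]
        refine sum_eq_zero fun x _ => ?_
        by_cases h1 : w a x = 0
        · rw [h1, zero_mul]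
        · by_cases h2 : J i x b = 0
          · rw [h2, mul_zero]
          · exact absurd ((hw.deg a x h1).trans ((hJ i).deg x b h2)) hne) (by
        intro a b
        rw [pow_zero, one_mul]
        simp only [mul_sub, sub_mul, sum_sub_distrib]
        congr 1
        · have e1 : ∑ e, FN.ν.m a e * ∑ x, w e x * J i x b =
              ∑ x, (∑ e, FN.ν.m a e * w e x) * J i x b := by
            simp only [mul_sum, sum_mul]
            rw [sum_comm]
            exact sum_congr rfl fun x _ => sum_congr rfl fun e _ => (mul_assoc _ _ _).symm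
          have e2 : ∑ e, (∑ x, w a x * J i x e) * FN.ν.m e b =
              ∑ x, w a x * ∑ e, J i x e * FN.ν.m e b := by
            simp only [mul_sum, sum_mul]
            rw [sum_comm]
            exact sum_congr rfl fun x _ => sum_congr rfl fun e _ => mul_assoc _ _ _
          have e5 : ∑ x, (∑ e, FN.ν.m a e * w e x) * J i x b =
              ∑ x, (∑ y, w a y * FP.ν.m y x) * J i x b :=
            sum_congr rfl fun x _ => by rw [hw.comm a x]
          have e6 : ∑ x, w a x * ∑ e, J i x e * FN.ν.m e b =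
              ∑ x, w a x * ∑ y, FP.ν.m x y * J i y b :=
            sum_congr rfl fun x _ => by rw [(hJ i).comm x b]
          rw [e1, e2, e5, e6]
          simp only [mul_sum, sum_mul]
          rw [sum_comm]
          exact sum_congr rfl fun x _ => sum_congr rfl fun e _ => mul_assoc _ _ _
        · simp [mul_comm]) (by
        intro _ b
        simp only [sub_smul, sum_sub_distrib, sum_smul]
        rw [sum_comm]
        have e1 : ∀ x, ∑ a, (w a x * J i x b) • FN.ε a = J i x b • (FP.ε x) f := by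
          intro x
          rw [← show evP I N f (FP.ε x) = (FP.ε x) f from rfl, ← hw.lift x, smul_sum]
          refine sum_congr rfl fun a _ => ?_
          rw [smul_smul, mul_comm]
        rw [sum_congr rfl fun x _ => e1 x]
        have e2 := congrArg (fun φ : I →ₗ[S] N => φ f) ((hJ i).lift b)
        have e3 : (∑ x, J i x b • FP.ε x) f = ∑ x, J i x b • (FP.ε x) f := by
          rw [LinearMap.sum_apply]
          rfl
        have e4 : (dmap I N (D i) (FN.ε b)) f = D i f.1 • FN.ε b := rfl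
        rw [e3, e4] at e2
        rw [e2]
        simp only [ite_smul, zero_smul, sum_ite_eq', mem_univ, if_true]
        rw [← algebraMap_smul (S ⧸ I) (D i f.1)]
        exact sub_self _)
    refine ⟨v, fun a b hab => ?_, fun a b => ?_⟩
    · have := h1 a b hab
      rw [Nat.cast_zero, add_zero] at this
      exact this
    · have := h2 a b
      rw [pow_zero, one_mul] at this
      exact this
  choose h hhd hhe using hh
  -- matrices over `S ⧸ I`
  obtain ⟨nM, hnM⟩ : ∃ A : Matrix FN.ν.ι FN.ν.ι (S ⧸ I), A = FN.ν.m := ⟨_, rfl⟩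
  obtain ⟨pM, hpM⟩ : ∃ A : Matrix FP.ν.ι FP.ν.ι (S ⧸ I), A = FP.ν.m := ⟨_, rfl⟩
  obtain ⟨wM, hwM⟩ : ∃ A : Matrix FN.ν.ι FP.ν.ι (S ⧸ I), A = w := ⟨_, rfl⟩
  obtain ⟨tM, htM⟩ : ∃ A : Matrix FP.ν.ι FN.ν.ι (S ⧸ I), A = τ := ⟨_, rfl⟩
  obtain ⟨JM, hJM⟩ : ∃ A : Fin n → Matrix FP.ν.ι FN.ν.ι (S ⧸ I), A = J := ⟨_, rfl⟩
  obtain ⟨hM, hhM⟩ : ∃ A : Fin n → Matrix FN.ν.ι FN.ν.ι (S ⧸ I), A = h := ⟨_, rfl⟩
  have k1 : nM * wM = wM * pM := by
    ext a x
    rw [Matrix.mul_apply, Matrix.mul_apply, hnM, hpM, hwM]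
    exact hw.comm a x
  have k2 : ∑ i, Ideal.Quotient.mk I (c i) • JM i = pM * tM + tM * nM := by
    ext x a
    rw [Matrix.sum_apply, Matrix.add_apply, Matrix.mul_apply, Matrix.mul_apply, hnM, hpM, htM, hJM]
    exact hτ x a
  have k3 : ∀ i, wM * JM i - Ideal.Quotient.mk I (D i f.1) •
      (1 : Matrix FN.ν.ι FN.ν.ι (S ⧸ I)) = nM * hM i + hM i * nM := by
    intro i
    ext a b
    have h1 := hhe i a b
    rw [Matrix.sub_apply, Matrix.smul_apply, Matrix.one_apply, smul_eq_mul, mul_ite, mul_one,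
      mul_zero, Matrix.add_apply, Matrix.mul_apply, Matrix.mul_apply, Matrix.mul_apply, hnM, hwM,
      hJM, hhM]
    exact h1
  have hE0 : ∑ i, Ideal.Quotient.mk I (c i) * Ideal.Quotient.mk I (D i f.1) = 0 := by
    have h1 := Ideal.Quotient.eq_zero_iff_mem.2 (hE f.1 f.2)
    rw [map_sum] at h1
    rw [← h1]
    exact sum_congr rfl fun i _ => (map_mul _ _ _).symm
  -- the cycle `g`
  obtain ⟨g, hg⟩ : ∃ g, g = wM * tM - ∑ i, Ideal.Quotient.mk I (c i) • hM i := ⟨_, rfl⟩
  have hgc : nM * g + g * nM = 0 := by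
    have h1 : ∑ i, Ideal.Quotient.mk I (c i) • (nM * hM i + hM i * nM) =
        wM * (pM * tM + tM * nM) := by
      rw [← k2, Matrix.mul_sum]
      have h2 : ∑ i, Ideal.Quotient.mk I (c i) • (nM * hM i + hM i * nM) =
          ∑ i, (wM * (Ideal.Quotient.mk I (c i) • JM i) -
            (Ideal.Quotient.mk I (c i) * Ideal.Quotient.mk I (D i f.1)) •
              (1 : Matrix FN.ν.ι FN.ν.ι (S ⧸ I))) :=
        sum_congr rfl fun i _ => by rw [← k3 i, smul_sub, Matrix.mul_smul, smul_smul]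
      rw [h2, sum_sub_distrib, ← sum_smul, hE0, zero_smul, sub_zero]
    have h3 : ∑ i, Ideal.Quotient.mk I (c i) • (nM * hM i + hM i * nM) =
        nM * (∑ i, Ideal.Quotient.mk I (c i) • hM i) +
          (∑ i, Ideal.Quotient.mk I (c i) • hM i) * nM := by
      rw [Matrix.mul_sum, Matrix.sum_mul, ← sum_add_distrib]
      exact sum_congr rfl fun i _ => by rw [smul_add, Matrix.mul_smul, Matrix.smul_mul]
    rw [h3, Matrix.mul_add, ← Matrix.mul_assoc, ← Matrix.mul_assoc, ← k1, Matrix.mul_assoc] at h1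
    rw [hg, Matrix.mul_sub, Matrix.sub_mul, sub_add_sub_comm, ← h1, sub_self]
  have hgd : ∀ a b, g a b ≠ 0 → FN.ν.g a = FN.ν.g b + (1 : ℕ) := by
    intro a b hab
    rw [Nat.cast_one]
    by_contra hne
    apply hab
    rw [hg, Matrix.sub_apply, Matrix.mul_apply, Matrix.sum_apply]
    have h1 : ∑ x, wM a x * tM x b = 0 := by
      refine sum_eq_zero fun x _ => ?_
      by_cases h1 : w a x = 0
      · rw [hwM, h1, zero_mul]
      · by_cases h2 : τ x b = 0
        · rw [htM, h2, mul_zero]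
        · exact absurd ((hw.deg a x h1).trans (hτd x b h2)) hne
    have h2 : ∑ i, (Ideal.Quotient.mk I (c i) • hM i) a b = 0 := by
      refine sum_eq_zero fun i _ => ?_
      rw [Matrix.smul_apply, hhM]
      by_cases h3 : h i a b = 0
      · rw [h3, smul_zero]
      · exact absurd (hhd i a b h3) hne
    rw [h1, h2, sub_zero]
  obtain ⟨ρ, hρd, hρ⟩ := exists_htpy FN FN.ν FN.g0 1 g hgd (by
    intro a b
    have h1 := congrFun (congrFun hgc a) b
    rw [Matrix.add_apply, Matrix.mul_apply, Matrix.mul_apply, hnM] at h1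
    rw [pow_one, neg_one_mul]
    exact eq_neg_of_add_eq_zero_left h1) (fun h1 => absurd h1 one_ne_zero)
  obtain ⟨rM, hrM⟩ : ∃ A : Matrix FN.ν.ι FN.ν.ι (S ⧸ I), A = ρ := ⟨_, rfl⟩
  have k4 : wM * tM - ∑ i, Ideal.Quotient.mk I (c i) • hM i = nM * rM - rM * nM := by
    rw [← hg]
    ext a b
    have h1 := hρ a b
    rw [pow_one, neg_one_mul, ← sub_eq_add_neg] at h1
    rw [Matrix.sub_apply, Matrix.mul_apply, Matrix.mul_apply, hnM, hrM]
    exact h1
  have hlm : ∀ {α β : Type} (A : Matrix α β (S ⧸ I)),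
      (∀ a b, A a b ∈ maximalIdeal (S ⧸ I)) → MI (maximalIdeal S) (LM I A) := by
    intro α β A hA a b
    refine hmk _ ?_
    rw [LM_apply]
    exact hA a b
  have hcore := core I (maximalIdeal S) c (fun i => D i f.1) nM pM wM tM JM hM rM k1 k2 k3 k4 hc
    (hlm nM (by rw [hnM]; exact hminN)) (hlm wM (by rw [hwM]; exact hwm))
    (hlm tM (by rw [htM]; exact hτm))
  -- the square of the lifted differential
  obtain ⟨Q, hQ⟩ : ∃ Q, Q = LM I nM * LM I nM := ⟨_, rfl⟩
  have hQd : ∀ a b, Q a b ≠ 0 → FN.ν.g b = FN.ν.g a + 2 := by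
    intro a b hab
    rw [hQ, Matrix.mul_apply] at hab
    obtain ⟨e, _, he⟩ := exists_ne_zero_of_sum_ne_zero hab
    have h1 := lf_ne I (left_ne_zero_of_mul he)
    have h2 := lf_ne I (right_ne_zero_of_mul he)
    rw [hnM] at h1 h2
    have h3 := FN.ν.deg a e h1
    have h4 := FN.ν.deg e b h2
    omega
  rw [← hQ] at hcore
  -- the trace
  have htr : ∑ a ∈ univ.filter (fun a => Even (FN.ν.g a)), (Q * LM I rM) a a =
      ∑ a ∈ univ.filter (fun a => Even (FN.ν.g a)), (LM I rM * Q) a a := by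
    have h1 : ∑ a ∈ univ.filter (fun a => Even (FN.ν.g a)), (Q * LM I rM) a a =
        ∑ a ∈ univ.filter (fun a => Even (FN.ν.g a)),
          ∑ b ∈ univ.filter (fun a => Even (FN.ν.g a)), Q a b * LM I rM b a := by
      refine sum_congr rfl fun a ha => ?_
      rw [Matrix.mul_apply]
      refine (sum_subset (subset_univ _) fun b _ hb => ?_).symm
      rw [mem_filter, not_and] at hb
      by_contra hne
      have h2 := hQd a b (left_ne_zero_of_mul hne)
      refine hb (mem_univ _) ?_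
      rw [h2]
      exact (mem_filter.1 ha).2.add even_two
    have h2 : ∑ b ∈ univ.filter (fun a => Even (FN.ν.g a)), (LM I rM * Q) b b =
        ∑ b ∈ univ.filter (fun a => Even (FN.ν.g a)),
          ∑ a ∈ univ.filter (fun a => Even (FN.ν.g a)), LM I rM b a * Q a b := by
      refine sum_congr rfl fun b hb => ?_
      rw [Matrix.mul_apply]
      refine (sum_subset (subset_univ _) fun a _ ha => ?_).symm
      rw [mem_filter, not_and] at ha
      by_contra hne
      have h3 := hQd a b (right_ne_zero_of_mul hne)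
      refine ha (mem_univ _) ?_
      have h4 : FN.ν.g a = FN.ν.g b - 2 := by omega
      rw [h4]
      exact (mem_filter.1 hb).2.sub even_two
    rw [h1, h2, sum_comm]
    exact sum_congr rfl fun b _ => sum_congr rfl fun a _ => mul_comm _ _
  obtain ⟨k, hk⟩ : ∃ k, k = (univ.filter (fun a : FN.ν.ι => Even (FN.ν.g a))).card := ⟨_, rfl⟩
  have hk0 : k ≠ 0 := by
    intro hk0
    rw [hk, card_eq_zero] at hk0
    obtain ⟨y, hy⟩ := exists_ne (0 : N)
    obtain ⟨z, hz1, hz2⟩ := FN.qi.surj y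
    apply hy
    rw [← hz2]
    refine sum_eq_zero fun a _ => ?_
    rw [hz1 a (fun h1 => ?_), map_zero]
    have h2 : a ∈ univ.filter (fun a : FN.ν.ι => Even (FN.ν.g a)) := by
      rw [mem_filter, h1]
      exact ⟨mem_univ _, Even.zero⟩
    rw [hk0] at h2
    exact absurd h2 (notMem_empty _)
  have hfin : (k : S) * ∑ i, c i * D i f.1 ∈ maximalIdeal S * I := by
    have h1 : ∑ a ∈ univ.filter (fun a => Even (FN.ν.g a)),
        ((∑ i, c i * D i f.1) • (1 : Matrix FN.ν.ι FN.ν.ι S) -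
          (Q * LM I rM - LM I rM * Q)) a a ∈ maximalIdeal S * I :=
      Ideal.sum_mem _ fun a _ => hcore a a
    have h2 : ∑ a ∈ univ.filter (fun a => Even (FN.ν.g a)),
        ((∑ i, c i * D i f.1) • (1 : Matrix FN.ν.ι FN.ν.ι S) -
          (Q * LM I rM - LM I rM * Q)) a a = (k : S) * ∑ i, c i * D i f.1 := by
      simp only [Matrix.sub_apply, Matrix.smul_apply, Matrix.one_apply_eq, smul_eq_mul, mul_one,
        sum_sub_distrib, sum_const, nsmul_eq_mul]
      rw [htr, sub_self, sub_zero, hk]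
    rw [h2] at h1
    exact h1
  obtain ⟨u, hu⟩ := hchar k hk0
  rw [← hu] at hfin
  have := Ideal.mul_mem_left _ (↑u⁻¹ : S) hfin
  rwa [← mul_assoc, Units.inv_mul, one_mul] at this

/-- The end of the argument: if `τ` has its entries in the maximal ideal, then `I` is generated by
a regular sequence. -/
theorem end_thm [IsNoetherianRing S] (hI : I ≠ ⊤) (h0 : FPD ⊥ I) (FN : FRes (S ⧸ I) N s)
    (FP : FRes (S ⧸ I) (I →ₗ[S] N) s) [Nontrivial N]
    (hminN : ∀ a b, FN.ν.m a b ∈ maximalIdeal (S ⧸ I))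
    (hminP : ∀ a b, FP.ν.m a b ∈ maximalIdeal (S ⧸ I))
    (hchar : ∀ k : ℕ, k ≠ 0 → IsUnit (k : S))
    {n : ℕ} (D : Fin n → Derivation ℤ S S) (c : Fin n → S) (hc : ∀ i, c i ∈ maximalIdeal S)
    (hE : ∀ f ∈ I, ∑ i, c i * D i f ∈ I)
    (hinj : ∀ f ∈ I, ∑ i, c i * D i f ∈ maximalIdeal S * I → f ∈ maximalIdeal S * I)
    (J : Fin n → FP.ν.ι → FN.ν.ι → S ⧸ I) (hJ : ∀ i, CMap FP FN (dmap I N (D i)) (J i))
    (τ : FP.ν.ι → FN.ν.ι → S ⧸ I) (hτd : ∀ x a, τ x a ≠ 0 → FP.ν.g x = FN.ν.g a + 1)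
    (hτ : ∀ x a, ∑ i, Ideal.Quotient.mk I (c i) * J i x a =
      ∑ y, FP.ν.m x y * τ y a + ∑ b, τ x b * FN.ν.m b a)
    (hτm : ∀ x a, τ x a ∈ maximalIdeal (S ⧸ I)) :
    ∃ rs : List S, RingTheory.Sequence.IsRegular S rs ∧ Ideal.ofList rs = I :=
  gen_of_und hI h0 FN FP hminN hminP fun f w hw hwm =>
    hinj f.1 f.2 (end_main FN FP hminN hchar D c hc hE J hJ τ hτd hτ hτm f w hw hwm)

end VG
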