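import Pool.Agent.VG3.Fbas

/-!
Project VG3, module FFG: the functions `F` and `G` and the identity `φ v • F z = G (DX 0 z)`.

The trace property `str_bd` in levels zero and one, and contraction of a form of degree `d + 1`.
-/

open Matrix

namespace VG

universe u v

variable {R K V : Type u} [CommRing R] [Field K] [AddCommGroup V] [Module K V]
  {A X : Type v} [Fintype A] [Fintype X] (φ : R →+* K) (D : R →+ V) (σ : A → ℤ) (d : ℕ)
  {N : ℕ} (x : Fin N → R)

/-- the function `F` -/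
noncomputable def Ff (J : Fin N → Matrix X A R) (τ : Matrix X A R)
    (z : Matrix A X (ExteriorAlgebra K V) × Matrix A X (ExteriorAlgebra K V)) :
    ExteriorAlgebra K V :=
  ∑ i, str φ σ z.1 (J i) * io (D (x i)) - (-1 : ℤ) ^ d • str φ σ z.2 τ

/-- the function `G` -/
noncomputable def Gf (κ : Fin N → Matrix X A R) (ρ : Matrix X A R)
    (z : Matrix A X (ExteriorAlgebra K V) × Matrix A X (ExteriorAlgebra K V)) :
    ExteriorAlgebra K V :=
  -∑ i, str φ σ z.1 (κ i) * io (D (x i)) + (-1 : ℤ) ^ d • str φ σ z.2 ρ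

theorem FG_id (ε : V →ₗ[K] K) (n : Matrix A A R) (p : Matrix X X R)
    (hσ : ∀ a b, n a b ≠ 0 → σ b = -σ a) (hdeg : ∀ z ∈ Dgf K V (d + 1), z = 0)
    (w : Fin N → ℤ) (hx : ∀ i, ε (D (x i)) = ((w i : ℤ) : K) * φ (x i))
    (J κ : Fin N → Matrix X A R) (τ ρ : Matrix X A R) (v : R) {M : ℕ} (e : Fin N → Fin M → R)
    (B : Fin M → Matrix X A R) (he : ∀ l, ∑ i, φ (e i l) • D (x i) = 0)
    (hR2 : ∀ i, v • J i = p * κ i + κ i * n + ∑ l, e i l • B l)
    (hR3 : v • τ = ∑ i, (((w i : ℤ) : R) * x i) • κ i + (p * ρ - ρ * n))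
    (z : Matrix A X (ExteriorAlgebra K V) × Matrix A X (ExteriorAlgebra K V))
    (hz : ∀ a y, z.2 a y ∈ Dgf K V d) :
    φ v • Ff φ D σ d x J τ z = Gf φ D σ d x κ ρ (DX φ ε n p 0 z) := by
  -- the first component
  have h1 : ∀ i, str φ σ (bd φ n p 0 z.1) (κ i) =
      ∑ l, φ (e i l) • str φ σ z.1 (B l) - φ v • str φ σ z.1 (J i) := by
    intro i
    have h2 : p * κ i + κ i * n = v • J i - ∑ l, e i l • B l := by
      rw [hR2 i, add_sub_cancel_right]
    have h3 : ∑ l, str φ σ z.1 (e i l • B l) = ∑ l, φ (e i l) • str φ σ z.1 (B l) :=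
      Finset.sum_congr rfl fun l _ => str_smul_right φ σ z.1 _ _
    rw [str_bd φ σ n p hσ, pow_zero, one_smul, one_smul, h2, str_sub_right, str_smul_right,
      str_sum_right, h3, neg_sub]
  have h2 : ∑ i, (∑ l, φ (e i l) • str φ σ z.1 (B l)) * io (D (x i)) =
      (0 : ExteriorAlgebra K V) := by
    have h3 : ∀ i, (∑ l, φ (e i l) • str φ σ z.1 (B l)) * io (D (x i)) =
        ∑ l, str φ σ z.1 (B l) * io (φ (e i l) • D (x i)) := by
      intro i
      rw [Finset.sum_mul]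
      refine Finset.sum_congr rfl fun l _ => ?_
      rw [map_smul, mul_smul_comm, smul_mul_assoc]
    rw [Finset.sum_congr rfl fun i _ => h3 i, Finset.sum_comm]
    refine Finset.sum_eq_zero fun l _ => ?_
    rw [← Finset.mul_sum, ← map_sum, he l, map_zero, mul_zero]
  -- contraction
  have h3 : ∑ i, str φ σ (iM ε z.2) (κ i) * io (D (x i)) =
      -((-1 : ℤ) ^ d • ∑ i, φ (((w i : ℤ) : R) * x i) • str φ σ z.2 (κ i)) := by
    have h4 : ∑ i, str φ σ z.2 (κ i) * io (D (x i)) = (0 : ExteriorAlgebra K V) :=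
      hdeg _ (Submodule.sum_mem _ fun i _ => dgf_mul (str_dgf φ σ hz (κ i)) (dgf_io _))
    have h5 : iE ε (∑ i, str φ σ z.2 (κ i) * io (D (x i))) = 0 := by
      rw [h4, map_zero]
    rw [map_sum] at h5
    have h6 : ∀ i, iE ε (str φ σ z.2 (κ i) * io (D (x i))) =
        str φ σ (iM ε z.2) (κ i) * io (D (x i)) +
          (-1 : ℤ) ^ d • (φ (((w i : ℤ) : R) * x i) • str φ σ z.2 (κ i)) := by
      intro i
      rw [dgf_leib ε (str_dgf φ σ hz (κ i)), iE_str, iE_io, hx i]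
      congr 1
      have h7 : ∀ t : ExteriorAlgebra K V, ((-1 : K) ^ d) • t = ((-1 : ℤ) ^ d) • t := by
        intro t
        rcases Nat.even_or_odd d with h | h
        · rw [h.neg_one_pow, h.neg_one_pow, one_smul, one_smul]
        · rw [h.neg_one_pow, h.neg_one_pow, neg_smul, neg_smul, one_smul, one_smul]
      rw [h7, ← Algebra.commutes, ← Algebra.smul_def, map_mul, map_intCast]
    rw [Finset.sum_congr rfl fun i _ => h6 i, Finset.sum_add_distrib, ← Finset.smul_sum] at h5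
    exact eq_neg_of_add_eq_zero_left h5
  -- the second component
  have h4 : str φ σ (bd φ n p 1 z.2) ρ = str φ σ z.2 (p * ρ - ρ * n) := by
    rw [str_bd φ σ n p hσ, pow_one, neg_smul, one_smul, neg_smul, one_smul, neg_neg,
      ← sub_eq_add_neg]
  have h5 : φ v • str φ σ z.2 τ = ∑ i, φ (((w i : ℤ) : R) * x i) • str φ σ z.2 (κ i) +
      str φ σ z.2 (p * ρ - ρ * n) := by
    rw [← str_smul_right, hR3, str_add_right, str_sum_right]
    congr 1
    exact Finset.sum_congr rfl fun i _ => str_smul_right φ σ z.2 _ _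
  have h6 : ∑ i, str φ σ (bd φ n p 0 z.1 - iM ε z.2) (κ i) * io (D (x i)) =
      -(φ v • ∑ i, str φ σ z.1 (J i) * io (D (x i))) +
        (-1 : ℤ) ^ d • ∑ i, φ (((w i : ℤ) : R) * x i) • str φ σ z.2 (κ i) := by
    have h7 : ∀ i, str φ σ (bd φ n p 0 z.1 - iM ε z.2) (κ i) * io (D (x i)) =
        (∑ l, φ (e i l) • str φ σ z.1 (B l)) * io (D (x i)) -
          φ v • (str φ σ z.1 (J i) * io (D (x i))) -
          str φ σ (iM ε z.2) (κ i) * io (D (x i)) := by
      intro i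
      rw [str_sub, h1 i, sub_mul, sub_mul, smul_mul_assoc]
    rw [Finset.sum_congr rfl fun i _ => h7 i, Finset.sum_sub_distrib, Finset.sum_sub_distrib, h2,
      h3, ← Finset.smul_sum]
    abel
  have h8 : Gf φ D σ d x κ ρ (DX φ ε n p 0 z) =
      -∑ i, str φ σ (bd φ n p 0 z.1 - iM ε z.2) (κ i) * io (D (x i)) +
        (-1 : ℤ) ^ d • str φ σ (-bd φ n p 1 z.2) ρ := rfl
  have h9 : Ff φ D σ d x J τ z =
      ∑ i, str φ σ z.1 (J i) * io (D (x i)) - (-1 : ℤ) ^ d • str φ σ z.2 τ := rfl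
  rw [h8, h9, h6, str_neg, h4, smul_sub, smul_comm (φ v) ((-1 : ℤ) ^ d), h5, smul_add, smul_neg]
  abel

end VG
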