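import Pool.Agent.VG3.Fdef

/-!
Project VG3, module Fbas: rules for `bd`, `iM`, `lf`, `str`, `SP`, `DX`.
-/

open Matrix

namespace VG

universe u v w

variable {R K V : Type u} [CommRing R] [Field K] [AddCommGroup V] [Module K V]
  {A X : Type v} {ι : Type w}

section Entries

variable (ε : V →ₗ[K] K)

theorem iM_add (z z' : Matrix A X (ExteriorAlgebra K V)) : iM ε (z + z') = iM ε z + iM ε z' := by
  ext a x
  exact (iE ε).map_add (z a x) (z' a x)

theorem iM_sub (z z' : Matrix A X (ExteriorAlgebra K V)) : iM ε (z - z') = iM ε z - iM ε z' := by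
  ext a x
  exact (iE ε).map_sub (z a x) (z' a x)

theorem iM_neg (z : Matrix A X (ExteriorAlgebra K V)) : iM ε (-z) = -iM ε z := by
  ext a x
  exact (iE ε).map_neg (z a x)

theorem iM_zero : iM ε (0 : Matrix A X (ExteriorAlgebra K V)) = 0 := by
  ext a x
  exact (iE ε).map_zero

theorem iM_smul (c : K) (z : Matrix A X (ExteriorAlgebra K V)) : iM ε (c • z) = c • iM ε z := by
  ext a x
  exact (iE ε).map_smul c (z a x)

theorem iM_zsmul (c : ℤ) (z : Matrix A X (ExteriorAlgebra K V)) : iM ε (c • z) = c • iM ε z := by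
  ext a x
  exact map_zsmul (iE ε) c (z a x)

theorem iM_iM (z : Matrix A X (ExteriorAlgebra K V)) : iM ε (iM ε z) = 0 := by
  ext a x
  exact iE_iE _ _

theorem iM_lf {q : ℕ} {e : ExteriorAlgebra K V} (he : e ∈ Dgf K V q)
    (z : Matrix A X (ExteriorAlgebra K V)) :
    iM ε (lf e z) = lf (iE ε e) z + (-1 : K) ^ q • lf e (iM ε z) := by
  ext a x
  exact dgf_leib ε he _

theorem lf_zero (e : ExteriorAlgebra K V) : lf e (0 : Matrix A X (ExteriorAlgebra K V)) = 0 := by
  ext a x
  exact mul_zero _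

theorem lf_smul (e : ExteriorAlgebra K V) (c : K) (z : Matrix A X (ExteriorAlgebra K V)) :
    lf e (c • z) = c • lf e z := by
  ext a x
  exact mul_smul_comm c e (z a x)

theorem lf_mem {Q : Subring (ExteriorAlgebra K V)} {e : ExteriorAlgebra K V} (he : e ∈ Q)
    {z : Matrix A X (ExteriorAlgebra K V)} (hz : ∀ a x, z a x ∈ Q) (a : A) (x : X) :
    lf e z a x ∈ Q := Q.mul_mem he (hz a x)

theorem lf_dgf {q q' : ℕ} {e : ExteriorAlgebra K V} (he : e ∈ Dgf K V q)
    {z : Matrix A X (ExteriorAlgebra K V)} (hz : ∀ a x, z a x ∈ Dgf K V q') (a : A) (x : X) :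
    lf e z a x ∈ Dgf K V (q + q') := dgf_mul he (hz a x)

/-- additivity of `lf` in the form, packaged for `cob_map` -/
noncomputable def lfH (z : Matrix A X (ExteriorAlgebra K V)) :
    ExteriorAlgebra K V →+ Matrix A X (ExteriorAlgebra K V) where
  toFun e := lf e z
  map_zero' := by
    ext a x
    exact zero_mul _
  map_add' e e' := by
    ext a x
    exact add_mul _ _ _

theorem cob_lf (u : List ι → ExteriorAlgebra K V) (z : Matrix A X (ExteriorAlgebra K V))
    (L : List ι) : cob (fun L' => lf (u L') z) L = lf (cob u L) z := cob_map (lfH z) u L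

variable {gA : A → ℤ} {gX : X → ℤ}

theorem SP_iM {m : ℕ} {z : Matrix A X (ExteriorAlgebra K V)} (hz : SP gA gX m z) :
    SP gA gX m (iM ε z) := fun a x h => hz a x fun h0 => h (by
  show iE ε (z a x) = 0
  rw [h0, map_zero])

theorem SP_lf {m : ℕ} {z : Matrix A X (ExteriorAlgebra K V)} (hz : SP gA gX m z)
    (e : ExteriorAlgebra K V) : SP gA gX m (lf e z) := fun a x h => hz a x fun h0 => h (by
  show e * z a x = 0
  rw [h0, mul_zero])

theorem SP_zero {m : ℕ} : SP gA gX m (0 : Matrix A X (ExteriorAlgebra K V)) :=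
  fun _ _ h => absurd rfl h

theorem SP_add {m : ℕ} {z z' : Matrix A X (ExteriorAlgebra K V)} (hz : SP gA gX m z)
    (hz' : SP gA gX m z') : SP gA gX m (z + z') := fun a x h => by
  by_contra hc
  apply h
  have h1 : z a x = 0 := by
    by_contra h1
    exact hc (hz a x h1)
  have h2 : z' a x = 0 := by
    by_contra h2
    exact hc (hz' a x h2)
  show z a x + z' a x = 0
  rw [h1, h2, add_zero]

theorem SP_neg {m : ℕ} {z : Matrix A X (ExteriorAlgebra K V)} (hz : SP gA gX m z) :
    SP gA gX m (-z) := fun a x h => hz a x fun h0 => h (by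
  show -z a x = 0
  rw [h0, neg_zero])

theorem SP_sub {m : ℕ} {z z' : Matrix A X (ExteriorAlgebra K V)} (hz : SP gA gX m z)
    (hz' : SP gA gX m z') : SP gA gX m (z - z') := by
  rw [sub_eq_add_neg]
  exact SP_add hz (SP_neg hz')

theorem SP_smul {m : ℕ} {z : Matrix A X (ExteriorAlgebra K V)} (hz : SP gA gX m z) (c : K) :
    SP gA gX m (c • z) := fun a x h => hz a x fun h0 => h (by
  show c • z a x = 0
  rw [h0, smul_zero])

/-- the additive group of matrices of level `m` -/
def SPg (gA : A → ℤ) (gX : X → ℤ) (m : ℕ) : AddSubgroup (Matrix A X (ExteriorAlgebra K V)) where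
  carrier := {z | SP gA gX m z}
  zero_mem' := SP_zero
  add_mem' hz hz' := SP_add hz hz'
  neg_mem' hz := SP_neg hz

end Entries

section Bd

variable [Fintype A] [Fintype X] (φ : R →+* K) (ε : V →ₗ[K] K) (D : R →+ V) (n : Matrix A A R)
  (p : Matrix X X R)

omit [Fintype A] [Fintype X] in
theorem sm_mul {B C : Type v} [Fintype B] (M : Matrix A B R) (N : Matrix B C R) :
    sm V φ (M * N) = sm V φ M * sm V φ N := by
  show (M * N).map ((algebraMap K (ExteriorAlgebra K V)).comp φ) = _
  rw [Matrix.map_mul]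
  rfl

theorem sm_add {B C : Type v} (M N : Matrix B C R) : sm V φ (M + N) = sm V φ M + sm V φ N := by
  ext i j
  show algebraMap K (ExteriorAlgebra K V) (φ (M i j + N i j)) = _
  rw [map_add, map_add]
  rfl

theorem sm_zero {B C : Type v} : sm V φ (0 : Matrix B C R) = 0 := by
  ext i j
  show algebraMap K (ExteriorAlgebra K V) (φ 0) = _
  rw [map_zero, map_zero]
  rfl

theorem mul_sm_apply (z : Matrix A X (ExteriorAlgebra K V)) {B : Type v} (M : Matrix X B R) (a : A)
    (b : B) : (z * sm V φ M) a b = ∑ x, φ (M x b) • z a x := by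
  rw [Matrix.mul_apply]
  refine Finset.sum_congr rfl fun x _ => ?_
  show z a x * algebraMap K (ExteriorAlgebra K V) (φ (M x b)) = _
  rw [← Algebra.commutes, ← Algebra.smul_def]

theorem sm_mul_apply {B : Type v} (M : Matrix B A R) (z : Matrix A X (ExteriorAlgebra K V)) (b : B)
    (x : X) : (sm V φ M * z) b x = ∑ a, φ (M b a) • z a x := by
  rw [Matrix.mul_apply]
  refine Finset.sum_congr rfl fun a _ => ?_
  show algebraMap K (ExteriorAlgebra K V) (φ (M b a)) * z a x = _
  rw [← Algebra.smul_def]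

theorem bd_apply (m : ℕ) (z : Matrix A X (ExteriorAlgebra K V)) (a : A) (x : X) :
    bd φ n p m z a x = ∑ b, φ (n a b) • z b x - (-1 : ℤ) ^ m • ∑ y, φ (p y x) • z a y := by
  show (sm V φ n * z) a x - (-1 : ℤ) ^ m • (z * sm V φ p) a x = _
  rw [sm_mul_apply, mul_sm_apply]

theorem bd_add (m : ℕ) (z z' : Matrix A X (ExteriorAlgebra K V)) :
    bd φ n p m (z + z') = bd φ n p m z + bd φ n p m z' := by
  unfold bd
  rw [Matrix.mul_add, Matrix.add_mul, smul_add]
  abel

theorem bd_zero (m : ℕ) : bd φ n p m (0 : Matrix A X (ExteriorAlgebra K V)) = 0 := by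
  unfold bd
  rw [Matrix.mul_zero, Matrix.zero_mul, smul_zero, sub_zero]

/-- `bd` as an additive map -/
noncomputable def bdH (m : ℕ) :
    Matrix A X (ExteriorAlgebra K V) →+ Matrix A X (ExteriorAlgebra K V) where
  toFun z := bd φ n p m z
  map_zero' := bd_zero φ n p m
  map_add' z z' := bd_add φ n p m z z'

theorem bd_neg (m : ℕ) (z : Matrix A X (ExteriorAlgebra K V)) :
    bd φ n p m (-z) = -bd φ n p m z := map_neg (bdH φ n p m) z

theorem bd_sub (m : ℕ) (z z' : Matrix A X (ExteriorAlgebra K V)) :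
    bd φ n p m (z - z') = bd φ n p m z - bd φ n p m z' := map_sub (bdH φ n p m) z z'

theorem bd_zsmul (m : ℕ) (c : ℤ) (z : Matrix A X (ExteriorAlgebra K V)) :
    bd φ n p m (c • z) = c • bd φ n p m z := map_zsmul (bdH φ n p m) c z

theorem bd_smul (m : ℕ) (c : K) (z : Matrix A X (ExteriorAlgebra K V)) :
    bd φ n p m (c • z) = c • bd φ n p m z := by
  unfold bd
  rw [Matrix.mul_smul, Matrix.smul_mul, smul_sub, smul_comm c]

theorem bd_bd (hn : n * n = 0) (hp : p * p = 0) (m : ℕ) (z : Matrix A X (ExteriorAlgebra K V)) :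
    bd φ n p (m + 1) (bd φ n p m z) = 0 := by
  have h1 : sm V φ n * sm V φ n = 0 := by rw [← sm_mul, hn, sm_zero]
  have h2 : sm V φ p * sm V φ p = 0 := by rw [← sm_mul, hp, sm_zero]
  have h3 : sm V φ n * (sm V φ n * z) = 0 := by rw [← Matrix.mul_assoc, h1, Matrix.zero_mul]
  have h4 : z * sm V φ p * sm V φ p = 0 := by rw [Matrix.mul_assoc, h2, Matrix.mul_zero]
  unfold bd
  rw [Matrix.mul_sub, Matrix.sub_mul, Matrix.mul_smul, Matrix.smul_mul, h3, h4, smul_zero,
    ← Matrix.mul_assoc, pow_succ]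
  simp only [mul_neg, mul_one, neg_smul, sub_zero, zero_sub]
  abel

theorem iM_bd (m : ℕ) (z : Matrix A X (ExteriorAlgebra K V)) :
    iM ε (bd φ n p m z) = bd φ n p m (iM ε z) := by
  ext a x
  show iE ε (bd φ n p m z a x) = _
  rw [bd_apply, bd_apply, map_sub, map_zsmul, map_sum, map_sum]
  congr 1
  · exact Finset.sum_congr rfl fun b _ => map_smul _ _ _
  · congr 1
    exact Finset.sum_congr rfl fun b _ => map_smul _ _ _

theorem bd_lf (m : ℕ) (e : ExteriorAlgebra K V) (z : Matrix A X (ExteriorAlgebra K V)) :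
    bd φ n p m (lf e z) = lf e (bd φ n p m z) := by
  ext a x
  show _ = e * bd φ n p m z a x
  rw [bd_apply, bd_apply, mul_sub, mul_smul_comm, Finset.mul_sum, Finset.mul_sum]
  congr 1
  · exact Finset.sum_congr rfl fun b _ => (mul_smul_comm _ _ _).symm
  · congr 1
    exact Finset.sum_congr rfl fun b _ => (mul_smul_comm _ _ _).symm

theorem bd_mem {y : ι → R} {T : Set ι} {m : ℕ} {z : Matrix A X (ExteriorAlgebra K V)}
    (hz : ∀ a x, z a x ∈ OmT φ D y T) (a : A) (x : X) : bd φ n p m z a x ∈ OmT φ D y T := by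
  rw [bd_apply]
  refine Subring.sub_mem _ (Subring.sum_mem _ fun b _ => om_phi_smul φ D y T _ (hz b x)) ?_
  exact AddSubgroup.zsmul_mem (OmT φ D y T).toAddSubgroup
    (Subring.sum_mem _ fun b _ => om_phi_smul φ D y T _ (hz a b)) _

theorem bd_dgf {m q : ℕ} {z : Matrix A X (ExteriorAlgebra K V)}
    (hz : ∀ a x, z a x ∈ Dgf K V q) (a : A) (x : X) : bd φ n p m z a x ∈ Dgf K V q := by
  rw [bd_apply]
  refine Submodule.sub_mem _ (Submodule.sum_mem _ fun b _ => Submodule.smul_mem _ _ (hz b x)) ?_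
  exact AddSubgroup.zsmul_mem (Dgf K V q).toAddSubgroup
    (Submodule.sum_mem _ fun b _ => Submodule.smul_mem _ _ (hz a b)) _

variable {gA : A → ℤ} {gX : X → ℤ}

theorem SP_bd (hn : ∀ a b, n a b ≠ 0 → gA b = gA a + 1) (hp : ∀ x y, p x y ≠ 0 → gX y = gX x + 1)
    {m : ℕ} {z : Matrix A X (ExteriorAlgebra K V)} (hz : SP gA gX m z) :
    SP gA gX (m + 1) (bd φ n p m z) := by
  intro a x h
  rw [bd_apply] at h
  by_contra hc
  apply h
  rw [Finset.sum_eq_zero, Finset.sum_eq_zero, smul_zero, sub_zero]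
  · intro y _
    by_cases h1 : p y x = 0
    · rw [h1, map_zero, zero_smul]
    · by_cases h2 : z a y = 0
      · rw [h2, smul_zero]
      · exfalso
        apply hc
        rw [hp _ _ h1, hz _ _ h2]
        push_cast
        ring
  · intro b _
    by_cases h1 : n a b = 0
    · rw [h1, map_zero, zero_smul]
    · by_cases h2 : z b x = 0
      · rw [h2, smul_zero]
      · exfalso
        apply hc
        rw [hz _ _ h2, hn _ _ h1]
        push_cast
        ring

end Bd

section DX

variable [Fintype A] [Fintype X] (φ : R →+* K) (ε : V →ₗ[K] K) (n : Matrix A A R)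
  (p : Matrix X X R)

/-- `DX` as an additive map -/
noncomputable def dxH (m : ℕ) :
    Matrix A X (ExteriorAlgebra K V) × Matrix A X (ExteriorAlgebra K V) →+
      Matrix A X (ExteriorAlgebra K V) × Matrix A X (ExteriorAlgebra K V) where
  toFun z := DX φ ε n p m z
  map_zero' := by
    show (bd φ n p m 0 - iM ε 0, -bd φ n p (m + 1) 0) = 0
    rw [bd_zero, iM_zero, bd_zero, sub_zero, neg_zero]
    rfl
  map_add' z z' := by
    show (bd φ n p m (z.1 + z'.1) - iM ε (z.2 + z'.2), -bd φ n p (m + 1) (z.2 + z'.2)) =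
      (bd φ n p m z.1 - iM ε z.2 + (bd φ n p m z'.1 - iM ε z'.2),
        -bd φ n p (m + 1) z.2 + -bd φ n p (m + 1) z'.2)
    rw [bd_add, iM_add, bd_add]
    refine Prod.ext ?_ ?_
    · show bd φ n p m z.1 + bd φ n p m z'.1 - (iM ε z.2 + iM ε z'.2) =
        bd φ n p m z.1 - iM ε z.2 + (bd φ n p m z'.1 - iM ε z'.2)
      abel
    · show -(bd φ n p (m + 1) z.2 + bd φ n p (m + 1) z'.2) =
        -bd φ n p (m + 1) z.2 + -bd φ n p (m + 1) z'.2
      abel

theorem dx_add (m : ℕ) (z z' : Matrix A X (ExteriorAlgebra K V) × Matrix A X (ExteriorAlgebra K V)) :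
    DX φ ε n p m (z + z') = DX φ ε n p m z + DX φ ε n p m z' := map_add (dxH φ ε n p m) z z'

theorem dx_sub (m : ℕ) (z z' : Matrix A X (ExteriorAlgebra K V) × Matrix A X (ExteriorAlgebra K V)) :
    DX φ ε n p m (z - z') = DX φ ε n p m z - DX φ ε n p m z' := map_sub (dxH φ ε n p m) z z'

theorem dx_neg (m : ℕ) (z : Matrix A X (ExteriorAlgebra K V) × Matrix A X (ExteriorAlgebra K V)) :
    DX φ ε n p m (-z) = -DX φ ε n p m z := map_neg (dxH φ ε n p m) z

theorem dx_smul (m : ℕ) (c : K)
    (z : Matrix A X (ExteriorAlgebra K V) × Matrix A X (ExteriorAlgebra K V)) :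
    DX φ ε n p m (c • z) = c • DX φ ε n p m z := by
  show (bd φ n p m (c • z.1) - iM ε (c • z.2), -bd φ n p (m + 1) (c • z.2)) = _
  rw [bd_smul, iM_smul, bd_smul, ← smul_sub, ← smul_neg]
  rfl

theorem cob_dx (m : ℕ)
    (u : List ι → Matrix A X (ExteriorAlgebra K V) × Matrix A X (ExteriorAlgebra K V))
    (L : List ι) : cob (fun L' => DX φ ε n p m (u L')) L = DX φ ε n p m (cob u L) :=
  cob_map (dxH φ ε n p m) u L

omit [Fintype A] [Fintype X] in
theorem cob_fst (u : List ι → Matrix A X (ExteriorAlgebra K V) × Matrix A X (ExteriorAlgebra K V))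
    (L : List ι) : (cob u L).1 = cob (fun L' => (u L').1) L :=
  (cob_map (AddMonoidHom.fst _ _) u L).symm

omit [Fintype A] [Fintype X] in
theorem cob_snd (u : List ι → Matrix A X (ExteriorAlgebra K V) × Matrix A X (ExteriorAlgebra K V))
    (L : List ι) : (cob u L).2 = cob (fun L' => (u L').2) L :=
  (cob_map (AddMonoidHom.snd _ _) u L).symm

omit [Fintype A] [Fintype X] in
theorem cob_apply (u : List ι → Matrix A X (ExteriorAlgebra K V)) (L : List ι) (a : A) (x : X) :
    cob u L a x = cob (fun L' => u L' a x) L :=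
  (cob_map ((Pi.evalAddMonoidHom (fun _ : X => ExteriorAlgebra K V) x).comp
    (Pi.evalAddMonoidHom (fun _ : A => X → ExteriorAlgebra K V) a)) u L).symm

theorem dx_dx (hn : n * n = 0) (hp : p * p = 0) (m : ℕ)
    (z : Matrix A X (ExteriorAlgebra K V) × Matrix A X (ExteriorAlgebra K V)) :
    DX φ ε n p (m + 1) (DX φ ε n p m z) = 0 := by
  show (bd φ n p (m + 1) (bd φ n p m z.1 - iM ε z.2) - iM ε (-bd φ n p (m + 1) z.2),
    -bd φ n p (m + 1 + 1) (-bd φ n p (m + 1) z.2)) = 0
  rw [bd_sub, bd_bd φ n p hn hp, iM_neg, iM_bd, bd_neg, bd_bd φ n p hn hp]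
  ext1
  · show 0 - bd φ n p (m + 1) (iM ε z.2) - -bd φ n p (m + 1) (iM ε z.2) = 0
    abel
  · show - -(0 : Matrix A X (ExteriorAlgebra K V)) = 0
    rw [neg_zero, neg_zero]

end DX

section Str

variable [Fintype A] [Fintype X] (φ : R →+* K) (ε : V →ₗ[K] K) (D : R →+ V) (σ : A → ℤ)

theorem str_add (z z' : Matrix A X (ExteriorAlgebra K V)) (M : Matrix X A R) :
    str φ σ (z + z') M = str φ σ z M + str φ σ z' M := by
  unfold str
  rw [← Finset.sum_add_distrib]
  refine Finset.sum_congr rfl fun a _ => ?_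
  rw [← smul_add, ← Finset.sum_add_distrib]
  congr 1
  exact Finset.sum_congr rfl fun x _ => smul_add _ _ _

/-- `str` as an additive map of the first argument -/
noncomputable def strH (M : Matrix X A R) :
    Matrix A X (ExteriorAlgebra K V) →+ ExteriorAlgebra K V where
  toFun z := str φ σ z M
  map_zero' := by
    unfold str
    refine Finset.sum_eq_zero fun a _ => ?_
    have h : ∑ x, φ (M x a) • (0 : Matrix A X (ExteriorAlgebra K V)) a x = 0 :=
      Finset.sum_eq_zero fun x _ => smul_zero (φ (M x a))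
    rw [h, smul_zero]
  map_add' z z' := str_add φ σ z z' M

theorem str_zero_left (M : Matrix X A R) :
    str φ σ (0 : Matrix A X (ExteriorAlgebra K V)) M = 0 := map_zero (strH φ σ M)

theorem str_sub (z z' : Matrix A X (ExteriorAlgebra K V)) (M : Matrix X A R) :
    str φ σ (z - z') M = str φ σ z M - str φ σ z' M := map_sub (strH φ σ M) z z'

theorem str_neg (z : Matrix A X (ExteriorAlgebra K V)) (M : Matrix X A R) :
    str φ σ (-z) M = -str φ σ z M := map_neg (strH φ σ M) z

theorem cob_str (u : List ι → Matrix A X (ExteriorAlgebra K V)) (M : Matrix X A R) (L : List ι) :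
    cob (fun L' => str φ σ (u L') M) L = str φ σ (cob u L) M := cob_map (strH φ σ M) u L

theorem str_add_right (z : Matrix A X (ExteriorAlgebra K V)) (M M' : Matrix X A R) :
    str φ σ z (M + M') = str φ σ z M + str φ σ z M' := by
  unfold str
  rw [← Finset.sum_add_distrib]
  refine Finset.sum_congr rfl fun a _ => ?_
  rw [← smul_add, ← Finset.sum_add_distrib]
  congr 1
  refine Finset.sum_congr rfl fun x _ => ?_
  rw [Matrix.add_apply, map_add, add_smul]

theorem str_smul_right (z : Matrix A X (ExteriorAlgebra K V)) (r : R) (M : Matrix X A R) :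
    str φ σ z (r • M) = φ r • str φ σ z M := by
  unfold str
  rw [Finset.smul_sum]
  refine Finset.sum_congr rfl fun a _ => ?_
  have h : ∀ x, φ ((r • M) x a) • z a x = φ r • φ (M x a) • z a x := fun x => by
    rw [Matrix.smul_apply, smul_eq_mul, map_mul, mul_smul]
  rw [Finset.sum_congr rfl fun x _ => h x, ← Finset.smul_sum]
  exact smul_comm _ _ _

/-- `str` as an additive map of the second argument -/
noncomputable def strR (z : Matrix A X (ExteriorAlgebra K V)) :
    Matrix X A R →+ ExteriorAlgebra K V where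
  toFun M := str φ σ z M
  map_zero' := by
    have h := str_smul_right φ σ z 0 0
    rw [smul_zero, map_zero, zero_smul] at h
    exact h
  map_add' M M' := str_add_right φ σ z M M'

theorem str_sub_right (z : Matrix A X (ExteriorAlgebra K V)) (M M' : Matrix X A R) :
    str φ σ z (M - M') = str φ σ z M - str φ σ z M' := map_sub (strR φ σ z) M M'

theorem str_zsmul_right (z : Matrix A X (ExteriorAlgebra K V)) (c : ℤ) (M : Matrix X A R) :
    str φ σ z (c • M) = c • str φ σ z M := map_zsmul (strR φ σ z) c M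

theorem str_sum_right {κ : Type*} (s : Finset κ) (z : Matrix A X (ExteriorAlgebra K V))
    (M : κ → Matrix X A R) : str φ σ z (∑ l ∈ s, M l) = ∑ l ∈ s, str φ σ z (M l) :=
  map_sum (strR φ σ z) M s

theorem iE_str (z : Matrix A X (ExteriorAlgebra K V)) (M : Matrix X A R) :
    iE ε (str φ σ z M) = str φ σ (iM ε z) M := by
  unfold str
  rw [map_sum]
  refine Finset.sum_congr rfl fun a _ => ?_
  rw [map_zsmul, map_sum]
  congr 1
  refine Finset.sum_congr rfl fun x _ => ?_
  rw [map_smul]
  rfl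

theorem str_lf (e : ExteriorAlgebra K V) (z : Matrix A X (ExteriorAlgebra K V))
    (M : Matrix X A R) : str φ σ (lf e z) M = e * str φ σ z M := by
  unfold str
  rw [Finset.mul_sum]
  refine Finset.sum_congr rfl fun a _ => ?_
  rw [mul_smul_comm, Finset.mul_sum]
  congr 1
  refine Finset.sum_congr rfl fun x _ => ?_
  rw [mul_smul_comm]
  rfl

theorem str_mem {y : ι → R} {T : Set ι} {z : Matrix A X (ExteriorAlgebra K V)}
    (hz : ∀ a x, z a x ∈ OmT φ D y T) (M : Matrix X A R) : str φ σ z M ∈ OmT φ D y T :=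
  Subring.sum_mem _ fun a _ => AddSubgroup.zsmul_mem (OmT φ D y T).toAddSubgroup
    (Subring.sum_mem _ fun x _ => om_phi_smul φ D y T _ (hz a x)) _

theorem str_dgf {q : ℕ} {z : Matrix A X (ExteriorAlgebra K V)}
    (hz : ∀ a x, z a x ∈ Dgf K V q) (M : Matrix X A R) : str φ σ z M ∈ Dgf K V q :=
  Submodule.sum_mem _ fun a _ => AddSubgroup.zsmul_mem (Dgf K V q).toAddSubgroup
    (Submodule.sum_mem _ fun x _ => Submodule.smul_mem _ _ (hz a x)) _

/-- the trace property -/
theorem str_bd (n : Matrix A A R) (p : Matrix X X R) (hσ : ∀ a b, n a b ≠ 0 → σ b = -σ a)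
    (m : ℕ) (z : Matrix A X (ExteriorAlgebra K V)) (M : Matrix X A R) :
    str φ σ (bd φ n p m z) M =
      -((-1 : ℤ) ^ m • str φ σ z (p * M + (-1 : ℤ) ^ m • (M * n))) := by
  have e1 : str φ σ (sm V φ n * z) M = -str φ σ z (M * n) := by
    unfold str
    have h1 : ∀ a, σ a • ∑ x, φ (M x a) • (sm V φ n * z) a x =
        ∑ b, ∑ x, (σ a • (φ (M x a) * φ (n a b))) • z b x := by
      intro a
      rw [Finset.sum_comm, Finset.smul_sum]
      refine Finset.sum_congr rfl fun x _ => ?_
      rw [sm_mul_apply, Finset.smul_sum, Finset.smul_sum]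
      refine Finset.sum_congr rfl fun b _ => ?_
      rw [smul_smul, smul_assoc]
    have h2 : ∀ b, σ b • ∑ x, φ ((M * n) x b) • z b x =
        ∑ a, -∑ x, (σ a • (φ (M x a) * φ (n a b))) • z b x := by
      intro b
      rw [Finset.sum_neg_distrib, Finset.sum_comm, Finset.smul_sum, ← Finset.sum_neg_distrib]
      refine Finset.sum_congr rfl fun x _ => ?_
      rw [Matrix.mul_apply, map_sum, Finset.sum_smul, Finset.smul_sum, ← Finset.sum_neg_distrib]
      refine Finset.sum_congr rfl fun a _ => ?_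
      by_cases h0 : n a b = 0
      · rw [h0, mul_zero, map_zero, mul_zero, zero_smul, smul_zero, smul_zero, zero_smul, neg_zero]
      · rw [hσ a b h0, map_mul, smul_assoc, neg_smul]
    rw [Finset.sum_congr rfl fun a _ => h1 a, Finset.sum_congr rfl fun b _ => h2 b,
      Finset.sum_comm, ← Finset.sum_neg_distrib]
    refine Finset.sum_congr rfl fun b _ => ?_
    rw [Finset.sum_neg_distrib, neg_neg]
  have e2 : str φ σ (z * sm V φ p) M = str φ σ z (p * M) := by
    unfold str
    refine Finset.sum_congr rfl fun a _ => ?_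
    congr 1
    have h1 : ∀ x, φ (M x a) • (z * sm V φ p) a x = ∑ y, (φ (p y x) * φ (M x a)) • z a y := by
      intro x
      rw [mul_sm_apply, Finset.smul_sum]
      refine Finset.sum_congr rfl fun y _ => ?_
      rw [smul_smul, mul_comm]
    rw [Finset.sum_congr rfl fun x _ => h1 x, Finset.sum_comm]
    refine Finset.sum_congr rfl fun y _ => ?_
    rw [Matrix.mul_apply, map_sum, Finset.sum_smul]
    refine Finset.sum_congr rfl fun x _ => ?_
    rw [map_mul]
  have e3 : str φ σ ((-1 : ℤ) ^ m • (z * sm V φ p)) M = (-1 : ℤ) ^ m • str φ σ (z * sm V φ p) M :=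
    map_zsmul (strH φ σ M) _ _
  unfold bd
  rw [str_sub, e3, e1, e2, str_add_right, str_zsmul_right, smul_add, smul_smul, ← mul_pow]
  norm_num
  abel

end Str

end VG
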