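import Pool.Agent.VG3.Fpol

/-!
Project VG3, module Fbh: the forms `b_m` over the graded ring `A0`.
-/

open Matrix Polynomial

namespace VG

universe u v

section Aux

private theorem fbh_alg {S : Type u} [Ring S] {A X : Type v} [Fintype A] [Fintype X]
    (N N' : Matrix A A S) (P P' : Matrix X X S) (hN : N' * N + N * N' = 0)
    (hP : P' * P + P * P' = 0) (B : Matrix A X S) (s : ℤ) :
    -(N' * (N * B + s • (B * P))) + (N * B + s • (B * P)) * P' =
      N * (N' * B + B * P') + (-s) • ((N' * B + B * P') * P) := by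
  have h1 : N' * (N * B) = -(N * (N' * B)) := by
    rw [← Matrix.mul_assoc, ← Matrix.mul_assoc, ← Matrix.neg_mul]
    congr 1
    exact eq_neg_of_add_eq_zero_left hN
  have h2 : B * P * P' = -(B * P' * P) := by
    rw [Matrix.mul_assoc, Matrix.mul_assoc, ← Matrix.mul_neg]
    congr 1
    exact eq_neg_of_add_eq_zero_right hP
  rw [Matrix.mul_add, Matrix.mul_smul, Matrix.add_mul, Matrix.smul_mul, Matrix.mul_add,
    Matrix.add_mul, h1, h2, ← Matrix.mul_assoc N' B P, Matrix.mul_assoc N B P', neg_smul, smul_add,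
    smul_neg]
  abel

variable {Λ : Type u} [Ring Λ]

private noncomputable def fbhT : Polynomial Λ →+ Polynomial Λ where
  toFun := thP
  map_zero' := by
    refine Polynomial.ext fun e => ?_
    rw [thP_coeff, coeff_zero, smul_zero]
  map_add' f g := cf_add _ f g

private theorem fbh_th_mul {A B C : Type v} [Fintype B] (M : Matrix A B (Polynomial Λ))
    (M' : Matrix B C (Polynomial Λ)) :
    (M * M').map thP = M.map thP * M' + M * M'.map thP := by
  refine Matrix.ext fun a c => ?_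
  rw [Matrix.map_apply, Matrix.mul_apply, Matrix.add_apply, Matrix.mul_apply, Matrix.mul_apply,
    ← Finset.sum_add_distrib]
  refine (map_sum fbhT _ _).trans (Finset.sum_congr rfl fun b _ => ?_)
  exact thP_mul _ _

private theorem fbh_th_add {A B : Type v} (M M' : Matrix A B (Polynomial Λ)) :
    (M + M').map thP = M.map thP + M'.map thP := by
  refine Matrix.ext fun a c => ?_
  exact map_add fbhT _ _

private theorem fbh_th_zsmul {A B : Type v} (s : ℤ) (M : Matrix A B (Polynomial Λ)) :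
    (s • M).map thP = s • M.map thP := by
  refine Matrix.ext fun a c => ?_
  exact map_zsmul fbhT s _

private theorem fbh_eval (T : AddSubgroup Λ) (f : Polynomial Λ) (hf : ∀ e, f.coeff e ∈ T) :
    f.eval 1 ∈ T := by
  rw [Polynomial.eval_eq_sum, Polynomial.sum]
  refine AddSubgroup.sum_mem _ fun e _ => ?_
  rw [one_pow, mul_one]
  exact hf e

end Aux

section AuxK

variable {K V : Type u} [Field K] [AddCommGroup V] [Module K V] (ε : V →ₗ[K] K)

private noncomputable def fbhJ (f : Polynomial (ExteriorAlgebra K V)) :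
    Polynomial (ExteriorAlgebra K V) :=
  cf (fun e => DistribSMul.toAddMonoidHom (ExteriorAlgebra K V) ((e : K)⁻¹)) f

private theorem fbhJ_coeff (f : Polynomial (ExteriorAlgebra K V)) (e : ℕ) :
    (fbhJ f).coeff e = ((e : K)⁻¹) • f.coeff e := cf_coeff _ _ _

private theorem fbhJ_zero : fbhJ (0 : Polynomial (ExteriorAlgebra K V)) = 0 := by
  refine Polynomial.ext fun e => ?_
  rw [fbhJ_coeff, coeff_zero, smul_zero]

private theorem fbh_thJ [CharZero K] (f : Polynomial (ExteriorAlgebra K V)) (h0 : f.coeff 0 = 0) :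
    thP (fbhJ f) = f := by
  refine Polynomial.ext fun e => ?_
  rw [thP_coeff, fbhJ_coeff]
  rcases Nat.eq_zero_or_pos e with rfl | he
  · rw [h0, smul_zero, smul_zero]
  · have h1 : (e : K) ≠ 0 := Nat.cast_ne_zero.2 he.ne'
    rw [natCast_zsmul, ← Nat.cast_smul_eq_nsmul K, smul_smul, mul_inv_cancel₀ h1, one_smul]

private noncomputable def fbhI : Polynomial (ExteriorAlgebra K V) →+
    Polynomial (ExteriorAlgebra K V) where
  toFun := iP ε
  map_zero' := by
    refine Polynomial.ext fun e => ?_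
    rw [iP_coeff, coeff_zero, map_zero]
  map_add' f g := cf_add _ f g

private theorem fbh_iP_add {A B : Type v} (M M' : Matrix A B (Polynomial (ExteriorAlgebra K V))) :
    (M + M').map (iP ε) = M.map (iP ε) + M'.map (iP ε) := by
  refine Matrix.ext fun a c => ?_
  exact map_add (fbhI ε) _ _

private theorem fbh_th_iP {A B : Type v} (M : Matrix A B (Polynomial (ExteriorAlgebra K V))) :
    (M.map (iP ε)).map thP = (M.map thP).map (iP ε) := by
  refine Matrix.ext fun a c => ?_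
  refine Polynomial.ext fun e => ?_
  show (thP (iP ε (M a c))).coeff e = (iP ε (thP (M a c))).coeff e
  rw [thP_coeff, iP_coeff, iP_coeff, thP_coeff, map_zsmul]

private theorem fbh_ext [CharZero K] {A B : Type v}
    (M M' : Matrix A B (Polynomial (ExteriorAlgebra K V)))
    (h0 : ∀ a b, (M a b).coeff 0 = (M' a b).coeff 0) (h1 : M.map thP = M'.map thP) : M = M' := by
  refine Matrix.ext fun a b => Polynomial.ext fun e => ?_
  rcases Nat.eq_zero_or_pos e with rfl | he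
  · exact h0 a b
  · have h2 : (thP (M a b)).coeff e = (thP (M' a b)).coeff e := by
      have h3 : thP (M a b) = thP (M' a b) := congrFun (congrFun h1 a) b
      rw [h3]
    rw [thP_coeff, thP_coeff, natCast_zsmul, natCast_zsmul, ← Nat.cast_smul_eq_nsmul K,
      ← Nat.cast_smul_eq_nsmul K] at h2
    have h4 : (e : K) ≠ 0 := Nat.cast_ne_zero.2 he.ne'
    have h5 := congrArg (fun t => ((e : K)⁻¹) • t) h2
    simp only [smul_smul, inv_mul_cancel₀ h4, one_smul] at h5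
    exact h5

end AuxK

section AuxG

variable {k A0 K V : Type u} [Field k] [CommRing A0] [Algebra k A0] (𝒜 : ℤ → Submodule k A0)
  [GradedAlgebra 𝒜] [Field K] [AddCommGroup V] [Module K V] (φ : A0 →+* K) (D : A0 →+ V)
  (ε : V →ₗ[K] K)

private noncomputable def fbhP (V : Type u) [AddCommGroup V] [Module K V] :
    A0 →+ Polynomial (ExteriorAlgebra K V) where
  toFun := pP 𝒜 V φ
  map_zero' := by
    have h := pl_add 𝒜 (((algebraMap K (ExteriorAlgebra K V)).comp φ).toAddMonoidHom) 0 0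
    rw [add_zero] at h
    exact left_eq_add.1 h
  map_add' x y := pl_add 𝒜 _ x y

private noncomputable def fbhQ : A0 →+ Polynomial (ExteriorAlgebra K V) where
  toFun := pQ 𝒜 K D
  map_zero' := by
    have h := pl_add 𝒜 ((io (K := K) (V := V)).toAddMonoidHom.comp D) 0 0
    rw [add_zero] at h
    exact left_eq_add.1 h
  map_add' x y := pl_add 𝒜 _ x y

private theorem fbh_pQ_coeff (x : A0) (e : ℕ) :
    (pQ 𝒜 K D x).coeff e = io (D (gc 𝒜 (e : ℤ) x)) := pl_coeff 𝒜 _ x e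

private theorem fbh_pP_coeff (x : A0) (e : ℕ) :
    (pP 𝒜 V φ x).coeff e = algebraMap K (ExteriorAlgebra K V) (φ (gc 𝒜 (e : ℤ) x)) :=
  pl_coeff 𝒜 _ x e

private theorem fbh_NN (hC : Conn 𝒜) (leib : ∀ x z, D (x * z) = φ x • D z + φ z • D x)
    {A : Type v} [Fintype A] (n : Matrix A A A0) (hn : n * n = 0) :
    n.map (pQ 𝒜 K D) * n.map (pP 𝒜 V φ) + n.map (pP 𝒜 V φ) * n.map (pQ 𝒜 K D) = 0 := by
  refine Matrix.ext fun a c => ?_
  rw [Matrix.add_apply, Matrix.mul_apply, Matrix.mul_apply, ← Finset.sum_add_distrib]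
  have h1 : ∀ b, n.map (pQ 𝒜 K D) a b * n.map (pP 𝒜 V φ) b c +
      n.map (pP 𝒜 V φ) a b * n.map (pQ 𝒜 K D) b c = fbhQ 𝒜 D (n a b * n b c) := by
    intro b
    show pQ 𝒜 K D (n a b) * pP 𝒜 V φ (n b c) + pP 𝒜 V φ (n a b) * pQ 𝒜 K D (n b c) =
      pQ 𝒜 K D (n a b * n b c)
    rw [pQ_mul 𝒜 φ D hC leib, ← pP_comm, add_comm]
  rw [Finset.sum_congr rfl fun b _ => h1 b, ← map_sum]
  have h2 : ∑ b, n a b * n b c = 0 := by
    rw [← Matrix.mul_apply, hn]
    rfl
  rw [h2, map_zero]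
  rfl

private theorem fbh_iP_Q (heul : ∀ e x, x ∈ 𝒜 e → ε (D x) = ((e : ℤ) : K) * φ x)
    {A X : Type v} [Fintype A] (n : Matrix A A A0)
    (M : Matrix A X (Polynomial (ExteriorAlgebra K V))) :
    (n.map (pQ 𝒜 K D) * M).map (iP ε) =
      (n.map (pP 𝒜 V φ)).map thP * M - n.map (pQ 𝒜 K D) * M.map (iP ε) := by
  refine Matrix.ext fun a c => ?_
  rw [Matrix.map_apply, Matrix.mul_apply, Matrix.sub_apply, Matrix.mul_apply, Matrix.mul_apply,
    ← Finset.sum_sub_distrib]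
  refine (map_sum (fbhI ε) _ _).trans (Finset.sum_congr rfl fun b _ => ?_)
  exact iP_Q 𝒜 φ D ε heul _ _

private theorem fbh_iP_mulQ (heul : ∀ e x, x ∈ 𝒜 e → ε (D x) = ((e : ℤ) : K) * φ x)
    {A X : Type v} [Fintype X] (p : Matrix X X A0) (m : ℕ)
    (M : Matrix A X (Polynomial (ExteriorAlgebra K V)))
    (hM : ∀ a x e, (M a x).coeff e ∈ Dgf K V m) :
    (M * p.map (pQ 𝒜 K D)).map (iP ε) =
      M.map (iP ε) * p.map (pQ 𝒜 K D) + (-1 : ℤ) ^ m • (M * (p.map (pP 𝒜 V φ)).map thP) := by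
  refine Matrix.ext fun a c => ?_
  rw [Matrix.map_apply, Matrix.mul_apply, Matrix.add_apply, Matrix.smul_apply, Matrix.mul_apply,
    Matrix.mul_apply, Finset.smul_sum, ← Finset.sum_add_distrib]
  refine (map_sum (fbhI ε) _ _).trans (Finset.sum_congr rfl fun b _ => ?_)
  exact iP_mul_Q 𝒜 φ D ε heul _ m _ (hM a b)

variable (K) in
private noncomputable def fbhB {A X : Type v} [Fintype A] [Fintype X] [DecidableEq A]
    [DecidableEq X] (n : Matrix A A A0) (p : Matrix X X A0) (a0 : A) (x0 : X) :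
    ℕ → Matrix A X (Polynomial (ExteriorAlgebra K V))
  | 0 => Matrix.single a0 x0 1
  | m + 1 => (n.map (pQ 𝒜 K D) * fbhB n p a0 x0 m + fbhB n p a0 x0 m * p.map (pQ 𝒜 K D)).map fbhJ

private theorem fbh_step {A X : Type v} [Fintype A] [Fintype X] (n : Matrix A A A0)
    (p : Matrix X X A0) (T T' : AddSubgroup (ExteriorAlgebra K V))
    (B : Matrix A X (Polynomial (ExteriorAlgebra K V))) (hB : ∀ a x e, (B a x).coeff e ∈ T)
    (hl : ∀ r, ∀ t ∈ T, io (D r) * t ∈ T') (hr : ∀ r, ∀ t ∈ T, t * io (D r) ∈ T')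
    (hs : ∀ e : ℕ, ∀ t ∈ T', ((e : K)⁻¹) • t ∈ T') (a : A) (x : X) (e : ℕ) :
    (((n.map (pQ 𝒜 K D) * B + B * p.map (pQ 𝒜 K D)).map fbhJ) a x).coeff e ∈ T' := by
  rw [Matrix.map_apply, fbhJ_coeff]
  refine hs e _ ?_
  rw [Matrix.add_apply, Matrix.mul_apply, Matrix.mul_apply, coeff_add, finsetSum_coeff,
    finsetSum_coeff]
  refine AddSubgroup.add_mem _ (AddSubgroup.sum_mem _ fun b _ => ?_)
    (AddSubgroup.sum_mem _ fun y _ => ?_)
  · rw [coeff_mul]
    refine AddSubgroup.sum_mem _ fun q _ => ?_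
    rw [Matrix.map_apply, fbh_pQ_coeff]
    exact hl _ _ (hB b x _)
  · rw [coeff_mul]
    refine AddSubgroup.sum_mem _ fun q _ => ?_
    rw [Matrix.map_apply, fbh_pQ_coeff]
    exact hr _ _ (hB a y _)

variable {A X : Type v} [Fintype A] [Fintype X] [DecidableEq A] [DecidableEq X]
  (n : Matrix A A A0) (p : Matrix X X A0) (a0 : A) (x0 : X)

private theorem fbh_zero_cases (P : Polynomial (ExteriorAlgebra K V) → Prop) (h1 : P 1)
    (h0 : P 0) (a : A) (x : X) : P (fbhB K 𝒜 D n p a0 x0 0 a x) := by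
  show P (Matrix.single a0 x0 1 a x)
  by_cases h : a0 = a ∧ x0 = x
  · obtain ⟨rfl, rfl⟩ := h
    rw [Matrix.single_apply_same]
    exact h1
  · rw [Matrix.single_apply_of_ne _ _ _ _ _ h]
    exact h0

private theorem fbh_dgf (m : ℕ) : ∀ a x e, (fbhB K 𝒜 D n p a0 x0 m a x).coeff e ∈ Dgf K V m := by
  induction m with
  | zero =>
    intro a x e
    refine fbh_zero_cases 𝒜 D n p a0 x0 (fun f => f.coeff e ∈ Dgf K V 0) ?_ ?_ a x
    · show (1 : Polynomial (ExteriorAlgebra K V)).coeff e ∈ Dgf K V 0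
      rw [coeff_one]
      split_ifs
      · exact dgf_one
      · exact Submodule.zero_mem _
    · show (0 : Polynomial (ExteriorAlgebra K V)).coeff e ∈ Dgf K V 0
      rw [coeff_zero]
      exact Submodule.zero_mem _
  | succ m ih =>
    refine fbh_step 𝒜 D n p (Dgf K V m).toAddSubgroup (Dgf K V (m + 1)).toAddSubgroup _ ih
      ?_ ?_ ?_
    · intro r t ht
      have h := dgf_mul (dgf_io (K := K) (D r)) ht
      rw [add_comm] at h
      exact h
    · intro r t ht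
      exact dgf_mul ht (dgf_io (K := K) (D r))
    · intro e t ht
      exact Submodule.smul_mem _ _ ht

private theorem fbh_om [CharZero k] [CharZero K] (m : ℕ) :
    ∀ a x e, (fbhB K 𝒜 D n p a0 x0 m a x).coeff e ∈ Om0 φ D := by
  induction m with
  | zero =>
    intro a x e
    refine fbh_zero_cases 𝒜 D n p a0 x0 (fun f => f.coeff e ∈ Om0 φ D) ?_ ?_ a x
    · show (1 : Polynomial (ExteriorAlgebra K V)).coeff e ∈ Om0 φ D
      rw [coeff_one]
      split_ifs
      · exact Subring.one_mem _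
      · exact Subring.zero_mem _
    · show (0 : Polynomial (ExteriorAlgebra K V)).coeff e ∈ Om0 φ D
      rw [coeff_zero]
      exact Subring.zero_mem _
  | succ m ih =>
    refine fbh_step 𝒜 D n p (Om0 φ D).toAddSubgroup (Om0 φ D).toAddSubgroup _ ih ?_ ?_ ?_
    · intro r t ht
      exact (Om0 φ D).mul_mem (om_D φ D _ _ r) ht
    · intro r t ht
      exact (Om0 φ D).mul_mem ht (om_D φ D _ _ r)
    · intro e t ht
      have h1 : ((e : K)⁻¹) = φ (algebraMap k A0 ((e : k)⁻¹)) := by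
        have h2 := map_inv₀ (φ.comp (algebraMap k A0)) (e : k)
        rw [map_natCast] at h2
        exact h2.symm
      rw [h1]
      exact om_phi_smul φ D _ _ _ ht

private theorem fbh_sp (gA : A → ℤ) (gX : X → ℤ) (hnd : ∀ a b, n a b ≠ 0 → gA b = gA a + 1)
    (hpd : ∀ x y, p x y ≠ 0 → gX y = gX x + 1) (h0 : gX x0 = gA a0 + 1) (m : ℕ) :
    ∀ a x, gX x ≠ gA a + ((m + 1 : ℕ) : ℤ) → fbhB K 𝒜 D n p a0 x0 m a x = 0 := by
  induction m with
  | zero =>
    intro a x h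
    show Matrix.single a0 x0 (1 : Polynomial (ExteriorAlgebra K V)) a x = 0
    refine Matrix.single_apply_of_ne _ _ _ _ _ ?_
    rintro ⟨rfl, rfl⟩
    apply h
    rw [h0]
    norm_num
  | succ m ih =>
    intro a x h
    have h1 : (n.map (pQ 𝒜 K D) * fbhB K 𝒜 D n p a0 x0 m +
        fbhB K 𝒜 D n p a0 x0 m * p.map (pQ 𝒜 K D)) a x = 0 := by
      rw [Matrix.add_apply, Matrix.mul_apply, Matrix.mul_apply, Finset.sum_eq_zero,
        Finset.sum_eq_zero, add_zero]
      · intro y _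
        by_cases h2 : p y x = 0
        · rw [Matrix.map_apply, h2]
          have h3 : pQ 𝒜 K D 0 = 0 := map_zero (fbhQ 𝒜 D)
          rw [h3, mul_zero]
        · rw [ih a y ?_, zero_mul]
          intro h3
          apply h
          rw [hpd _ _ h2, h3]
          push_cast
          ring
      · intro b _
        by_cases h2 : n a b = 0
        · rw [Matrix.map_apply, h2]
          have h3 : pQ 𝒜 K D 0 = 0 := map_zero (fbhQ 𝒜 D)
          rw [h3, zero_mul]
        · rw [ih b x ?_, mul_zero]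
          intro h3
          apply h
          rw [h3, hnd _ _ h2]
          push_cast
          ring
    show fbhJ ((n.map (pQ 𝒜 K D) * fbhB K 𝒜 D n p a0 x0 m +
        fbhB K 𝒜 D n p a0 x0 m * p.map (pQ 𝒜 K D)) a x) = 0
    rw [h1, fbhJ_zero]

omit [DecidableEq A] in
private theorem fbh_c0 (hC : Conn 𝒜) (hni : ∀ a b, n a b ∈ irr 𝒜) {Y : Type v} (M : Matrix A Y
    (Polynomial (ExteriorAlgebra K V))) (a : A) (y : Y) :
    ((n.map (pQ 𝒜 K D) * M) a y).coeff 0 = 0 := by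
  rw [Matrix.mul_apply, finsetSum_coeff]
  refine Finset.sum_eq_zero fun b _ => ?_
  rw [mul_coeff_zero, Matrix.map_apply, fbh_pQ_coeff]
  have h1 : gc 𝒜 ((0 : ℕ) : ℤ) (n a b) = 0 := (irr_iff 𝒜 hC _).1 (hni a b)
  rw [h1, map_zero, map_zero, zero_mul]

omit [DecidableEq X] in
private theorem fbh_c1 (hC : Conn 𝒜) (hpi : ∀ x y, p x y ∈ irr 𝒜) {Y : Type v} (M : Matrix Y X
    (Polynomial (ExteriorAlgebra K V))) (y : Y) (x : X) :
    ((M * p.map (pQ 𝒜 K D)) y x).coeff 0 = 0 := by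
  rw [Matrix.mul_apply, finsetSum_coeff]
  refine Finset.sum_eq_zero fun b _ => ?_
  rw [mul_coeff_zero, Matrix.map_apply, fbh_pQ_coeff]
  have h1 : gc 𝒜 ((0 : ℕ) : ℤ) (p b x) = 0 := (irr_iff 𝒜 hC _).1 (hpi b x)
  rw [h1, map_zero, map_zero, mul_zero]

omit [DecidableEq A] in
private theorem fbh_c2 (hC : Conn 𝒜) (hni : ∀ a b, n a b ∈ irr 𝒜) {Y : Type v} (M : Matrix A Y
    (Polynomial (ExteriorAlgebra K V))) (a : A) (y : Y) :
    ((n.map (pP 𝒜 V φ) * M) a y).coeff 0 = 0 := by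
  rw [Matrix.mul_apply, finsetSum_coeff]
  refine Finset.sum_eq_zero fun b _ => ?_
  rw [mul_coeff_zero, Matrix.map_apply, fbh_pP_coeff]
  have h1 : gc 𝒜 ((0 : ℕ) : ℤ) (n a b) = 0 := (irr_iff 𝒜 hC _).1 (hni a b)
  rw [h1, map_zero, map_zero, zero_mul]

omit [DecidableEq X] in
private theorem fbh_c3 (hC : Conn 𝒜) (hpi : ∀ x y, p x y ∈ irr 𝒜) {Y : Type v} (M : Matrix Y X
    (Polynomial (ExteriorAlgebra K V))) (y : Y) (x : X) :
    ((M * p.map (pP 𝒜 V φ)) y x).coeff 0 = 0 := by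
  rw [Matrix.mul_apply, finsetSum_coeff]
  refine Finset.sum_eq_zero fun b _ => ?_
  rw [mul_coeff_zero, Matrix.map_apply, fbh_pP_coeff]
  have h1 : gc 𝒜 ((0 : ℕ) : ℤ) (p b x) = 0 := (irr_iff 𝒜 hC _).1 (hpi b x)
  rw [h1, map_zero, map_zero, mul_zero]

private theorem fbh_th [CharZero K] (hC : Conn 𝒜) (hni : ∀ a b, n a b ∈ irr 𝒜)
    (hpi : ∀ x y, p x y ∈ irr 𝒜) (m : ℕ) :
    (fbhB K 𝒜 D n p a0 x0 (m + 1)).map thP = n.map (pQ 𝒜 K D) * fbhB K 𝒜 D n p a0 x0 m +
        fbhB K 𝒜 D n p a0 x0 m * p.map (pQ 𝒜 K D) := by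
  refine Matrix.ext fun a x => ?_
  show thP (fbhJ ((n.map (pQ 𝒜 K D) * fbhB K 𝒜 D n p a0 x0 m +
        fbhB K 𝒜 D n p a0 x0 m * p.map (pQ 𝒜 K D)) a x)) = _
  refine fbh_thJ _ ?_
  rw [Matrix.add_apply, coeff_add, fbh_c0 𝒜 D n hC hni, fbh_c1 𝒜 D p hC hpi, add_zero]

private theorem fbh_claim [CharZero K] (hC : Conn 𝒜)
    (leib : ∀ x z, D (x * z) = φ x • D z + φ z • D x)
    (heul : ∀ e x, x ∈ 𝒜 e → ε (D x) = ((e : ℤ) : K) * φ x) (hn : n * n = 0)
    (hp : p * p = 0) (hni : ∀ a b, n a b ∈ irr 𝒜) (hpi : ∀ x y, p x y ∈ irr 𝒜) (m : ℕ) :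
    (fbhB K 𝒜 D n p a0 x0 (m + 1)).map (iP ε) = n.map (pP 𝒜 V φ) * fbhB K 𝒜 D n p a0 x0 m +
      (-1 : ℤ) ^ m • (fbhB K 𝒜 D n p a0 x0 m * p.map (pP 𝒜 V φ)) := by
  have hmain : ∀ m, -(n.map (pQ 𝒜 K D) * (fbhB K 𝒜 D n p a0 x0 m).map (iP ε)) +
      (fbhB K 𝒜 D n p a0 x0 m).map (iP ε) * p.map (pQ 𝒜 K D) =
      n.map (pP 𝒜 V φ) * (fbhB K 𝒜 D n p a0 x0 m).map thP +
        (-1 : ℤ) ^ m • ((fbhB K 𝒜 D n p a0 x0 m).map thP * p.map (pP 𝒜 V φ)) →
      (fbhB K 𝒜 D n p a0 x0 (m + 1)).map (iP ε) = n.map (pP 𝒜 V φ) * fbhB K 𝒜 D n p a0 x0 m +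
      (-1 : ℤ) ^ m • (fbhB K 𝒜 D n p a0 x0 m * p.map (pP 𝒜 V φ)) := by
    intro m hkey
    refine fbh_ext _ _ ?_ ?_
    · intro a x
      rw [Matrix.add_apply, coeff_add, fbh_c2 𝒜 φ n hC hni, Matrix.smul_apply, coeff_smul,
        fbh_c3 𝒜 φ p hC hpi, smul_zero, add_zero]
      show (iP ε (fbhJ _)).coeff 0 = 0
      rw [iP_coeff, fbhJ_coeff, Nat.cast_zero, _root_.inv_zero, zero_smul, map_zero]
    · rw [fbh_th_iP, fbh_th 𝒜 D n p a0 x0 hC hni hpi, fbh_iP_add, fbh_iP_Q 𝒜 φ D ε heul,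
        fbh_iP_mulQ 𝒜 φ D ε heul p m _ (fbh_dgf 𝒜 D n p a0 x0 m), fbh_th_add, fbh_th_zsmul,
        fbh_th_mul, fbh_th_mul, smul_add]
      obtain ⟨W1, hW1⟩ : ∃ W1, W1 = (n.map (pP 𝒜 V φ)).map thP * fbhB K 𝒜 D n p a0 x0 m := ⟨_, rfl⟩
      obtain ⟨W2, hW2⟩ : ∃ W2, W2 = (-1 : ℤ) ^ m • (fbhB K 𝒜 D n p a0 x0 m *
        (p.map (pP 𝒜 V φ)).map thP) := ⟨_, rfl⟩
      rw [← hW1, ← hW2]
      calc _ = W1 + W2 + (-(n.map (pQ 𝒜 K D) * (fbhB K 𝒜 D n p a0 x0 m).map (iP ε)) +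
            (fbhB K 𝒜 D n p a0 x0 m).map (iP ε) * p.map (pQ 𝒜 K D)) := by abel
        _ = _ := by
            rw [hkey]
            abel
  induction m with
  | zero =>
    refine hmain 0 ?_
    have h1 : (fbhB K 𝒜 D n p a0 x0 0).map (iP ε) = 0 := by
      refine Matrix.ext fun a x => ?_
      show iP ε (fbhB K 𝒜 D n p a0 x0 0 a x) = 0
      refine fbh_zero_cases 𝒜 D n p a0 x0 (fun f => iP ε f = 0) ?_ ?_ a x
      · refine Polynomial.ext fun e => ?_
        rw [iP_coeff, coeff_one, coeff_zero]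
        split_ifs
        · exact iE_one ε
        · exact map_zero _
      · exact map_zero (fbhI ε)
    have h2 : (fbhB K 𝒜 D n p a0 x0 0).map thP = 0 := by
      refine Matrix.ext fun a x => ?_
      show thP (fbhB K 𝒜 D n p a0 x0 0 a x) = 0
      refine fbh_zero_cases 𝒜 D n p a0 x0 (fun f => thP f = 0) ?_ ?_ a x
      · refine Polynomial.ext fun e => ?_
        rw [thP_coeff, coeff_one, coeff_zero]
        split_ifs with h
        · rw [h, Nat.cast_zero, zero_smul]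
        · exact smul_zero _
      · exact map_zero fbhT
    rw [h1, h2, Matrix.mul_zero, Matrix.zero_mul, Matrix.mul_zero, Matrix.zero_mul, smul_zero,
      neg_zero]
  | succ m ih =>
    refine hmain (m + 1) ?_
    rw [ih, fbh_th 𝒜 D n p a0 x0 hC hni hpi]
    have h1 : (-1 : ℤ) ^ (m + 1) = -((-1 : ℤ) ^ m) := by
      rw [pow_succ]
      ring
    rw [h1]
    exact fbh_alg _ _ _ _ (fbh_NN 𝒜 φ D hC leib n hn) (fbh_NN 𝒜 φ D hC leib p hp) _ _

end AuxG

theorem exists_bhat {k A0 K V : Type u} [Field k] [CharZero k] [CommRing A0] [Algebra k A0]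
    (𝒜 : ℤ → Submodule k A0) [GradedAlgebra 𝒜] (hC : Conn 𝒜) [Field K] [CharZero K]
    [AddCommGroup V] [Module K V] (φ : A0 →+* K) (D : A0 →+ V) (ε : V →ₗ[K] K)
    (leib : ∀ x z, D (x * z) = φ x • D z + φ z • D x)
    (heul : ∀ e x, x ∈ 𝒜 e → ε (D x) = ((e : ℤ) : K) * φ x)
    {A X : Type v} [Fintype A] [Fintype X] [DecidableEq A] [DecidableEq X]
    (gA : A → ℤ) (gX : X → ℤ) (n : Matrix A A A0) (p : Matrix X X A0) (hn : n * n = 0)
    (hp : p * p = 0) (hnd : ∀ a b, n a b ≠ 0 → gA b = gA a + 1)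
    (hpd : ∀ x y, p x y ≠ 0 → gX y = gX x + 1) (hni : ∀ a b, n a b ∈ irr 𝒜)
    (hpi : ∀ x y, p x y ∈ irr 𝒜) (a0 : A) (x0 : X) (h0 : gX x0 = gA a0 + 1) :
    ∃ b : ℕ → Matrix A X (ExteriorAlgebra K V), b 0 = Matrix.single a0 x0 1 ∧
      (∀ m, bd φ n p (m + 1) (b m) = iM ε (b (m + 1))) ∧
      (∀ m a x, b m a x ∈ Om0 φ D) ∧ (∀ m a x, b m a x ∈ Dgf K V m) ∧
      ∀ m, SP gA gX (m + 1) (b m) := by
  classical
  refine ⟨fun m => (fbhB K 𝒜 D n p a0 x0 m).map fun f => f.eval 1, ?_, ?_, ?_, ?_, ?_⟩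
  · refine Matrix.ext fun a x => ?_
    show (Matrix.single a0 x0 (1 : Polynomial (ExteriorAlgebra K V)) a x).eval 1 =
      Matrix.single a0 x0 1 a x
    by_cases h : a0 = a ∧ x0 = x
    · obtain ⟨rfl, rfl⟩ := h
      rw [Matrix.single_apply_same, Matrix.single_apply_same, eval_one]
    · rw [Matrix.single_apply_of_ne _ _ _ _ _ h, Matrix.single_apply_of_ne _ _ _ _ _ h, eval_zero]
  · intro m
    refine Matrix.ext fun a x => ?_
    have h1 : iP ε (fbhB K 𝒜 D n p a0 x0 (m + 1) a x) = (n.map (pP 𝒜 V φ) *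
        fbhB K 𝒜 D n p a0 x0 m) a x +
        (-1 : ℤ) ^ m • (fbhB K 𝒜 D n p a0 x0 m * p.map (pP 𝒜 V φ)) a x :=
      congrFun (congrFun (fbh_claim 𝒜 φ D ε n p a0 x0 hC leib heul hn hp hni hpi m) a) x
    have h2 := congrArg (Polynomial.eval 1) h1
    have h3 : ∀ (s : ℤ) (f : Polynomial (ExteriorAlgebra K V)), (s • f).eval 1 = s • f.eval 1 :=
      fun s f => map_zsmul (AddMonoidHom.mk' (Polynomial.eval (1 : ExteriorAlgebra K V))
        fun _ _ => eval_add) s f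
    rw [iP_ev, eval_add, h3, Matrix.mul_apply, Matrix.mul_apply, eval_finsetSum,
      eval_finsetSum] at h2
    show (sm V φ n * (fbhB K 𝒜 D n p a0 x0 m).map fun f => f.eval 1) a x -
      (-1 : ℤ) ^ (m + 1) • (((fbhB K 𝒜 D n p a0 x0 m).map fun f => f.eval 1) * sm V φ p) a x =
      iE ε ((fbhB K 𝒜 D n p a0 x0 (m + 1) a x).eval 1)
    rw [h2, Matrix.mul_apply, Matrix.mul_apply, pow_succ, mul_neg_one, neg_smul, sub_neg_eq_add]
    congr 1
    · refine Finset.sum_congr rfl fun b _ => ?_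
      rw [ev_mul]
      congr 1
      exact (pP_ev 𝒜 φ hC _).symm
    · congr 1
      refine Finset.sum_congr rfl fun b _ => ?_
      rw [ev_mul]
      congr 1
      exact (pP_ev 𝒜 φ hC _).symm
  · intro m a x
    exact fbh_eval (Om0 φ D).toAddSubgroup _ (fbh_om 𝒜 φ D n p a0 x0 m a x)
  · intro m a x
    exact fbh_eval (Dgf K V m).toAddSubgroup _ (fbh_dgf 𝒜 D n p a0 x0 m a x)
  · intro m a x h
    by_contra hc
    apply h
    show (fbhB K 𝒜 D n p a0 x0 m a x).eval 1 = 0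
    rw [fbh_sp 𝒜 D n p a0 x0 gA gX hnd hpd h0 m a x hc, eval_zero]

end VG
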