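import Pool.Agent.VG3.Fbas

/-!
Project VG3, module Fctr: the contraction step.

`z` is a cocycle of level `m + 1`, `s` a contraction homotopy of `p` (times `y`) in degrees `≥ m + 1`.
Then `z = DX m ((-1)^(m+1) y⁻¹ (z s))`.

`bd m (z s) = (bd (m + 1) z) s + (-1) ^ (m + 1) z (p s + s p)`.
-/

open Matrix

namespace VG

universe u v w

variable {R K V : Type u} [CommRing R] [Field K] [AddCommGroup V] [Module K V]
  {A X : Type v} {ι : Type w} [Fintype A] [Fintype X] [DecidableEq X]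

omit [DecidableEq X] in
private theorem bd_s (φ : R →+* K) (n : Matrix A A R) (p s : Matrix X X R) (m : ℕ)
    (z : Matrix A X (ExteriorAlgebra K V)) :
    bd φ n p m (z * sm V φ s) = bd φ n p (m + 1) z * sm V φ s +
      (-1 : ℤ) ^ (m + 1) • (z * sm V φ (p * s + s * p)) := by
  unfold bd
  rw [sm_add, sm_mul, sm_mul, Matrix.sub_mul, Matrix.mul_add, Matrix.smul_mul, smul_add,
    Matrix.mul_assoc, Matrix.mul_assoc, Matrix.mul_assoc, pow_succ]
  simp only [mul_neg, mul_one, neg_smul]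
  abel

private theorem mul_hs (φ : R →+* K) (p s : Matrix X X R) (gX : X → ℤ) (m : ℤ) (y : R)
    (hs : ∀ x x', m ≤ gX x → (p * s + s * p) x x' = if x = x' then y else 0)
    (z : Matrix A X (ExteriorAlgebra K V)) (hz : ∀ a x, z a x ≠ 0 → m ≤ gX x) :
    z * sm V φ (p * s + s * p) = φ y • z := by
  ext a x'
  rw [mul_sm_apply, Finset.sum_eq_single x']
  · by_cases h : z a x' = 0
    · rw [h, smul_zero, Matrix.smul_apply, h, smul_zero]
    · rw [hs x' x' (hz a x' h), if_pos rfl]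
      rfl
  · intro x _ hx
    by_cases h : z a x = 0
    · rw [h, smul_zero]
    · rw [hs x x' (hz a x h), if_neg hx, map_zero, zero_smul]
  · intro h
    exact absurd (Finset.mem_univ _) h

omit [DecidableEq X] in
private theorem iM_s (φ : R →+* K) (ε : V →ₗ[K] K) (s : Matrix X X R)
    (z : Matrix A X (ExteriorAlgebra K V)) : iM ε (z * sm V φ s) = iM ε z * sm V φ s := by
  ext a x
  show iE ε ((z * sm V φ s) a x) = _
  rw [mul_sm_apply, mul_sm_apply, map_sum]
  exact Finset.sum_congr rfl fun y _ => map_smul _ _ _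

theorem ctr3 (φ : R →+* K) (ε : V →ₗ[K] K) (n : Matrix A A R) (p : Matrix X X R)
    (gA : A → ℤ) (gX : X → ℤ) (hgA : ∀ a, 0 ≤ gA a) (m : ℕ)
    (z : Matrix A X (ExteriorAlgebra K V) × Matrix A X (ExteriorAlgebra K V))
    (h1 : SP gA gX (m + 1) z.1) (h2 : SP gA gX (m + 1 + 1) z.2) (hz : DX φ ε n p (m + 1) z = 0)
    (y : R) (hy : φ y ≠ 0) (s : Matrix X X R)
    (hs : ∀ x x', ((m + 1 : ℕ) : ℤ) ≤ gX x → (p * s + s * p) x x' = if x = x' then y else 0) :
    DX φ ε n p m (((-1 : K) ^ (m + 1) * (φ y)⁻¹) • (z.1 * sm V φ s, z.2 * sm V φ s)) = z := by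
  have hz1 : bd φ n p (m + 1) z.1 - iM ε z.2 = 0 := congrArg Prod.fst hz
  have hz2 : bd φ n p (m + 1 + 1) z.2 = 0 := by
    have h3 : -bd φ n p (m + 1 + 1) z.2 = 0 := congrArg Prod.snd hz
    exact neg_eq_zero.1 h3
  have e1 : z.1 * sm V φ (p * s + s * p) = φ y • z.1 :=
    mul_hs φ p s gX _ y hs z.1 fun a x h => by
      have h3 := h1 a x h
      have h4 := hgA a
      push_cast at h3 ⊢
      omega
  have e2 : z.2 * sm V φ (p * s + s * p) = φ y • z.2 :=
    mul_hs φ p s gX _ y hs z.2 fun a x h => by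
      have h3 := h2 a x h
      have h4 := hgA a
      push_cast at h3 ⊢
      omega
  have hc : ∀ t : Matrix A X (ExteriorAlgebra K V),
      ((-1 : K) ^ (m + 1) * (φ y)⁻¹) • ((-1 : ℤ) ^ (m + 1) • (φ y • t)) = t := by
    intro t
    have h3 : (-1 : ℤ) ^ (m + 1) • (φ y • t) = ((-1 : K) ^ (m + 1)) • (φ y • t) := by
      rcases Nat.even_or_odd (m + 1) with h | h
      · rw [h.neg_one_pow, h.neg_one_pow, one_smul, one_smul]
      · rw [h.neg_one_pow, h.neg_one_pow, neg_smul, neg_smul, one_smul, one_smul]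
    have h4 : ((-1 : K) ^ (m + 1)) * (-1 : K) ^ (m + 1) = 1 := by
      rw [← mul_pow]
      norm_num
    rw [h3, smul_smul, smul_smul]
    have h5 : (-1 : K) ^ (m + 1) * (φ y)⁻¹ * (-1 : K) ^ (m + 1) * φ y =
        ((-1 : K) ^ (m + 1) * (-1 : K) ^ (m + 1)) * ((φ y)⁻¹ * φ y) := by
      ring
    rw [h5, h4, inv_mul_cancel₀ hy, mul_one, one_smul]
  rw [dx_smul]
  refine Prod.ext ?_ ?_
  · show ((-1 : K) ^ (m + 1) * (φ y)⁻¹) • (bd φ n p m (z.1 * sm V φ s) - iM ε (z.2 * sm V φ s)) = z.1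
    rw [bd_s, iM_s, e1]
    have h3 : bd φ n p (m + 1) z.1 * sm V φ s + (-1 : ℤ) ^ (m + 1) • (φ y • z.1) -
        iM ε z.2 * sm V φ s = (bd φ n p (m + 1) z.1 - iM ε z.2) * sm V φ s +
          (-1 : ℤ) ^ (m + 1) • (φ y • z.1) := by
      rw [Matrix.sub_mul]
      abel
    rw [h3, hz1, Matrix.zero_mul, zero_add, hc]
  · show ((-1 : K) ^ (m + 1) * (φ y)⁻¹) • (-bd φ n p (m + 1) (z.2 * sm V φ s)) = z.2
    rw [bd_s, hz2, e2, Matrix.zero_mul, zero_add, pow_succ (-1 : ℤ) (m + 1), mul_neg, mul_one,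
      neg_smul, neg_neg, hc]

/-- closure properties of the contraction -/
theorem ctr3_mem (φ : R →+* K) (D : R →+ V) (gA : A → ℤ) (gX : X → ℤ) (u : ι → R) (T : Set ι)
    (m q : ℕ) (z : Matrix A X (ExteriorAlgebra K V)) (s : Matrix X X R)
    (hs : ∀ x x', s x x' ≠ 0 → gX x = gX x' + 1) (c : K) :
    (SP gA gX (m + 1) z → SP gA gX m (c • (z * sm V φ s))) ∧
    ((∀ a x, z a x ∈ OmT φ D u T) → c ∈ BT φ u T → ∀ a x, (c • (z * sm V φ s)) a x ∈ OmT φ D u T) ∧
    ((∀ a x, z a x ∈ Dgf K V q) → ∀ a x, (c • (z * sm V φ s)) a x ∈ Dgf K V q) := by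
  refine ⟨fun hz a x h => ?_, fun hz hc a x => ?_, fun hz a x => ?_⟩
  · rw [Matrix.smul_apply, mul_sm_apply] at h
    obtain ⟨y, _, hy⟩ := Finset.exists_ne_zero_of_sum_ne_zero (right_ne_zero_of_smul h)
    have h1 : s y x ≠ 0 := fun h0 => hy (by rw [h0, map_zero, zero_smul])
    have h2 := hz a y (right_ne_zero_of_smul hy)
    have h3 := hs y x h1
    push_cast at h2
    linarith
  · rw [Matrix.smul_apply, mul_sm_apply]
    exact om_smul φ D u T hc (Subring.sum_mem _ fun y _ => om_phi_smul φ D u T _ (hz a y))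
  · rw [Matrix.smul_apply, mul_sm_apply]
    exact Submodule.smul_mem _ _ (Submodule.sum_mem _ fun y _ => Submodule.smul_mem _ _ (hz a y))

end VG
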