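import Pool.Agent.VG2.Vm

/-!
Project VG3 (MP_c5773f_ag, Q1 for EVERY N over quasi-homogeneous rings of characteristic 0),
definitions for the part with forms.

`n` (rows and columns indexed by `A`) and `p` (rows and columns indexed by `X`) are the matrices
of the differentials of the finite minimal free resolutions of `N` and of `P = Hom(I/I^2, N)`;
`gA`, `gX` are the degrees of the basis elements; `n a b ≠ 0 → gA b = gA a + 1`, the same for `p`.
Matrices `z : A × X` with entries in the exterior algebra are maps `P → N`; level `m`: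
`z a x ≠ 0 → gX x = gA a + m`.
-/

open Matrix

namespace VG

universe u v w

section Defs

variable {R K V : Type u} [CommRing R] [Field K] [AddCommGroup V] [Module K V]
  {A X B : Type v} {ι : Type w}

/-- scalar matrix -/
noncomputable def sm (V : Type u) [AddCommGroup V] [Module K V] (φ : R →+* K)
    (M : Matrix A X R) : Matrix A X (ExteriorAlgebra K V) :=
  M.map fun r => algebraMap K (ExteriorAlgebra K V) (φ r)

/-- matrix of one-forms `D (M a x)` -/
noncomputable def dm (K : Type u) {V : Type u} [Field K] [AddCommGroup V] [Module K V]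
    (D : R →+ V) (M : Matrix A X R) : Matrix A X (ExteriorAlgebra K V) :=
  M.map fun r => io (D r)

/-- the differential on matrices of forms -/
noncomputable def bd [Fintype A] [Fintype X] (φ : R →+* K) (n : Matrix A A R) (p : Matrix X X R)
    (m : ℕ) (z : Matrix A X (ExteriorAlgebra K V)) : Matrix A X (ExteriorAlgebra K V) :=
  sm V φ n * z - (-1 : ℤ) ^ m • (z * sm V φ p)

/-- contraction on the entries -/
noncomputable def iM (ε : V →ₗ[K] K) (z : Matrix A X (ExteriorAlgebra K V)) :
    Matrix A X (ExteriorAlgebra K V) := z.map fun t => iE ε t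

/-- left multiplication of all entries by a form -/
noncomputable def lf (e : ExteriorAlgebra K V) (z : Matrix A X (ExteriorAlgebra K V)) :
    Matrix A X (ExteriorAlgebra K V) := z.map fun t => e * t

/-- level `m` -/
def SP (gA : A → ℤ) (gX : X → ℤ) (m : ℕ) (z : Matrix A X (ExteriorAlgebra K V)) : Prop :=
  ∀ a x, z a x ≠ 0 → gX x = gA a + m

/-- the supertrace of `z M` -/
noncomputable def str [Fintype A] [Fintype X] (φ : R →+* K) (σ : A → ℤ)
    (z : Matrix A X (ExteriorAlgebra K V)) (M : Matrix X A R) : ExteriorAlgebra K V :=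
  ∑ a, σ a • ∑ x, φ (M x a) • z a x

/-- contraction homotopies in degrees `≥ m` -/
def CBp [Fintype X] [DecidableEq X] (gX : X → ℤ) (p : Matrix X X R) (m : ℕ) (y : R) : Prop :=
  ∃ s : Matrix X X R, (∀ x x', s x x' ≠ 0 → gX x = gX x' + 1) ∧
    ∀ x x', (m : ℤ) ≤ gX x → (p * s + s * p) x x' = if x = x' then y else 0

/-- the differential on pairs -/
noncomputable def DX [Fintype A] [Fintype X] (φ : R →+* K) (ε : V →ₗ[K] K) (n : Matrix A A R)
    (p : Matrix X X R) (m : ℕ)
    (z : Matrix A X (ExteriorAlgebra K V) × Matrix A X (ExteriorAlgebra K V)) :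
    Matrix A X (ExteriorAlgebra K V) × Matrix A X (ExteriorAlgebra K V) :=
  (bd φ n p m z.1 - iM ε z.2, - bd φ n p (m + 1) z.2)

/-- the cochains `zeta` -/
noncomputable def zt (b : ℕ → Matrix A X (ExteriorAlgebra K V)) (lam : ι → V) :
    ℕ → List ι → Matrix A X (ExteriorAlgebra K V) × Matrix A X (ExteriorAlgebra K V)
  | 0, L => (0, lf (mu lam L) (b 0))
  | m + 1, L => (lf (mu lam L) (b m), lf (mu lam L) (b (m + 1)))

/-- the additive group of the sums of regular forms, each of them regular with denominators in all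
but one of the `y b` -/
noncomputable def Bsub (φ : R →+* K) (D : R →+ V) (y : ι → R) :
    AddSubgroup (ExteriorAlgebra K V) :=
  ⨆ a : ι, (OmT φ D y {b | b ≠ a}).toAddSubgroup

/-- regular forms (no denominators) -/
noncomputable def Om0 (φ : R →+* K) (D : R →+ V) : Subring (ExteriorAlgebra K V) :=
  OmT φ D (Fin.elim0 : Fin 0 → R) ∅

end Defs

section OmLemmas

variable {R K V : Type u} [CommRing R] [Field K] [AddCommGroup V] [Module K V] {ι : Type w}

theorem omT_mono (φ : R →+* K) (D : R →+ V) (y : ι → R) {S T : Set ι} (h : S ⊆ T) :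
    OmT φ D y S ≤ OmT φ D y T := by
  unfold OmT
  apply Subring.closure_mono
  rintro x ((hx | ⟨t, ht, hx⟩) | hx)
  · exact Or.inl (Or.inl hx)
  · exact Or.inl (Or.inr ⟨t, h ht, hx⟩)
  · exact Or.inr hx

theorem bT_mono (φ : R →+* K) (y : ι → R) {S T : Set ι} (h : S ⊆ T) :
    BT φ y S ≤ BT φ y T := by
  unfold BT
  apply Subring.closure_mono
  rintro x (hx | ⟨t, ht, hx⟩)
  · exact Or.inl hx
  · exact Or.inr ⟨t, h ht, hx⟩

theorem om0_le (φ : R →+* K) (D : R →+ V) (y : ι → R) (T : Set ι) :
    Om0 φ D ≤ OmT φ D y T := by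
  unfold Om0 OmT
  apply Subring.closure_mono
  rintro x ((hx | ⟨t, ht, hx⟩) | hx)
  · exact Or.inl (Or.inl hx)
  · exact absurd ht (Set.notMem_empty t)
  · exact Or.inr hx

theorem om_phi (φ : R →+* K) (D : R →+ V) (y : ι → R) (T : Set ι) (q : R) :
    algebraMap K (ExteriorAlgebra K V) (φ q) ∈ OmT φ D y T :=
  Subring.subset_closure (Or.inl (Or.inl ⟨q, rfl⟩))

theorem om_D (φ : R →+* K) (D : R →+ V) (y : ι → R) (T : Set ι) (q : R) :
    io (D q) ∈ OmT φ D y T :=
  Subring.subset_closure (Or.inr ⟨q, rfl⟩)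

theorem om_inv (φ : R →+* K) (D : R →+ V) (y : ι → R) {T : Set ι} {t : ι} (ht : t ∈ T) :
    algebraMap K (ExteriorAlgebra K V) (φ (y t))⁻¹ ∈ OmT φ D y T :=
  Subring.subset_closure (Or.inl (Or.inr ⟨t, ht, rfl⟩))

theorem om_phi_smul (φ : R →+* K) (D : R →+ V) (y : ι → R) (T : Set ι) (q : R)
    {z : ExteriorAlgebra K V} (hz : z ∈ OmT φ D y T) : φ q • z ∈ OmT φ D y T :=
  om_smul φ D y T (Subring.subset_closure (Or.inl ⟨q, rfl⟩)) hz

theorem le_bsub (φ : R →+* K) (D : R →+ V) (y : ι → R) (a : ι) {z : ExteriorAlgebra K V}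
    (hz : z ∈ OmT φ D y {b | b ≠ a}) : z ∈ Bsub φ D y :=
  (le_iSup (fun a : ι => (OmT φ D y {b | b ≠ a}).toAddSubgroup) a) hz

theorem bsub_smul (φ : R →+* K) (D : R →+ V) (y : ι → R) (q : R) {z : ExteriorAlgebra K V}
    (hz : z ∈ Bsub φ D y) : φ q • z ∈ Bsub φ D y := by
  have h1 : Bsub φ D y ≤ (Bsub φ D y).comap
      (DistribSMul.toAddMonoidHom (ExteriorAlgebra K V) (φ q)) := by
    refine iSup_le fun a => ?_
    intro x hx
    exact le_bsub φ D y a (om_phi_smul φ D y _ q hx)
  exact h1 hz

/-- a sublist of `finRange d` of length `d - 1` misses an element -/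
theorem miss {d : ℕ} (L : List (Fin d)) (hL : L.Nodup) (hl : L.length + 1 = d) :
    ∃ a : Fin d, {t | t ∈ L} ⊆ {b | b ≠ a} := by
  classical
  by_contra hcon
  push Not at hcon
  have h1 : ∀ a : Fin d, a ∈ L := by
    intro a
    by_contra ha
    apply hcon a
    intro t ht hta
    rw [hta] at ht
    exact ha ht
  have h2 : (Finset.univ : Finset (Fin d)) ⊆ L.toFinset := fun a _ => by
    rw [List.mem_toFinset]
    exact h1 a
  have h3 := Finset.card_le_card h2
  rw [List.toFinset_card_of_nodup hL, Finset.card_univ, Fintype.card_fin] at h3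
  omega

end OmLemmas

end VG
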