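import Pool.Agent.VG3.Fth
import Pool.Agent.VG3.FFG

/-!
Project VG3, module Fend: if an entry of `τ` is a unit, the standard form is in `Bsub`.
-/

open Matrix

namespace VG

universe u v

section Aux

variable {R K V : Type u} [CommRing R] [Field K] [AddCommGroup V] [Module K V]

private theorem mu_om {d : ℕ} (φ : R →+* K) (D : R →+ V) (y : Fin d → R) (lam : Fin d → V)
    (hreg : ∀ t, (io (lam t) : ExteriorAlgebra K V) ∈ OmT φ D y {t}) (L : List (Fin d)) :
    mu lam L ∈ OmT φ D y {t | t ∈ L} := by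
  induction L with
  | nil => exact (OmT φ D y _).one_mem
  | cons a L ih =>
    refine (OmT φ D y {t | t ∈ a :: L}).mul_mem ?_ ?_
    · refine omT_mono φ D y ?_ (hreg a)
      intro t ht
      rw [Set.mem_singleton_iff] at ht
      rw [ht]
      exact List.mem_cons_self
    · refine omT_mono φ D y ?_ ih
      intro t ht
      exact List.mem_cons_of_mem a ht

variable {A X : Type v} [Fintype A] [Fintype X] (φ : R →+* K) (D : R →+ V) (σ : A → ℤ) (d : ℕ)
  {N : ℕ} (x : Fin N → R)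

/-- `Gf` as an additive map -/
private noncomputable def gfH (κ : Fin N → Matrix X A R) (ρ : Matrix X A R) :
    (Matrix A X (ExteriorAlgebra K V) × Matrix A X (ExteriorAlgebra K V)) →+
      ExteriorAlgebra K V :=
  AddMonoidHom.mk' (fun z => Gf φ D σ d x κ ρ z) (by
    intro z z'
    unfold Gf
    simp only [Prod.fst_add, Prod.snd_add, str_add, add_mul, Finset.sum_add_distrib, smul_add]
    abel)

private theorem gf_mem {ι : Type*} (y : ι → R) (T : Set ι) (κ : Fin N → Matrix X A R)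
    (ρ : Matrix X A R) (z : Matrix A X (ExteriorAlgebra K V) × Matrix A X (ExteriorAlgebra K V))
    (h1 : ∀ a x, z.1 a x ∈ OmT φ D y T) (h2 : ∀ a x, z.2 a x ∈ OmT φ D y T) :
    Gf φ D σ d x κ ρ z ∈ OmT φ D y T := by
  unfold Gf
  refine Subring.add_mem _ (Subring.neg_mem _ (Subring.sum_mem _ fun i _ => ?_)) ?_
  · exact Subring.mul_mem _ (str_mem φ D σ h1 (κ i)) (om_D φ D y T (x i))
  · exact AddSubgroup.zsmul_mem (OmT φ D y T).toAddSubgroup (str_mem φ D σ h2 ρ) _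

private theorem ff_mem {ι : Type*} (y : ι → R) (T : Set ι) (J : Fin N → Matrix X A R)
    (τ : Matrix X A R) (z : Matrix A X (ExteriorAlgebra K V) × Matrix A X (ExteriorAlgebra K V))
    (h1 : ∀ a x, z.1 a x ∈ OmT φ D y T) (h2 : ∀ a x, z.2 a x ∈ OmT φ D y T) :
    Ff φ D σ d x J τ z ∈ OmT φ D y T := by
  unfold Ff
  refine Subring.sub_mem _ (Subring.sum_mem _ fun i _ => ?_) ?_
  · exact Subring.mul_mem _ (str_mem φ D σ h1 (J i)) (om_D φ D y T (x i))
  · exact AddSubgroup.zsmul_mem (OmT φ D y T).toAddSubgroup (str_mem φ D σ h2 τ) _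

private theorem str_single [DecidableEq A] [DecidableEq X] (a0 : A) (x0 : X) (M : Matrix X A R) :
    str φ σ (Matrix.single a0 x0 (1 : ExteriorAlgebra K V)) M =
      σ a0 • (φ (M x0 a0) • (1 : ExteriorAlgebra K V)) := by
  unfold str
  rw [Finset.sum_eq_single a0]
  · congr 1
    rw [Finset.sum_eq_single x0]
    · rw [Matrix.single_apply_same]
    · intro y _ hy
      rw [Matrix.single_apply_of_col_ne _ _ hy.symm, smul_zero]
    · intro h
      exact absurd (Finset.mem_univ x0) h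
  · intro a _ ha
    have h0 : ∑ y, φ (M y a) • (Matrix.single a0 x0 (1 : ExteriorAlgebra K V)) a y = 0 := by
      refine Finset.sum_eq_zero fun y _ => ?_
      rw [Matrix.single_apply_of_row_ne ha.symm, smul_zero]
    rw [h0, smul_zero]
  · intro h
    exact absurd (Finset.mem_univ a0) h

end Aux

theorem mu_mem_bsub {R K V : Type u} [CommRing R] [Field K] [AddCommGroup V] [Module K V]
    {A X : Type v} [Fintype A] [Fintype X] [DecidableEq A] [DecidableEq X] (φ : R →+* K)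
    (D : R →+ V) (ε : V →ₗ[K] K) (n : Matrix A A R) (p : Matrix X X R) (hn : n * n = 0)
    (hp : p * p = 0) (gA : A → ℤ) (gX : X → ℤ) (hgA : ∀ a, 0 ≤ gA a) (σ : A → ℤ)
    (hσ : ∀ a b, n a b ≠ 0 → σ b = -σ a) {d' : ℕ} (u : Fin (d' + 1) → R)
    (hu : ∀ t, φ (u t) ≠ 0) (lam : Fin (d' + 1) → V) (hlam : ∀ t, ε (lam t) = 1)
    (hreg : ∀ t, (io (lam t) : ExteriorAlgebra K V) ∈ OmT φ D u {t})
    (hdeg : ∀ z ∈ Dgf K V (d' + 1 + 1), z = 0) (b : ℕ → Matrix A X (ExteriorAlgebra K V))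
    (a0 : A) (x0 : X) (hb00 : b 0 = Matrix.single a0 x0 1) (hσ0 : σ a0 = 1 ∨ σ a0 = -1)
    (hb : ∀ m, bd φ n p (m + 1) (b m) = (-1 : ℤ) ^ (d' + 1 + m + 1) • iM ε (b (m + 1)))
    (hb0 : ∀ m a x, b m a x ∈ Om0 φ D) (hbd : ∀ m a x, b m a x ∈ Dgf K V m)
    (hbs : ∀ m, SP gA gX (m + 1) (b m))
    (hc : ∀ (m : ℕ) (L : List (Fin (d' + 1))), L.Nodup → (∀ t ∈ L, t ≠ 0) →
      L.length + m + 1 = d' + 1 →
      ∃ y : R, φ y ≠ 0 ∧ (φ y)⁻¹ ∈ BT φ u {t | t ∈ L} ∧ CBp gX p (m + 1) y)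
    {N : ℕ} (x : Fin N → R) (w : Fin N → ℤ)
    (hx : ∀ i, ε (D (x i)) = ((w i : ℤ) : K) * φ (x i))
    (J κ : Fin N → Matrix X A R) (τ ρ : Matrix X A R) {M : ℕ} (e : Fin N → Fin M → R)
    (B : Fin M → Matrix X A R) (he : ∀ l, ∑ i, φ (e i l) • D (x i) = 0)
    (hR2 : ∀ i, u 0 • J i = p * κ i + κ i * n + ∑ l, e i l • B l)
    (hR3 : u 0 • τ = ∑ i, (((w i : ℤ) : R) * x i) • κ i + (p * ρ - ρ * n))
    (hτ : IsUnit (τ x0 a0)) :
    mu lam (List.finRange (d' + 1)) ∈ Bsub φ D u := by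
  obtain ⟨θ0, θ1, h0, h1⟩ := exists_theta φ D ε n p hn hp gA gX hgA u lam hlam hreg (d' + 1) hdeg b
    hb hb0 hbd hbs (fun t => t ≠ 0) hc (Nat.succ_pos d')
  obtain ⟨L', hL'⟩ : ∃ L' : List (Fin (d' + 1)), L' = (List.finRange d').map Fin.succ := ⟨_, rfl⟩
  have hLf : List.finRange (d' + 1) = 0 :: L' := by
    rw [hL']
    exact List.finRange_succ
  have hnd : (0 :: L').Nodup := by
    rw [← hLf]
    exact List.nodup_finRange _
  have hL0 : ∀ t ∈ L', t ≠ 0 := by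
    intro t ht h
    rw [h] at ht
    exact (List.nodup_cons.1 hnd).1 ht
  have hndL : L'.Nodup := (List.nodup_cons.1 hnd).2
  have hlen : L'.length = d' := by
    rw [hL', List.length_map, List.length_finRange]
  obtain ⟨hθ, hθ1, hθ2, hθ3, hθ4⟩ := h0 L' hndL hL0 (by rw [hlen])
  have hFG := FG_id φ D σ (d' + 1) x ε n p hσ hdeg w hx J κ τ ρ (u 0) e B he hR2 hR3
  have hGm : ∀ z, gfH φ D σ (d' + 1) x κ ρ z = Gf φ D σ (d' + 1) x κ ρ z := fun z => rfl
  set G := gfH (V := V) φ D σ (d' + 1) x κ ρ with hG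
  -- the entries of `zt`
  have hmu : ∀ L : List (Fin (d' + 1)), mu lam L ∈ OmT φ D u {t | t ∈ L} := mu_om φ D u lam hreg
  have hzt1 : ∀ (L : List (Fin (d' + 1))) a y, (zt b lam 1 L).1 a y ∈ OmT φ D u {t | t ∈ L} :=
    fun L a y => lf_mem (hmu L) (fun a y => om0_le φ D u _ (hb0 0 a y)) a y
  have hzt2 : ∀ (L : List (Fin (d' + 1))) a y, (zt b lam 1 L).2 a y ∈ OmT φ D u {t | t ∈ L} :=
    fun L a y => lf_mem (hmu L) (fun a y => om0_le φ D u _ (hb0 1 a y)) a y
  have hzt0 : ∀ a y, (zt b lam 0 (0 :: L')).2 a y ∈ Dgf K V (d' + 1) := by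
    intro a y
    have h2 := lf_dgf (dgf_mu lam (0 :: L')) (hbd 0) a y
    rw [List.length_cons, hlen, add_zero] at h2
    exact h2
  have hA : φ (u 0) • Ff φ D σ (d' + 1) x J τ (zt b lam 0 (0 :: L')) =
      -(G (zt b lam 1 L') - cob (fun L'' => G (zt b lam 1 (0 :: L''))) L') := by
    have h2 := zt_dx φ ε n p lam hlam (d' + 1) hdeg b hb hbd 0 (0 :: L') (by
      rw [List.length_cons, hlen, add_zero])
    rw [hFG _ hzt0, ← hGm, h2, map_neg, ← cob_map, cob_cons]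
  have hB : G (zt b lam 1 L') = φ (u 0) • Ff φ D σ (d' + 1) x J τ (θ0 L') -
      cob (fun L'' => G (θ1 L'')) L' := by
    have h2 : zt b lam 1 L' = DX φ ε n p 0 (θ0 L') - cob θ1 L' := by
      rw [hθ, add_sub_cancel_right]
    rw [h2, map_sub, cob_map, hGm (DX φ ε n p 0 (θ0 L')), ← hFG (θ0 L') (fun a y => by
      have h3 := hθ4 a y
      rw [hlen] at h3
      exact h3)]
  have hC : Ff φ D σ (d' + 1) x J τ (zt b lam 0 (0 :: L')) =
      -Ff φ D σ (d' + 1) x J τ (θ0 L') +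
        cob (fun L'' => (φ (u 0))⁻¹ • (G (θ1 L'') + G (zt b lam 1 (0 :: L'')))) L' := by
    have h2 : cob (fun L'' => (φ (u 0))⁻¹ • (G (θ1 L'') + G (zt b lam 1 (0 :: L'')))) L' =
        (φ (u 0))⁻¹ • cob (fun L'' => G (θ1 L'') + G (zt b lam 1 (0 :: L''))) L' :=
      cob_map (DistribSMul.toAddMonoidHom (ExteriorAlgebra K V) (φ (u 0))⁻¹) _ L'
    have h3 : φ (u 0) • Ff φ D σ (d' + 1) x J τ (zt b lam 0 (0 :: L')) =
        φ (u 0) • (-Ff φ D σ (d' + 1) x J τ (θ0 L')) +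
          (cob (fun L'' => G (θ1 L'')) L' + cob (fun L'' => G (zt b lam 1 (0 :: L''))) L') := by
      rw [hA, hB, smul_neg]
      abel
    rw [h2, cob_add, ← inv_smul_smul₀ (hu 0) (Ff φ D σ (d' + 1) x J τ (zt b lam 0 (0 :: L'))), h3,
      smul_add, inv_smul_smul₀ (hu 0)]
  have hFmem : Ff φ D σ (d' + 1) x J τ (zt b lam 0 (0 :: L')) ∈ Bsub φ D u := by
    rw [hC]
    refine AddSubgroup.add_mem _ (AddSubgroup.neg_mem _ ?_) (cob_mem _ _ _ ?_)
    · refine le_bsub φ D u 0 (omT_mono φ D u ?_ (ff_mem φ D σ (d' + 1) x u {t | t ∈ L'} J τ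
        (θ0 L') hθ1 hθ2))
      intro t ht
      exact hL0 t ht
    · intro L'' hsub hl
      have hnd2 : (0 :: L'').Nodup := hnd.sublist (hsub.cons_cons 0)
      have hl2 : (0 :: L'').length + 1 = d' + 1 := by
        rw [List.length_cons, hl, hlen]
      obtain ⟨a, ha⟩ := miss (0 :: L'') hnd2 hl2
      refine le_bsub φ D u a (omT_mono φ D u ha ?_)
      refine om_smul φ D u _ (Subring.subset_closure
        (Or.inr ⟨0, List.mem_cons_self, rfl⟩)) (Subring.add_mem _ ?_ ?_)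
      · obtain ⟨k1, k2, -, -⟩ := h1 L'' (hndL.sublist hsub) (fun t ht => hL0 t (hsub.subset ht))
          (by
            rw [hlen] at hl
            omega)
        refine omT_mono φ D u ?_ (gf_mem φ D σ (d' + 1) x u {t | t ∈ L''} κ ρ (θ1 L'') k1 k2)
        intro t ht
        exact List.mem_cons_of_mem 0 ht
      · exact gf_mem φ D σ (d' + 1) x u {t | t ∈ 0 :: L''} κ ρ _ (hzt1 _) (hzt2 _)
  have hval : Ff φ D σ (d' + 1) x J τ (zt b lam 0 (0 :: L')) =
      -((-1 : ℤ) ^ (d' + 1) • (σ a0 • (φ (τ x0 a0) • mu lam (0 :: L')))) := by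
    have h2 : Ff φ D σ (d' + 1) x J τ (zt b lam 0 (0 :: L')) =
        ∑ i, str φ σ (0 : Matrix A X (ExteriorAlgebra K V)) (J i) * io (D (x i)) -
          (-1 : ℤ) ^ (d' + 1) • str φ σ (lf (mu lam (0 :: L')) (b 0)) τ := rfl
    have h3 : ∑ i, str φ σ (0 : Matrix A X (ExteriorAlgebra K V)) (J i) * io (D (x i)) = 0 :=
      Finset.sum_eq_zero fun i _ => by rw [str_zero_left, zero_mul]
    rw [h2, h3, zero_sub, str_lf, hb00, str_single, mul_smul_comm, mul_smul_comm, mul_one]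
  have hW : φ (τ x0 a0) • mu lam (0 :: L') ∈ Bsub φ D u := by
    rw [hval] at hFmem
    rcases neg_one_pow_eq_or ℤ (d' + 1) with hs | hs
    · rcases hσ0 with h | h
      · rw [hs, h, one_smul, one_smul] at hFmem
        exact (AddSubgroup.neg_mem_iff _).1 hFmem
      · rw [hs, h, one_smul, neg_smul, one_smul, neg_neg] at hFmem
        exact hFmem
    · rcases hσ0 with h | h
      · rw [hs, h, one_smul, neg_smul, one_smul, neg_neg] at hFmem
        exact hFmem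
      · rw [hs, h, neg_smul, neg_smul, one_smul, one_smul, neg_neg] at hFmem
        exact (AddSubgroup.neg_mem_iff _).1 hFmem
  obtain ⟨c, hc'⟩ := hτ.exists_left_inv
  rw [hLf]
  have h4 := bsub_smul φ D u c hW
  rw [smul_smul, ← map_mul, hc', map_one, one_smul] at h4
  exact h4

end VG
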