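import Pool.Agent.VG3.Fbas
import Pool.Agent.VG.GBas

/-!
Project VG3, module Fpol: polynomials over the exterior algebra, the degree of `A0` recorded in the
exponent.

`cf T f` applies the additive map `T e` to the coefficient of `X ^ e`; `pl ψ x` is the polynomial
with coefficients `ψ (gc e x)`.
-/

open Matrix Polynomial

namespace VG

universe u

section Gen

variable {Λ : Type u} [Ring Λ]

/-- apply additive maps to the coefficients -/
noncomputable def cf (T : ℕ → Λ →+ Λ) (f : Polynomial Λ) : Polynomial Λ :=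
  ∑ e ∈ f.support, monomial e (T e (f.coeff e))

theorem cf_coeff (T : ℕ → Λ →+ Λ) (f : Polynomial Λ) (e : ℕ) : (cf T f).coeff e = T e (f.coeff e) := by
  unfold cf
  rw [finsetSum_coeff, Finset.sum_eq_single e]
  · rw [coeff_monomial, if_pos rfl]
  · intro b _ hb
    rw [coeff_monomial, if_neg hb]
  · intro h
    rw [coeff_monomial, if_pos rfl]
    rw [notMem_support_iff.1 h, map_zero]

theorem cf_add (T : ℕ → Λ →+ Λ) (f g : Polynomial Λ) : cf T (f + g) = cf T f + cf T g := by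
  ext e
  rw [cf_coeff, coeff_add, coeff_add, cf_coeff, cf_coeff, map_add]

theorem ev_mul (f g : Polynomial Λ) : (f * g).eval 1 = f.eval 1 * g.eval 1 := by
  exact eval₂_mul_noncomm _ _ fun k => Commute.one_right _

/-- evaluation at `1` commutes with coefficientwise application of one additive map -/
theorem ev_cf (T : Λ →+ Λ) (f : Polynomial Λ) : (cf (fun _ => T) f).eval 1 = T (f.eval 1) := by
  have h1 : (cf (fun _ => T) f).eval 1 = ∑ e ∈ f.support, T (f.coeff e) := by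
    unfold cf
    rw [eval_finsetSum]
    exact Finset.sum_congr rfl fun e _ => by rw [eval_monomial, one_pow, mul_one]
  rw [h1, eval_eq_sum, Polynomial.sum, map_sum]
  exact Finset.sum_congr rfl fun e _ => by rw [one_pow, mul_one]

/-- the degree operator -/
noncomputable def thP (f : Polynomial Λ) : Polynomial Λ :=
  cf (fun e => DistribSMul.toAddMonoidHom Λ ((e : ℕ) : ℤ)) f

theorem thP_coeff (f : Polynomial Λ) (e : ℕ) : (thP f).coeff e = ((e : ℕ) : ℤ) • f.coeff e := by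
  unfold thP
  rw [cf_coeff]
  rfl

theorem thP_mul (f g : Polynomial Λ) : thP (f * g) = thP f * g + f * thP g := by
  ext e
  rw [thP_coeff, coeff_add, coeff_mul, coeff_mul, coeff_mul, Finset.smul_sum, ← Finset.sum_add_distrib]
  refine Finset.sum_congr rfl fun q hq => ?_
  have hq' := Finset.HasAntidiagonal.mem_antidiagonal.1 hq
  rw [thP_coeff, thP_coeff, ← hq', Nat.cast_add, add_smul, smul_mul_assoc, mul_smul_comm]

end Gen

section Gr

variable {k A0 K V : Type u} [Field k] [CommRing A0] [Algebra k A0] (𝒜 : ℤ → Submodule k A0)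
  [GradedAlgebra 𝒜] [Field K] [AddCommGroup V] [Module K V]

theorem gc_mul_sum (hC : Conn 𝒜) (e : ℕ) (x y : A0) :
    gc 𝒜 (e : ℤ) (x * y) =
      ∑ q ∈ Finset.HasAntidiagonal.antidiagonal e, gc 𝒜 (q.1 : ℤ) x * gc 𝒜 (q.2 : ℤ) y := by
  classical
  obtain ⟨s, hs, hs'⟩ := gc_sum 𝒜 x
  obtain ⟨G, hG⟩ : ∃ G : ℤ → A0, ∀ d, G d = gc 𝒜 d x * gc 𝒜 ((e : ℤ) - d) y := ⟨_, fun _ => rfl⟩
  have h1 : gc 𝒜 (e : ℤ) (x * y) = ∑ d ∈ s, G d := by
    conv_lhs => rw [hs]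
    rw [Finset.sum_mul, map_sum]
    exact Finset.sum_congr rfl fun d _ => by rw [gc_mul 𝒜 (gc_mem 𝒜 d x), hG]
  have h2 : ∑ q ∈ Finset.HasAntidiagonal.antidiagonal e, gc 𝒜 (q.1 : ℤ) x * gc 𝒜 (q.2 : ℤ) y =
      ∑ i ∈ Finset.range (e + 1), G (i : ℤ) := by
    rw [Finset.Nat.sum_antidiagonal_eq_sum_range_succ_mk]
    refine Finset.sum_congr rfl fun i hi => ?_
    have hi' := Finset.mem_range.1 hi
    rw [hG]
    show gc 𝒜 (i : ℤ) x * gc 𝒜 ((e - i : ℕ) : ℤ) y = _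
    rw [Nat.cast_sub (by omega)]
  have h3 : ∑ i ∈ Finset.range (e + 1), G (i : ℤ) =
      ∑ d ∈ (Finset.range (e + 1)).image (fun i : ℕ => (i : ℤ)), G d := by
    exact (Finset.sum_image (f := G) (g := fun i : ℕ => (i : ℤ))
      (fun a _ b _ hab => Int.ofNat.inj hab)).symm
  rw [h1, h2, h3]
  have h4 : ∑ d ∈ s, G d = ∑ d ∈ s ∪ (Finset.range (e + 1)).image (fun i : ℕ => (i : ℤ)), G d := by
    refine Finset.sum_subset Finset.subset_union_left fun d _ hd => ?_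
    rw [hG, hs' d hd, zero_mul]
  have h5 : ∑ d ∈ (Finset.range (e + 1)).image (fun i : ℕ => (i : ℤ)), G d =
      ∑ d ∈ s ∪ (Finset.range (e + 1)).image (fun i : ℕ => (i : ℤ)), G d := by
    refine Finset.sum_subset Finset.subset_union_right fun d _ hd => ?_
    rw [hG]
    rcases lt_or_ge d 0 with h6 | h6
    · rw [hC.neg d h6 _ (gc_mem 𝒜 d x), zero_mul]
    · rcases lt_or_ge (e : ℤ) d with h7 | h7
      · rw [hC.neg ((e : ℤ) - d) (by omega) _ (gc_mem 𝒜 _ y), mul_zero]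
      · exfalso
        apply hd
        rw [Finset.mem_image]
        exact ⟨d.toNat, Finset.mem_range.2 (by omega), Int.toNat_of_nonneg h6⟩
  rw [h4, h5]

/-- the polynomial with the coefficients `ψ (gc e x)` -/
noncomputable def pl {Λ : Type u} [Ring Λ] (ψ : A0 →+ Λ) (x : A0) : Polynomial Λ :=
  ∑ e ∈ (gc_sum 𝒜 x).choose, if 0 ≤ e then monomial e.toNat (ψ (gc 𝒜 e x)) else 0

theorem pl_coeff {Λ : Type u} [Ring Λ] (ψ : A0 →+ Λ) (x : A0) (e : ℕ) :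
    (pl 𝒜 ψ x).coeff e = ψ (gc 𝒜 (e : ℤ) x) := by
  obtain ⟨h1, h2⟩ := (gc_sum 𝒜 x).choose_spec
  unfold pl
  rw [finsetSum_coeff, Finset.sum_eq_single (e : ℤ)]
  · rw [if_pos (Int.natCast_nonneg e), coeff_monomial, if_pos (Int.toNat_natCast e)]
  · intro d _ hd
    by_cases h0 : 0 ≤ d
    · rw [if_pos h0, coeff_monomial, if_neg fun h => hd (by omega)]
    · rw [if_neg h0, coeff_zero]
  · intro he
    rw [if_pos (Int.natCast_nonneg e), h2 _ he, map_zero, monomial_zero_right, coeff_zero]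

theorem pl_add {Λ : Type u} [Ring Λ] (ψ : A0 →+ Λ) (x y : A0) :
    pl 𝒜 ψ (x + y) = pl 𝒜 ψ x + pl 𝒜 ψ y := by
  ext e
  rw [coeff_add, pl_coeff, pl_coeff, pl_coeff, map_add, map_add]

theorem pl_ev (hC : Conn 𝒜) {Λ : Type u} [Ring Λ] (ψ : A0 →+ Λ) (x : A0) :
    (pl 𝒜 ψ x).eval 1 = ψ x := by
  obtain ⟨h1, h2⟩ := (gc_sum 𝒜 x).choose_spec
  have h3 : (pl 𝒜 ψ x).eval 1 = ∑ d ∈ (gc_sum 𝒜 x).choose, ψ (gc 𝒜 d x) := by
    unfold pl
    rw [eval_finsetSum]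
    refine Finset.sum_congr rfl fun d _ => ?_
    by_cases h0 : 0 ≤ d
    · rw [if_pos h0, eval_monomial, one_pow, mul_one]
    · rw [if_neg h0, eval_zero, hC.neg d (not_le.1 h0) _ (gc_mem 𝒜 d x), map_zero]
  rw [h3, ← map_sum, ← h1]

/-- scalars as polynomials -/
noncomputable def pP (V : Type u) [AddCommGroup V] [Module K V] (φ : A0 →+* K) (x : A0) :
    Polynomial (ExteriorAlgebra K V) :=
  pl 𝒜 (((algebraMap K (ExteriorAlgebra K V)).comp φ).toAddMonoidHom) x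

/-- differentials as polynomials -/
noncomputable def pQ (K : Type u) [Field K] {V : Type u} [AddCommGroup V] [Module K V]
    (D : A0 →+ V) (x : A0) : Polynomial (ExteriorAlgebra K V) :=
  pl 𝒜 ((io (K := K) (V := V)).toAddMonoidHom.comp D) x

/-- contraction of the coefficients -/
noncomputable def iP (ε : V →ₗ[K] K) (f : Polynomial (ExteriorAlgebra K V)) :
    Polynomial (ExteriorAlgebra K V) := cf (fun _ => (iE ε).toAddMonoidHom) f

theorem iP_coeff (ε : V →ₗ[K] K) (f : Polynomial (ExteriorAlgebra K V)) (e : ℕ) :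
    (iP ε f).coeff e = iE ε (f.coeff e) := by
  unfold iP
  rw [cf_coeff]
  rfl

variable (φ : A0 →+* K) (D : A0 →+ V) (ε : V →ₗ[K] K)

theorem pP_mul (hC : Conn 𝒜) (x y : A0) : pP 𝒜 V φ (x * y) = pP 𝒜 V φ x * pP 𝒜 V φ y := by
  ext e
  rw [coeff_mul]
  unfold pP
  rw [pl_coeff, gc_mul_sum 𝒜 hC, map_sum]
  refine Finset.sum_congr rfl fun q _ => ?_
  rw [pl_coeff, pl_coeff]
  exact map_mul ((algebraMap K (ExteriorAlgebra K V)).comp φ) _ _

theorem pP_comm (x : A0) (f : Polynomial (ExteriorAlgebra K V)) :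
    pP 𝒜 V φ x * f = f * pP 𝒜 V φ x := by
  ext e
  rw [coeff_mul, coeff_mul, ← Finset.Nat.sum_antidiagonal_swap]
  refine Finset.sum_congr rfl fun q _ => ?_
  unfold pP
  show (pl 𝒜 _ x).coeff q.2 * f.coeff q.1 = f.coeff q.1 * (pl 𝒜 _ x).coeff q.2
  rw [pl_coeff]
  exact Algebra.commutes (φ (gc 𝒜 (q.2 : ℤ) x)) (f.coeff q.1)

theorem pQ_mul (hC : Conn 𝒜) (leib : ∀ x z, D (x * z) = φ x • D z + φ z • D x) (x y : A0) :
    pQ 𝒜 K D (x * y) = pP 𝒜 V φ x * pQ 𝒜 K D y + pP 𝒜 V φ y * pQ 𝒜 K D x := by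
  ext e
  rw [coeff_add, coeff_mul, coeff_mul, ← Finset.Nat.sum_antidiagonal_swap (f := fun q =>
    (pP 𝒜 V φ y).coeff q.1 * (pQ 𝒜 K D x).coeff q.2), ← Finset.sum_add_distrib]
  unfold pP pQ
  rw [pl_coeff, gc_mul_sum 𝒜 hC, map_sum]
  refine Finset.sum_congr rfl fun q _ => ?_
  show _ = (pl 𝒜 _ x).coeff q.1 * (pl 𝒜 _ y).coeff q.2 + (pl 𝒜 _ y).coeff q.2 * (pl 𝒜 _ x).coeff q.1
  rw [pl_coeff, pl_coeff, pl_coeff, pl_coeff]
  show io (D (gc 𝒜 (q.1 : ℤ) x * gc 𝒜 (q.2 : ℤ) y)) =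
    algebraMap K (ExteriorAlgebra K V) (φ (gc 𝒜 (q.1 : ℤ) x)) * io (D (gc 𝒜 (q.2 : ℤ) y)) +
      algebraMap K (ExteriorAlgebra K V) (φ (gc 𝒜 (q.2 : ℤ) y)) * io (D (gc 𝒜 (q.1 : ℤ) x))
  rw [leib, map_add, map_smul, map_smul, Algebra.smul_def, Algebra.smul_def]

theorem iP_P (x : A0) (f : Polynomial (ExteriorAlgebra K V)) :
    iP ε (pP 𝒜 V φ x * f) = pP 𝒜 V φ x * iP ε f := by
  ext e
  rw [iP_coeff, coeff_mul, coeff_mul, map_sum]
  refine Finset.sum_congr rfl fun q _ => ?_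
  rw [iP_coeff]
  unfold pP
  rw [pl_coeff]
  show iE ε (algebraMap K (ExteriorAlgebra K V) (φ (gc 𝒜 (q.1 : ℤ) x)) * f.coeff q.2) =
    algebraMap K (ExteriorAlgebra K V) (φ (gc 𝒜 (q.1 : ℤ) x)) * iE ε (f.coeff q.2)
  rw [← Algebra.smul_def, ← Algebra.smul_def, map_smul]

theorem iP_Q (heul : ∀ e x, x ∈ 𝒜 e → ε (D x) = ((e : ℤ) : K) * φ x) (x : A0)
    (f : Polynomial (ExteriorAlgebra K V)) :
    iP ε (pQ 𝒜 K D x * f) = thP (pP 𝒜 V φ x) * f - pQ 𝒜 K D x * iP ε f := by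
  ext e
  rw [iP_coeff, coeff_sub, coeff_mul, coeff_mul, coeff_mul, map_sum, ← Finset.sum_sub_distrib]
  refine Finset.sum_congr rfl fun q _ => ?_
  rw [iP_coeff, thP_coeff]
  unfold pP pQ
  rw [pl_coeff, pl_coeff]
  show iE ε (io (D (gc 𝒜 (q.1 : ℤ) x)) * f.coeff q.2) =
    ((q.1 : ℕ) : ℤ) • algebraMap K (ExteriorAlgebra K V) (φ (gc 𝒜 (q.1 : ℤ) x)) * f.coeff q.2 -
      io (D (gc 𝒜 (q.1 : ℤ) x)) * iE ε (f.coeff q.2)
  rw [iE_io_mul, heul _ _ (gc_mem 𝒜 (q.1 : ℤ) x), smul_mul_assoc, ← Algebra.smul_def, mul_smul,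
    Int.cast_smul_eq_zsmul]

theorem iP_mul_Q (heul : ∀ e x, x ∈ 𝒜 e → ε (D x) = ((e : ℤ) : K) * φ x) (x : A0) (m : ℕ)
    (f : Polynomial (ExteriorAlgebra K V)) (hf : ∀ e, f.coeff e ∈ Dgf K V m) :
    iP ε (f * pQ 𝒜 K D x) = iP ε f * pQ 𝒜 K D x + (-1 : ℤ) ^ m • (f * thP (pP 𝒜 V φ x)) := by
  ext e
  rw [iP_coeff, coeff_add, coeff_mul, coeff_mul, coeff_smul, coeff_mul, map_sum, Finset.smul_sum,
    ← Finset.sum_add_distrib]
  refine Finset.sum_congr rfl fun q _ => ?_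
  rw [iP_coeff, thP_coeff]
  unfold pP pQ
  rw [pl_coeff, pl_coeff]
  show iE ε (f.coeff q.1 * io (D (gc 𝒜 (q.2 : ℤ) x))) =
    iE ε (f.coeff q.1) * io (D (gc 𝒜 (q.2 : ℤ) x)) + (-1 : ℤ) ^ m • (f.coeff q.1 *
      ((q.2 : ℕ) : ℤ) • algebraMap K (ExteriorAlgebra K V) (φ (gc 𝒜 (q.2 : ℤ) x)))
  rw [dgf_leib ε (hf q.1), iE_io, heul _ _ (gc_mem 𝒜 (q.2 : ℤ) x), map_mul]
  congr 1
  have h1 : algebraMap K (ExteriorAlgebra K V) ((((q.2 : ℕ) : ℤ) : K)) *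
      algebraMap K (ExteriorAlgebra K V) (φ (gc 𝒜 (q.2 : ℤ) x)) =
      ((q.2 : ℕ) : ℤ) • algebraMap K (ExteriorAlgebra K V) (φ (gc 𝒜 (q.2 : ℤ) x)) := by
    rw [← Algebra.smul_def, Int.cast_smul_eq_zsmul]
  rw [h1]
  have h2 : ((-1 : K) ^ m) = (((-1 : ℤ) ^ m : ℤ) : K) := by
    push_cast
    rfl
  rw [h2, Int.cast_smul_eq_zsmul]

theorem pP_ev (hC : Conn 𝒜) (x : A0) :
    (pP 𝒜 V φ x).eval 1 = algebraMap K (ExteriorAlgebra K V) (φ x) := by
  exact pl_ev 𝒜 hC _ x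

theorem pQ_ev (hC : Conn 𝒜) (x : A0) : (pQ 𝒜 K D x).eval 1 = io (D x) := by
  exact pl_ev 𝒜 hC _ x

theorem iP_ev (f : Polynomial (ExteriorAlgebra K V)) : (iP ε f).eval 1 = iE ε (f.eval 1) := by
  exact ev_cf (iE ε).toAddMonoidHom f

end Gr

end VG
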