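import Pool.Agent.VG3.Fzt
import Pool.Agent.VG3.Fctr

/-!
Project VG3, module Fth: the cochains `theta`.
-/

open Matrix

namespace VG

universe u v w

section Aux

variable {R K V : Type u} [CommRing R] [Field K] [AddCommGroup V] [Module K V]
  {A X : Type v} {ι : Type w}

private theorem ft_mu (φ : R →+* K) (D : R →+ V) (u : ι → R) (lam : ι → V)
    (hreg : ∀ t, (io (lam t) : ExteriorAlgebra K V) ∈ OmT φ D u {t}) (L : List ι) :
    (mu lam L : ExteriorAlgebra K V) ∈ OmT φ D u {t | t ∈ L} := by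
  induction L with
  | nil => exact Subring.one_mem _
  | cons a L ih =>
    refine Subring.mul_mem _ (omT_mono φ D u ?_ (hreg a)) (omT_mono φ D u ?_ ih)
    · intro t ht
      have h1 : t = a := ht
      rw [h1]
      exact List.mem_cons_self
    · intro t ht
      exact List.mem_cons_of_mem _ ht

/-- the properties of the cochains -/
private def GP (φ : R →+* K) (D : R →+ V) (u : ι → R) (gA : A → ℤ) (gX : X → ℤ) (q m : ℕ)
    (L : List ι) (z : Matrix A X (ExteriorAlgebra K V) × Matrix A X (ExteriorAlgebra K V)) :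
    Prop :=
  (∀ a x, z.1 a x ∈ OmT φ D u {t | t ∈ L}) ∧ (∀ a x, z.2 a x ∈ OmT φ D u {t | t ∈ L}) ∧
  (∀ a x, z.1 a x ∈ Dgf K V q) ∧ (∀ a x, z.2 a x ∈ Dgf K V (q + 1)) ∧
  SP gA gX m z.1 ∧ SP gA gX (m + 1) z.2

private theorem ft_gp_add (φ : R →+* K) (D : R →+ V) (u : ι → R) (gA : A → ℤ) (gX : X → ℤ)
    (q m : ℕ) (L : List ι)
    (z z' : Matrix A X (ExteriorAlgebra K V) × Matrix A X (ExteriorAlgebra K V))
    (h : GP φ D u gA gX q m L z) (h' : GP φ D u gA gX q m L z') :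
    GP φ D u gA gX q m L (z + z') := by
  obtain ⟨h1, h2, h3, h4, h5, h6⟩ := h
  obtain ⟨h1', h2', h3', h4', h5', h6'⟩ := h'
  exact ⟨fun a x => Subring.add_mem _ (h1 a x) (h1' a x),
    fun a x => Subring.add_mem _ (h2 a x) (h2' a x),
    fun a x => Submodule.add_mem _ (h3 a x) (h3' a x),
    fun a x => Submodule.add_mem _ (h4 a x) (h4' a x), SP_add h5 h5', SP_add h6 h6'⟩

private theorem ft_gp_zt (φ : R →+* K) (D : R →+ V) (gA : A → ℤ) (gX : X → ℤ) (u : ι → R)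
    (lam : ι → V) (hreg : ∀ t, (io (lam t) : ExteriorAlgebra K V) ∈ OmT φ D u {t})
    (b : ℕ → Matrix A X (ExteriorAlgebra K V))
    (hb0 : ∀ m a x, b m a x ∈ Om0 φ D) (hbd : ∀ m a x, b m a x ∈ Dgf K V m)
    (hbs : ∀ m, SP gA gX (m + 1) (b m)) (m : ℕ) (L : List ι) :
    GP φ D u gA gX (L.length + m) (m + 1) L (zt b lam (m + 1) L) := by
  have hmu := ft_mu φ D u lam hreg L
  have hd := dgf_mu (K := K) lam L
  refine ⟨fun a x => ?_, fun a x => ?_, fun a x => ?_, fun a x => ?_, ?_, ?_⟩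
  · exact lf_mem hmu (fun a x => om0_le φ D u _ (hb0 m a x)) a x
  · exact lf_mem hmu (fun a x => om0_le φ D u _ (hb0 (m + 1) a x)) a x
  · exact lf_dgf hd (hbd m) a x
  · exact lf_dgf hd (hbd (m + 1)) a x
  · exact SP_lf (hbs m) _
  · exact SP_lf (hbs (m + 1)) _

private theorem ft_gp_cob (φ : R →+* K) (D : R →+ V) (gA : A → ℤ) (gX : X → ℤ) (u : ι → R)
    (q m : ℕ) (θ : List ι → Matrix A X (ExteriorAlgebra K V) × Matrix A X (ExteriorAlgebra K V))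
    (L : List ι) (h : ∀ L' : List ι, L'.Sublist L → L'.length + 1 = L.length →
      GP φ D u gA gX q m L' (θ L')) :
    GP φ D u gA gX q m L (cob θ L) := by
  have hm : ∀ L' : List ι, L'.Sublist L → OmT φ D u {t | t ∈ L'} ≤ OmT φ D u {t | t ∈ L} :=
    fun L' hs => omT_mono φ D u fun t ht => hs.subset ht
  refine ⟨fun a x => ?_, fun a x => ?_, fun a x => ?_, fun a x => ?_, ?_, ?_⟩
  · rw [cob_fst, cob_apply]
    exact cob_mem (OmT φ D u {t | t ∈ L}).toAddSubgroup _ _ fun L' hs hl =>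
      hm L' hs ((h L' hs hl).1 a x)
  · rw [cob_snd, cob_apply]
    exact cob_mem (OmT φ D u {t | t ∈ L}).toAddSubgroup _ _ fun L' hs hl =>
      hm L' hs ((h L' hs hl).2.1 a x)
  · rw [cob_fst, cob_apply]
    exact cob_mem (Dgf K V q).toAddSubgroup _ _ fun L' hs hl => (h L' hs hl).2.2.1 a x
  · rw [cob_snd, cob_apply]
    exact cob_mem (Dgf K V (q + 1)).toAddSubgroup _ _ fun L' hs hl => (h L' hs hl).2.2.2.1 a x
  · rw [cob_fst]
    exact cob_mem (SPg gA gX m) _ _ fun L' hs hl => (h L' hs hl).2.2.2.2.1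
  · rw [cob_snd]
    exact cob_mem (SPg gA gX (m + 1)) _ _ fun L' hs hl => (h L' hs hl).2.2.2.2.2

private theorem ft_step [Fintype A] [Fintype X] [DecidableEq X] (φ : R →+* K) (D : R →+ V)
    (ε : V →ₗ[K] K) (n : Matrix A A R) (p : Matrix X X R)
    (gA : A → ℤ) (gX : X → ℤ) (hgA : ∀ a, 0 ≤ gA a) (u : ι → R)
    (lam : ι → V) (hreg : ∀ t, (io (lam t) : ExteriorAlgebra K V) ∈ OmT φ D u {t}) (d : ℕ)
    (b : ℕ → Matrix A X (ExteriorAlgebra K V))
    (hb0 : ∀ m a x, b m a x ∈ Om0 φ D) (hbd : ∀ m a x, b m a x ∈ Dgf K V m)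
    (hbs : ∀ m, SP gA gX (m + 1) (b m)) (P : ι → Prop)
    (hc : ∀ (m : ℕ) (L : List ι), L.Nodup → (∀ t ∈ L, P t) → L.length + m + 1 = d →
      ∃ y : R, φ y ≠ 0 ∧ (φ y)⁻¹ ∈ BT φ u {t | t ∈ L} ∧ CBp gX p (m + 1) y) (m : ℕ)
    (θ : List ι → Matrix A X (ExteriorAlgebra K V) × Matrix A X (ExteriorAlgebra K V))
    (hθ : ∀ L : List ι, L.Nodup → (∀ t ∈ L, P t) → L.length + m + 2 = d →
      GP φ D u gA gX (L.length + m + 1) (m + 1) L (θ L))
    (hcoc : ∀ L : List ι, L.Nodup → (∀ t ∈ L, P t) → L.length + m + 1 = d →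
      DX φ ε n p (m + 1) (zt b lam (m + 1) L + cob θ L) = 0) :
    ∃ θ' : List ι → Matrix A X (ExteriorAlgebra K V) × Matrix A X (ExteriorAlgebra K V),
      ∀ L : List ι, L.Nodup → (∀ t ∈ L, P t) → L.length + m + 1 = d →
        DX φ ε n p m (θ' L) = zt b lam (m + 1) L + cob θ L ∧
        GP φ D u gA gX (L.length + m) m L (θ' L) := by
  have hex : ∀ L : List ι, L.Nodup → (∀ t ∈ L, P t) → L.length + m + 1 = d →
      ∃ w : Matrix A X (ExteriorAlgebra K V) × Matrix A X (ExteriorAlgebra K V),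
        DX φ ε n p m w = zt b lam (m + 1) L + cob θ L ∧
        GP φ D u gA gX (L.length + m) m L w := by
    intro L hnd hP hL
    obtain ⟨z, hz⟩ : ∃ z, z = zt b lam (m + 1) L + cob θ L := ⟨_, rfl⟩
    have hgp : GP φ D u gA gX (L.length + m) (m + 1) L z := by
      rw [hz]
      refine ft_gp_add φ D u gA gX _ _ L _ _
        (ft_gp_zt φ D gA gX u lam hreg b hb0 hbd hbs m L) ?_
      refine ft_gp_cob φ D gA gX u _ _ θ L fun L' hs hl => ?_
      have h1 := hθ L' (hnd.sublist hs) (fun t ht => hP t (hs.subset ht)) (by omega)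
      have h2 : L'.length + m + 1 = L.length + m := by omega
      rw [h2] at h1
      exact h1
    obtain ⟨y, hy, hyB, s, hs1, hs2⟩ := hc m L hnd hP hL
    obtain ⟨g1, g2, g3, g4, g5, g6⟩ := hgp
    have hcB : (-1 : K) ^ (m + 1) * (φ y)⁻¹ ∈ BT φ u {t | t ∈ L} :=
      Subring.mul_mem _ (Subring.pow_mem _ (Subring.neg_mem _ (Subring.one_mem _)) _) hyB
    have hz0 := hcoc L hnd hP hL
    rw [← hz] at hz0 ⊢
    have k1 := ctr3_mem φ D gA gX u {t | t ∈ L} m (L.length + m) z.1 s hs1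
      ((-1 : K) ^ (m + 1) * (φ y)⁻¹)
    have k2 := ctr3_mem φ D gA gX u {t | t ∈ L} (m + 1) (L.length + m + 1) z.2 s hs1
      ((-1 : K) ^ (m + 1) * (φ y)⁻¹)
    refine ⟨_, ctr3 φ ε n p gA gX hgA m z g5 g6 hz0 y hy s hs2, ?_, ?_, ?_, ?_, ?_, ?_⟩
    · exact k1.2.1 g1 hcB
    · exact k2.2.1 g2 hcB
    · exact k1.2.2 g3
    · exact k2.2.2 g4
    · exact k1.1 g5
    · exact k2.1 g6
  choose! θ' hθ' using hex
  exact ⟨θ', hθ'⟩

end Aux

theorem exists_theta {R K V : Type u} [CommRing R] [Field K] [AddCommGroup V] [Module K V]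
    {A X : Type v} {ι : Type w} [Fintype A] [Fintype X] [DecidableEq X] (φ : R →+* K) (D : R →+ V)
    (ε : V →ₗ[K] K) (n : Matrix A A R) (p : Matrix X X R) (hn : n * n = 0) (hp : p * p = 0)
    (gA : A → ℤ) (gX : X → ℤ) (hgA : ∀ a, 0 ≤ gA a) (u : ι → R)
    (lam : ι → V) (hlam : ∀ t, ε (lam t) = 1)
    (hreg : ∀ t, (io (lam t) : ExteriorAlgebra K V) ∈ OmT φ D u {t}) (d : ℕ)
    (hdeg : ∀ z ∈ Dgf K V (d + 1), z = 0) (b : ℕ → Matrix A X (ExteriorAlgebra K V))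
    (hb : ∀ m, bd φ n p (m + 1) (b m) = (-1 : ℤ) ^ (d + m + 1) • iM ε (b (m + 1)))
    (hb0 : ∀ m a x, b m a x ∈ Om0 φ D) (hbd : ∀ m a x, b m a x ∈ Dgf K V m)
    (hbs : ∀ m, SP gA gX (m + 1) (b m)) (P : ι → Prop)
    (hc : ∀ (m : ℕ) (L : List ι), L.Nodup → (∀ t ∈ L, P t) → L.length + m + 1 = d →
      ∃ y : R, φ y ≠ 0 ∧ (φ y)⁻¹ ∈ BT φ u {t | t ∈ L} ∧ CBp gX p (m + 1) y) (hd : 0 < d) :
    ∃ θ0 θ1 : List ι → Matrix A X (ExteriorAlgebra K V) × Matrix A X (ExteriorAlgebra K V),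
      (∀ L : List ι, L.Nodup → (∀ t ∈ L, P t) → L.length + 1 = d →
        DX φ ε n p 0 (θ0 L) = zt b lam 1 L + cob θ1 L ∧
        (∀ a x, (θ0 L).1 a x ∈ OmT φ D u {t | t ∈ L}) ∧
        (∀ a x, (θ0 L).2 a x ∈ OmT φ D u {t | t ∈ L}) ∧
        (∀ a x, (θ0 L).1 a x ∈ Dgf K V L.length) ∧
        (∀ a x, (θ0 L).2 a x ∈ Dgf K V (L.length + 1))) ∧
      (∀ L : List ι, L.Nodup → (∀ t ∈ L, P t) → L.length + 2 = d →
        (∀ a x, (θ1 L).1 a x ∈ OmT φ D u {t | t ∈ L}) ∧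
        (∀ a x, (θ1 L).2 a x ∈ OmT φ D u {t | t ∈ L}) ∧
        (∀ a x, (θ1 L).1 a x ∈ Dgf K V (L.length + 1)) ∧
        (∀ a x, (θ1 L).2 a x ∈ Dgf K V (L.length + 2))) := by
  have key : ∀ k m : ℕ, k + m + 1 = d →
      ∃ θ : List ι → Matrix A X (ExteriorAlgebra K V) × Matrix A X (ExteriorAlgebra K V),
        (∀ L : List ι, L.Nodup → (∀ t ∈ L, P t) → L.length + m + 2 = d →
          GP φ D u gA gX (L.length + m + 1) (m + 1) L (θ L)) ∧
        (∀ L : List ι, L.Nodup → (∀ t ∈ L, P t) → L.length + m + 1 = d →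
          DX φ ε n p (m + 1) (zt b lam (m + 1) L + cob θ L) = 0) := by
    intro k
    induction k with
    | zero =>
      intro m hm
      refine ⟨fun _ => 0, fun L _ _ hL => absurd hL (by omega), fun L _ _ hL => ?_⟩
      have hLn : L = [] := List.eq_nil_of_length_eq_zero (by omega)
      subst hLn
      rw [cob_nil, add_zero, zt_dx φ ε n p lam hlam d hdeg b hb hbd (m + 1) [] (by simpa using hL),
        cob_nil, neg_zero]
    | succ k ih =>
      intro m hm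
      obtain ⟨θ, r1, r2⟩ := ih (m + 1) (by omega)
      obtain ⟨θ', hθ'⟩ := ft_step φ D ε n p gA gX hgA u lam hreg d b hb0 hbd hbs P hc (m + 1) θ
        (fun L h1 h2 h3 => r1 L h1 h2 h3) (fun L h1 h2 h3 => r2 L h1 h2 h3)
      refine ⟨θ', fun L h1 h2 h3 => ?_, fun L h1 h2 h3 => ?_⟩
      · exact (hθ' L h1 h2 (by omega)).2
      · rw [dx_add, zt_dx φ ε n p lam hlam d hdeg b hb hbd (m + 1) L (by omega), ← cob_dx,
          cob_congr (fun L' => DX φ ε n p (m + 1) (θ' L'))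
            (fun L' => zt b lam (m + 1 + 1) L' + cob θ L') L (fun L' hs hl =>
              (hθ' L' (h1.sublist hs) (fun t ht => h2 t (hs.subset ht)) (by omega)).1),
          cob_add, cob_cob, add_zero]
        exact neg_add_cancel _
  obtain ⟨θ1, r1, r2⟩ := key (d - 1) 0 (by omega)
  obtain ⟨θ0, hθ0⟩ := ft_step φ D ε n p gA gX hgA u lam hreg d b hb0 hbd hbs P hc 0 θ1 r1 r2
  refine ⟨θ0, θ1, fun L h1 h2 h3 => ?_, fun L h1 h2 h3 => ?_⟩
  · obtain ⟨q1, q2, q3, q4, q5, -⟩ := hθ0 L h1 h2 h3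
    exact ⟨q1, q2, q3, q4, q5⟩
  · obtain ⟨q2, q3, q4, q5, -⟩ := r1 L h1 h2 h3
    exact ⟨q2, q3, q4, q5⟩

end VG
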