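import Pool.Agent.VG3.Fbas

/-!
Project VG3, module Fzt: `DX m (zt m L) = - cob (zt (m+1)) L` for `|L| + m = d`.
-/

open Matrix

namespace VG

universe u v w

private theorem fz_snd {K V : Type u} [Field K] [AddCommGroup V] [Module K V]
    {A X : Type v} {ι : Type w} (b : ℕ → Matrix A X (ExteriorAlgebra K V)) (lam : ι → V) (m : ℕ)
    (L : List ι) : (zt b lam m L).2 = lf (mu lam L) (b m) := by
  cases m with
  | zero => rfl
  | succ m => rfl

private theorem fz_sgn {K V : Type u} [Field K] [AddCommGroup V] [Module K V]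
    {A X : Type v} (e : ExteriorAlgebra K V) (c : ℤ) (z : Matrix A X (ExteriorAlgebra K V)) :
    lf e (c • z) = (c : K) • lf e z := by
  rw [← lf_smul, Int.cast_smul_eq_zsmul]

private theorem fz_cob {K V : Type u} [Field K] [AddCommGroup V] [Module K V]
    {A X : Type v} {ι : Type w} (lam : ι → V) (z : Matrix A X (ExteriorAlgebra K V))
    (L : List ι) : cob (fun L' => lf (mu lam L') z) L = lf (cob (mu lam) L) z :=
  cob_lf (mu lam) z L

private theorem fz_cob1 {K V : Type u} [Field K] [AddCommGroup V] [Module K V]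
    {A X : Type v} {ι : Type w} (b : ℕ → Matrix A X (ExteriorAlgebra K V)) (lam : ι → V) (m : ℕ)
    (L : List ι) : (cob (zt b lam (m + 1)) L).1 = lf (cob (mu lam) L) (b m) := by
  rw [cob_fst]
  exact fz_cob lam (b m) L

private theorem fz_cob2 {K V : Type u} [Field K] [AddCommGroup V] [Module K V]
    {A X : Type v} {ι : Type w} (b : ℕ → Matrix A X (ExteriorAlgebra K V)) (lam : ι → V) (m : ℕ)
    (L : List ι) : (cob (zt b lam (m + 1)) L).2 = lf (cob (mu lam) L) (b (m + 1)) := by
  rw [cob_snd]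
  exact fz_cob lam (b (m + 1)) L

theorem zt_dx {R K V : Type u} [CommRing R] [Field K] [AddCommGroup V] [Module K V]
    {A X : Type v} {ι : Type w} [Fintype A] [Fintype X] (φ : R →+* K) (ε : V →ₗ[K] K)
    (n : Matrix A A R) (p : Matrix X X R) (lam : ι → V) (hlam : ∀ t, ε (lam t) = 1) (d : ℕ)
    (hdeg : ∀ z ∈ Dgf K V (d + 1), z = 0) (b : ℕ → Matrix A X (ExteriorAlgebra K V))
    (hb : ∀ m, bd φ n p (m + 1) (b m) = (-1 : ℤ) ^ (d + m + 1) • iM ε (b (m + 1)))
    (hbd : ∀ m a x, b m a x ∈ Dgf K V m) (m : ℕ) (L : List ι) (hL : L.length + m = d) :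
    DX φ ε n p m (zt b lam m L) = - cob (zt b lam (m + 1)) L := by
  have hi : ∀ z : Matrix A X (ExteriorAlgebra K V), iM ε (lf (mu lam L) z) =
      lf (cob (mu lam) L) z + (-1 : K) ^ L.length • lf (mu lam L) (iM ε z) := fun z => by
    rw [iM_lf ε (dgf_mu lam L), iE_mu ε lam hlam]
  have h2 : - bd φ n p (m + 1) (zt b lam m L).2 = - (cob (zt b lam (m + 1)) L).2 := by
    have h0 : lf (mu lam L) (b (m + 1)) = 0 := by
      ext a x
      refine hdeg _ ?_
      have h := lf_dgf (dgf_mu lam L) (hbd (m + 1)) a x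
      rw [← add_assoc, hL] at h
      exact h
    have h1 := hi (b (m + 1))
    rw [h0, iM_zero] at h1
    have hs : (((-1 : ℤ) ^ (d + m + 1) : ℤ) : K) = -(-1 : K) ^ L.length := by
      push_cast
      rw [← hL, pow_succ, pow_add, pow_add, mul_assoc, mul_assoc, ← mul_assoc ((-1 : K) ^ m),
        ← mul_pow]
      simp
    rw [fz_snd, fz_cob2, bd_lf, hb, fz_sgn, hs, neg_smul, neg_neg]
    exact (neg_eq_of_add_eq_zero_right h1.symm).symm
  cases m with
  | zero =>
    refine Prod.ext ?_ h2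
    show bd φ n p 0 0 - iM ε (lf (mu lam L) (b 0)) = -(cob (zt b lam (0 + 1)) L).1
    have h3 : iM ε (b 0) = 0 := by
      ext a x
      exact dgf_iE_zero ε (hbd 0 a x)
    rw [fz_cob1, hi, h3, bd_zero, lf_zero, smul_zero, add_zero, zero_sub]
  | succ m =>
    refine Prod.ext ?_ h2
    show bd φ n p (m + 1) (lf (mu lam L) (b m)) - iM ε (lf (mu lam L) (b (m + 1))) =
      -(cob (zt b lam (m + 1 + 1)) L).1
    have hs : (((-1 : ℤ) ^ (d + m + 1) : ℤ) : K) = (-1 : K) ^ L.length := by
      push_cast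
      rw [← hL, add_assoc, pow_add, pow_add, mul_assoc, ← pow_add,
        Even.neg_one_pow (⟨m + 1, rfl⟩ : Even (m + 1 + (m + 1))), mul_one]
    rw [fz_cob1, hi, bd_lf, hb, fz_sgn, hs]
    abel

end VG
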