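import Pool.Agent.VG3.Maps
import Pool.Agent.CN.Loc

/-!
# Project VG3, parameters, part A

`pd_of_depth_pos`: the Auslander–Buchsbaum inequality for modules of positive depth.
`exists_contr`: if `pd X < m` then every finite free resolution of `X` is contractible in
degrees `≥ m`.
-/

universe u

namespace VG

open Finset IsLocalRing Pool.Agent.CN Pool.Agent.Helper19 Matrix RingTheory.Sequence

theorem pd_of_depth_pos (t : ℕ) (R : Type u) [CommRing R] [IsLocalRing R] [IsNoetherianRing R]
    (hR : ∀ rs : List R, IsRegular R rs → rs.length ≤ t + 1) (n : ℕ) (X : Type u)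
    [AddCommGroup X] [Module R X] [Module.Finite R X]
    (hX : ¬ ∃ v : X, v ≠ 0 ∧ ∀ a ∈ maximalIdeal R, a • v = 0) (h : PD R X n) :
    PD R X (t + 1) := by
  by_cases hsR : ∃ v : R, v ≠ 0 ∧ ∀ a ∈ maximalIdeal R, a • v = 0
  · obtain ⟨v, hv, hmv⟩ := hsR
    have hfree : Module.Free R X := free_of_depth_zero v hv (fun r hr => hmv r hr) n X h
    exact PD.mono pd_of_free (by omega)
  · obtain ⟨x, hxm, hxR, hxX⟩ := exists_common_regular X hX hsR
    have hloc : IsLocalRing (R ⧸ Ideal.span {x}) := isLocalRing_quot hxm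
    have hfin : Module.Finite (R ⧸ Ideal.span {x}) (QuotSMulTop x X) :=
      Module.Finite.of_restrictScalars_finite R _ _
    have hq := pd_of_depth_le t (R ⧸ Ideal.span {x}) (fun rs hrs => by
      obtain ⟨ts, hts, hlen⟩ := exists_regular_cons_length x hxR rs hrs
      have := hR ts hts
      omega) n (QuotSMulTop x X) (pd_quotSMulTop x hxR n X hxX h)
    exact pd_of_quotSMulTop x hxm hxR (t + 1) X hxX hq

theorem exists_contr {R : Type u} [CommRing R] [IsLocalRing R] [IsNoetherianRing R] {X : Type u}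
    [AddCommGroup X] [Module R X] [Module.Finite R X] {s : ℕ} (F : FRes R X s) (m : ℕ)
    (h : PD R X (m + 1)) :
    ∃ u : Matrix F.ν.ι F.ν.ι R, (∀ x y, u x y ≠ 0 → F.ν.g x = F.ν.g y + 1) ∧
      ∀ x y, (m + 1 : ℕ) ≤ F.ν.g y →
        (Matrix.of F.ν.m * u + u * Matrix.of F.ν.m) x y = (1 : Matrix F.ν.ι F.ν.ι R) x y := by
  obtain ⟨G0, -⟩ := exists_minRes m X h
  -- comparison needs the same bound, so work with the matrices directly
  obtain ⟨a, ha1, ha2, ha3⟩ := exists_lift F G0.ν G0.ε (fun x hx => by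
    by_contra h0
    exact hx (G0.ε0 x h0)) (fun x => by
    have h1 := G0.qi.Em x 1
    simp only [LinearMap.toSpanSingleton_apply, one_smul] at h1
    exact h1)
  obtain ⟨b, hb1, hb2, hb3⟩ := exists_lift G0 F.ν F.ε (fun x hx => by
    by_contra h0
    exact hx (F.ε0 x h0)) (fun x => by
    have h1 := F.qi.Em x 1
    simp only [LinearMap.toSpanSingleton_apply, one_smul] at h1
    exact h1)
  obtain ⟨A, hA⟩ : ∃ A : Matrix F.ν.ι G0.ν.ι R, A = a := ⟨a, rfl⟩
  obtain ⟨B, hB⟩ : ∃ B : Matrix G0.ν.ι F.ν.ι R, B = b := ⟨b, rfl⟩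
  have cA : Matrix.of F.ν.m * A = A * Matrix.of G0.ν.m := by
    ext x y
    rw [Matrix.mul_apply, Matrix.mul_apply, hA]
    exact ha2 x y
  have cB : Matrix.of G0.ν.m * B = B * Matrix.of F.ν.m := by
    ext x y
    rw [Matrix.mul_apply, Matrix.mul_apply, hB]
    exact hb2 x y
  have hAB : ∀ x y, (A * B) x y ≠ 0 → F.ν.g x = F.ν.g y ∧ F.ν.g y ≤ m := by
    intro x y hxy
    rw [Matrix.mul_apply] at hxy
    obtain ⟨z, _, hz⟩ := exists_ne_zero_of_sum_ne_zero hxy
    rw [hA, hB] at hz
    have h1 := ha1 x z (left_ne_zero_of_mul hz)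
    have h2 := hb1 z y (right_ne_zero_of_mul hz)
    have h3 := G0.gs z
    omega
  obtain ⟨u, hu1, hu2⟩ := htpy_zero F F.ν F.g0 (1 - A * B) (fun x y hxy => by
      by_contra hne
      apply hxy
      rw [Matrix.sub_apply, Matrix.one_apply_ne (fun h => hne (by rw [h]))]
      have h1 : (A * B) x y = 0 := by
        by_contra h1
        exact hne (hAB x y h1).1
      rw [h1, sub_zero]) (by
      rw [Matrix.mul_sub, Matrix.sub_mul, Matrix.mul_one, Matrix.one_mul, ← Matrix.mul_assoc, cA,
        Matrix.mul_assoc, cB, Matrix.mul_assoc]) (fun y => by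
      simp only [Matrix.sub_apply, sub_smul, sum_sub_distrib]
      have h1 : ∑ x, (1 : Matrix F.ν.ι F.ν.ι R) x y • F.ε x = F.ε y := by
        rw [sum_eq_single y (fun b _ hb => by rw [Matrix.one_apply_ne hb, zero_smul])
          (fun h => absurd (mem_univ _) h), Matrix.one_apply_eq, one_smul]
      have h2 : ∑ x, (A * B) x y • F.ε x = F.ε y := by
        rw [← hb3 y]
        simp only [Matrix.mul_apply, sum_smul]
        rw [sum_comm]
        refine sum_congr rfl fun z _ => ?_
        rw [← ha3 z, smul_sum]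
        refine sum_congr rfl fun x _ => ?_
        rw [smul_smul, mul_comm, hA, hB]
      rw [h1, h2, sub_self])
  refine ⟨u, hu1, fun x y hy => ?_⟩
  rw [← hu2, Matrix.sub_apply]
  have h1 : (A * B) x y = 0 := by
    by_contra h1
    have := (hAB x y h1).2
    push_cast at hy
    omega
  rw [h1, sub_zero]

end VG
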