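import Pool.Agent.VG3.PA

/-!
# Project VG3, parameters, part B

Localization of resolutions, the ideals `CBI F m` of the scalars `y` such that `y` times the
identity is null homotopic on `F` in degrees `≥ m`, and the primes containing them.
-/

universe u

namespace VG

open Finset IsLocalRing Pool.Agent.CN Pool.Agent.Helper19 Matrix

section Loc

variable {R R' : Type u} [CommRing R] [CommRing R'] [Algebra R R'] (M : Submonoid R)
  [IsLocalization M R']

include M in
private theorem clear {ι : Type} [Fintype ι] (z : ι → R') :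
    ∃ (b : M) (z' : ι → R), (∀ i, algebraMap R R' (z' i) = algebraMap R R' b * z i) ∧
      ∀ i, z i = 0 → z' i = 0 := by
  classical
  obtain ⟨b, hb⟩ := IsLocalization.exist_integer_multiples_of_finite M z
  choose t ht using hb
  refine ⟨b, fun i => if z i = 0 then 0 else t i, fun i => ?_, fun i hi => if_pos hi⟩
  beta_reduce
  by_cases h : z i = 0
  · rw [if_pos h, h, mul_zero, map_zero]
  · rw [if_neg h, ht i, Algebra.smul_def]

private theorem kill {ι : Type} [Fintype ι] (z : ι → R) (h : ∀ i, algebraMap R R' (z i) = 0) :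
    ∃ t : M, ∀ i, (t : R) * z i = 0 := by
  classical
  have h1 : ∀ i, ∃ t : M, (t : R) * z i = 0 := fun i =>
    (IsLocalization.map_eq_zero_iff M R' (z i)).1 (h i)
  choose t ht using h1
  refine ⟨∏ i, t i, fun i => ?_⟩
  rw [← Finset.mul_prod_erase univ t (mem_univ i), mul_comm (t i), Submonoid.coe_mul, mul_assoc,
    ht i, mul_zero]

variable {X X' : Type u} [AddCommGroup X] [Module R X] [AddCommGroup X'] [Module R X']
  [Module R' X'] [IsScalarTower R R' X'] (f : X →ₗ[R] X') [IsLocalizedModule M f] {s : ℕ}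

/-- the localized complex -/
def locBC (R' : Type u) [CommRing R'] [Algebra R R'] (π : BC R) : BC R' where
  ι := π.ι
  fin := π.fin
  dec := π.dec
  g := π.g
  σ := π.σ
  m a b := algebraMap R R' (π.m a b)
  pm := π.pm
  deg a b h := π.deg a b fun h0 => h (by rw [h0, map_zero])
  sgn a b h := π.sgn a b fun h0 => h (by rw [h0, map_zero])
  sq a c := by
    rw [← map_zero (algebraMap R R'), ← π.sq a c, map_sum]
    exact sum_congr rfl fun b _ => (map_mul _ _ _).symm

include M in
private theorem loc_qi (F : FRes R X s) : QIData (locBC R' F.ν) R' X'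
    (fun a : F.ν.ι => LinearMap.toSpanSingleton R' X' (f (F.ε a))) where
  E0 a ha := by
    rw [F.ε0 a ha, map_zero]
    exact LinearMap.toSpanSingleton_zero _ _
  surj y := by
    obtain ⟨⟨x, u⟩, hx⟩ := IsLocalizedModule.surj M f y
    obtain ⟨z, hz1, hz2⟩ := F.qi.surj x
    refine ⟨fun a : F.ν.ι => IsLocalization.mk' R' (z a) u, fun a ha => ?_, ?_⟩
    · show IsLocalization.mk' R' (z a) u = 0
      rw [hz1 a ha, IsLocalization.mk'_zero]
    · have hx' : (u : R) • y = f x := hx
      have hu : IsUnit (algebraMap R R' u) := IsLocalization.map_units R' u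
      have h1 : algebraMap R R' u • (∑ a : F.ν.ι, IsLocalization.mk' R' (z a) u • f (F.ε a)) =
          algebraMap R R' u • y := by
        rw [algebraMap_smul, algebraMap_smul, hx', ← hz2, map_sum, smul_sum]
        refine sum_congr rfl fun a _ => ?_
        rw [← algebraMap_smul R' (u : R), smul_smul, mul_comm, IsLocalization.mk'_spec,
          algebraMap_smul, LinearMap.toSpanSingleton_apply, map_smul]
      exact hu.smul_left_cancel.1 h1
  Em b v := by
    have h1 := congrArg f (F.qi.Em b 1)
    rw [map_sum, map_zero] at h1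
    have h2 : ∑ a : F.ν.ι, algebraMap R R' (F.ν.m a b) • (v • f (F.ε a)) =
        v • ∑ a : F.ν.ι, f (F.ν.m a b • (LinearMap.toSpanSingleton R X (F.ε a)) 1) := by
      rw [smul_sum]
      refine sum_congr rfl fun a _ => ?_
      rw [LinearMap.toSpanSingleton_apply, one_smul, map_smul, smul_comm, algebraMap_smul]
    exact h2.trans (by rw [h1, smul_zero])
  ex0 z hz hs := by
    obtain ⟨b, z', hz1, hz2⟩ := clear M (fun a : F.ν.ι => z a)
    have h1 : f (∑ a, z' a • F.ε a) = 0 := by
      have h2 : f (∑ a, z' a • F.ε a) = algebraMap R R' b • ∑ a : F.ν.ι, z a • f (F.ε a) := by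
        rw [map_sum, smul_sum]
        refine sum_congr rfl fun a _ => ?_
        rw [map_smul, smul_smul, ← hz1 a, algebraMap_smul]
      have h3 : ∑ a : F.ν.ι, z a • f (F.ε a) = 0 := hs
      rw [h2, h3, smul_zero]
    obtain ⟨t, ht⟩ := (IsLocalizedModule.eq_zero_iff M f).1 h1
    have ht' : (t : R) • ∑ a, z' a • F.ε a = 0 := ht
    obtain ⟨w, hw1, hw2⟩ := F.qi.ex0 (fun a => (t : R) * z' a) (fun a ha => by
        rw [hz2 a (hz a ha), mul_zero]) (by
        rw [← ht', smul_sum]
        refine sum_congr rfl fun a _ => ?_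
        rw [LinearMap.toSpanSingleton_apply, smul_smul])
    refine ⟨fun a : F.ν.ι => IsLocalization.mk' R' (w a) (t * b), fun a ha => ?_, ?_⟩
    · show IsLocalization.mk' R' (w a) (t * b) = 0
      rw [hw1 a ha, IsLocalization.mk'_zero]
    · funext a
      have hu : IsUnit (algebraMap R R' (t * b : M)) := IsLocalization.map_units R' (t * b)
      refine hu.mul_left_cancel ?_
      have h2 := congrArg (algebraMap R R') (congrFun hw2 a)
      have h3 : algebraMap R R' ((t * b : M) : R) * ∑ c : F.ν.ι, algebraMap R R' (F.ν.m a c) *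
          IsLocalization.mk' R' (w c) (t * b) = algebraMap R R' (∑ c, F.ν.m a c • w c) := by
        rw [mul_sum, map_sum]
        refine sum_congr rfl fun c _ => ?_
        rw [smul_eq_mul, map_mul, ← IsLocalization.mk'_spec R' (w c) (t * b)]
        ring
      have h4 : algebraMap R R' ((t : R) * z' a) = algebraMap R R' ((t * b : M) : R) * z a := by
        rw [map_mul, hz1 a, Submonoid.coe_mul, map_mul, mul_assoc]
      exact h3.trans (h2.trans h4)
  ex i hi z hz hm := by
    obtain ⟨b, z', hz1, hz2⟩ := clear M (fun a : F.ν.ι => z a)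
    obtain ⟨t, ht⟩ := kill (R' := R') M (fun a : F.ν.ι => ∑ c, F.ν.m a c * z' c) (fun a => by
      have h2 : ∑ c : F.ν.ι, algebraMap R R' (F.ν.m a c) * z c = 0 := congrFun hm a
      have h3 : algebraMap R R' (∑ c, F.ν.m a c * z' c) =
          algebraMap R R' b * ∑ c : F.ν.ι, algebraMap R R' (F.ν.m a c) * z c := by
        rw [mul_sum, map_sum]
        refine sum_congr rfl fun c _ => ?_
        rw [map_mul, hz1 c]
        ring
      rw [h3, h2, mul_zero])
    obtain ⟨w, hw1, hw2⟩ := F.qi.ex i hi (fun a => (t : R) * z' a) (fun a ha => by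
        rw [hz2 a (hz a ha), mul_zero]) (by
        funext a
        have h2 := ht a
        rw [mul_sum] at h2
        rw [Pi.zero_apply, ← h2]
        refine sum_congr rfl fun c _ => ?_
        rw [smul_eq_mul]
        ring)
    refine ⟨fun a : F.ν.ι => IsLocalization.mk' R' (w a) (t * b), fun a ha => ?_, ?_⟩
    · show IsLocalization.mk' R' (w a) (t * b) = 0
      rw [hw1 a ha, IsLocalization.mk'_zero]
    · funext a
      have hu : IsUnit (algebraMap R R' (t * b : M)) := IsLocalization.map_units R' (t * b)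
      refine hu.mul_left_cancel ?_
      have h2 := congrArg (algebraMap R R') (congrFun hw2 a)
      have h3 : algebraMap R R' ((t * b : M) : R) * ∑ c : F.ν.ι, algebraMap R R' (F.ν.m a c) *
          IsLocalization.mk' R' (w c) (t * b) = algebraMap R R' (∑ c, F.ν.m a c • w c) := by
        rw [mul_sum, map_sum]
        refine sum_congr rfl fun c _ => ?_
        rw [smul_eq_mul, map_mul, ← IsLocalization.mk'_spec R' (w c) (t * b)]
        ring
      have h4 : algebraMap R R' ((t : R) * z' a) = algebraMap R R' ((t * b : M) : R) * z a := by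
        rw [map_mul, hz1 a, Submonoid.coe_mul, map_mul, mul_assoc]
      exact h3.trans (h2.trans h4)

/-- the localized resolution -/
def locRes (F : FRes R X s) : FRes R' X' s where
  ν := locBC R' F.ν
  ε := fun a : F.ν.ι => f (F.ε a)
  g0 := F.g0
  gs := F.gs
  σ0 := F.σ0
  σs := F.σs
  qi := loc_qi M f F

end Loc

section CBI

variable {R : Type u} [CommRing R] {X : Type u} [AddCommGroup X] [Module R X] {s : ℕ}

/-- the ideal of all `y` such that `y` times the identity is null homotopic in degrees `≥ m` -/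
def CBI (F : FRes R X s) (m : ℕ) : Ideal R where
  carrier := {y | ∃ u : Matrix F.ν.ι F.ν.ι R, (∀ x x', u x x' ≠ 0 → F.ν.g x = F.ν.g x' + 1) ∧
    ∀ x x', (m : ℤ) ≤ F.ν.g x' → (Matrix.of F.ν.m * u + u * Matrix.of F.ν.m) x x' =
      (y • (1 : Matrix F.ν.ι F.ν.ι R)) x x'}
  add_mem' := by
    rintro y y' ⟨u, h1, h2⟩ ⟨u', h1', h2'⟩
    refine ⟨u + u', fun x x' h => ?_, fun x x' h => ?_⟩
    · by_cases h3 : u x x' = 0
      · by_cases h4 : u' x x' = 0
        · rw [Matrix.add_apply, h3, h4, add_zero] at h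
          exact absurd rfl h
        · exact h1' x x' h4
      · exact h1 x x' h3
    · rw [add_smul, Matrix.add_apply (y • 1), ← h2 x x' h, ← h2' x x' h, Matrix.mul_add,
        Matrix.add_mul, ← Matrix.add_apply, add_add_add_comm]
  zero_mem' := ⟨0, fun x x' h => absurd rfl h, fun x x' h => by
    rw [Matrix.mul_zero, Matrix.zero_mul, add_zero, zero_smul]⟩
  smul_mem' := by
    rintro c y ⟨u, h1, h2⟩
    refine ⟨c • u, fun x x' h => h1 x x' ?_, fun x x' h => ?_⟩
    · rw [Matrix.smul_apply] at h
      exact right_ne_zero_of_smul h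
    · rw [Matrix.mul_smul, Matrix.smul_mul, ← smul_add, Matrix.smul_apply, h2 x x' h,
        Matrix.smul_apply, Matrix.smul_apply, smul_eq_mul, smul_eq_mul, smul_eq_mul, smul_eq_mul,
        mul_assoc]

theorem mem_CBI {F : FRes R X s} {m : ℕ} {y : R} : y ∈ CBI F m ↔
    ∃ u : Matrix F.ν.ι F.ν.ι R, (∀ x x', u x x' ≠ 0 → F.ν.g x = F.ν.g x' + 1) ∧
    ∀ x x', (m : ℤ) ≤ F.ν.g x' → (Matrix.of F.ν.m * u + u * Matrix.of F.ν.m) x x' =
      (y • (1 : Matrix F.ν.ι F.ν.ι R)) x x' := Iff.rfl

theorem CBI_mono (F : FRes R X s) {m m' : ℕ} (h : m ≤ m') : CBI F m ≤ CBI F m' := by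
  rintro y ⟨u, h1, h2⟩
  exact ⟨u, h1, fun x x' h3 => h2 x x' (le_trans (by exact_mod_cast h) h3)⟩

theorem CBI_top [IsLocalRing R] [IsNoetherianRing R] [Module.Finite R X] (F : FRes R X s) (m : ℕ)
    (h : PD R X (m + 1)) : (1 : R) ∈ CBI F (m + 1) := by
  obtain ⟨u, h1, h2⟩ := exists_contr F m h
  exact ⟨u, h1, fun x x' h3 => by rw [h2 x x' h3, one_smul]⟩

/-- the primes containing `CBI F (m + 1)` -/
theorem cbi_prime [IsNoetherianRing R] [Module.Finite R X] (F : FRes R X s) (m : ℕ) (Q : Ideal R)
    [Q.IsPrime]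
    (h : PD (Localization.AtPrime Q) (LocalizedModule Q.primeCompl X) (m + 1)) :
    ¬ CBI F (m + 1) ≤ Q := by
  classical
  intro hle
  have hfin : Module.Finite (Localization.AtPrime Q) (LocalizedModule Q.primeCompl X) :=
    Module.Finite.of_isLocalizedModule Q.primeCompl (LocalizedModule.mkLinearMap Q.primeCompl X)
  obtain ⟨u, hu1, hu2⟩ : ∃ u : Matrix F.ν.ι F.ν.ι (Localization.AtPrime Q),
      (∀ x y, u x y ≠ 0 → F.ν.g x = F.ν.g y + 1) ∧
      ∀ x y, ((m + 1 : ℕ) : ℤ) ≤ F.ν.g y →
        ∑ z, algebraMap R (Localization.AtPrime Q) (F.ν.m x z) * u z y +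
          ∑ z, u x z * algebraMap R (Localization.AtPrime Q) (F.ν.m z y) =
          (1 : Matrix F.ν.ι F.ν.ι (Localization.AtPrime Q)) x y := by
    obtain ⟨u, h1, h2⟩ := exists_contr (locRes Q.primeCompl
      (LocalizedModule.mkLinearMap Q.primeCompl X) F) m h
    exact ⟨u, h1, h2⟩
  obtain ⟨b, u0, hu3, hu4⟩ := clear Q.primeCompl (fun xy : F.ν.ι × F.ν.ι => u xy.1 xy.2)
  obtain ⟨t, ht⟩ := kill (R' := Localization.AtPrime Q) Q.primeCompl
    (fun xy : F.ν.ι × F.ν.ι => if ((m + 1 : ℕ) : ℤ) ≤ F.ν.g xy.2 then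
      (∑ z, F.ν.m xy.1 z * u0 (z, xy.2) + ∑ z, u0 (xy.1, z) * F.ν.m z xy.2) -
        (b : R) * (1 : Matrix F.ν.ι F.ν.ι R) xy.1 xy.2 else 0) (by
      rintro ⟨x, y⟩
      by_cases hy : ((m + 1 : ℕ) : ℤ) ≤ F.ν.g y
      · simp only [if_pos hy]
        have h1 := hu2 x y hy
        have h2 : algebraMap R (Localization.AtPrime Q)
            (∑ z, F.ν.m x z * u0 (z, y) + ∑ z, u0 (x, z) * F.ν.m z y) =
            algebraMap R (Localization.AtPrime Q) b *
            (∑ z, algebraMap R (Localization.AtPrime Q) (F.ν.m x z) * u z y +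
          ∑ z, u x z * algebraMap R (Localization.AtPrime Q) (F.ν.m z y)) := by
          rw [map_add, map_sum, map_sum, mul_add, mul_sum, mul_sum]
          congr 1
          · refine sum_congr rfl fun z _ => ?_
            rw [map_mul, hu3 (z, y)]
            ring
          · refine sum_congr rfl fun z _ => ?_
            rw [map_mul, hu3 (x, z)]
            ring
        have h3 : algebraMap R (Localization.AtPrime Q) ((1 : Matrix F.ν.ι F.ν.ι R) x y) =
            (1 : Matrix F.ν.ι F.ν.ι (Localization.AtPrime Q)) x y := by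
          rw [Matrix.one_apply, Matrix.one_apply]
          split_ifs
          · exact map_one _
          · exact map_zero _
        rw [map_sub, h2, h1, map_mul, h3, sub_self]
      · simp only [if_neg hy]
        exact map_zero _)
  have h5 : (t : R) * b ∈ CBI F (m + 1) := by
    refine ⟨fun x y => (t : R) * u0 (x, y), fun x y hxy => ?_, fun x y hy => ?_⟩
    · by_contra hne
      refine right_ne_zero_of_mul hxy (hu4 (x, y) ?_)
      by_contra h6
      exact hne (hu1 x y h6)
    · have h6 := ht (x, y)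
      simp only [if_pos hy] at h6
      rw [mul_sub, sub_eq_zero] at h6
      rw [Matrix.add_apply, Matrix.mul_apply, Matrix.mul_apply, Matrix.smul_apply, smul_eq_mul,
        mul_assoc, ← h6, mul_add, mul_sum, mul_sum]
      congr 1
      · refine sum_congr rfl fun z _ => ?_
        show F.ν.m x z * ((t : R) * u0 (z, y)) = (t : R) * (F.ν.m x z * u0 (z, y))
        ring
      · refine sum_congr rfl fun z _ => ?_
        show (t : R) * u0 (x, z) * F.ν.m z y = (t : R) * (u0 (x, z) * F.ν.m z y)
        ring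
  exact (t * b : Q.primeCompl).2 (hle h5)

end CBI

end VG
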