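import Pool.Agent.VG3.PB
import Pool.Agent.VG.FTp

/-!
# Project VG3, parameters, part C

Primes containing `nnI I N` and `CBI F m`.
-/

universe u

namespace VG

open Finset IsLocalRing Pool.Agent.CN Pool.Agent.Helper19 Matrix RingTheory.Sequence CategoryTheory

section Gen

variable {R : Type u} [CommRing R] [IsNoetherianRing R] {X : Type u} [AddCommGroup X] [Module R X]

theorem len_le_dim {B : Type u} [CommRing B] [IsLocalRing B] [IsNoetherianRing B] {d : ℕ}
    (hdim : ringKrullDim B ≤ d) (rs : List B) (hrs : IsRegular B rs) : rs.length ≤ d := by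
  have h1 := ringKrullDim_add_length_eq_ringKrullDim_of_isRegular rs hrs
  have h2 : Nontrivial (B ⧸ Ideal.ofList rs) := by
    refine Ideal.Quotient.nontrivial_iff.2 fun h3 => hrs.2 ?_
    rw [h3]
    simp
  have h3 : (0 : WithBot ℕ∞) ≤ ringKrullDim (B ⧸ Ideal.ofList rs) := ringKrullDim_nonneg_of_nontrivial
  have h4 : (rs.length : WithBot ℕ∞) ≤ d := by
    calc (rs.length : WithBot ℕ∞) = 0 + rs.length := (zero_add _).symm
      _ ≤ ringKrullDim (B ⧸ Ideal.ofList rs) + rs.length := by gcongr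
      _ = ringKrullDim B := h1
      _ ≤ d := hdim
  exact_mod_cast h4

/-- the maximal ideal is associated if and only if there is a nonzero element killed by it -/
theorem max_ass_iff [IsLocalRing R] : maximalIdeal R ∈ associatedPrimes R X ↔
    ∃ v : X, v ≠ 0 ∧ ∀ a ∈ maximalIdeal R, a • v = 0 := by
  rw [AssociatedPrimes.mem_iff, isAssociatedPrime_iff]
  constructor
  · rintro ⟨-, x, hx⟩
    refine ⟨x, fun h0 => ?_, fun a ha => ?_⟩
    · have h1 : (1 : R) ∈ maximalIdeal R := by
        rw [hx, Submodule.mem_colon_singleton, h0, smul_zero]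
        exact zero_mem _
      exact (Ideal.ne_top_iff_one _).1 (maximalIdeal.isMaximal R).ne_top h1
    · rw [hx, Submodule.mem_colon_singleton] at ha
      exact ha
  · rintro ⟨v, hv, hm⟩
    refine ⟨(maximalIdeal.isMaximal R).isPrime, v, le_antisymm (fun a ha => ?_) ?_⟩
    · rw [Submodule.mem_colon_singleton, hm a ha]
      exact zero_mem _
    · refine IsLocalRing.le_maximalIdeal fun h1 => hv ?_
      have h2 : (1 : R) ∈ Submodule.colon (⊥ : Submodule R X) {v} := by
        rw [h1]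
        trivial
      rw [Submodule.mem_colon_singleton, one_smul] at h2
      exact h2

omit [IsNoetherianRing R] in
theorem dim_loc (Q : Ideal R) [Q.IsPrime] (m : ℕ) (hQ : Q.height ≤ m) :
    ringKrullDim (Localization.AtPrime Q) ≤ (m : ℕ) := by
  rw [IsLocalization.AtPrime.ringKrullDim_eq_height Q]
  exact WithBot.coe_le_coe.mpr hQ

theorem pd_loc_one [IsLocalRing R] [Module.Finite R X] (k : ℕ) (hX : PD R X k) (Q : Ideal R)
    [Q.IsPrime] (m : ℕ) (hQ : Q.height ≤ m) :
    PD (Localization.AtPrime Q) (LocalizedModule Q.primeCompl X) (m + 1) := by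
  have hfin : Module.Finite (Localization.AtPrime Q) (LocalizedModule Q.primeCompl X) :=
    Module.Finite.of_isLocalizedModule Q.primeCompl (LocalizedModule.mkLinearMap Q.primeCompl X)
  exact pd_of_depth_le m (Localization.AtPrime Q) (fun rs hrs => len_le_dim (dim_loc Q m hQ) rs hrs) k
    (LocalizedModule Q.primeCompl X) (pd_localized Q.primeCompl k X hX)

theorem pd_loc_two [IsLocalRing R] [Module.Finite R X] (k : ℕ) (hX : PD R X k) (Q : Ideal R)
    [Q.IsPrime] (m : ℕ) (hQ : Q.height ≤ (m + 1 : ℕ)) (hA : Q ∉ associatedPrimes R X) :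
    PD (Localization.AtPrime Q) (LocalizedModule Q.primeCompl X) (m + 1) := by
  have hfin : Module.Finite (Localization.AtPrime Q) (LocalizedModule Q.primeCompl X) :=
    Module.Finite.of_isLocalizedModule Q.primeCompl (LocalizedModule.mkLinearMap Q.primeCompl X)
  refine pd_of_depth_pos m (Localization.AtPrime Q)
    (fun rs hrs => len_le_dim (dim_loc Q (m + 1) hQ) rs hrs) k
    (LocalizedModule Q.primeCompl X) (fun h => hA ?_) (pd_localized Q.primeCompl k X hX)
  rw [← max_ass_iff] at h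
  have h1 := Module.associatedPrimes.comap_mem_associatedPrimes_of_mem_associatedPrimes_of_isLocalizedModule_of_fg
    Q.primeCompl (LocalizedModule.mkLinearMap Q.primeCompl X) _ h
    ((isNoetherianRing_iff_ideal_fg R).mp inferInstance _)
  have h2 : Ideal.comap (algebraMap R (Localization.AtPrime Q))
      (maximalIdeal (Localization.AtPrime Q)) = Q := Localization.AtPrime.under_maximalIdeal
  rw [h2] at h1
  exact h1

end Gen

variable {S : Type u} [CommRing S] {I : Ideal S}
  {N : Type u} [AddCommGroup N] [Module S N] [Module (S ⧸ I) N] [IsScalarTower S (S ⧸ I) N]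

/-- associated primes of `Hom(I, N)` are associated to `N` -/
theorem ass_hom [IsNoetherianRing S] (Q : Ideal (S ⧸ I))
    (hQ : Q ∈ associatedPrimes (S ⧸ I) (I →ₗ[S] N)) : Q ∈ associatedPrimes (S ⧸ I) N := by
  rw [AssociatedPrimes.mem_iff, isAssociatedPrime_iff] at hQ ⊢
  obtain ⟨hQp, φ, hφ⟩ := hQ
  refine ⟨hQp, ?_⟩
  obtain ⟨t, x, hx⟩ := Module.Finite.exists_fin (R := S) (M := I)
  have h1 : Finset.univ.inf (fun j : Fin t => Submodule.colon (⊥ : Submodule (S ⧸ I) N) {φ (x j)}) ≤
      Q := by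
    intro a ha
    rw [hφ, Submodule.mem_colon_singleton, Submodule.mem_bot]
    have h2 : ∀ j, a • φ (x j) = 0 := by
      intro j
      have h3 := (Finset.inf_le (mem_univ j) :
        Finset.univ.inf (fun j : Fin t => Submodule.colon (⊥ : Submodule (S ⧸ I) N) {φ (x j)}) ≤ _)
        ha
      rw [Submodule.mem_colon_singleton, Submodule.mem_bot] at h3
      exact h3
    obtain ⟨a, rfl⟩ := Ideal.Quotient.mk_surjective a
    have h3 : ∀ z ∈ Submodule.span S (Set.range x), Ideal.Quotient.mk I a • φ z = 0 := by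
      intro z hz
      induction hz using Submodule.span_induction with
      | mem z hz =>
        obtain ⟨j, rfl⟩ := hz
        exact h2 j
      | zero => rw [map_zero, smul_zero]
      | add a b _ _ ha hb => rw [map_add, smul_add, ha, hb, add_zero]
      | smul r z _ hz => rw [map_smul, smul_comm, hz, smul_zero]
    ext z
    exact h3 z (by rw [hx]; trivial)
  obtain ⟨j, -, hj⟩ := hQp.inf_le'.1 h1
  refine ⟨φ (x j), le_antisymm (fun a ha => ?_) hj⟩
  rw [hφ, Submodule.mem_colon_singleton, Submodule.mem_bot] at ha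
  rw [Submodule.mem_colon_singleton, Submodule.mem_bot]
  exact LinearMap.congr_fun ha (x j)

theorem ft_nnI {y : S} (h : FT I y) : Ideal.Quotient.mk I y ∈ nnI I N := by
  obtain ⟨m, φ, ρ, h⟩ := h
  refine ⟨m, ρ, fun l =>
    { toFun := fun ν =>
        { toFun := fun x => φ l x • ν
          map_add' := fun x x' => by rw [map_add, add_smul]
          map_smul' := fun c x => by
            rw [map_smul, RingHom.id_apply, smul_assoc] }
      map_add' := fun ν μ => by
        ext x
        exact smul_add _ _ _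
      map_smul' := fun c ν => by
        ext x
        exact smul_comm _ _ _ }, fun ψ => ?_⟩
  ext x
  choose c hc using fun j => Ideal.Quotient.mk_surjective (φ j x)
  have h1 := h x c hc
  obtain ⟨z, hz⟩ : ∃ z : I, z = y • x - ∑ j, c j • ρ j := ⟨_, rfl⟩
  have hz1 : (z : S) ∈ I ^ 2 := by
    rw [hz, Submodule.coe_sub, Submodule.coe_smul, Submodule.coe_sum]
    exact h1
  have hz2 : ψ z = 0 := by
    have h2 : ψ z = (cotHomEquiv I N).symm ψ (I.toCotangent z) := rfl
    rw [h2, (Ideal.toCotangent_eq_zero I z).2 hz1, map_zero]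
  rw [hz, map_sub, map_smul, map_sum, sub_eq_zero] at hz2
  have h3 : (Ideal.Quotient.mk I y • ψ) x = y • ψ x := algebraMap_smul (S ⧸ I) y (ψ x)
  rw [h3, hz2, LinearMap.sum_apply]
  refine sum_congr rfl fun j _ => ?_
  show ψ (c j • ρ j) = φ j x • ψ (ρ j)
  rw [map_smul, ← hc j]
  exact (algebraMap_smul (S ⧸ I) (c j) (ψ (ρ j))).symm

theorem nnI_ass [IsLocalRing S] [IsNoetherianRing S] (hI : I ≠ ⊤)
    (hpd : projectiveDimension (ModuleCat.of S (S ⧸ I)) < ⊤) [Module.Finite (S ⧸ I) N] (k l : ℕ)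
    (hN : PD (S ⧸ I) N (k + 1)) (hP : PD (S ⧸ I) (I →ₗ[S] N) (l + 1)) (Q : Ideal (S ⧸ I))
    (hQ : Q ∈ associatedPrimes (S ⧸ I) N) : ¬ nnI I N ≤ Q := by
  intro hle
  have hQp : Q.IsPrime := hQ.1
  obtain ⟨rs, hrs, hrI⟩ := local_theorem S I hI hpd N
    (lt_top_iff_ne_top.mpr ((projectiveDimension_ne_top_iff _).mpr ⟨k, hN⟩))
    (lt_top_iff_ne_top.mpr ((projectiveDimension_ne_top_iff _).mpr
      ⟨l, PD.congr (cotHomEquiv I N).symm hP⟩)) ⟨Q, hQp⟩ (Or.inl hQ)
  obtain ⟨y, hy, hFT⟩ := ft_of_regular (Q.comap (Ideal.Quotient.mk I)) I rs hrs.toIsWeaklyRegular hrI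
  exact hy (hle (ft_nnI hFT))

theorem nnI_min [IsLocalRing S] [IsNoetherianRing S] (hI : I ≠ ⊤)
    (hpd : projectiveDimension (ModuleCat.of S (S ⧸ I)) < ⊤) [Module.Finite (S ⧸ I) N] (k l : ℕ)
    (hN : PD (S ⧸ I) N (k + 1)) (hP : PD (S ⧸ I) (I →ₗ[S] N) (l + 1)) (Q : Ideal (S ⧸ I))
    (hQ : Q ∈ minimalPrimes (S ⧸ I)) : ¬ nnI I N ≤ Q := by
  by_cases hann : Module.annihilator (S ⧸ I) N ≤ Q
  · refine nnI_ass hI hpd k l hN hP Q
      (Module.associatedPrimes.minimalPrimes_annihilator_subset_associatedPrimes _ _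
        ⟨⟨hQ.1.1, hann⟩, fun Q' hQ' hle => hQ.2 ⟨hQ'.1, bot_le⟩ hle⟩)
  · intro hle
    obtain ⟨v, hv, hvQ⟩ := SetLike.not_le_iff_exists.1 hann
    refine hvQ (hle ⟨0, Fin.elim0, Fin.elim0, fun φ => ?_⟩)
    rw [Finset.univ_eq_empty, Finset.sum_empty]
    ext x
    exact Module.mem_annihilator.1 hv (φ x)

end VG
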