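import Pool.Agent.VG3.Params
import Pool.Agent.VG3.Fdef

/-!
# Project VG3: the parameters in the form used by the assembly
-/

universe u

namespace VG

open IsLocalRing Pool.Agent.CN Pool.Agent.Helper19 CategoryTheory

theorem cbp_of_cbi {R : Type u} [CommRing R] {X : Type u} [AddCommGroup X] [Module R X] {s : ℕ}
    (F : FRes R X s) (m : ℕ) (y : R) (h : y ∈ CBI F m) :
    CBp F.ν.g (Matrix.of F.ν.m) m y := by
  obtain ⟨u, h1, h2⟩ := h
  refine ⟨u, h1, fun x x' hx => ?_⟩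
  have h3 : (Matrix.of F.ν.m * u + u * Matrix.of F.ν.m) x x' ≠ 0 → F.ν.g x = F.ν.g x' := by
    intro h4
    by_contra hne
    apply h4
    rw [Matrix.add_apply, Matrix.mul_apply, Matrix.mul_apply]
    have h5 : ∀ z, Matrix.of F.ν.m x z * u z x' = 0 := by
      intro z
      by_contra h6
      have h7 := F.ν.deg x z (left_ne_zero_of_mul h6)
      have h8 := h1 z x' (right_ne_zero_of_mul h6)
      omega
    have h9 : ∀ z, u x z * Matrix.of F.ν.m z x' = 0 := by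
      intro z
      by_contra h6
      have h7 := h1 x z (left_ne_zero_of_mul h6)
      have h8 := F.ν.deg z x' (right_ne_zero_of_mul h6)
      omega
    rw [Finset.sum_eq_zero fun z _ => h5 z, Finset.sum_eq_zero fun z _ => h9 z, add_zero]
  by_cases hxx : x = x'
  · rw [if_pos hxx, h2 x x' (by rw [← hxx]; exact hx), Matrix.smul_apply, hxx,
      Matrix.one_apply_eq, smul_eq_mul, mul_one]
  · rw [if_neg hxx]
    by_contra h4
    have h5 := h3 h4
    rw [h2 x x' (by rw [← h5]; exact hx), Matrix.smul_apply, Matrix.one_apply_ne hxx,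
      smul_zero] at h4
    exact h4 rfl

theorem exists_params_u {S : Type u} [CommRing S] {I : Ideal S} {N : Type u} [AddCommGroup N]
    [Module S N] [Module (S ⧸ I) N] [IsScalarTower S (S ⧸ I) N] [IsLocalRing S]
    [IsNoetherianRing S] [IsLocalRing (S ⧸ I)] (hI : I ≠ ⊤)
    (hpd : projectiveDimension (ModuleCat.of S (S ⧸ I)) < ⊤) [Module.Finite (S ⧸ I) N]
    [Nontrivial N] (k l : ℕ) (hN : PD (S ⧸ I) N (k + 1)) (hP : PD (S ⧸ I) (I →ₗ[S] N) (l + 1))
    (hsoc : ¬ ∃ v : N, v ≠ 0 ∧ ∀ a ∈ maximalIdeal (S ⧸ I), a • v = 0) {s : ℕ}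
    (FP : FRes (S ⧸ I) (I →ₗ[S] N) s) (d : ℕ) (hd : ringKrullDim (S ⧸ I) = d) :
    ∃ (d' : ℕ) (u : Fin (d' + 1) → S ⧸ I) (B : ℕ), d = d' + 1 ∧ u 0 ∈ nnI I N ∧
      (∀ t, t ≠ 0 → CBp FP.ν.g (Matrix.of FP.ν.m) t.val (u t)) ∧
      CBp FP.ν.g (Matrix.of FP.ν.m) (d' + 1) (1 : S ⧸ I) ∧
      (∀ t, u t ∈ maximalIdeal (S ⧸ I)) ∧
      maximalIdeal (S ⧸ I) ^ B ≤ Ideal.span (Set.range u) ∧
      ∀ t, ∀ Q ∈ minimalPrimes (S ⧸ I), u t ∉ Q := by
  obtain ⟨e, v, y, B, h1, h2, h3, h4, h5, h6, h7⟩ :=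
    exists_params hI hpd k l hN hP hsoc FP d hd
  refine ⟨e, Fin.cons v y, B, h1, h3, fun t => ?_, cbp_of_cbi FP _ _ h6, fun t => ?_, ?_,
    fun t => ?_⟩
  · refine Fin.cases (fun h => absurd rfl h) (fun a _ => ?_) t
    rw [Fin.cons_succ, Fin.val_succ]
    exact cbp_of_cbi FP _ _ (h5 a).2.1
  · refine Fin.cases ?_ (fun a => ?_) t
    · rw [Fin.cons_zero]
      exact h2
    · rw [Fin.cons_succ]
      exact (h5 a).1
  · rw [Fin.range_cons]
    exact h7
  · refine Fin.cases ?_ (fun a => ?_) t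
    · rw [Fin.cons_zero]
      exact h4
    · rw [Fin.cons_succ]
      exact (h5 a).2.2

end VG
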