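import Pool.Agent.VG3.PC

/-!
# Project VG3, parameters

`exists_params`: a system of parameters `v, y 0, .., y (d - 2)` of `S ⧸ I` with `v` in `nnI I N`
and `y a` in `CBI FP (a + 1)`.
-/

universe u

namespace VG

open Finset IsLocalRing Pool.Agent.CN Pool.Agent.Helper19 Matrix RingTheory.Sequence CategoryTheory

section Gen

variable {R : Type u} [CommRing R]

private theorem avoid (K : Ideal R) (T : Set (Ideal R)) (hT : T.Finite)
    (hp : ∀ Q ∈ T, Q.IsPrime) (h : ∀ Q ∈ T, ¬ K ≤ Q) : ∃ z ∈ K, ∀ Q ∈ T, z ∉ Q := by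
  by_contra hne
  push Not at hne
  have h1 := (K.subset_union_prime_finite hT (f := id) ⊥ ⊥ (fun Q hQ _ _ => hp Q hQ)).1 (by
    intro z hz
    obtain ⟨Q, hQ, hzQ⟩ := hne z hz
    rw [Set.mem_iUnion₂]
    exact ⟨Q, hQ, hzQ⟩)
  obtain ⟨Q, hQ, hle⟩ := h1
  exact h Q hQ hle

variable [IsLocalRing R] [IsNoetherianRing R]

private theorem steps (d : ℕ) (hd : ringKrullDim R = d) (c : ℕ → Ideal R) (v : R)
    (hv : ∀ Q ∈ minimalPrimes R, v ∉ Q) (hmin : maximalIdeal R ∉ minimalPrimes R)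
    (h1 : ∀ (m : ℕ), ∀ Q ∈ minimalPrimes R, ¬ c m ≤ Q)
    (h2 : ∀ (m : ℕ) (Q : Ideal R), Q.IsPrime → v ∈ Q → Q.height ≤ (m + 1 : ℕ) →
      Q ≠ maximalIdeal R → ¬ c m ≤ Q) (i : ℕ) :
    ∃ y : Fin i → R, (∀ a, y a ∈ maximalIdeal R ∧ y a ∈ c a.val ∧ ∀ Q ∈ minimalPrimes R, y a ∉ Q) ∧
      ∀ Q : PrimeSpectrum R, v ∈ Q.asIdeal → (∀ a, y a ∈ Q.asIdeal) →
        Q.asIdeal = maximalIdeal R ∨ Order.coheight Q + (i + 1 : ℕ) ≤ (d : ℕ∞) := by
  induction i with
  | zero =>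
    refine ⟨Fin.elim0, fun a => a.elim0, fun Q hQ _ => Or.inr ?_⟩
    obtain ⟨Q0, hQ0, hle⟩ := Ideal.exists_minimalPrimes_le (bot_le : (⊥ : Ideal R) ≤ Q.asIdeal)
    have hQ0p : Q0.IsPrime := hQ0.1.1
    have hlt : (⟨Q0, hQ0p⟩ : PrimeSpectrum R) < Q := by
      refine lt_of_le_of_ne hle fun heq => hv Q0 hQ0 ?_
      rw [← heq] at hQ
      exact hQ
    have h3 := Order.coheight_add_one_le hlt
    have h4 : (Order.coheight (⟨Q0, hQ0p⟩ : PrimeSpectrum R) : WithBot ℕ∞) ≤ ringKrullDim R :=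
      Order.coheight_le_krullDim _
    rw [hd] at h4
    have h5 : Order.coheight (⟨Q0, hQ0p⟩ : PrimeSpectrum R) ≤ (d : ℕ∞) :=
      WithBot.coe_le_coe.1 h4
    exact h3.trans h5
  | succ i ih =>
    obtain ⟨y, hy1, hy2⟩ := ih
    obtain ⟨J, hJ⟩ : ∃ J, J = Ideal.span (insert v (Set.range y)) := ⟨_, rfl⟩
    have hfin1 := Ideal.finite_minimalPrimes_of_isNoetherianRing R J
    have hfin2 := minimalPrimes.finite_of_isNoetherianRing R
    obtain ⟨z, hzK, hz⟩ := avoid (c i ⊓ maximalIdeal R)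
      ({Q ∈ J.minimalPrimes | Q ≠ maximalIdeal R} ∪ minimalPrimes R)
      ((hfin1.subset (Set.sep_subset _ _)).union hfin2) (by
        rintro Q (hQ | hQ)
        · exact hQ.1.1.1
        · exact hQ.1.1) (by
        rintro Q (⟨hQ, hne⟩ | hQ)
        · have hQp : Q.IsPrime := hQ.1.1
          intro hle
          rcases (Ideal.IsPrime.inf_le hQp).1 hle with h3 | h3
          · refine h2 i Q hQp (hQ.1.2 ?_) ?_ hne h3
            · rw [hJ]
              exact Ideal.subset_span (Set.mem_insert _ _)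
            · rw [hJ] at hQ
              refine (Ideal.height_le_card_of_mem_minimalPrimes_span
                ((Set.finite_range y).insert v) hQ).trans ?_
              have h4 : (insert v (Set.range y)).ncard ≤ i + 1 := by
                refine (Set.ncard_insert_le _ _).trans (Nat.add_le_add_right ?_ 1)
                rw [← Set.image_univ]
                refine (Set.ncard_image_le Set.finite_univ).trans ?_
                rw [Set.ncard_univ, Nat.card_eq_fintype_card, Fintype.card_fin]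
              exact_mod_cast h4
          · exact hne ((maximalIdeal.isMaximal R).eq_of_le hQp.ne_top h3).symm
        · have hQp : Q.IsPrime := hQ.1.1
          intro hle
          rcases (Ideal.IsPrime.inf_le hQp).1 hle with h3 | h3
          · exact h1 i Q hQ h3
          · refine hmin ?_
            rw [(maximalIdeal.isMaximal R).eq_of_le hQp.ne_top h3]
            exact hQ)
    refine ⟨Fin.snoc (α := fun _ => R) y z, fun a => ?_, fun Q hQv hQy => ?_⟩
    · refine Fin.lastCases ?_ (fun a => ?_) a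
      · rw [Fin.snoc_last, Fin.val_last]
        exact ⟨hzK.2, hzK.1, fun Q hQ => hz Q (Or.inr hQ)⟩
      · rw [Fin.snoc_castSucc, Fin.val_castSucc]
        exact hy1 a
    · have hQJ : J ≤ Q.asIdeal := by
        rw [hJ, Ideal.span_le]
        rintro w (rfl | ⟨a, rfl⟩)
        · exact hQv
        · have h3 := hQy a.castSucc
          rw [Fin.snoc_castSucc] at h3
          exact h3
      have hzQ : z ∈ Q.asIdeal := by
        have h3 := hQy (Fin.last i)
        rw [Fin.snoc_last] at h3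
        exact h3
      obtain ⟨Q', hQ', hle⟩ := Ideal.exists_minimalPrimes_le hQJ
      have hQ'p : Q'.IsPrime := hQ'.1.1
      by_cases hne : Q' = maximalIdeal R
      · left
        rw [hne] at hle
        exact ((maximalIdeal.isMaximal R).eq_of_le Q.isPrime.ne_top hle).symm
      · right
        have hlt : (⟨Q', hQ'p⟩ : PrimeSpectrum R) < Q := by
          refine lt_of_le_of_ne hle fun heq => hz Q' (Or.inl ⟨hQ', hne⟩) ?_
          rw [← heq] at hzQ
          exact hzQ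
        have h3 := Order.coheight_add_one_le hlt
        have h4 := hy2 ⟨Q', hQ'p⟩ (hQ'.1.2 (by
          rw [hJ]
          exact Ideal.subset_span (Set.mem_insert _ _))) (fun a => hQ'.1.2 (by
          rw [hJ]
          exact Ideal.subset_span (Set.mem_insert_of_mem _ ⟨a, rfl⟩)))
        rcases h4 with h4 | h4
        · exact absurd h4 hne
        · refine le_trans ?_ h4
          have h5 : ((i + 1 + 1 : ℕ) : ℕ∞) = 1 + ((i + 1 : ℕ) : ℕ∞) := by
            push_cast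
            ring
          rw [h5, ← add_assoc]
          exact add_le_add_left h3 _

private theorem sop_end (d : ℕ) (v : R) (y : Fin d → R) (hmin : maximalIdeal R ∉ minimalPrimes R)
    (h : ∀ Q : PrimeSpectrum R, v ∈ Q.asIdeal → (∀ a, y a ∈ Q.asIdeal) →
        Q.asIdeal = maximalIdeal R ∨ Order.coheight Q + (d + 1 : ℕ) ≤ ((d + 1 : ℕ) : ℕ∞)) :
    ∃ B : ℕ, maximalIdeal R ^ B ≤ Ideal.span (insert v (Set.range y)) := by
  refine Ideal.exists_pow_le_of_le_radical_of_fg ?_ (IsNoetherian.noetherian _)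
  rw [Ideal.radical_eq_sInf]
  refine le_sInf fun Q hQ => ?_
  obtain ⟨hQ1, hQ2⟩ := hQ
  rcases h ⟨Q, hQ2⟩ (hQ1 (Ideal.subset_span (Set.mem_insert _ _)))
    (fun a => hQ1 (Ideal.subset_span (Set.mem_insert_of_mem _ ⟨a, rfl⟩))) with h3 | h3
  · exact h3.symm.le
  · by_contra hne
    have hlt : (⟨Q, hQ2⟩ : PrimeSpectrum R) <
        ⟨maximalIdeal R, (maximalIdeal.isMaximal R).isPrime⟩ := by
      refine lt_of_le_of_ne (IsLocalRing.le_maximalIdeal hQ2.ne_top) fun heq => hne ?_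
      have h4 : Q = maximalIdeal R := congrArg PrimeSpectrum.asIdeal heq
      exact h4.symm.le
    have h4 := Order.coheight_add_one_le hlt
    have h5 : (1 : ℕ∞) ≤ Order.coheight (⟨Q, hQ2⟩ : PrimeSpectrum R) := le_trans le_add_self h4
    have h6 : (1 : ℕ∞) + (d + 1 : ℕ) ≤ ((d + 1 : ℕ) : ℕ∞) :=
      le_trans (add_le_add_left h5 _) h3
    have h7 : 1 + (d + 1) ≤ d + 1 := by exact_mod_cast h6
    omega

end Gen

variable {S : Type u} [CommRing S] {I : Ideal S}
  {N : Type u} [AddCommGroup N] [Module S N] [Module (S ⧸ I) N] [IsScalarTower S (S ⧸ I) N]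

theorem exists_params [IsLocalRing S] [IsNoetherianRing S] [IsLocalRing (S ⧸ I)] (hI : I ≠ ⊤)
    (hpd : projectiveDimension (ModuleCat.of S (S ⧸ I)) < ⊤) [Module.Finite (S ⧸ I) N]
    [Nontrivial N] (k l : ℕ) (hN : PD (S ⧸ I) N (k + 1)) (hP : PD (S ⧸ I) (I →ₗ[S] N) (l + 1))
    (hsoc : ¬ ∃ v : N, v ≠ 0 ∧ ∀ a ∈ maximalIdeal (S ⧸ I), a • v = 0) {s : ℕ}
    (FP : FRes (S ⧸ I) (I →ₗ[S] N) s) (d : ℕ) (hd : ringKrullDim (S ⧸ I) = d) :
    ∃ (e : ℕ) (v : S ⧸ I) (y : Fin e → S ⧸ I) (B : ℕ), d = e + 1 ∧ v ∈ maximalIdeal (S ⧸ I) ∧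
      v ∈ nnI I N ∧ (∀ Q ∈ minimalPrimes (S ⧸ I), v ∉ Q) ∧
      (∀ a, y a ∈ maximalIdeal (S ⧸ I) ∧ y a ∈ CBI FP (a.val + 1) ∧
        ∀ Q ∈ minimalPrimes (S ⧸ I), y a ∉ Q) ∧
      (1 : S ⧸ I) ∈ CBI FP (e + 1) ∧
      maximalIdeal (S ⧸ I) ^ B ≤ Ideal.span (insert v (Set.range y)) := by
  have hfinP : Module.Finite (S ⧸ I) (I →ₗ[S] N) := finite_hom
  have hAss : maximalIdeal (S ⧸ I) ∉ associatedPrimes (S ⧸ I) N := fun h =>
    hsoc (max_ass_iff.1 h)
  have hmin : maximalIdeal (S ⧸ I) ∉ minimalPrimes (S ⧸ I) := by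
    intro h
    obtain ⟨Q, hQ⟩ := associatedPrimes.nonempty (S ⧸ I) N
    have h1 : Q ≤ maximalIdeal (S ⧸ I) := IsLocalRing.le_maximalIdeal hQ.1.ne_top
    have h2 := h.2 ⟨hQ.1, bot_le⟩ h1
    have h3 : Q = maximalIdeal (S ⧸ I) := le_antisymm h1 h2
    rw [h3] at hQ
    exact hAss hQ
  -- the element `v`
  obtain ⟨v, hvK, hv⟩ := avoid (nnI I N ⊓ maximalIdeal (S ⧸ I))
    (associatedPrimes (S ⧸ I) N ∪ minimalPrimes (S ⧸ I))
    ((associatedPrimes.finite (S ⧸ I) N).union (minimalPrimes.finite_of_isNoetherianRing (S ⧸ I)))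
    (by
      rintro Q (hQ | hQ)
      · exact hQ.1
      · exact hQ.1.1) (by
      rintro Q (hQ | hQ)
      · intro hle
        have hQp : Q.IsPrime := hQ.1
        rcases (Ideal.IsPrime.inf_le hQp).1 hle with h3 | h3
        · exact nnI_ass hI hpd k l hN hP Q hQ h3
        · refine hAss ?_
          rw [(maximalIdeal.isMaximal _).eq_of_le hQp.ne_top h3]
          exact hQ
      · intro hle
        have hQp : Q.IsPrime := hQ.1.1
        rcases (Ideal.IsPrime.inf_le hQp).1 hle with h3 | h3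
        · exact nnI_min hI hpd k l hN hP Q hQ h3
        · refine hmin ?_
          rw [(maximalIdeal.isMaximal _).eq_of_le hQp.ne_top h3]
          exact hQ)
  have h0 := steps d hd (fun m => CBI FP (m + 1)) v (fun Q hQ => hv Q (Or.inr hQ)) hmin
    (fun m Q hQ => by
      have hQp : Q.IsPrime := hQ.1.1
      refine cbi_prime FP m Q (pd_loc_one (l + 1) hP Q m ?_)
      rw [Ideal.height_eq_zero_iff.2 hQ]
      exact zero_le)
    (fun m Q hQp hvQ hht _ => by
      refine cbi_prime FP m Q (pd_loc_two (l + 1) hP Q m hht fun hA => ?_)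
      exact hv Q (Or.inl (ass_hom Q hA)) hvQ)
  -- `d` is positive
  obtain ⟨e, rfl⟩ : ∃ e, d = e + 1 := by
    obtain ⟨y, -, hy⟩ := h0 0
    obtain ⟨Q0, hQ0, hle⟩ := Ideal.exists_minimalPrimes_le
      (bot_le : (⊥ : Ideal (S ⧸ I)) ≤ maximalIdeal (S ⧸ I))
    have hQ0p : Q0.IsPrime := hQ0.1.1
    have hlt : (⟨Q0, hQ0p⟩ : PrimeSpectrum (S ⧸ I)) <
        ⟨maximalIdeal (S ⧸ I), (maximalIdeal.isMaximal _).isPrime⟩ := by
      refine lt_of_le_of_ne hle fun heq => hmin ?_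
      have h4 : Q0 = maximalIdeal (S ⧸ I) := congrArg PrimeSpectrum.asIdeal heq
      rw [← h4]
      exact hQ0
    have h3 := Order.coheight_add_one_le hlt
    have h4 : (Order.coheight (⟨Q0, hQ0p⟩ : PrimeSpectrum (S ⧸ I)) : WithBot ℕ∞) ≤
        ringKrullDim (S ⧸ I) := Order.coheight_le_krullDim _
    rw [hd] at h4
    have h5 : Order.coheight (⟨Q0, hQ0p⟩ : PrimeSpectrum (S ⧸ I)) ≤ (d : ℕ∞) :=
      WithBot.coe_le_coe.1 h4
    have h6 : (1 : ℕ∞) ≤ (d : ℕ∞) := le_trans le_add_self (h3.trans h5)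
    have h7 : 1 ≤ d := by exact_mod_cast h6
    exact ⟨d - 1, by omega⟩
  obtain ⟨y, hy1, hy2⟩ := h0 e
  obtain ⟨B, hB⟩ := sop_end e v y hmin hy2
  refine ⟨e, v, y, B, rfl, hvK.2, hvK.1, fun Q hQ => hv Q (Or.inr hQ), hy1, ?_, hB⟩
  refine CBI_top FP e (pd_of_depth_pos e (S ⧸ I) (fun rs hrs => ?_) (l + 1) _ (fun h => ?_) hP)
  · exact len_le_dim hd.le rs hrs
  · exact hAss (ass_hom _ (max_ass_iff.2 h))

end VG
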