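import Pool.Agent.VG3.Fdef

/-!
Project VG3, module Tclr: clearing the denominators of a regular form.
-/

namespace VG

universe u w

theorem clear_den {R K V : Type u} [CommRing R] [Field K] [AddCommGroup V] [Module K V]
    {ι : Type w} [DecidableEq ι] (φ : R →+* K) (D : R →+ V) (y : ι → R)
    (hy : ∀ t, φ (y t) ≠ 0) (T : Finset ι) {z : ExteriorAlgebra K V}
    (hz : z ∈ OmT φ D y (T : Set ι)) :
    ∃ B0 : ℕ, ∀ B, B0 ≤ B → (∏ t ∈ T, φ (y t)) ^ B • z ∈ Om0 φ D := by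
  have hP : ∀ B : ℕ, (∏ t ∈ T, φ (y t)) ^ B = φ ((∏ t ∈ T, y t) ^ B) := by
    intro B
    rw [map_pow, map_prod]
  have hsm : ∀ (B : ℕ) {x : ExteriorAlgebra K V}, x ∈ Om0 φ D →
      (∏ t ∈ T, φ (y t)) ^ B • x ∈ Om0 φ D := by
    intro B x hx
    rw [hP]
    exact om_phi_smul φ D _ _ _ hx
  unfold OmT at hz
  induction hz using Subring.closure_induction with
  | mem x hx =>
    rcases hx with ((⟨q, rfl⟩ | ⟨t, ht, rfl⟩) | ⟨q, rfl⟩)
    · exact ⟨0, fun B _ => hsm B (om_phi φ D _ _ q)⟩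
    · refine ⟨1, fun B hB => ?_⟩
      obtain ⟨C, rfl⟩ : ∃ C, B = C + 1 := ⟨B - 1, by omega⟩
      have h1 : (∏ t ∈ T, φ (y t)) ^ (C + 1) * (φ (y t))⁻¹ =
          φ ((∏ t ∈ T, y t) ^ C * ∏ s ∈ T.erase t, y s) := by
        rw [pow_succ, map_mul, ← hP, map_prod, ← Finset.mul_prod_erase T (fun s => φ (y s)) ht]
        field_simp [hy t]
      rw [Algebra.smul_def, ← map_mul, h1]
      exact om_phi φ D _ _ _
    · exact ⟨0, fun B _ => hsm B (om_D φ D _ _ q)⟩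
  | zero => exact ⟨0, fun B _ => by rw [smul_zero]; exact Subring.zero_mem _⟩
  | one => exact ⟨0, fun B _ => hsm B (Subring.one_mem _)⟩
  | add a b _ _ ha hb =>
    obtain ⟨B1, h1⟩ := ha
    obtain ⟨B2, h2⟩ := hb
    refine ⟨max B1 B2, fun B hB => ?_⟩
    rw [smul_add]
    exact Subring.add_mem _ (h1 B (le_of_max_le_left hB)) (h2 B (le_of_max_le_right hB))
  | neg a _ ha =>
    obtain ⟨B1, h1⟩ := ha
    refine ⟨B1, fun B hB => ?_⟩
    rw [smul_neg]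
    exact Subring.neg_mem _ (h1 B hB)
  | mul a b _ _ ha hb =>
    obtain ⟨B1, h1⟩ := ha
    obtain ⟨B2, h2⟩ := hb
    refine ⟨B1 + B2, fun B hB => ?_⟩
    obtain ⟨C, rfl⟩ : ∃ C, B = B1 + C := ⟨B - B1, by omega⟩
    rw [pow_add, ← smul_mul_smul_comm]
    exact Subring.mul_mem _ (h1 B1 le_rfl) (h2 C (by omega))

end VG
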