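import Pool.Agent.VG3.Fdef
import Pool.Agent.VG.ContA

/-!
Project VG3, module Tdet: the product of `d` linear combinations of `d` one-forms.

The map `C ↦ ιMulti (C *ᵥ lam)` is alternating in the rows of `C`, hence equal to `det • ιMulti lam` (both sides agree on the
standard basis).
-/

open Matrix

namespace VG

universe u

private theorem tdt_alt {K V W : Type u} [Field K] [AddCommGroup V] [Module K V] [AddCommGroup W]
    [Module K W] {d : ℕ} (f : V [⋀^Fin d]→ₗ[K] W) (lam : Fin d → V)
    (C : Matrix (Fin d) (Fin d) K) :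
    f (fun a => ∑ b, C a b • lam b) = C.det • f lam := by
  obtain ⟨l, hl⟩ : ∃ l : (Fin d → K) →ₗ[K] V, ∀ c, l c = ∑ b, c b • lam b :=
    ⟨Fintype.linearCombination K lam, fun c => Fintype.linearCombination_apply K lam c⟩
  have hle : ∀ a, l (Pi.basisFun K (Fin d) a) = lam a := by
    intro a
    rw [hl, Pi.basisFun_apply]
    simp [Pi.single_apply]
  have key : f.compLinearMap l =
      (LinearMap.toSpanSingleton K W (f lam)).compAlternatingMap
        (Matrix.detRowAlternating : (Fin d → K) [⋀^Fin d]→ₗ[K] K) := by
    refine Module.Basis.ext_alternating (Pi.basisFun K (Fin d)) fun v hv => ?_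
    obtain ⟨σ, hσ⟩ : ∃ σ : Equiv.Perm (Fin d), ∀ i, σ i = v i :=
      ⟨Equiv.ofBijective v (Finite.injective_iff_bijective.1 hv), fun _ => rfl⟩
    have h1 : (fun i => Pi.basisFun K (Fin d) (v i)) = (Pi.basisFun K (Fin d)) ∘ σ := by
      funext i
      rw [Function.comp_apply, hσ]
    rw [h1, AlternatingMap.map_perm, AlternatingMap.map_perm]
    congr 1
    have h2 : (Matrix.detRowAlternating : (Fin d → K) [⋀^Fin d]→ₗ[K] K) (Pi.basisFun K (Fin d)) = 1 := by
      have h3 : ∀ M : Matrix (Fin d) (Fin d) K, (∀ i j, M i j = (Pi.basisFun K (Fin d) i) j) →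
          M.det = 1 := by
        intro M hM
        have h5 : M = 1 := by
          ext i j
          rw [hM, Pi.basisFun_apply, Matrix.one_apply, Pi.single_apply]
          simp only [eq_comm]
        rw [h5, Matrix.det_one]
      exact h3 _ fun _ _ => rfl
    rw [LinearMap.compAlternatingMap_apply, h2, LinearMap.toSpanSingleton_apply, one_smul,
      AlternatingMap.compLinearMap_apply]
    congr 1
    funext i
    exact hle i
  have h4 : (fun a => ∑ b, C a b • lam b) = fun i => l (C i) := by
    funext i
    rw [hl]
  rw [h4]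
  exact DFunLike.congr_fun key C

private theorem tdt_mu_fin {K V : Type u} [Field K] [AddCommGroup V] [Module K V] {d : ℕ}
    (lam : Fin d → V) : (mu lam (List.finRange d) : ExteriorAlgebra K V) =
      ExteriorAlgebra.ιMulti K d lam := by
  have h : ∀ L : List (Fin d), (mu lam L : ExteriorAlgebra K V) =
      (L.map fun t => (ExteriorAlgebra.ι K (lam t))).prod := by
    intro L
    induction L with
    | nil => rfl
    | cons a L ih =>
      rw [mu, ih, List.map_cons, List.prod_cons]
      rfl
  rw [h, ExteriorAlgebra.ιMulti_apply, List.ofFn_eq_map]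

theorem mu_comb {K V : Type u} [Field K] [AddCommGroup V] [Module K V] {d : ℕ}
    (lam : Fin d → V) (C : Matrix (Fin d) (Fin d) K) :
    mu (fun a => ∑ b, C a b • lam b) (List.finRange d) =
      C.det • (mu lam (List.finRange d) : ExteriorAlgebra K V) := by
  rw [tdt_mu_fin, tdt_mu_fin]
  exact tdt_alt (ExteriorAlgebra.ιMulti K d) lam C

end VG
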