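import Pool.Agent.VG3.Fdef
import Pool.Agent.VG.Cmp

/-!
Project VG3, module Texc: two systems of logarithmic one-forms with the same denominators define the
same class modulo `Bsub`.

Comparison of the cochains (`cmp`); the comparison form on the full list vanishes by degree.
-/

namespace VG

universe u w

theorem mu_mem_om {R K V : Type u} [CommRing R] [Field K] [AddCommGroup V] [Module K V]
    {ι : Type w} (φ : R →+* K) (D : R →+ V) (y : ι → R) (lam : ι → V)
    (hreg : ∀ t, (io (lam t) : ExteriorAlgebra K V) ∈ OmT φ D y {t}) (L : List ι) :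
    mu lam L ∈ OmT φ D y {t | t ∈ L} := by
  induction L with
  | nil => exact Subring.one_mem _
  | cons a L ih =>
    refine Subring.mul_mem _ (omT_mono φ D y ?_ (hreg a)) (omT_mono φ D y ?_ ih)
    · intro t ht
      rw [Set.mem_singleton_iff] at ht
      rw [ht]
      exact List.mem_cons_self
    · intro t ht
      exact List.mem_cons_of_mem _ ht

section

variable {R K V : Type u} [CommRing R] [Field K] [AddCommGroup V] [Module K V] {ι : Type w}

private noncomputable def vv (lam' : ι → V) (L : List ι) : ExteriorAlgebra K V :=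
  -((-1 : ℤ) ^ L.length • mu lam' L)

private theorem vv_cob (ε : V →ₗ[K] K) (lam' : ι → V) (hlam' : ∀ t, ε (lam' t) = 1)
    (L : List ι) : cob (vv (K := K) lam') L = -iE ε (vv lam' L) := by
  have h1 : cob (vv (K := K) lam') L = cob (fun L' => (-1 : ℤ) ^ L.length • mu lam' L') L := by
    refine cob_congr _ _ L fun L' _ hL' => ?_
    show -((-1 : ℤ) ^ L'.length • mu lam' L') = (-1 : ℤ) ^ L.length • mu lam' L'
    rw [← hL', pow_succ, mul_neg, mul_one, neg_smul]
  have h2 : cob (fun L' => (-1 : ℤ) ^ L.length • mu lam' L') L =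
      (-1 : ℤ) ^ L.length • cob (mu (K := K) lam') L :=
    cob_map (DistribSMul.toAddMonoidHom (ExteriorAlgebra K V) ((-1 : ℤ) ^ L.length)) (mu lam') L
  rw [h1, h2, ← iE_mu ε lam' hlam']
  unfold vv
  rw [map_neg, neg_neg, map_zsmul]

private theorem vv_dgf (lam' : ι → V) (L : List ι) : vv (K := K) lam' L ∈ Dgf K V L.length :=
  Submodule.neg_mem _ (AddSubgroup.zsmul_mem (Dgf K V L.length).toAddSubgroup (dgf_mu lam' L) _)

private theorem gg_dgf (lam lam' : ι → V) (L : List ι) :
    gg lam (vv (K := K) lam') L ∈ Dgf K V (L.length + 1) := by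
  induction L with
  | nil => exact zero_mem _
  | cons a L ih =>
    have h1 := dgf_mul (dgf_io (K := K) (lam a)) (Submodule.add_mem _ (vv_dgf lam' (a :: L)) ih)
    rw [add_comm] at h1
    exact h1

private theorem vv_om (φ : R →+* K) (D : R →+ V) (y : ι → R) (lam' : ι → V)
    (hreg : ∀ t, (io (lam' t) : ExteriorAlgebra K V) ∈ OmT φ D y {t}) (L : List ι) :
    vv (K := K) lam' L ∈ OmT φ D y {t | t ∈ L} :=
  Subring.neg_mem _ (AddSubgroup.zsmul_mem (OmT φ D y {t | t ∈ L}).toAddSubgroup
    (mu_mem_om φ D y lam' hreg L) _)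

private theorem gg_om (φ : R →+* K) (D : R →+ V) (y : ι → R) (lam lam' : ι → V)
    (hreg : ∀ t, (io (lam t) : ExteriorAlgebra K V) ∈ OmT φ D y {t})
    (hreg' : ∀ t, (io (lam' t) : ExteriorAlgebra K V) ∈ OmT φ D y {t}) (L : List ι) :
    gg lam (vv (K := K) lam') L ∈ OmT φ D y {t | t ∈ L} := by
  induction L with
  | nil => exact zero_mem _
  | cons a L ih =>
    refine Subring.mul_mem _ (omT_mono φ D y ?_ (hreg a))
      (Subring.add_mem _ (vv_om φ D y lam' hreg' (a :: L)) (omT_mono φ D y ?_ ih))
    · intro t ht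
      rw [Set.mem_singleton_iff] at ht
      rw [ht]
      exact List.mem_cons_self
    · intro t ht
      exact List.mem_cons_of_mem _ ht

end

theorem exch {R K : Type u} [CommRing R] [Field K] {d : ℕ} (φ : R →+* K) (D : R →+ (Fin d → K))
    (ε : (Fin d → K) →ₗ[K] K) (y : Fin d → R) (lam lam' : Fin d → (Fin d → K))
    (hlam : ∀ t, ε (lam t) = 1) (hlam' : ∀ t, ε (lam' t) = 1)
    (hreg : ∀ t, (io (lam t) : ExteriorAlgebra K (Fin d → K)) ∈ OmT φ D y {t})
    (hreg' : ∀ t, (io (lam' t) : ExteriorAlgebra K (Fin d → K)) ∈ OmT φ D y {t}) :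
    mu lam (List.finRange d) - mu lam' (List.finRange d) ∈ Bsub φ D y := by
  have h1 := cmp ε lam hlam (vv lam') (by
    show -((-1 : ℤ) ^ 0 • (1 : ExteriorAlgebra K (Fin d → K))) = -1
    rw [pow_zero, one_smul]) (vv_cob ε lam' hlam') (List.finRange d)
  have hlen : (List.finRange d).length = d := List.length_finRange
  have h2 : gg lam (vv (K := K) lam') (List.finRange d) = 0 := by
    have h3 := gg_dgf (K := K) lam lam' (List.finRange d)
    rw [hlen] at h3
    exact dgf_top (Nat.lt_succ_self d) h3
  rw [h2, map_zero, zero_sub, hlen] at h1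
  have h3 : cob (gg lam (vv (K := K) lam')) (List.finRange d) ∈ Bsub φ D y := by
    refine cob_mem (Bsub φ D y) _ _ fun L' hL' hl => ?_
    rw [hlen] at hl
    obtain ⟨a, ha⟩ := miss L' (hL'.nodup (List.nodup_finRange d)) hl
    exact le_bsub φ D y a (omT_mono φ D y ha (gg_om φ D y lam lam' hreg hreg' L'))
  have h4 : (-1 : ℤ) ^ d • (mu lam (List.finRange d) - mu lam' (List.finRange d)) ∈
      Bsub φ D y := by
    have h5 : (-1 : ℤ) ^ d • (mu lam (List.finRange d) - mu lam' (List.finRange d)) =
        -cob (gg lam (vv (K := K) lam')) (List.finRange d) := by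
      rw [← h1]
      show _ = -((-1 : ℤ) ^ (List.finRange d).length • mu lam' (List.finRange d)) +
        (-1) ^ d * mu lam (List.finRange d)
      rw [hlen]
      rcases Nat.even_or_odd d with h | h
      · rw [h.neg_one_pow, h.neg_one_pow, one_smul, one_smul, one_mul]
        abel
      · rw [h.neg_one_pow, h.neg_one_pow, neg_smul, neg_smul, one_smul, one_smul, neg_mul, one_mul]
        abel
    rw [h5]
    exact AddSubgroup.neg_mem _ h3
  rcases Nat.even_or_odd d with h | h
  · rw [h.neg_one_pow, one_smul] at h4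
    exact h4
  · rw [h.neg_one_pow, neg_smul, one_smul] at h4
    exact (AddSubgroup.neg_mem_iff _).1 h4

end VG
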