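import Pool.Agent.VG3.Tclr
import Pool.Agent.VG3.Texc
import Pool.Agent.VG3.Tdet

/-!
Project VG3, module Tsop: change of the system of parameters.
-/

open Matrix

namespace VG

universe u

theorem bsub_sum {R K V : Type u} [CommRing R] [Field K] [AddCommGroup V] [Module K V]
    {d : ℕ} (φ : R →+* K) (D : R →+ V) (y : Fin d → R) {z : ExteriorAlgebra K V}
    (hz : z ∈ Bsub φ D y) :
    ∃ ω : Fin d → ExteriorAlgebra K V, (∀ b, ω b ∈ OmT φ D y {t | t ≠ b}) ∧ z = ∑ b, ω b := by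
  classical
  let S : AddSubgroup (ExteriorAlgebra K V) :=
    { carrier := {z | ∃ ω : Fin d → ExteriorAlgebra K V,
        (∀ b, ω b ∈ OmT φ D y {t | t ≠ b}) ∧ z = ∑ b, ω b}
      zero_mem' := ⟨fun _ => 0, fun b => Subring.zero_mem _, by simp⟩
      add_mem' := by
        rintro x x' ⟨ω, h1, h2⟩ ⟨ω', h1', h2'⟩
        exact ⟨fun b => ω b + ω' b, fun b => Subring.add_mem _ (h1 b) (h1' b), by
          rw [h2, h2', Finset.sum_add_distrib]⟩
      neg_mem' := by
        rintro x ⟨ω, h1, h2⟩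
        exact ⟨fun b => - ω b, fun b => Subring.neg_mem _ (h1 b), by
          rw [h2, Finset.sum_neg_distrib]⟩ }
  have hle : Bsub φ D y ≤ S := by
    refine iSup_le fun a => ?_
    intro x hx
    refine ⟨Pi.single a x, fun b => ?_, ?_⟩
    · by_cases hb : b = a
      · subst hb
        rw [Pi.single_eq_same]
        exact hx
      · rw [Pi.single_eq_of_ne hb]
        exact Subring.zero_mem _
    · rw [Finset.sum_eq_single a]
      · rw [Pi.single_eq_same]
      · intro b _ hb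
        rw [Pi.single_eq_of_ne hb]
      · intro ha
        exact absurd (Finset.mem_univ a) ha
  exact hle hz

theorem sop_change {R K : Type u} [CommRing R] [Field K] {d : ℕ} (φ : R →+* K)
    (D : R →+ (Fin d → K)) (ε : (Fin d → K) →ₗ[K] K) (u U : Fin d → R)
    (hU : ∀ t, ε (D (U t)) = φ (u t)) (hu : ∀ t, φ (u t) ≠ 0) (T : Fin d → R)
    (hT : ∀ t, φ (T t) ≠ 0)
    (hpow : ∀ B : ℕ, ∃ M : ℕ, ∀ a, T a ^ M ∈ Ideal.span (Set.range fun b => u b ^ B))
    (h : mu (fun t => (φ (u t))⁻¹ • D (U t)) (List.finRange d) ∈ Bsub φ D u)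
    (lamT : Fin d → (Fin d → K)) (hlamT : ∀ t, ε (lamT t) = 1)
    (hregT : ∀ t, (io (lamT t) : ExteriorAlgebra K (Fin d → K)) ∈ OmT φ D T {t}) :
    mu lamT (List.finRange d) ∈ Bsub φ D T := by
  classical
  obtain ⟨ω, hω, hsum⟩ := bsub_sum φ D u h
  obtain ⟨lam, hlam⟩ : ∃ lam : Fin d → (Fin d → K), lam = fun t => (φ (u t))⁻¹ • D (U t) :=
    ⟨_, rfl⟩
  rw [← hlam] at hsum
  have hcl : ∀ b : Fin d, ∃ B0 : ℕ, ∀ B, B0 ≤ B →
      (∏ t ∈ Finset.univ.erase b, φ (u t)) ^ B • ω b ∈ Om0 φ D := by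
    intro b
    refine clear_den φ D u hu (Finset.univ.erase b) ?_
    have hset : ((Finset.univ.erase b : Finset (Fin d)) : Set (Fin d)) = {t | t ≠ b} := by
      ext t
      simp
    rw [hset]
    exact hω b
  choose B0 hB0 using hcl
  obtain ⟨B, hB⟩ : ∃ B, B = (∑ b, B0 b) + 1 := ⟨_, rfl⟩
  have hB1 : ∀ b, B0 b ≤ B := by
    intro b
    have h1 : B0 b ≤ ∑ b, B0 b := Finset.single_le_sum (fun _ _ => Nat.zero_le _) (Finset.mem_univ b)
    omega
  have hBpos : B = (B - 1) + 1 := by omega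
  obtain ⟨M, hM⟩ := hpow B
  have hM2 : ∀ a, ∃ c : Fin d → R, ∑ b, c b * u b ^ B = T a ^ M := by
    intro a
    exact (Ideal.mem_span_range_iff_exists_fun).1 (hM a)
  choose r hr using hM2
  obtain ⟨v, hv⟩ : ∃ v : Fin d → K, v = fun a => ((φ (T a))⁻¹) ^ M := ⟨_, rfl⟩
  obtain ⟨w, hw⟩ : ∃ w : Fin d → K, w = fun b => (φ (u b)) ^ B := ⟨_, rfl⟩
  obtain ⟨rm, hrm⟩ : ∃ rm : Matrix (Fin d) (Fin d) R, rm = Matrix.of r := ⟨_, rfl⟩
  obtain ⟨C, hC⟩ : ∃ C : Matrix (Fin d) (Fin d) K,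
      C = Matrix.diagonal v * φ.mapMatrix rm * Matrix.diagonal w := ⟨_, rfl⟩
  have hCab : ∀ a b, C a b = v a * φ (r a b) * w b := by
    intro a b
    rw [hC, Matrix.mul_diagonal, Matrix.diagonal_mul, hrm]
    rfl
  have hva : ∀ a, v a * φ (T a) ^ M = 1 := by
    intro a
    rw [hv]
    show ((φ (T a))⁻¹) ^ M * φ (T a) ^ M = 1
    rw [← mul_pow, inv_mul_cancel₀ (hT a), one_pow]
  have hεlam : ∀ b, ε (lam b) = 1 := by
    intro b
    rw [hlam]
    show ε ((φ (u b))⁻¹ • D (U b)) = 1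
    rw [map_smul, hU, smul_eq_mul, inv_mul_cancel₀ (hu b)]
  obtain ⟨lam', hlam'⟩ : ∃ lam' : Fin d → (Fin d → K), lam' = fun a => ∑ b, C a b • lam b :=
    ⟨_, rfl⟩
  have h1 : ∀ a, ε (lam' a) = 1 := by
    intro a
    rw [hlam']
    show ε (∑ b, C a b • lam b) = 1
    rw [map_sum]
    have h2 : ∀ b, ε (C a b • lam b) = v a * φ (r a b * u b ^ B) := by
      intro b
      rw [map_smul, hεlam, smul_eq_mul, mul_one, hCab, hw, map_mul, map_pow]
      ring
    rw [Finset.sum_congr rfl fun b _ => h2 b, ← Finset.mul_sum, ← map_sum, hr, map_pow, hva]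
  have h2 : ∀ a, (io (lam' a) : ExteriorAlgebra K (Fin d → K)) ∈ OmT φ D T {a} := by
    intro a
    rw [hlam']
    show (io (∑ b, C a b • lam b) : ExteriorAlgebra K (Fin d → K)) ∈ OmT φ D T {a}
    rw [map_sum]
    refine Subring.sum_mem _ fun b _ => ?_
    have h3 : C a b • lam b = (v a * φ (r a b * u b ^ (B - 1))) • D (U b) := by
      rw [hlam]
      show C a b • ((φ (u b))⁻¹ • D (U b)) = _
      rw [smul_smul]
      congr 1
      rw [hCab, hw]
      show v a * φ (r a b) * φ (u b) ^ B * (φ (u b))⁻¹ = _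
      have h4 : φ (u b) ^ B * (φ (u b))⁻¹ = φ (u b) ^ (B - 1) := by
        conv_lhs => rw [hBpos, pow_succ]
        rw [mul_assoc, mul_inv_cancel₀ (hu b), mul_one]
      rw [mul_assoc, h4, map_mul, map_pow]
      ring
    rw [h3, map_smul]
    refine om_smul φ D T {a} ?_ (om_D φ D T {a} (U b))
    refine Subring.mul_mem _ ?_ (Subring.subset_closure (Or.inl ⟨_, rfl⟩))
    rw [hv]
    have h8 : (φ (T a))⁻¹ ∈ BT φ T {a} := Subring.subset_closure (Or.inr ⟨a, rfl, rfl⟩)
    exact Subring.pow_mem (BT φ T {a}) h8 M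
  have h3 := exch φ D ε T lamT lam' hlamT h1 hregT h2
  have h4 : (mu lam' (List.finRange d) : ExteriorAlgebra K (Fin d → K)) ∈ Bsub φ D T := by
    rw [hlam', mu_comb, hsum, Finset.smul_sum]
    refine AddSubgroup.sum_mem _ fun b _ => ?_
    obtain ⟨η, hη⟩ : ∃ η, η = (∏ t ∈ Finset.univ.erase b, φ (u t)) ^ B • ω b := ⟨_, rfl⟩
    have hη0 : η ∈ Om0 φ D := by
      rw [hη]
      exact hB0 b B (hB1 b)
    have hdet : C.det = (∏ a, v a) * φ rm.det * ∏ c, w c := by
      rw [hC, Matrix.det_mul, Matrix.det_mul, Matrix.det_diagonal, Matrix.det_diagonal,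
        RingHom.map_det]
    have hw2 : (∏ c, w c) = φ (u b) ^ B * (∏ t ∈ Finset.univ.erase b, φ (u t)) ^ B := by
      rw [← Finset.mul_prod_erase Finset.univ w (Finset.mem_univ b), hw]
      show φ (u b) ^ B * ∏ x ∈ Finset.univ.erase b, φ (u x) ^ B = _
      rw [Finset.prod_pow]
    have hcr : rm.det * u b ^ B = ∑ a, rm.adjugate b a * T a ^ M := by
      have h5 : (rm.adjugate * rm).mulVec (fun c => u c ^ B) b = rm.det * u b ^ B := by
        rw [Matrix.adjugate_mul, Matrix.smul_mulVec, Matrix.one_mulVec]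
        rfl
      rw [← h5, ← Matrix.mulVec_mulVec]
      show ∑ a, rm.adjugate b a * (rm.mulVec fun c => u c ^ B) a = _
      refine Finset.sum_congr rfl fun a _ => ?_
      congr 1
      rw [← hr a, hrm]
      rfl
    have hterm : C.det • ω b = ∑ a, ((∏ c ∈ Finset.univ.erase a, v c) *
        φ (rm.adjugate b a)) • η := by
      rw [← Finset.sum_smul, hη, smul_smul]
      congr 1
      rw [hdet, hw2]
      have h6 : ∀ a, (∏ c ∈ Finset.univ.erase a, v c) * φ (rm.adjugate b a) =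
          (∏ c, v c) * φ (rm.adjugate b a * T a ^ M) := by
        intro a
        rw [← Finset.mul_prod_erase Finset.univ v (Finset.mem_univ a), map_mul, map_pow]
        have h7 := hva a
        calc (∏ c ∈ Finset.univ.erase a, v c) * φ (rm.adjugate b a)
            = (v a * φ (T a) ^ M) * ((∏ c ∈ Finset.univ.erase a, v c) * φ (rm.adjugate b a)) := by
              rw [h7, one_mul]
          _ = _ := by ring
      rw [Finset.sum_congr rfl fun a _ => h6 a, ← Finset.mul_sum, ← map_sum, ← hcr, map_mul,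
        map_pow]
      ring
    rw [hterm]
    refine AddSubgroup.sum_mem _ fun a _ => ?_
    refine le_bsub φ D T a ?_
    refine om_smul φ D T _ ?_ (om0_le φ D T _ hη0)
    refine Subring.mul_mem _ (Subring.prod_mem _ fun c hc => ?_)
      (Subring.subset_closure (Or.inl ⟨_, rfl⟩))
    rw [hv]
    have h8 : (φ (T c))⁻¹ ∈ BT φ T {b | b ≠ a} :=
      Subring.subset_closure (Or.inr ⟨c, Finset.ne_of_mem_erase hc, rfl⟩)
    exact Subring.pow_mem (BT φ T {b | b ≠ a}) h8 M
  have h5 := AddSubgroup.add_mem _ h3 h4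
  rwa [sub_add_cancel] at h5

end VG
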